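import Pool.Agent.H794.EX.Spec

/-! Leaf ADJ: adjoints of the operators (Fubini). -/

set_option autoImplicit false

open scoped Manifold ContDiff Matrix ComplexOrder
open Matrix Topology MeasureTheory Set Filter

namespace Pool.Agent.H794.EX

namespace ADJL

theorem mem_DD {v : ℂ} : v ∈ DD ↔ ‖v‖ ≤ 1 := by simp [DD]

theorem DD_meas : MeasurableSet DD := Metric.isClosed_closedBall.measurableSet

/-- almost every point of the disc is not one of the 16 points -/
theorem ae_ne : ∀ᵐ s ∂(volume.restrict DD), s ^ 16 + 1 ≠ 0 := by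
  refine ae_restrict_of_ae ?_
  rw [ae_iff]
  refine Set.Finite.measure_zero ?_ _
  refine ((Polynomial.nthRoots 16 (-1 : ℂ)).toFinset.finite_toSet).subset fun s hs => ?_
  simp only [Set.mem_ofPred_eq, not_not] at hs
  simp only [Finset.mem_coe, Multiset.mem_toFinset]
  rw [Polynomial.mem_nthRoots (by norm_num)]
  exact eq_neg_of_add_eq_zero_left hs

theorem ae_ne_pt (c : ℂ) : ∀ᵐ s ∂(volume.restrict DD), s ≠ c := by
  refine ae_restrict_of_ae ?_
  rw [ae_iff]
  refine Set.Finite.measure_zero ?_ _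
  refine (Set.finite_singleton c).subset fun s hs => ?_
  simpa using hs

theorem wh_nonneg (s : ℂ) : 0 ≤ wh s := Real.rpow_nonneg (norm_nonneg _) _

theorem ww_nonneg (s : ℂ) : 0 ≤ ww s := Real.rpow_nonneg (norm_nonneg _) _

section

variable {E : Type*} [RCLike E]

/-- the product of a dominated function and of a dominated kernel -/
theorem bnd {w m : ℂ → ℝ} {g k : ℂ → E} {c A K : ℝ} (hw : ∀ s, 0 ≤ w s) (hg : Measurable g)
    (hk : Measurable k) (hA : 0 ≤ A) (hc : 0 ≤ c)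
    (hd : ∀ s ∈ DD, s ^ 16 + 1 ≠ 0 → ‖g s‖ ≤ c * w s)
    (hkm : ∀ᵐ s ∂(volume.restrict DD), s ∈ DD → ‖k s‖ ≤ A * m s)
    (hi : IntegrableOn (fun s => w s * m s) DD) (hK : ∫ s in DD, w s * m s ≤ K) :
    IntegrableOn (fun s => g s * k s) DD ∧ ∫ s in DD, ‖g s * k s‖ ≤ c * A * K := by
  have h1 : ∀ᵐ s ∂(volume.restrict DD), ‖g s * k s‖ ≤ c * A * (w s * m s) := by
    filter_upwards [hkm, ae_ne, ae_restrict_mem DD_meas] with s h2 h3 h4
    rw [norm_mul]
    calc ‖g s‖ * ‖k s‖ ≤ (c * w s) * (A * m s) :=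
          mul_le_mul (hd s h4 h3) (h2 h4) (norm_nonneg _) (mul_nonneg hc (hw s))
      _ = c * A * (w s * m s) := by ring
  have h2 : IntegrableOn (fun s => g s * k s) DD := by
    refine Integrable.mono' (hi.const_mul (c * A)) ?_ h1
    exact (hg.mul hk).aestronglyMeasurable
  refine ⟨h2, ?_⟩
  calc ∫ s in DD, ‖g s * k s‖ ≤ ∫ s in DD, c * A * (w s * m s) :=
        integral_mono_ae h2.norm (hi.const_mul (c * A)) h1
    _ = c * A * ∫ s in DD, w s * m s := integral_const_mul _ _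
    _ ≤ c * A * K := mul_le_mul_of_nonneg_left hK (mul_nonneg hc hA)

/-- integrability on the product -/
theorem fub {k : ℂ → ℂ → E} {f g : ℂ → E} {C : ℝ} (hk : Measurable (Function.uncurry k))
    (hf : Measurable f) (hg : Measurable g) (hfi : IntegrableOn f DD)
    (h : ∀ v ∈ DD, IntegrableOn (fun s => g s * k v s) DD ∧ ∫ s in DD, ‖g s * k v s‖ ≤ C) :
    Integrable (Function.uncurry fun v s => f v * (g s * k v s))
      ((volume.restrict DD).prod (volume.restrict DD)) := by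
  have hm : Measurable (Function.uncurry fun v s => f v * (g s * k v s)) :=
    (hf.comp measurable_fst).mul ((hg.comp measurable_snd).mul hk)
  rw [integrable_prod_iff hm.aestronglyMeasurable]
  constructor
  · filter_upwards [ae_restrict_mem DD_meas] with v hv
    exact (h v hv).1.const_mul (f v)
  · refine Integrable.mono' (hfi.norm.mul_const C) ?_ ?_
    · exact (hm.norm.stronglyMeasurable.integral_prod_right).aestronglyMeasurable
    · filter_upwards [ae_restrict_mem DD_meas] with v hv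
      have h1 : ∀ s, ‖Function.uncurry (fun v s => f v * (g s * k v s)) (v, s)‖
          = ‖f v‖ * ‖g s * k v s‖ := fun s => by
        simp [Function.uncurry, norm_mul]
      simp only [h1]
      rw [integral_const_mul, Real.norm_eq_abs, abs_of_nonneg
        (mul_nonneg (norm_nonneg _) (integral_nonneg fun _ => norm_nonneg _))]
      exact mul_le_mul_of_nonneg_left (h v hv).2 (norm_nonneg _)

/-- the exchange -/
theorem swap {k : ℂ → ℂ → E} {f g : ℂ → E} {C : ℝ} (hk : Measurable (Function.uncurry k))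
    (hf : Measurable f) (hg : Measurable g) (hfi : IntegrableOn f DD)
    (h : ∀ v ∈ DD, IntegrableOn (fun s => g s * k v s) DD ∧ ∫ s in DD, ‖g s * k v s‖ ≤ C) :
    IntegrableOn (fun v => f v * ∫ s in DD, g s * k v s) DD ∧
    IntegrableOn (fun s => g s * ∫ v in DD, f v * k v s) DD ∧
    ∫ v in DD, f v * (∫ s in DD, g s * k v s) = ∫ s in DD, g s * ∫ v in DD, f v * k v s := by
  have h1 := fub hk hf hg hfi h
  have h2 : ∀ v, (∫ s in DD, (Function.uncurry fun v s => f v * (g s * k v s)) (v, s))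
      = f v * ∫ s in DD, g s * k v s := fun v => by
    simp only [Function.uncurry]
    rw [integral_const_mul]
  have h3 : ∀ s, (∫ v in DD, (Function.uncurry fun v s => f v * (g s * k v s)) (v, s))
      = g s * ∫ v in DD, f v * k v s := fun s => by
    simp only [Function.uncurry]
    rw [← integral_const_mul]
    refine integral_congr_ae (Eventually.of_forall fun v => ?_)
    simp only []
    ring
  refine ⟨?_, ?_, ?_⟩
  · have h4 := h1.integral_prod_left
    simp only [h2] at h4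
    exact h4
  · have h4 := h1.integral_prod_right
    simp only [h3] at h4
    exact h4
  · have h4 := integral_integral_swap h1
    have h5 : ∀ v, (∫ s in DD, f v * (g s * k v s)) = f v * ∫ s in DD, g s * k v s := h2
    have h6 : ∀ s, (∫ v in DD, f v * (g s * k v s)) = g s * ∫ v in DD, f v * k v s := h3
    simp only [h5, h6] at h4
    exact h4

end

/-! ### the kernels -/

theorem conj_le {v s : ℂ} (hv : v ∈ DD) (hs : s ∈ DD) :
    ‖(starRingEnd ℂ) v - s‖ ≤ ‖1 - v * s‖ := by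
  rw [mem_DD] at hv hs
  have h1 : ‖(starRingEnd ℂ) v - s‖ ^ 2 ≤ ‖1 - v * s‖ ^ 2 := by
    rw [← Complex.normSq_eq_norm_sq, ← Complex.normSq_eq_norm_sq]
    have h2 : v.re ^ 2 + v.im ^ 2 ≤ 1 := by
      have := Complex.normSq_eq_norm_sq v
      rw [Complex.normSq_apply] at this
      nlinarith [norm_nonneg v]
    have h3 : s.re ^ 2 + s.im ^ 2 ≤ 1 := by
      have := Complex.normSq_eq_norm_sq s
      rw [Complex.normSq_apply] at this
      nlinarith [norm_nonneg s]
    rw [Complex.normSq_apply, Complex.normSq_apply]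
    simp only [Complex.sub_re, Complex.sub_im, Complex.conj_re, Complex.conj_im, Complex.mul_re,
      Complex.mul_im, Complex.one_re, Complex.one_im]
    nlinarith [mul_nonneg (sub_nonneg.2 h2) (sub_nonneg.2 h3)]
  exact le_of_sq_le_sq h1 (norm_nonneg _)

theorem sub_le {v s : ℂ} (hv : v ∈ DD) (hs : s ∈ DD) : ‖v - s‖ ≤ 2 := by
  rw [mem_DD] at hv hs
  calc ‖v - s‖ ≤ ‖v‖ + ‖s‖ := norm_sub_le _ _
    _ ≤ 2 := by linarith

theorem one_sub_le {v s : ℂ} (hv : v ∈ DD) (hs : s ∈ DD) : ‖1 - v * s‖ ≤ 2 := by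
  rw [mem_DD] at hv hs
  calc ‖1 - v * s‖ ≤ ‖(1 : ℂ)‖ + ‖v * s‖ := norm_sub_le _ _
    _ ≤ 2 := by
      rw [norm_one, norm_mul]
      nlinarith [norm_nonneg v, norm_nonneg s]

theorem inv_le_rpow {x : ℝ} (h0 : 0 ≤ x) (h2 : x ≤ 2) : x⁻¹ ≤ 2 * x ^ (-(5 / 4) : ℝ) := by
  rcases h0.eq_or_lt with rfl | h0
  · rw [_root_.inv_zero, Real.zero_rpow (by norm_num)]
    norm_num
  · have h1 : x⁻¹ = x ^ (1 / 4 : ℝ) * x ^ (-(5 / 4) : ℝ) := by
      rw [← Real.rpow_add h0, ← Real.rpow_neg_one]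
      norm_num
    rw [h1]
    refine mul_le_mul_of_nonneg_right ?_ (Real.rpow_nonneg h0.le _)
    calc x ^ (1 / 4 : ℝ) ≤ 2 ^ (1 / 4 : ℝ) := Real.rpow_le_rpow h0.le h2 (by norm_num)
      _ ≤ 2 ^ (1 : ℝ) := Real.rpow_le_rpow_of_exponent_le (by norm_num) (by norm_num)
      _ = 2 := Real.rpow_one 2

theorem log_le_rpow {x : ℝ} (h0 : 0 ≤ x) (h2 : x ≤ 2) :
    |Real.log (x ^ 2)| ≤ 8 * x ^ (-(1 / 4) : ℝ) := by
  rcases h0.eq_or_lt with rfl | h0
  · rw [Real.zero_rpow (by norm_num)]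
    norm_num
  · have h3 : Real.log (x ^ 2) = 2 * Real.log x := by
      rw [Real.log_pow]; norm_num
    rw [h3, abs_mul, abs_of_pos (by norm_num : (0 : ℝ) < 2)]
    have h6 : 0 < x ^ (-(1 / 4) : ℝ) := Real.rpow_pos_of_pos h0 _
    rcases le_total x 1 with h1 | h1
    · have h4 : Real.log (x ^ (-(1 / 4) : ℝ)) = -(1 / 4) * Real.log x := Real.log_rpow h0 _
      have h5 := Real.log_le_sub_one_of_pos h6
      rw [abs_of_nonpos (Real.log_nonpos h0.le h1)]
      linarith
    · rw [abs_of_nonneg (Real.log_nonneg h1)]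
      have h4 : Real.log x ≤ Real.log 2 := Real.log_le_log h0 h2
      have h5 := Real.log_two_lt_d9
      have h7 : (1 / 2 : ℝ) ≤ x ^ (-(1 / 4) : ℝ) := by
        calc (1 / 2 : ℝ) = 2 ^ (-1 : ℝ) := by rw [Real.rpow_neg_one]; norm_num
          _ ≤ 2 ^ (-(1 / 4) : ℝ) :=
            Real.rpow_le_rpow_of_exponent_le (by norm_num) (by norm_num)
          _ ≤ x ^ (-(1 / 4) : ℝ) := Real.rpow_le_rpow_of_nonpos h0 h2 (by norm_num)
      linarith

theorem rpow_anti {x y : ℝ} (hx : 0 < x) (h : x ≤ y) {a : ℝ} (ha : a ≤ 0) : y ^ a ≤ x ^ a :=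
  Real.rpow_le_rpow_of_nonpos hx h ha

/-- first Cauchy kernel -/
theorem ker1 {v : ℂ} (hv : v ∈ DD) : ∀ᵐ s ∂(volume.restrict DD), s ∈ DD →
    ‖(v - s)⁻¹‖ ≤ 2 * ‖v - s‖ ^ (-(5 / 4) : ℝ) := by
  refine Eventually.of_forall fun s hs => ?_
  rw [norm_inv]
  exact inv_le_rpow (norm_nonneg _) (sub_le hv hs)

/-- second Cauchy kernel -/
theorem ker2 {v : ℂ} (hv : v ∈ DD) : ∀ᵐ s ∂(volume.restrict DD), s ∈ DD →
    ‖-(v ^ 11) * (1 - v * s)⁻¹‖ ≤ 2 * ‖(starRingEnd ℂ) v - s‖ ^ (-(5 / 4) : ℝ) := by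
  filter_upwards [ae_ne_pt ((starRingEnd ℂ) v)] with s h1 hs
  have h2 : 0 < ‖(starRingEnd ℂ) v - s‖ := by
    rw [norm_pos_iff, sub_ne_zero]
    exact fun h => h1 h.symm
  have h3 := conj_le hv hs
  rw [norm_mul, norm_neg, norm_pow, norm_inv]
  have h4 : ‖v‖ ^ 11 ≤ 1 := pow_le_one₀ (norm_nonneg _) (mem_DD.1 hv)
  calc ‖v‖ ^ 11 * ‖1 - v * s‖⁻¹ ≤ 1 * ‖1 - v * s‖⁻¹ :=
        mul_le_mul_of_nonneg_right h4 (inv_nonneg.2 (norm_nonneg _))
    _ ≤ 2 * ‖1 - v * s‖ ^ (-(5 / 4) : ℝ) := by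
        rw [one_mul]
        exact inv_le_rpow (norm_nonneg _) (one_sub_le hv hs)
    _ ≤ 2 * ‖(starRingEnd ℂ) v - s‖ ^ (-(5 / 4) : ℝ) :=
        mul_le_mul_of_nonneg_left (rpow_anti h2 h3 (by norm_num)) (by norm_num)

/-- first logarithmic kernel -/
theorem ker3 {v : ℂ} (hv : v ∈ DD) : ∀ᵐ s ∂(volume.restrict DD), s ∈ DD →
    ‖Real.log (‖v - s‖ ^ 2)‖ ≤ 8 * ‖v - s‖ ^ (-(1 / 4) : ℝ) := by
  refine Eventually.of_forall fun s hs => ?_
  rw [Real.norm_eq_abs]
  exact log_le_rpow (norm_nonneg _) (sub_le hv hs)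

/-- second logarithmic kernel -/
theorem ker4 {v : ℂ} (hv : v ∈ DD) : ∀ᵐ s ∂(volume.restrict DD), s ∈ DD →
    ‖Real.log (‖1 - v * s‖ ^ 2)‖ ≤ 8 * ‖(starRingEnd ℂ) v - s‖ ^ (-(1 / 4) : ℝ) := by
  filter_upwards [ae_ne_pt ((starRingEnd ℂ) v)] with s h1 hs
  have h2 : 0 < ‖(starRingEnd ℂ) v - s‖ := by
    rw [norm_pos_iff, sub_ne_zero]
    exact fun h => h1 h.symm
  have h3 := conj_le hv hs
  rw [Real.norm_eq_abs]
  exact (log_le_rpow (norm_nonneg _) (one_sub_le hv hs)).trans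
    (mul_le_mul_of_nonneg_left (rpow_anti h2 h3 (by norm_num)) (by norm_num))

theorem PX_eq (g : Bool → ℂ → ℂ) (j : Bool) (v : ℂ) :
    PX g j v = ((1 / Real.pi : ℝ) : ℂ) * ((∫ s in DD, g j s * (v - s)⁻¹) +
      ∫ s in DD, g (!j) s * (-(v ^ 11) * (1 - v * s)⁻¹)) := by
  unfold PX CK
  congr 2
  refine integral_congr_ae (Eventually.of_forall fun s => ?_)
  simp only [pow_zero, div_eq_mul_inv]
  ring

theorem PB_eq (f : Bool → ℂ → ℂ) (j : Bool) (s : ℂ) :
    (starRingEnd ℂ) (PB f j s) = -(((1 / Real.pi : ℝ) : ℂ) *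
      ((∫ v in DD, (starRingEnd ℂ) (f j v) * (v - s)⁻¹) +
        ∫ v in DD, (starRingEnd ℂ) (f (!j) v) * (-(v ^ 11) * (1 - v * s)⁻¹))) := by
  unfold PB CK
  rw [Complex.conj_conj, ← mul_neg, neg_add, ← integral_neg, ← integral_neg]
  congr 2
  · refine integral_congr_ae (Eventually.of_forall fun v => ?_)
    simp only []
    rw [div_eq_mul_inv, ← neg_sub v s, inv_neg]
    ring
  · refine integral_congr_ae (Eventually.of_forall fun v => ?_)
    simp only [pow_zero, div_eq_mul_inv]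
    ring

end ADJL

open ADJL in
/-- **ADJ** -/
theorem t_ADJ (h1 : S_KER) (h2 : S_OPB) (h3 : S_OPX) (h4 : S_OPL) : S_ADJ := by
  obtain ⟨K, hK, hK1, hK2, -⟩ := h1
  constructor
  · intro f g c hf hg hc df dg
    obtain ⟨K', -, hB⟩ := h2
    have hfi := (hB f c hf hc df).2.1
    set cf : Bool → ℂ → ℂ := fun j v => (starRingEnd ℂ) (f j v) with hcf
    have hcfm : ∀ j, Measurable (cf j) := fun j => Complex.continuous_conj.measurable.comp (hf j)
    have hcfi : ∀ j, IntegrableOn (cf j) DD := fun j => by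
      refine Integrable.mono (hfi j) (hcfm j).aestronglyMeasurable (Eventually.of_forall fun v => ?_)
      simp [hcf]
    have e1 : ∀ i j, _ := fun i j => swap (k := fun v s => (v - s)⁻¹) (f := cf i) (g := g j)
      (C := c * 2 * K) (by
        have : Measurable fun p : ℂ × ℂ => (p.1 - p.2)⁻¹ := by fun_prop
        exact this) (hcfm i) (hg j) (hcfi i) fun v hv =>
        bnd wh_nonneg (hg j) (by fun_prop) (by norm_num) hc (dg j) (ker1 hv) (hK2 v).1 (hK2 v).2
    have e2 : ∀ i j, _ := fun i j => swap (k := fun v s => -(v ^ 11) * (1 - v * s)⁻¹) (f := cf i)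
      (g := g j) (C := c * 2 * K) (by
        have : Measurable fun p : ℂ × ℂ => -(p.1 ^ 11) * (1 - p.1 * p.2)⁻¹ := by fun_prop
        exact this) (hcfm i) (hg j) (hcfi i) fun v hv =>
        bnd wh_nonneg (hg j) (by fun_prop) (by norm_num) hc (dg j) (ker2 hv)
          (hK2 ((starRingEnd ℂ) v)).1 (hK2 ((starRingEnd ℂ) v)).2
    have l1 : ∀ j, ∫ s in DD, (starRingEnd ℂ) (f j s) * PX g j s =
        ((1 / Real.pi : ℝ) : ℂ) * ((∫ s in DD, g j s * ∫ v in DD, cf j v * (v - s)⁻¹) +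
          ∫ s in DD, g (!j) s * ∫ v in DD, cf j v * (-(v ^ 11) * (1 - v * s)⁻¹)) := by
      intro j
      rw [← (e1 j j).2.2, ← (e2 j (!j)).2.2, ← integral_add (e1 j j).1 (e2 j (!j)).1,
        ← integral_const_mul]
      refine integral_congr_ae (Eventually.of_forall fun v => ?_)
      simp only [PX_eq, hcf]
      ring
    have l2 : ∀ j, ∫ s in DD, g j s * (starRingEnd ℂ) (PB f j s) =
        -(((1 / Real.pi : ℝ) : ℂ) * ((∫ s in DD, g j s * ∫ v in DD, cf j v * (v - s)⁻¹) +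
          ∫ s in DD, g j s * ∫ v in DD, cf (!j) v * (-(v ^ 11) * (1 - v * s)⁻¹))) := by
      intro j
      rw [← integral_add (e1 j j).2.1 (e2 (!j) j).2.1, ← integral_const_mul, ← integral_neg]
      refine integral_congr_ae (Eventually.of_forall fun v => ?_)
      simp only [PB_eq, hcf]
      ring
    unfold totc
    simp only [Fintype.sum_bool, l1, l2, Bool.not_true, Bool.not_false]
    ring
  · intro G H c hG hH hc dG dH
    obtain ⟨K', -, hL⟩ := h4
    have hGi := (hL G c hG hc dG).1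
    have e1 : ∀ i j, _ := fun i j => swap (k := fun v s => Real.log (‖v - s‖ ^ 2)) (f := G i)
      (g := H j) (C := c * 8 * K) (by
        have : Measurable fun p : ℂ × ℂ => Real.log (‖p.1 - p.2‖ ^ 2) := by fun_prop
        exact this) (hG i) (hH j) (hGi i) fun v hv =>
        bnd ww_nonneg (hH j) (by fun_prop) (by norm_num) hc (dH j) (ker3 hv) (hK1 v).1 (hK1 v).2
    have e2 : ∀ i j, _ := fun i j => swap (k := fun v s => Real.log (‖1 - v * s‖ ^ 2)) (f := G i)
      (g := H j) (C := c * 8 * K) (by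
        have : Measurable fun p : ℂ × ℂ => Real.log (‖1 - p.1 * p.2‖ ^ 2) := by fun_prop
        exact this) (hG i) (hH j) (hGi i) fun v hv =>
        bnd ww_nonneg (hH j) (by fun_prop) (by norm_num) hc (dH j) (ker4 hv)
          (hK1 ((starRingEnd ℂ) v)).1 (hK1 ((starRingEnd ℂ) v)).2
    have p1 : ∀ (G : Bool → ℂ → ℝ) j v, PL G j v = (1 / Real.pi) *
        ((∫ s in DD, G j s * Real.log (‖v - s‖ ^ 2)) +
          ∫ s in DD, G (!j) s * Real.log (‖1 - v * s‖ ^ 2)) := by
      intro G j v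
      unfold PL
      congr 2 <;>
      · refine integral_congr_ae (Eventually.of_forall fun s => ?_)
        simp only []
        ring
    have l1 : ∀ j, ∫ s in DD, G j s * PL H j s =
        (1 / Real.pi) * ((∫ s in DD, H j s * ∫ v in DD, G j v * Real.log (‖v - s‖ ^ 2)) +
          ∫ s in DD, H (!j) s * ∫ v in DD, G j v * Real.log (‖1 - v * s‖ ^ 2)) := by
      intro j
      rw [← (e1 j j).2.2, ← (e2 j (!j)).2.2, ← integral_add (e1 j j).1 (e2 j (!j)).1,
        ← integral_const_mul]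
      refine integral_congr_ae (Eventually.of_forall fun v => ?_)
      simp only [p1]
      ring
    have l2 : ∀ j, ∫ s in DD, H j s * PL G j s =
        (1 / Real.pi) * ((∫ s in DD, H j s * ∫ v in DD, G j v * Real.log (‖v - s‖ ^ 2)) +
          ∫ s in DD, H j s * ∫ v in DD, G (!j) v * Real.log (‖1 - v * s‖ ^ 2)) := by
      intro j
      rw [← integral_add (e1 j j).2.1 (e2 (!j) j).2.1, ← integral_const_mul]
      refine integral_congr_ae (Eventually.of_forall fun s => ?_)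
      simp only [p1]
      have q1 : ∀ v : ℂ, ‖s - v‖ = ‖v - s‖ := fun v => norm_sub_rev _ _
      have q2 : ∀ v : ℂ, 1 - s * v = 1 - v * s := fun v => by ring
      simp only [q1, q2]
      ring
    unfold tot
    simp only [Fintype.sum_bool, l1, l2, Bool.not_true, Bool.not_false]
    ring

end Pool.Agent.H794.EX
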