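import Pool.Agent.H794.EX.Spec

/-!
# Two-sided bound for the scalar equation by the maximum principle
-/

set_option autoImplicit false

open scoped Manifold ContDiff Matrix ComplexOrder
open Matrix Topology MeasureTheory Set Filter

namespace Pool.Agent.H794.EX

open Pool.Agent.Helper614.HE Pool.Agent.H794 Pool.Agent.Helper614.HE.P_UN1
  Pool.Agent.Helper614.HE.P_UN2 Pool.Agent.Helper614.HE.P_G4 Pool.Agent.Helper614.HE.P_HIT

namespace BDEL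

/-- Laplacian of the composition with a holomorphic map -/
theorem L_holo {g : ℂ → ℝ} {W : ℂ → ℂ} {D : Set ℂ} {t : ℂ} (hD : IsOpen D)
    (hW : DifferentiableOn ℂ W D) (ht : t ∈ D) (hg : ContDiffAt ℝ 2 g (W t)) :
    ContDiffAt ℝ 2 (fun w => g (W w)) t ∧
    UN2_L (fun w => g (W w)) t = ‖deriv W t‖ ^ 2 * UN2_L g (W t) := by
  have hWt : ∀ w ∈ D, DifferentiableAt ℂ W w := fun w hw => hW.differentiableAt (hD.mem_nhds hw)
  have hWc : ContDiffAt ℝ 2 W t := by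
    have h1 : AnalyticAt ℂ W t := hW.analyticAt (hD.mem_nhds ht)
    exact (h1.contDiffAt (n := 2)).restrict_scalars ℝ
  have hc : ContDiffAt ℝ 2 (fun w => g (W w)) t := hg.comp t hWc
  refine ⟨hc, ?_⟩
  have hder : DifferentiableAt ℂ (deriv W) t :=
    (hW.deriv hD).differentiableAt (hD.mem_nhds ht)
  have hcont : ContinuousAt W t := (hWt t ht).continuousAt
  have e1 : dz (fun w => (g (W w) : ℂ)) =ᶠ[𝓝 t]
      fun w => dz (fun z => (g z : ℂ)) (W w) * deriv W w := by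
    filter_upwards [hD.mem_nhds ht, hcont.eventually (UN2_ev hg)] with w hw hw2
    have h3 : DifferentiableAt ℝ (fun z => (g z : ℂ)) (W w) :=
      Complex.ofRealCLM.differentiableAt.comp _ hw2
    exact (G4_comp h3 (hWt w hw)).1
  have hd : DifferentiableAt ℝ (dz (fun z => (g z : ℂ))) (W t) := by
    have h4 : ContDiffAt ℝ 2 (fun z => (g z : ℂ)) (W t) :=
      Complex.ofRealCLM.contDiff.contDiffAt.comp _ hg
    exact (HIT_second h4).1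
  have e2 : dzb (dz (fun w => (g (W w) : ℂ))) t =
      dzb (dz (fun z => (g z : ℂ))) (W t) * ((‖deriv W t‖ ^ 2 : ℝ) : ℂ) := by
    have hd2 : DifferentiableAt ℝ (fun w => dz (fun z => (g z : ℂ)) (W w)) t :=
      DifferentiableAt.comp (g := dz (fun z => (g z : ℂ))) (f := W) t hd
        ((hWt t ht).restrictScalars ℝ)
    rw [HIT_dzb_germ e1, (G4_mul hd2 (hder.restrictScalars ℝ)).2, (G4_hol hder).1,
      (G4_comp (F := dz (fun z => (g z : ℂ))) hd (hWt t ht)).2, mul_zero, add_zero, mul_assoc]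
    congr 1
    rw [← Complex.normSq_eq_norm_sq, Complex.normSq_eq_conj_mul_self]
  have h5 := UN2_levi hc
  have h6 := UN2_levi hg
  rw [e2, Complex.re_mul_ofReal, h6] at h5
  linarith

/-- coefficients -/
noncomputable def aj (j : Bool) : ℝ := if j = false then 1 / 8 else 1 / 9

/-- coefficients -/
noncomputable def bj (j : Bool) : ℝ := if j = false then 1 else 9 / 8

/-- coefficients -/
noncomputable def cj (j : Bool) : ℂ := if j = false then 1 else 8 / 9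

/-- the denominator -/
noncomputable def Dj (j : Bool) (v : ℂ) : ℝ := aj j + bj j * qq (cj j) v

/-- the barrier -/
noncomputable def eta (j : Bool) (v : ℂ) : ℝ :=
  Real.log (1 + 1 * qq 0 v) + (-1) * Real.log (aj j + bj j * qq (cj j) v)

theorem qq_nonneg (c w : ℂ) : 0 ≤ qq c w := by rw [qq_eq]; positivity

theorem Dj_pos (j : Bool) (v : ℂ) : 0 < aj j + bj j * qq (cj j) v := by
  have h1 := qq_nonneg (cj j) v
  cases j
  · simp only [aj, bj, if_true]; linarith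
  · simp only [aj, bj, Bool.true_eq_false, if_false]; linarith

theorem one_pos' (v : ℂ) : 0 < 1 + 1 * qq 0 v := by
  have h1 := qq_nonneg 0 v
  linarith

theorem qq_zero (v : ℂ) : qq 0 v = ‖v‖ ^ 2 := by rw [qq_eq, sub_zero]

theorem eta_false (v : ℂ) (hv : v ≠ 0) : eta false v = eta true v⁻¹ := by
  have hr : 0 < ‖v‖ ^ 2 := by positivity
  have e1 : 1 + 1 * qq 0 v⁻¹ = (1 + 1 * qq 0 v) / ‖v‖ ^ 2 := by
    rw [qq_zero, qq_zero, norm_inv]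
    field_simp
    ring
  have e2 : aj true + bj true * qq (cj true) v⁻¹ =
      (aj false + bj false * qq (cj false) v) / ‖v‖ ^ 2 := by
    have h1 : qq (cj true) v⁻¹ = ‖1 - 8 / 9 * v‖ ^ 2 / ‖v‖ ^ 2 := by
      rw [qq_eq, ← div_pow, ← norm_div]
      congr 2
      simp only [cj, Bool.true_eq_false, if_false]
      field_simp
    rw [h1]
    rw [eq_div_iff hr.ne', add_mul, mul_assoc, div_mul_cancel₀ _ hr.ne']
    simp only [aj, bj, cj, if_true, Bool.true_eq_false, if_false]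
    rw [← Complex.normSq_eq_norm_sq, ← Complex.normSq_eq_norm_sq, qq, Complex.normSq_apply,
      Complex.normSq_apply]
    have h3 : ((1 : ℂ) - 8 / 9 * v).re = 1 - 8 / 9 * v.re := by
      have : ((8 : ℂ) / 9) = ((8 / 9 : ℝ) : ℂ) := by push_cast; ring
      rw [this]
      simp
    have h4 : ((1 : ℂ) - 8 / 9 * v).im = - (8 / 9 * v.im) := by
      have : ((8 : ℂ) / 9) = ((8 / 9 : ℝ) : ℂ) := by push_cast; ring
      rw [this]
      simp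
    rw [h3, h4]
    simp
    ring
  unfold eta
  rw [e1, e2, Real.log_div (one_pos' v).ne' hr.ne', Real.log_div (Dj_pos false v).ne' hr.ne']
  ring

theorem eta_rel (j : Bool) (v : ℂ) (hv : v ≠ 0) : eta j v = eta (!j) v⁻¹ := by
  cases j
  · exact eta_false v hv
  · have := eta_false v⁻¹ (inv_ne_zero hv)
    rw [inv_inv] at this
    exact this.symm

theorem eta_cd (j : Bool) (v : ℂ) : ContDiffAt ℝ 2 (eta j) v := by
  obtain ⟨l1, -, -⟩ := L_logq (c := 0) (z := v) (a := 1) (b := 1) (one_pos' v)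
  obtain ⟨m1, -, -⟩ := L_logq (c := cj j) (z := v) (a := aj j) (b := bj j) (Dj_pos j v)
  exact l1.add (contDiffAt_const.mul m1)

theorem eta_cont (j : Bool) : Continuous (eta j) :=
  continuous_iff_continuousAt.2 fun v => (eta_cd j v).continuousAt

theorem eta_L (j : Bool) (v : ℂ) : UN2_L (eta j) v =
    4 / (1 + ‖v‖ ^ 2) ^ 2 - 1 / 2 / (aj j + bj j * qq (cj j) v) ^ 2 := by
  obtain ⟨l1, l2, -⟩ := L_logq (c := 0) (z := v) (a := 1) (b := 1) (one_pos' v)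
  obtain ⟨m1, m2, -⟩ := L_logq (c := cj j) (z := v) (a := aj j) (b := bj j) (Dj_pos j v)
  have h := UN2_L_add l1 m1 (-1)
  have h2 : UN2_L (eta j) v = _ := h
  rw [h2, l2, m2, qq_zero]
  have h3 : aj j * bj j = 1 / 8 := by
    cases j
    · simp only [aj, bj, if_true]; norm_num
    · simp only [aj, bj, Bool.true_eq_false, if_false]; norm_num
  have h4 : 4 * aj j * bj j = 1 / 2 := by rw [mul_assoc, h3]; norm_num
  rw [h4]
  ring

theorem Dj_lower (j : Bool) (v : ℂ) : 1 / 9 ≤ aj j + bj j * qq (cj j) v := by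
  have h1 := qq_nonneg (cj j) v
  cases j
  · simp only [aj, bj, if_true]; linarith
  · simp only [aj, bj, Bool.true_eq_false, if_false]; linarith

theorem Dj_upper (j : Bool) (v : ℂ) (hv : ‖v‖ ≤ 1) : aj j + bj j * qq (cj j) v ≤ 5 := by
  have h0 := norm_nonneg v
  cases j
  · have h1 : ‖v - 1‖ ≤ 2 := by
      calc ‖v - 1‖ ≤ ‖v‖ + ‖(1 : ℂ)‖ := norm_sub_le _ _
        _ ≤ 2 := by rw [norm_one]; linarith
    simp only [aj, bj, cj, if_true]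
    rw [qq_eq]
    nlinarith [norm_nonneg (v - 1)]
  · have h1 : ‖v - 8 / 9‖ ≤ 17 / 9 := by
      calc ‖v - 8 / 9‖ ≤ ‖v‖ + ‖(8 / 9 : ℂ)‖ := norm_sub_le _ _
        _ ≤ 17 / 9 := by
          rw [norm_div, Complex.norm_ofNat, Complex.norm_ofNat]
          linarith
    simp only [aj, bj, cj, Bool.true_eq_false, if_false]
    rw [qq_eq]
    nlinarith [norm_nonneg (v - 8 / 9)]

theorem Dj_lower' (j : Bool) (v : ℂ) (hv : ‖v‖ ≤ 1 / 4) : 9 / 16 ≤ aj j + bj j * qq (cj j) v := by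
  have h0 := norm_nonneg v
  cases j
  · have h1 : 3 / 4 ≤ ‖v - 1‖ := by
      have := norm_sub_norm_le (1 : ℂ) v
      rw [norm_one, norm_sub_rev] at this
      linarith
    simp only [aj, bj, cj, if_true]
    rw [qq_eq]
    nlinarith [norm_nonneg (v - 1)]
  · have h1 : 8 / 9 - 1 / 4 ≤ ‖v - 8 / 9‖ := by
      have := norm_sub_norm_le (8 / 9 : ℂ) v
      rw [norm_div, Complex.norm_ofNat, Complex.norm_ofNat, norm_sub_rev] at this
      linarith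
    simp only [aj, bj, cj, Bool.true_eq_false, if_false]
    rw [qq_eq]
    nlinarith [norm_nonneg (v - 8 / 9)]

theorem eta_bd (j : Bool) (v : ℂ) (hv : ‖v‖ ≤ 1) : |eta j v| ≤ 5 := by
  have h0 := norm_nonneg v
  have h1 := Dj_lower j v
  have h2 := Dj_upper j v hv
  have h3 := Dj_pos j v
  have h4 : 0 ≤ Real.log (1 + 1 * qq 0 v) := Real.log_nonneg (by
    have := qq_nonneg 0 v
    linarith)
  have h5 : Real.log (1 + 1 * qq 0 v) ≤ 1 := by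
    have := Real.log_le_sub_one_of_pos (one_pos' v)
    rw [qq_zero] at this ⊢
    nlinarith
  have h6 : Real.log (aj j + bj j * qq (cj j) v) ≤ 4 := by
    have := Real.log_le_sub_one_of_pos h3
    linarith
  have h7 : -4 ≤ Real.log (aj j + bj j * qq (cj j) v) := by
    have h8 : Real.log (1 / 9) ≤ Real.log (aj j + bj j * qq (cj j) v) :=
      Real.log_le_log (by norm_num) h1
    have h9 : Real.log (1 / 9) = -(2 * Real.log 3) := by
      rw [one_div, Real.log_inv, show (9 : ℝ) = 3 ^ 2 by norm_num, Real.log_pow]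
      push_cast
      ring
    have h10 := Real.log_le_sub_one_of_pos (show (0 : ℝ) < 3 by norm_num)
    linarith
  rw [abs_le]
  unfold eta
  constructor <;> linarith

theorem eta_L1 (j : Bool) (v : ℂ) (hv : ‖v‖ ≤ 1 / 4) : 1 ≤ UN2_L (eta j) v := by
  rw [eta_L]
  have h0 := norm_nonneg v
  have h1 := Dj_lower' j v hv
  have h2 : 1 / 2 / (aj j + bj j * qq (cj j) v) ^ 2 ≤ 2 := by
    rw [div_le_iff₀ (by positivity)]
    nlinarith
  have h3 : 3 ≤ 4 / (1 + ‖v‖ ^ 2) ^ 2 := by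
    rw [le_div_iff₀ (by positivity)]
    have : ‖v‖ ^ 2 ≤ 1 / 16 := by nlinarith
    nlinarith [sq_nonneg ‖v‖]
  linarith

theorem eta_L2 (j : Bool) (v : ℂ) : -48 ≤ UN2_L (eta j) v := by
  rw [eta_L]
  have h1 := Dj_lower j v
  have h2 : 1 / 2 / (aj j + bj j * qq (cj j) v) ^ 2 ≤ 48 := by
    rw [div_le_iff₀ (by positivity)]
    nlinarith
  have h3 : 0 ≤ 4 / (1 + ‖v‖ ^ 2) ^ 2 := by positivity
  linarith

/-- the right hand side of the scalar equation -/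
noncomputable def rhs (r c l : ℝ) (j : Bool) (v : ℂ) (x : ℝ) : ℝ :=
  2 * ‖Qe r c j v‖ ^ 2 * Real.exp x - (1 - l) * (2 ^ 14 * r ^ 2)⁻¹ * (1 + ‖v‖ ^ 2) ^ 10 -
    l * (2 * ‖Pe r c j v‖ ^ 2 * Real.exp (-x))

theorem eqn {r c l : ℝ} {D : Set ℂ} {Vt Y θ : ℂ → ℂ} (hC : Cht D Vt Y θ) {j : Bool} {V : ℂ → ℝ}
    {X : ℂ → ℂ} (hX : ∀ v, X v = 0) (hS : ChSol (dEB r c) l j D Vt θ V X) {t : ℂ} (ht : t ∈ D) :
    ContDiffAt ℝ 2 (fun w => V (Vt w)) t ∧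
    UN2_L (fun w => V (Vt w)) t = 4 * r ^ 2 * ‖θ t‖ ^ 2 * rhs r c l j (Vt t) (V (Vt t)) := by
  obtain ⟨h1, h2, B, Q, h3, h4, h5⟩ := hS
  have hc : ContDiffAt ℝ 2 (fun w => V (Vt w)) t :=
    (h1.contDiffAt (hC.op.mem_nhds ht)).of_le (WithTop.coe_le_coe.2 le_top)
  refine ⟨hc, ?_⟩
  have h6 := UN2_levi hc
  have e1 : dz (fun w => (V (Vt w) : ℂ)) =ᶠ[𝓝 t] Q := by
    filter_upwards [hC.op.mem_nhds ht] with w hw
    exact (h5 w hw).eV
  rw [HIT_dzb_germ e1] at h6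
  have hB : B t = 0 := by
    have h7 := (h5 t ht).eX
    have h8 : dzb (fun t => X (Vt t)) t = 0 := by
      have : (fun t => X (Vt t)) = fun _ => (0 : ℂ) := funext fun t => hX _
      rw [this]
      unfold dzb
      simp
    rw [h8] at h7
    have h9 : ((Real.exp (V (Vt t)) * (1 + ‖Vt t‖ ^ 2) ^ 10 : ℝ) : ℂ) ≠ 0 := by
      have : 0 < Real.exp (V (Vt t)) * (1 + ‖Vt t‖ ^ 2) ^ 10 := by positivity
      exact_mod_cast this.ne'
    rcases mul_eq_zero.1 h7.symm with h | h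
    · exact absurd h h9
    · exact h
  have h10 := (h5 t ht).eQ
  rw [h10, hB, ← Complex.ofReal_neg, Complex.ofReal_re] at h6
  simp only [dEB, norm_zero] at h6
  unfold rhs
  linarith

theorem y6 {Y v : ℂ} (h : Y ^ 4 = v ^ 16 + 1) :
    (‖v‖ ≤ 1 → ‖Y‖ ^ 6 ≤ 4) ∧ (‖v‖ ≤ 1 / 4 → 1 / 2 ≤ ‖Y‖ ^ 6) := by
  have h0 : (‖Y‖ ^ 2) ^ 2 = ‖v ^ 16 + 1‖ := by
    rw [← h, norm_pow]
    ring
  have hy : 0 ≤ ‖Y‖ ^ 2 := by positivity
  have e : ‖Y‖ ^ 6 = ‖Y‖ ^ 2 * (‖Y‖ ^ 2) ^ 2 := by ring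
  rw [e]
  constructor
  · intro hv
    have h1 : ‖v ^ 16 + 1‖ ≤ 2 := by
      calc ‖v ^ 16 + 1‖ ≤ ‖v ^ 16‖ + ‖(1 : ℂ)‖ := norm_add_le _ _
        _ ≤ 1 + 1 := by
          rw [norm_pow, norm_one]
          have := pow_le_one₀ (n := 16) (norm_nonneg v) hv
          linarith
        _ = 2 := by norm_num
    rw [← h0] at h1
    have h2 : ‖Y‖ ^ 2 ≤ 2 := by nlinarith
    nlinarith
  · intro hv
    have h1 : 9 / 10 ≤ ‖v ^ 16 + 1‖ := by
      have h3 := norm_sub_norm_le (1 : ℂ) (-(v ^ 16))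
      rw [norm_one, norm_neg, norm_pow, sub_neg_eq_add, add_comm (1 : ℂ)] at h3
      have h4 : ‖v‖ ^ 16 ≤ (1 / 4) ^ 16 := pow_le_pow_left₀ (norm_nonneg v) hv 16
      have h5 : ((1 : ℝ) / 4) ^ 16 ≤ 1 / 10 := by norm_num
      linarith
    rw [← h0] at h1
    have h2 : 9 / 10 ≤ ‖Y‖ ^ 2 := by
      by_contra hcon
      push Not at hcon
      nlinarith
    nlinarith

theorem Qe_le {r c : ℝ} (hr : 0 < r) (hc : 0 < c) (j : Bool) {v : ℂ} (hv : ‖v‖ ≤ 1) :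
    ‖Qe r c j v‖ ≤ r ^ 2 + c := by
  have h0 := norm_nonneg v
  have h2 : ‖v‖ ^ 2 ≤ 1 := pow_le_one₀ h0 hv
  have h8 : ‖v‖ ^ 8 ≤ 1 := pow_le_one₀ h0 hv
  have h10 : ‖v‖ ^ 10 ≤ 1 := pow_le_one₀ h0 hv
  cases j
  · simp only [Qe, blk, if_true]
    simp only [Matrix.of_apply, Matrix.cons_val', Matrix.cons_val_zero, Matrix.cons_val_one,
      Matrix.cons_val_fin_one]
    calc ‖((r : ℂ) * v) ^ 2 - c‖ ≤ ‖((r : ℂ) * v) ^ 2‖ + ‖(c : ℂ)‖ := norm_sub_le _ _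
      _ = r ^ 2 * ‖v‖ ^ 2 + c := by
        rw [norm_pow, norm_mul, Complex.norm_real, Complex.norm_real, Real.norm_eq_abs,
          Real.norm_eq_abs, abs_of_pos hr, abs_of_pos hc, mul_pow]
      _ ≤ r ^ 2 + c := by nlinarith [sq_nonneg r]
  · simp only [Qe, blk, Bool.true_eq_false, if_false]
    simp only [Matrix.of_apply, Matrix.cons_val', Matrix.cons_val_zero, Matrix.cons_val_one,
      Matrix.cons_val_fin_one]
    rw [norm_neg]
    calc ‖(r : ℂ) ^ 2 * v ^ 8 - c * v ^ 10‖ ≤ ‖(r : ℂ) ^ 2 * v ^ 8‖ + ‖(c : ℂ) * v ^ 10‖ :=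
          norm_sub_le _ _
      _ = r ^ 2 * ‖v‖ ^ 8 + c * ‖v‖ ^ 10 := by
        rw [norm_mul, norm_mul, norm_pow, norm_pow, norm_pow, Complex.norm_real, Complex.norm_real,
          Real.norm_eq_abs, Real.norm_eq_abs, abs_of_pos hr, abs_of_pos hc]
      _ ≤ r ^ 2 + c := by nlinarith [sq_nonneg r]

theorem Qe_ge {r c : ℝ} (hr : 0 < r) (hc : 0 < c) (hrc : 16 * c < r ^ 2) (j : Bool) {v : ℂ}
    (hv : ‖v‖ ≤ 1) (hv' : 1 / 4 ≤ ‖v‖) : (1 / 4) ^ 8 * (r ^ 2 / 16 - c) ≤ ‖Qe r c j v‖ := by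
  have h0 := norm_nonneg v
  have h2 : ‖v‖ ^ 2 ≤ 1 := pow_le_one₀ h0 hv
  have h8 : (1 / 4) ^ 8 ≤ ‖v‖ ^ 8 := pow_le_pow_left₀ (by norm_num) hv' 8
  have h3 : (1 / 4 : ℝ) ^ 2 ≤ ‖v‖ ^ 2 := pow_le_pow_left₀ (by norm_num) hv' 2
  have hp : 0 < r ^ 2 / 16 - c := by linarith
  cases j
  · simp only [Qe, blk, if_true]
    simp only [Matrix.of_apply, Matrix.cons_val', Matrix.cons_val_zero, Matrix.cons_val_one,
      Matrix.cons_val_fin_one]
    have h4 : ‖((r : ℂ) * v) ^ 2‖ - ‖(c : ℂ)‖ ≤ ‖((r : ℂ) * v) ^ 2 - c‖ := norm_sub_norm_le _ _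
    rw [norm_pow, norm_mul, Complex.norm_real, Complex.norm_real, Real.norm_eq_abs,
      Real.norm_eq_abs, abs_of_pos hr, abs_of_pos hc, mul_pow] at h4
    have h5 : r ^ 2 / 16 ≤ r ^ 2 * ‖v‖ ^ 2 := by nlinarith [sq_nonneg r]
    have h6 : (1 / 4 : ℝ) ^ 8 * (r ^ 2 / 16 - c) ≤ 1 * (r ^ 2 / 16 - c) := by
      apply mul_le_mul_of_nonneg_right _ hp.le
      norm_num
    linarith
  · simp only [Qe, blk, Bool.true_eq_false, if_false]
    simp only [Matrix.of_apply, Matrix.cons_val', Matrix.cons_val_zero, Matrix.cons_val_one,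
      Matrix.cons_val_fin_one]
    rw [norm_neg]
    have e : (r : ℂ) ^ 2 * v ^ 8 - c * v ^ 10 = v ^ 8 * ((r : ℂ) ^ 2 - c * v ^ 2) := by ring
    rw [e, norm_mul, norm_pow]
    have h4 : ‖(r : ℂ) ^ 2‖ - ‖(c : ℂ) * v ^ 2‖ ≤ ‖(r : ℂ) ^ 2 - c * v ^ 2‖ :=
      norm_sub_norm_le _ _
    rw [norm_pow, norm_mul, norm_pow, Complex.norm_real, Complex.norm_real, Real.norm_eq_abs,
      Real.norm_eq_abs, abs_of_pos hr, abs_of_pos hc] at h4
    have h5 : r ^ 2 / 16 - c ≤ ‖(r : ℂ) ^ 2 - c * v ^ 2‖ := by nlinarith [sq_nonneg r]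
    exact mul_le_mul h8 h5 hp.le (by positivity)

theorem Pe_le (r c : ℝ) (j : Bool) {v : ℂ} (hv : ‖v‖ ≤ 1) : ‖Pe r c j v‖ ≤ 1 := by
  cases j
  · simp [Pe, blk]
  · simp only [Pe, blk, Bool.true_eq_false, if_false]
    simp only [Matrix.of_apply, Matrix.cons_val', Matrix.cons_val_zero, Matrix.cons_val_one,
      Matrix.cons_val_fin_one]
    rw [norm_neg, norm_pow]
    exact pow_le_one₀ (norm_nonneg v) hv

theorem Pe_ge (r c : ℝ) (j : Bool) {v : ℂ} (hv' : 1 / 4 ≤ ‖v‖) :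
    (1 / 4) ^ 10 ≤ ‖Pe r c j v‖ := by
  cases j
  · simp only [Pe, blk, if_true]
    simp only [Matrix.of_apply, Matrix.cons_val', Matrix.cons_val_zero, Matrix.cons_val_one,
      Matrix.cons_val_fin_one]
    rw [norm_one]
    norm_num
  · simp only [Pe, blk, Bool.true_eq_false, if_false]
    simp only [Matrix.of_apply, Matrix.cons_val', Matrix.cons_val_zero, Matrix.cons_val_one,
      Matrix.cons_val_fin_one]
    rw [norm_neg, norm_pow]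
    exact pow_le_pow_left₀ (by norm_num) hv' 10

theorem maxL {g : ℂ → ℝ} {κ : ℝ} {D : Set ℂ} {Vt Y θ : ℂ → ℂ} (hC : Cht D Vt Y θ) {j : Bool}
    {t : ℂ} (ht : t ∈ D) (hg : ContDiffAt ℝ 2 g t)
    (hm : IsLocalMax (fun w => g w + κ * eta j (Vt w)) t) :
    UN2_L g t + κ * (‖θ t‖ ^ 2 * (‖Y t‖ ^ 6 * UN2_L (eta j) (Vt t))) ≤ 0 := by
  obtain ⟨he2, heL⟩ := L_holo hC.op hC.hV ht (eta_cd j (Vt t))
  have h8 := UN2_max (hg.add (contDiffAt_const.mul he2)) hm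
  rw [UN2_L_add hg he2 κ, heL, hC.dv t ht, norm_mul, norm_pow] at h8
  have e : (‖θ t‖ * ‖Y t‖ ^ 3) ^ 2 * UN2_L (eta j) (Vt t) =
      ‖θ t‖ ^ 2 * (‖Y t‖ ^ 6 * UN2_L (eta j) (Vt t)) := by ring
  rw [e] at h8
  exact h8

theorem rhs4 {r c l : ℝ} (hr : 0 < r) (j : Bool) (v : ℂ) (x : ℝ) :
    4 * r ^ 2 * rhs r c l j v x = 8 * r ^ 2 * (‖Qe r c j v‖ ^ 2 * Real.exp x) -
      (1 - l) * (1 / 2 ^ 12 * (1 + ‖v‖ ^ 2) ^ 10) -
      l * (8 * r ^ 2 * (‖Pe r c j v‖ ^ 2 * Real.exp (-x))) := by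
  unfold rhs
  field_simp
  ring

theorem upper {r c l A x y L : ℝ} (hr : 0 < r) (hc : 0 < c) (hrc : 16 * c < r ^ 2)
    (hl : l ∈ Icc (0 : ℝ) 1) (hA : 1 ≤ A) (f1 : 8 * r ^ 2 * A⁻¹ ≤ 1 / 8)
    (f2 : 200 ≤ 8 * r ^ 2 * (((1 / 4) ^ 8 * (r ^ 2 / 16 - c)) ^ 2 * A))
    {j : Bool} {v : ℂ} (hv : ‖v‖ ≤ 1) (hy : 0 ≤ y) (hy4 : y ≤ 4) (hL : -48 ≤ L)
    (hyq : ‖v‖ ≤ 1 / 4 → 1 / 2 ≤ y) (hLq : ‖v‖ ≤ 1 / 4 → 1 ≤ L)
    (h : 4 * r ^ 2 * rhs r c l j v x + y * L ≤ 0) : x ≤ Real.log A := by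
  by_contra hcon
  push Not at hcon
  have hA0 : 0 < A := by linarith
  have hE : A < Real.exp x := by
    rw [← Real.log_lt_iff_lt_exp hA0]
    exact hcon
  have hE' : Real.exp (-x) < A⁻¹ := by
    rw [Real.exp_neg]
    exact inv_strictAnti₀ hA0 hE
  have hE0 := Real.exp_pos (-x)
  rw [rhs4 hr] at h
  obtain ⟨hl0, hl1⟩ := hl
  have hP := Pe_le r c j hv
  have hP0 := norm_nonneg (Pe r c j v)
  have hP2 : ‖Pe r c j v‖ ^ 2 ≤ 1 := pow_le_one₀ hP0 hP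
  have t3 : l * (8 * r ^ 2 * (‖Pe r c j v‖ ^ 2 * Real.exp (-x))) ≤ 1 / 8 := by
    have a1 : ‖Pe r c j v‖ ^ 2 * Real.exp (-x) ≤ 1 * A⁻¹ :=
      mul_le_mul hP2 hE'.le hE0.le zero_le_one
    have a2 : 8 * r ^ 2 * (‖Pe r c j v‖ ^ 2 * Real.exp (-x)) ≤ 8 * r ^ 2 * (1 * A⁻¹) :=
      mul_le_mul_of_nonneg_left a1 (by positivity)
    have a3 : 0 ≤ 8 * r ^ 2 * (‖Pe r c j v‖ ^ 2 * Real.exp (-x)) := by positivity
    have a4 : l * (8 * r ^ 2 * (‖Pe r c j v‖ ^ 2 * Real.exp (-x))) ≤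
        1 * (8 * r ^ 2 * (‖Pe r c j v‖ ^ 2 * Real.exp (-x))) := mul_le_mul_of_nonneg_right hl1 a3
    linarith
  by_cases hq : ‖v‖ ≤ 1 / 4
  · have hy' := hyq hq
    have hL' := hLq hq
    have t1 : 0 ≤ 8 * r ^ 2 * (‖Qe r c j v‖ ^ 2 * Real.exp x) := by positivity
    have t2 : (1 - l) * (1 / 2 ^ 12 * (1 + ‖v‖ ^ 2) ^ 10) ≤ 1 / 2 ^ 12 * 2 := by
      have a1 : (1 + ‖v‖ ^ 2) ^ 10 ≤ (17 / 16) ^ 10 := by
        apply pow_le_pow_left₀ (by positivity)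
        nlinarith [norm_nonneg v]
      have a2 : ((17 : ℝ) / 16) ^ 10 ≤ 2 := by norm_num
      have a3 : 1 / 2 ^ 12 * (1 + ‖v‖ ^ 2) ^ 10 ≤ 1 / 2 ^ 12 * 2 :=
        mul_le_mul_of_nonneg_left (a1.trans a2) (by positivity)
      have a4 : (1 - l) * (1 / 2 ^ 12 * (1 + ‖v‖ ^ 2) ^ 10) ≤
          1 * (1 / 2 ^ 12 * (1 + ‖v‖ ^ 2) ^ 10) :=
        mul_le_mul_of_nonneg_right (by linarith) (by positivity)
      linarith
    have t4 : 1 / 2 ≤ y * L := by nlinarith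
    norm_num at t2
    linarith
  · push Not at hq
    have t1 : 200 ≤ 8 * r ^ 2 * (‖Qe r c j v‖ ^ 2 * Real.exp x) := by
      have a1 := Qe_ge hr hc hrc j hv hq.le
      have a0 : 0 ≤ (1 / 4) ^ 8 * (r ^ 2 / 16 - c) := by
        have : 0 ≤ r ^ 2 / 16 - c := by linarith
        positivity
      have a2 : ((1 / 4) ^ 8 * (r ^ 2 / 16 - c)) ^ 2 ≤ ‖Qe r c j v‖ ^ 2 :=
        pow_le_pow_left₀ a0 a1 2
      have a3 : ((1 / 4) ^ 8 * (r ^ 2 / 16 - c)) ^ 2 * A ≤ ‖Qe r c j v‖ ^ 2 * Real.exp x :=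
        mul_le_mul a2 hE.le hA0.le (by positivity)
      have a4 : 8 * r ^ 2 * (((1 / 4) ^ 8 * (r ^ 2 / 16 - c)) ^ 2 * A) ≤
        8 * r ^ 2 * (‖Qe r c j v‖ ^ 2 * Real.exp x) := mul_le_mul_of_nonneg_left a3 (by positivity)
      linarith
    have t2 : (1 - l) * (1 / 2 ^ 12 * (1 + ‖v‖ ^ 2) ^ 10) ≤ 1 / 2 ^ 12 * 2 ^ 10 := by
      have a1 : (1 + ‖v‖ ^ 2) ^ 10 ≤ 2 ^ 10 := by
        apply pow_le_pow_left₀ (by positivity)
        nlinarith [norm_nonneg v]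
      have a3 : 1 / 2 ^ 12 * (1 + ‖v‖ ^ 2) ^ 10 ≤ 1 / 2 ^ 12 * 2 ^ 10 :=
        mul_le_mul_of_nonneg_left a1 (by positivity)
      have a4 : (1 - l) * (1 / 2 ^ 12 * (1 + ‖v‖ ^ 2) ^ 10) ≤
          1 * (1 / 2 ^ 12 * (1 + ‖v‖ ^ 2) ^ 10) :=
        mul_le_mul_of_nonneg_right (by linarith) (by positivity)
      linarith
    have t4 : -192 ≤ y * L := by nlinarith
    norm_num at t2
    linarith

theorem lower {r c l A x y L : ℝ} (hr : 0 < r) (hc : 0 < c)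
    (hl : l ∈ Icc (0 : ℝ) 1) (hA : 1 ≤ A)
    (f3 : 8 * r ^ 2 * ((r ^ 2 + c) ^ 2 * A⁻¹) ≤ 1 / 2 ^ 24)
    (f4 : 1 ≤ 8 * r ^ 2 * (((1 / 4) ^ 10) ^ 2 * A))
    {j : Bool} {v : ℂ} (hv : ‖v‖ ≤ 1) (hy : 0 ≤ y) (hy4 : y ≤ 4) (hL : -48 ≤ L)
    (hyq : ‖v‖ ≤ 1 / 4 → 1 / 2 ≤ y) (hLq : ‖v‖ ≤ 1 / 4 → 1 ≤ L)
    (h : -(4 * r ^ 2 * rhs r c l j v x) + 1 / 2 ^ 22 * (y * L) ≤ 0) : -Real.log A ≤ x := by
  by_contra hcon
  push Not at hcon
  have hA0 : 0 < A := by linarith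
  have hE' : A < Real.exp (-x) := by
    rw [← Real.log_lt_iff_lt_exp hA0]
    linarith
  have hE : Real.exp x < A⁻¹ := by
    have h1 : Real.exp x = (Real.exp (-x))⁻¹ := by rw [Real.exp_neg, inv_inv]
    rw [h1]
    exact inv_strictAnti₀ hA0 hE'
  have hE0 := Real.exp_pos x
  rw [rhs4 hr] at h
  obtain ⟨hl0, hl1⟩ := hl
  have hQ := Qe_le hr hc j hv
  have hQ0 := norm_nonneg (Qe r c j v)
  have hQ2 : ‖Qe r c j v‖ ^ 2 ≤ (r ^ 2 + c) ^ 2 := pow_le_pow_left₀ hQ0 hQ 2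
  have t1 : 8 * r ^ 2 * (‖Qe r c j v‖ ^ 2 * Real.exp x) ≤ 1 / 2 ^ 24 := by
    have a1 : ‖Qe r c j v‖ ^ 2 * Real.exp x ≤ (r ^ 2 + c) ^ 2 * A⁻¹ :=
      mul_le_mul hQ2 hE.le hE0.le (by positivity)
    have a2 : 8 * r ^ 2 * (‖Qe r c j v‖ ^ 2 * Real.exp x) ≤
      8 * r ^ 2 * ((r ^ 2 + c) ^ 2 * A⁻¹) := mul_le_mul_of_nonneg_left a1 (by positivity)
    linarith
  by_cases hq : ‖v‖ ≤ 1 / 4
  · have hy' := hyq hq
    have hL' := hLq hq
    have t2 : 0 ≤ (1 - l) * (1 / 2 ^ 12 * (1 + ‖v‖ ^ 2) ^ 10) := by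
      have : 0 ≤ 1 - l := by linarith
      positivity
    have t3 : 0 ≤ l * (8 * r ^ 2 * (‖Pe r c j v‖ ^ 2 * Real.exp (-x))) := by positivity
    have t4 : 1 / 2 ≤ y * L := by nlinarith
    norm_num at t1 t2 h
    linarith
  · push Not at hq
    have t3 : l ≤ l * (8 * r ^ 2 * (‖Pe r c j v‖ ^ 2 * Real.exp (-x))) := by
      have a1 := Pe_ge r c j hq.le
      have a2 : ((1 / 4) ^ 10) ^ 2 ≤ ‖Pe r c j v‖ ^ 2 :=
        pow_le_pow_left₀ (by positivity) a1 2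
      have a3 : ((1 / 4) ^ 10) ^ 2 * A ≤ ‖Pe r c j v‖ ^ 2 * Real.exp (-x) :=
        mul_le_mul a2 hE'.le hA0.le (by positivity)
      have a4 : 8 * r ^ 2 * (((1 / 4) ^ 10) ^ 2 * A) ≤
        8 * r ^ 2 * (‖Pe r c j v‖ ^ 2 * Real.exp (-x)) :=
          mul_le_mul_of_nonneg_left a3 (by positivity)
      have a5 : 1 ≤ 8 * r ^ 2 * (‖Pe r c j v‖ ^ 2 * Real.exp (-x)) := by linarith
      nlinarith
    have t2 : (1 - l) * (1 / 2 ^ 12) ≤ (1 - l) * (1 / 2 ^ 12 * (1 + ‖v‖ ^ 2) ^ 10) := by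
      apply mul_le_mul_of_nonneg_left _ (by linarith)
      have a1 : 1 ≤ (1 + ‖v‖ ^ 2) ^ 10 := one_le_pow₀ (by nlinarith [sq_nonneg ‖v‖])
      have a2 : (0 : ℝ) ≤ 1 / 2 ^ 12 := by positivity
      nlinarith
    have t4 : -192 ≤ y * L := by nlinarith
    norm_num at t1 t2 h
    linarith

end BDEL

open BDEL in
theorem t_BDE (h1 : S_MXP) (h2 : S_CHR) (h3 : S_OKE) : S_BDE := by
  intro inst hB hG r c hr hc hrc
  have hp : 0 < r ^ 2 / 16 - c := by linarith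
  have hr2 : 0 < r ^ 2 := by positivity
  set q0 : ℝ := (1 / 4) ^ 8 * (r ^ 2 / 16 - c) with hq0
  have hq0p : 0 < q0 := by rw [hq0]; positivity
  set A : ℝ := 1 + 64 * r ^ 2 + 200 / (8 * r ^ 2 * q0 ^ 2) +
    2 ^ 24 * (8 * r ^ 2 * (r ^ 2 + c) ^ 2) + 4 ^ 20 / (8 * r ^ 2) with hAdef
  have p1 : 0 ≤ 64 * r ^ 2 := by positivity
  have p2 : 0 ≤ 200 / (8 * r ^ 2 * q0 ^ 2) := by positivity
  have p3 : 0 ≤ 2 ^ 24 * (8 * r ^ 2 * (r ^ 2 + c) ^ 2) := by positivity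
  have p4 : 0 ≤ 4 ^ 20 / (8 * r ^ 2) := by positivity
  have hA : 1 ≤ A := by rw [hAdef]; linarith
  have hA0 : 0 < A := by linarith
  have f1 : 8 * r ^ 2 * A⁻¹ ≤ 1 / 8 := by
    rw [← div_eq_mul_inv, div_le_iff₀ hA0]
    have : 64 * r ^ 2 ≤ A := by rw [hAdef]; linarith
    linarith
  have f2 : 200 ≤ 8 * r ^ 2 * (q0 ^ 2 * A) := by
    have h : 200 / (8 * r ^ 2 * q0 ^ 2) ≤ A := by rw [hAdef]; linarith
    rw [div_le_iff₀ (by positivity)] at h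
    linarith
  have f3 : 8 * r ^ 2 * ((r ^ 2 + c) ^ 2 * A⁻¹) ≤ 1 / 2 ^ 24 := by
    rw [← mul_assoc, ← div_eq_mul_inv, div_le_iff₀ hA0]
    have h : 2 ^ 24 * (8 * r ^ 2 * (r ^ 2 + c) ^ 2) ≤ A := by rw [hAdef]; linarith
    norm_num at h ⊢
    linarith
  have f4 : 1 ≤ 8 * r ^ 2 * (((1 / 4) ^ 10) ^ 2 * A) := by
    have h : 4 ^ 20 / (8 * r ^ 2) ≤ A := by rw [hAdef]; linarith
    rw [div_le_iff₀ (by positivity)] at h
    norm_num at h ⊢
    linarith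
  refine ⟨Real.log A + 10, ?_⟩
  intro l hl V X hP hX
  have hDD : ∀ v ∈ DD, ‖v‖ ≤ 1 := fun v hv => by
    simpa [DD] using hv
  have hup : ∀ j, ∀ v ∈ DD, V j v ≤ Real.log A + 10 := by
    obtain ⟨j0, v0, D, Vt, Y, θ, t0, hv0, hC, ht0, hVt0, hmax, hloc⟩ :=
      h1 inst hB hG (fun j v => V j v + 1 * eta j v)
        (fun j => (hP.cV j).add (continuous_const.mul (eta_cont j)))
        (fun j v hv => by
          rw [hP.rV j v hv, eta_rel j v hv])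
    have hS := h2 (dEB r c) (h3 r c hr hc).2.2 l V X hP D Vt Y θ hC j0
    obtain ⟨hc2, hL⟩ := eqn hC (hX j0) hS ht0
    have hm := maxL hC ht0 hc2 hloc
    have hθ : 0 < ‖θ t0‖ ^ 2 := by
      have := norm_pos_iff.2 (hC.ne t0 ht0)
      positivity
    rw [hL] at hm
    have hm' : 4 * r ^ 2 * rhs r c l j0 (Vt t0) (V j0 (Vt t0)) +
        ‖Y t0‖ ^ 6 * UN2_L (eta j0) (Vt t0) ≤ 0 := by
      by_contra hcon
      push Not at hcon
      have := mul_pos hθ hcon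
      linarith
    rw [hVt0] at hm'
    have hY := y6 (hC.eq t0 ht0)
    rw [hVt0] at hY
    have hb := upper hr hc hrc hl hA f1 f2 (hDD v0 hv0) (by positivity) (hY.1 (hDD v0 hv0))
      (eta_L2 j0 v0) hY.2 (eta_L1 j0 v0) hm'
    intro j v hv
    have h9 := hmax j v
    simp only [one_mul] at h9
    have h10 := abs_le.1 (eta_bd j v (hDD v hv))
    have h11 := abs_le.1 (eta_bd j0 v0 (hDD v0 hv0))
    linarith
  have hlow : ∀ j, ∀ v ∈ DD, -(Real.log A + 10) ≤ V j v := by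
    obtain ⟨j0, v0, D, Vt, Y, θ, t0, hv0, hC, ht0, hVt0, hmax, hloc⟩ :=
      h1 inst hB hG (fun j v => -V j v + 1 / 2 ^ 22 * eta j v)
        (fun j => (hP.cV j).neg.add (continuous_const.mul (eta_cont j)))
        (fun j v hv => by
          rw [hP.rV j v hv, eta_rel j v hv])
    have hS := h2 (dEB r c) (h3 r c hr hc).2.2 l V X hP D Vt Y θ hC j0
    obtain ⟨hc2, hL⟩ := eqn hC (hX j0) hS ht0
    have hm := maxL (g := fun w => -V j0 (Vt w)) hC ht0 hc2.neg hloc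
    have hθ : 0 < ‖θ t0‖ ^ 2 := by
      have := norm_pos_iff.2 (hC.ne t0 ht0)
      positivity
    rw [L_neg hc2, hL] at hm
    have hm' : -(4 * r ^ 2 * rhs r c l j0 (Vt t0) (V j0 (Vt t0))) +
        1 / 2 ^ 22 * (‖Y t0‖ ^ 6 * UN2_L (eta j0) (Vt t0)) ≤ 0 := by
      by_contra hcon
      push Not at hcon
      have := mul_pos hθ hcon
      linarith
    rw [hVt0] at hm'
    have hY := y6 (hC.eq t0 ht0)
    rw [hVt0] at hY
    have hb := lower hr hc hl hA f3 f4 (hDD v0 hv0) (by positivity) (hY.1 (hDD v0 hv0))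
      (eta_L2 j0 v0) hY.2 (eta_L1 j0 v0) hm'
    intro j v hv
    have h9 := hmax j v
    have h10 := abs_le.1 (eta_bd j v (hDD v hv))
    have h11 := abs_le.1 (eta_bd j0 v0 (hDD v0 hv0))
    norm_num at h9
    linarith
  intro j v hv
  exact abs_le.2 ⟨hlow j v hv, hup j v hv⟩

end Pool.Agent.H794.EX
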