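import Pool.Agent.H794.EX.Spec

/-! Leaf BDL: the lower bound for the Hitchin section. -/

set_option autoImplicit false

open scoped Manifold ContDiff Matrix ComplexOrder
open Matrix Topology MeasureTheory Set Filter

namespace Pool.Agent.H794.EX

open Pool.Agent.Helper614.HE Pool.Agent.Helper614.HE.P_UN2 Pool.Agent.H794

namespace BDLL

/-! ### Wirtinger calculus -/

/-- the real linear map `h ↦ a h + b conj h` -/
noncomputable def wl (a b : ℂ) : ℂ →L[ℝ] ℂ :=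
  a • (ContinuousLinearMap.id ℝ ℂ) + b • (Complex.conjCLE : ℂ →L[ℝ] ℂ)

theorem wl_apply (a b h : ℂ) : wl a b h = a * h + b * (starRingEnd ℂ) h := by
  simp [wl]

/-- `∂f = a`, `∂̄f = b` -/
def HW (f : ℂ → ℂ) (a b : ℂ) (t : ℂ) : Prop := HasFDerivAt f (wl a b) t

theorem HW.dz {f : ℂ → ℂ} {a b t : ℂ} (h : HW f a b t) : dz f t = a := by
  unfold Helper614.HE.dz
  rw [HasFDerivAt.fderiv h, wl_apply, wl_apply]
  simp only [map_one, Complex.conj_I]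
  linear_combination (-(a - b) / 2) * Complex.I_mul_I

theorem HW.dzb {f : ℂ → ℂ} {a b t : ℂ} (h : HW f a b t) : dzb f t = b := by
  unfold Helper614.HE.dzb
  rw [HasFDerivAt.fderiv h, wl_apply, wl_apply]
  simp only [map_one, Complex.conj_I]
  linear_combination ((a - b) / 2) * Complex.I_mul_I

theorem HW.holo {f : ℂ → ℂ} {t : ℂ} (h : DifferentiableAt ℂ f t) : HW f (deriv f t) 0 t := by
  have h1 := (h.hasDerivAt.hasFDerivAt).restrictScalars ℝ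
  refine h1.congr_fderiv ?_
  ext
  simp [wl, mul_comm]

theorem HW.conj {f : ℂ → ℂ} {a b t : ℂ} (h : HW f a b t) :
    HW (fun t => (starRingEnd ℂ) (f t)) ((starRingEnd ℂ) b) ((starRingEnd ℂ) a) t := by
  have h1 := (Complex.conjCLE : ℂ →L[ℝ] ℂ).hasFDerivAt.comp t h
  refine h1.congr_fderiv ?_
  ext
  simp [wl, add_comm]

theorem HW.mul {f g : ℂ → ℂ} {a b a' b' t : ℂ} (h : HW f a b t) (h' : HW g a' b' t) :
    HW (fun t => f t * g t) (f t * a' + g t * a) (f t * b' + g t * b) t := by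
  have h1 := HasFDerivAt.mul h h'
  refine h1.congr_fderiv ?_
  ext
  simp [wl]
  ring

theorem HW.add {f g : ℂ → ℂ} {a b a' b' t : ℂ} (h : HW f a b t) (h' : HW g a' b' t) :
    HW (fun t => f t + g t) (a + a') (b + b') t := by
  have h1 := HasFDerivAt.add h h'
  refine h1.congr_fderiv ?_
  ext
  simp [wl]
  ring

theorem HW.sub {f g : ℂ → ℂ} {a b a' b' t : ℂ} (h : HW f a b t) (h' : HW g a' b' t) :
    HW (fun t => f t - g t) (a - a') (b - b') t := by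
  have h1 := HasFDerivAt.sub h h'
  refine h1.congr_fderiv ?_
  ext
  simp [wl]
  ring

theorem HW.const (c t : ℂ) : HW (fun _ => c) 0 0 t := by
  have h1 := hasFDerivAt_const (𝕜 := ℝ) c t
  refine h1.congr_fderiv ?_
  ext
  simp [wl]

/-- composition with a holomorphic function -/
theorem HW.comp {f : ℂ → ℂ} {G : ℂ → ℂ} {a b t G' : ℂ} (h : HW f a b t)
    (hG : HasDerivAt G G' (f t)) : HW (fun t => G (f t)) (G' * a) (G' * b) t := by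
  have h1 := (hG.hasFDerivAt.restrictScalars ℝ).comp t h
  refine h1.congr_fderiv ?_
  ext
  simp [wl]
  ring

theorem HW.pow {f : ℂ → ℂ} {a b t : ℂ} (h : HW f a b t) (n : ℕ) :
    HW (fun t => f t ^ n) (n * f t ^ (n - 1) * a) (n * f t ^ (n - 1) * b) t :=
  h.comp (hasDerivAt_pow n (f t))

theorem HW.inv {f : ℂ → ℂ} {a b t : ℂ} (h : HW f a b t) (h0 : f t ≠ 0) :
    HW (fun t => (f t)⁻¹) (-((f t)⁻¹ ^ 2) * a) (-((f t)⁻¹ ^ 2) * b) t := by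
  have h1 := h.comp (hasDerivAt_inv h0)
  have h2 : -(f t ^ 2)⁻¹ = -((f t)⁻¹ ^ 2) := by rw [inv_pow]
  rw [h2] at h1
  exact h1

theorem HW.congr {f : ℂ → ℂ} {a b a' b' t : ℂ} (h : HW f a b t) (ha : a = a') (hb : b = b') :
    HW f a' b' t := by
  subst ha hb
  exact h

/-! ### The comparison function in a chart -/

section chart

variable {D : Set ℂ} {Vt Y θ : ℂ → ℂ} (hC : Cht D Vt Y θ)

/-- the function `1 / (1 + |v|²)` -/
noncomputable def rr (Vt : ℂ → ℂ) (t : ℂ) : ℂ := (1 + Vt t * (starRingEnd ℂ) (Vt t))⁻¹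

theorem rr_eq (Vt : ℂ → ℂ) (t : ℂ) : rr Vt t = (((1 + ‖Vt t‖ ^ 2)⁻¹ : ℝ) : ℂ) := by
  unfold rr
  rw [Complex.mul_conj, Complex.normSq_eq_norm_sq]
  push_cast
  rfl

theorem w_ne (Vt : ℂ → ℂ) (t : ℂ) : 1 + Vt t * (starRingEnd ℂ) (Vt t) ≠ 0 := by
  rw [Complex.mul_conj, Complex.normSq_eq_norm_sq]
  have h : (0 : ℝ) < 1 + ‖Vt t‖ ^ 2 := by positivity
  exact_mod_cast h.ne'

/-- the comparison function -/
noncomputable def FF (Vt Y : ℂ → ℂ) (t : ℂ) : ℂ := Y t * (starRingEnd ℂ) (Y t) * rr Vt t ^ 4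

/-- its derivative -/
noncomputable def AA (Vt Y θ : ℂ → ℂ) (t : ℂ) : ℂ :=
  4 * θ t * ((starRingEnd ℂ) (Y t) * (Vt t ^ 15 * rr Vt t ^ 4 -
    Y t ^ 4 * ((starRingEnd ℂ) (Vt t) * rr Vt t ^ 5)))

include hC in
theorem hwV {t : ℂ} (ht : t ∈ D) : HW Vt (θ t * Y t ^ 3) 0 t :=
  (HW.holo ((hC.hV t ht).differentiableAt (hC.op.mem_nhds ht))).congr (hC.dv t ht) rfl

include hC in
theorem hwY {t : ℂ} (ht : t ∈ D) : HW Y (4 * Vt t ^ 15 * θ t) 0 t :=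
  (HW.holo ((hC.hY t ht).differentiableAt (hC.op.mem_nhds ht))).congr (hC.dy t ht) rfl

include hC in
theorem hwθ {t : ℂ} (ht : t ∈ D) : HW θ (deriv θ t) 0 t :=
  HW.holo ((hC.hθ t ht).differentiableAt (hC.op.mem_nhds ht))

include hC in
theorem hwr {t : ℂ} (ht : t ∈ D) : HW (rr Vt)
    (-(rr Vt t ^ 2) * (θ t * Y t ^ 3 * (starRingEnd ℂ) (Vt t)))
    (-(rr Vt t ^ 2) * (Vt t * (starRingEnd ℂ) (θ t * Y t ^ 3))) t := by
  have h1 := hwV hC ht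
  have h2 := ((HW.const 1 t).add (h1.mul h1.conj)).inv (w_ne Vt t)
  refine h2.congr ?_ ?_
  · unfold rr
    rw [map_zero]
    ring
  · unfold rr
    ring

include hC in
theorem hwF {t : ℂ} (ht : t ∈ D) : dz (BDLL.FF Vt Y) t = AA Vt Y θ t := by
  have h1 := hwY hC ht
  have h2 := (h1.mul h1.conj).mul ((hwr hC ht).pow 4)
  have h3 := h2.dz
  change dz (BDLL.FF Vt Y) t = _ at h3
  rw [h3]
  unfold AA
  rw [map_zero]
  push_cast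
  ring

include hC in
theorem hwA {t : ℂ} (ht : t ∈ D) : dzb (AA Vt Y θ) t =
    θ t * (starRingEnd ℂ) (θ t) * (16 * Vt t ^ 15 * (starRingEnd ℂ) (Vt t) ^ 15 * rr Vt t ^ 4
      - 16 * (starRingEnd ℂ) (Vt t) ^ 16 * Y t ^ 4 * rr Vt t ^ 5
      - 16 * Vt t ^ 16 * (starRingEnd ℂ) (Y t) ^ 4 * rr Vt t ^ 5
      - 4 * Y t ^ 4 * (starRingEnd ℂ) (Y t) ^ 4 * rr Vt t ^ 5
      + 20 * Y t ^ 4 * (starRingEnd ℂ) (Y t) ^ 4 * Vt t * (starRingEnd ℂ) (Vt t) *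
        rr Vt t ^ 6) := by
  have h1 := hwY hC ht
  have h2 := hwV hC ht
  have h3 := hwr hC ht
  have h4 := ((HW.const 4 t).mul (hwθ hC ht)).mul (h1.conj.mul
    (((h2.pow 15).mul (h3.pow 4)).sub ((h1.pow 4).mul (h2.conj.mul (h3.pow 5)))))
  have h5 := h4.dzb
  change dzb (AA Vt Y θ) t = _ at h5
  rw [h5]
  simp only [map_mul, map_pow, map_ofNat]
  push_cast
  ring

include hC in
theorem lap_lower {t : ℂ} (ht : t ∈ D) (hv : ‖Vt t‖ ≤ 1) :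
    ‖θ t‖ ^ 2 * (‖Vt t‖ ^ 30 - 32 * ‖Y t‖ ^ 4 - 4 * ‖Y t‖ ^ 8) ≤
      (dzb (dz (BDLL.FF Vt Y)) t).re := by
  have h0 : dz (BDLL.FF Vt Y) =ᶠ[𝓝 t] AA Vt Y θ := by
    filter_upwards [hC.op.mem_nhds ht] with s hs
    exact hwF hC hs
  have h1 : dzb (dz (BDLL.FF Vt Y)) t = dzb (AA Vt Y θ) t := by
    unfold dzb
    rw [h0.fderiv_eq]
  rw [h1, hwA hC ht, rr_eq]
  set x : ℝ := ‖Vt t‖ with hx
  set y : ℝ := ‖Y t‖ with hy
  set ρ : ℝ := (1 + x ^ 2)⁻¹ with hρ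
  set z : ℂ := (starRingEnd ℂ) (Vt t) ^ 16 * Y t ^ 4 with hz
  have hx0 : 0 ≤ x := norm_nonneg _
  have hy0 : 0 ≤ y := norm_nonneg _
  have e1 : θ t * (starRingEnd ℂ) (θ t) = ((‖θ t‖ ^ 2 : ℝ) : ℂ) := by
    rw [Complex.mul_conj, Complex.normSq_eq_norm_sq]
  have e2 : Vt t * (starRingEnd ℂ) (Vt t) = ((x ^ 2 : ℝ) : ℂ) := by
    rw [Complex.mul_conj, Complex.normSq_eq_norm_sq]
  have e3 : Y t * (starRingEnd ℂ) (Y t) = ((y ^ 2 : ℝ) : ℂ) := by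
    rw [Complex.mul_conj, Complex.normSq_eq_norm_sq]
  have e4 : (starRingEnd ℂ) z = Vt t ^ 16 * (starRingEnd ℂ) (Y t) ^ 4 := by
    rw [hz, map_mul, map_pow, map_pow, Complex.conj_conj]
  have e5 : θ t * (starRingEnd ℂ) (θ t) *
      (16 * Vt t ^ 15 * (starRingEnd ℂ) (Vt t) ^ 15 * (ρ : ℂ) ^ 4
      - 16 * (starRingEnd ℂ) (Vt t) ^ 16 * Y t ^ 4 * (ρ : ℂ) ^ 5
      - 16 * Vt t ^ 16 * (starRingEnd ℂ) (Y t) ^ 4 * (ρ : ℂ) ^ 5
      - 4 * Y t ^ 4 * (starRingEnd ℂ) (Y t) ^ 4 * (ρ : ℂ) ^ 5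
      + 20 * Y t ^ 4 * (starRingEnd ℂ) (Y t) ^ 4 * Vt t * (starRingEnd ℂ) (Vt t) *
        (ρ : ℂ) ^ 6) =
      ((‖θ t‖ ^ 2 * (16 * x ^ 30 * ρ ^ 4 - 4 * y ^ 8 * ρ ^ 5 + 20 * y ^ 8 * x ^ 2 * ρ ^ 6) : ℝ) : ℂ)
        - ((‖θ t‖ ^ 2 * (16 * ρ ^ 5) : ℝ) : ℂ) * (z + (starRingEnd ℂ) z) := by
    have f1 : Vt t ^ 15 * (starRingEnd ℂ) (Vt t) ^ 15 = ((x ^ 30 : ℝ) : ℂ) := by
      rw [← mul_pow, e2]
      push_cast
      ring
    have f2 : Y t ^ 4 * (starRingEnd ℂ) (Y t) ^ 4 = ((y ^ 8 : ℝ) : ℂ) := by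
      rw [← mul_pow, e3]
      push_cast
      ring
    rw [e4, hz]
    have f3 : ∀ A B C E T R : ℂ, T * (16 * A * B * R ^ 4 - 16 * C - 16 * E -
        4 * (Y t ^ 4 * (starRingEnd ℂ) (Y t) ^ 4) * R ^ 5 +
        20 * (Y t ^ 4 * (starRingEnd ℂ) (Y t) ^ 4) * (Vt t * (starRingEnd ℂ) (Vt t)) * R ^ 6) =
        T * (16 * (A * B) * R ^ 4 - 16 * C - 16 * E - 4 * ((y ^ 8 : ℝ) : ℂ) * R ^ 5 +
        20 * ((y ^ 8 : ℝ) : ℂ) * ((x ^ 2 : ℝ) : ℂ) * R ^ 6) := by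
      intro A B C E T R
      rw [f2, e2]
      ring
    have f4 := f3 (Vt t ^ 15) ((starRingEnd ℂ) (Vt t) ^ 15)
      ((starRingEnd ℂ) (Vt t) ^ 16 * Y t ^ 4 * (ρ : ℂ) ^ 5)
      (Vt t ^ 16 * (starRingEnd ℂ) (Y t) ^ 4 * (ρ : ℂ) ^ 5) (θ t * (starRingEnd ℂ) (θ t)) (ρ : ℂ)
    rw [f1, e1] at f4
    rw [e1]
    calc _ = _ := by ring
      _ = _ := f4
      _ = _ := by
        push_cast
        ring
  rw [e5]
  have e6 : (z + (starRingEnd ℂ) z) = ((2 * z.re : ℝ) : ℂ) := by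
    rw [Complex.add_conj]
  rw [e6, ← Complex.ofReal_mul, ← Complex.ofReal_sub, Complex.ofReal_re]
  have hρ0 : 0 < ρ := by positivity
  have hρ1 : ρ ≤ 1 := inv_le_one_of_one_le₀ (by nlinarith)
  have hρ2 : 1 / 2 ≤ ρ := by
    rw [hρ, ← one_div]
    exact one_div_le_one_div_of_le (by positivity) (by nlinarith)
  have e7 : z.re ≤ x ^ 16 * y ^ 4 := by
    refine (Complex.re_le_norm z).trans (le_of_eq ?_)
    rw [hz, norm_mul, norm_pow, norm_pow, Complex.norm_conj]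
  have e8 : x ^ 16 * y ^ 4 ≤ y ^ 4 := by
    have := pow_le_one₀ hx0 hv (n := 16)
    nlinarith [pow_nonneg hy0 4]
  have e9 : ρ ^ 5 ≤ 1 := pow_le_one₀ hρ0.le hρ1
  have e10 : (1 / 16 : ℝ) ≤ ρ ^ 4 := by
    have := pow_le_pow_left₀ (by norm_num : (0 : ℝ) ≤ 1 / 2) hρ2 4
    norm_num at this ⊢
    exact this
  have key : x ^ 30 - 32 * y ^ 4 - 4 * y ^ 8 ≤
      (16 * x ^ 30 * ρ ^ 4 - 4 * y ^ 8 * ρ ^ 5 + 20 * y ^ 8 * x ^ 2 * ρ ^ 6) -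
        16 * ρ ^ 5 * (2 * z.re) := by
    have g1 : x ^ 30 ≤ 16 * x ^ 30 * ρ ^ 4 := by
      nlinarith [pow_nonneg hx0 30]
    have g2 : 4 * y ^ 8 * ρ ^ 5 ≤ 4 * y ^ 8 := by
      nlinarith [pow_nonneg hy0 8]
    have g3 : 0 ≤ 20 * y ^ 8 * x ^ 2 * ρ ^ 6 := by positivity
    have g4 : 16 * ρ ^ 5 * (2 * z.re) ≤ 32 * y ^ 4 := by
      have g5 : 0 < ρ ^ 5 := pow_pos hρ0 5
      have g6 : ρ ^ 5 * z.re ≤ ρ ^ 5 * y ^ 4 :=
        mul_le_mul_of_nonneg_left (e7.trans e8) g5.le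
      have g7 : ρ ^ 5 * y ^ 4 ≤ 1 * y ^ 4 := mul_le_mul_of_nonneg_right e9 (pow_nonneg hy0 4)
      linarith
    linarith
  have hθ0 : 0 ≤ ‖θ t‖ ^ 2 := by positivity
  have := mul_le_mul_of_nonneg_left key hθ0
  linarith

end chart

/-! ### The function for the maximum principle -/

/-- the comparison function -/
noncomputable def psi (v : ℂ) : ℝ := Real.sqrt (sx v) / (1 + ‖v‖ ^ 2) ^ 4

theorem psi_cont : Continuous psi := by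
  unfold psi sx
  refine Continuous.div (by fun_prop) (by fun_prop) fun v => by positivity

theorem psi_inv {v : ℂ} (hv : v ≠ 0) : psi v⁻¹ = psi v := by
  have h0 : 0 < ‖v‖ := norm_pos_iff.2 hv
  have h1 : sx v⁻¹ = sx v / (‖v‖ ^ 8) ^ 2 := by
    unfold sx
    have e : (v⁻¹) ^ 16 + 1 = (v ^ 16 + 1) / v ^ 16 := by
      field_simp
      ring
    rw [e, norm_div, norm_pow, ← pow_mul]
  unfold psi
  rw [h1, Real.sqrt_div (show 0 ≤ sx v from norm_nonneg _), Real.sqrt_sq (by positivity), norm_inv]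
  have h2 : (1 + ‖v‖⁻¹ ^ 2) ^ 4 = (1 + ‖v‖ ^ 2) ^ 4 / ‖v‖ ^ 8 := by
    field_simp
    ring
  rw [h2]
  field_simp

theorem psi_nonneg (v : ℂ) : 0 ≤ psi v := by
  unfold psi
  positivity

theorem psi_le {v : ℂ} (hv : ‖v‖ ≤ 1) : psi v ≤ 2 := by
  unfold psi
  rw [div_le_iff₀ (by positivity)]
  have h1 : sx v ≤ 2 ^ 2 := by
    unfold sx
    refine (norm_add_le _ _).trans ?_
    rw [norm_pow, norm_one]
    have := pow_le_one₀ (norm_nonneg v) hv (n := 16)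
    linarith
  have h2 : Real.sqrt (sx v) ≤ 2 := by
    rw [← Real.sqrt_sq (by norm_num : (0 : ℝ) ≤ 2)]
    exact Real.sqrt_le_sqrt h1
  have h3 : (1 : ℝ) ≤ (1 + ‖v‖ ^ 2) ^ 4 := one_le_pow₀ (by nlinarith [sq_nonneg ‖v‖])
  linarith

theorem psi_chart {D : Set ℂ} {Vt Y θ : ℂ → ℂ} (hC : Cht D Vt Y θ) {t : ℂ} (ht : t ∈ D) :
    ((psi (Vt t) : ℝ) : ℂ) = BDLL.FF Vt Y t := by
  unfold psi sx FF
  rw [← hC.eq t ht, norm_pow, rr_eq, Complex.mul_conj, Complex.normSq_eq_norm_sq]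
  have h1 : Real.sqrt (‖Y t‖ ^ 4) = ‖Y t‖ ^ 2 := by
    rw [show ‖Y t‖ ^ 4 = (‖Y t‖ ^ 2) ^ 2 by ring, Real.sqrt_sq (by positivity)]
  rw [h1]
  push_cast
  rw [div_eq_mul_inv, inv_pow]

/-- the numerical estimate at the maximum -/
theorem numer {x y r E : ℝ} (hx0 : 0 ≤ x) (hx1 : x ≤ 1) (hy : y ^ 4 ≤ 2)
    (hxy : 1 - y ^ 4 ≤ x ^ 16)
    (h : 1 / 128000 * (x ^ 30 - 32 * y ^ 4 - 4 * y ^ 8) ≤ r * E - 10 * (y ^ 6 / (1 + x ^ 2) ^ 2)) :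
    1 / 256000 ≤ r * E := by
  have hd : y ^ 6 / 4 ≤ y ^ 6 / (1 + x ^ 2) ^ 2 := by
    refine div_le_div_of_nonneg_left (by positivity) (by positivity) ?_
    have : x ^ 2 ≤ 1 := pow_le_one₀ hx0 hx1
    nlinarith [sq_nonneg x]
  have hy8 : y ^ 8 = y ^ 4 * y ^ 4 := by ring
  have hy40 : 0 ≤ y ^ 4 := by positivity
  rcases le_or_gt (y ^ 4) (1 / 100) with h1 | h1
  · have h2 : x ^ 32 ≤ x ^ 30 := pow_le_pow_of_le_one hx0 hx1 (by norm_num)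
    have h3 : x ^ 32 = x ^ 16 * x ^ 16 := by ring
    have h4 : (99 / 100 : ℝ) ≤ x ^ 16 := by linarith
    have h5 : (98 / 100 : ℝ) ≤ x ^ 30 := by nlinarith
    have h6 : 0 ≤ y ^ 6 := by positivity
    nlinarith
  · have h2 : (1 / 10 : ℝ) < y ^ 2 := by
      by_contra hc
      push Not at hc
      have : y ^ 2 * y ^ 2 ≤ 1 / 10 * (1 / 10) :=
        mul_le_mul hc hc (by positivity) (by norm_num)
      nlinarith
    have h3 : (1 / 1000 : ℝ) ≤ y ^ 6 := by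
      have h4 : y ^ 6 = y ^ 2 * y ^ 4 := by ring
      nlinarith
    have h5 : 0 ≤ x ^ 30 := by positivity
    nlinarith

end BDLL

open BDLL in
theorem t_BDL (h1 : S_MXP) (h2 : S_CHR) (h3 : S_OKH) : S_BDL := by
  intro inst hB hG r c hr
  obtain ⟨hOK, -, hSmo⟩ := h3 r c hr
  refine ⟨-Real.log (1 / 256000 / (r ^ 2 * 2 ^ 10)) + 2, fun l hl V X hP j v _ => ?_⟩
  -- the maximum principle
  obtain ⟨j0, v0, D, Vt, Y, θ, t0, hv0, hC, ht0, hVt0, hglob, hloc⟩ := h1 inst hB hG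
    (fun j v => 1 / 128000 * psi v - V j v)
    (fun j => (continuous_const.mul psi_cont).sub (hP.cV j))
    (fun j v hv => by rw [psi_inv hv, hP.rV j v hv])
  obtain ⟨sV, -, B, Q, sB, sQ, hsys⟩ := h2 _ hSmo l V X hP D Vt Y θ hC j0
  have hx1 : ‖Vt t0‖ ≤ 1 := by
    rw [hVt0]
    exact mem_closedBall_zero_iff.1 hv0
  have hnhds := hC.op.mem_nhds ht0
  -- the smooth functions
  have cV : ContDiffAt ℝ 2 (fun t => V j0 (Vt t)) t0 :=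
    ((sV.contDiffAt hnhds).of_le (by norm_cast))
  have cY : ContDiffAt ℝ 2 Y t0 :=
    ((hC.hY.contDiffOn (n := 2) hC.op).contDiffAt hnhds).restrict_scalars ℝ
  have cVt : ContDiffAt ℝ 2 Vt t0 :=
    ((hC.hV.contDiffOn (n := 2) hC.op).contDiffAt hnhds).restrict_scalars ℝ
  have cpsi : ContDiffAt ℝ 2 (fun t => psi (Vt t)) t0 := by
    have e1 : (fun t => psi (Vt t)) =ᶠ[𝓝 t0] fun t => ‖Y t‖ ^ 2 * ((1 + ‖Vt t‖ ^ 2) ^ 4)⁻¹ := by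
      filter_upwards [hnhds] with t ht
      have e2 := psi_chart hC ht
      unfold BDLL.FF at e2
      rw [rr_eq, Complex.mul_conj, Complex.normSq_eq_norm_sq, ← Complex.ofReal_pow,
        ← Complex.ofReal_mul, inv_pow] at e2
      exact Complex.ofReal_injective e2
    refine ContDiffAt.congr_of_eventuallyEq ?_ e1
    refine (cY.norm_sq ℝ).mul (ContDiffAt.inv ?_ (by positivity))
    exact (contDiffAt_const.add (cVt.norm_sq ℝ)).pow 4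
  -- the Laplacian at the maximum
  have m1 := UN2_max (Φ := fun t => 1 / 128000 * psi (Vt t) - V j0 (Vt t))
    ((contDiffAt_const.mul cpsi).sub cV) hloc
  have m2 : (fun t => 1 / 128000 * psi (Vt t) - V j0 (Vt t)) =
      fun t => (0 + 1 / 128000 * psi (Vt t)) + (-1) * V j0 (Vt t) := by
    funext t
    ring
  rw [m2, UN2_L_add (g := fun t => 0 + 1 / 128000 * psi (Vt t))
    (contDiffAt_const.add (contDiffAt_const.mul cpsi)) cV (-1),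
    UN2_L_add (g := fun _ => (0 : ℝ)) contDiffAt_const cpsi (1 / 128000)] at m1
  have m3 : UN2_L (fun _ : ℂ => (0 : ℝ)) t0 = 0 := by unfold UN2_L; simp
  have m4 := UN2_levi cpsi
  have m5 := UN2_levi cV
  have m6 : (fun t => ((psi (Vt t) : ℝ) : ℂ)) =ᶠ[𝓝 t0] BDLL.FF Vt Y := by
    filter_upwards [hnhds] with t ht
    exact psi_chart hC ht
  have m7 : dz (fun t => ((psi (Vt t) : ℝ) : ℂ)) =ᶠ[𝓝 t0] dz (BDLL.FF Vt Y) := by
    filter_upwards [m6.eventuallyEq_nhds] with t ht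
    unfold dz
    rw [ht.fderiv_eq]
  have m8 : dzb (dz (fun t => ((psi (Vt t) : ℝ) : ℂ))) t0 = dzb (dz (BDLL.FF Vt Y)) t0 := by
    unfold dzb
    rw [m7.fderiv_eq]
  have m9 : dz (fun t => ((V j0 (Vt t) : ℝ) : ℂ)) =ᶠ[𝓝 t0] Q := by
    filter_upwards [hnhds] with t ht
    exact (hsys t ht).eV
  have m10 : dzb (dz (fun t => ((V j0 (Vt t) : ℝ) : ℂ))) t0 = dzb Q t0 := by
    unfold dzb
    rw [m9.fderiv_eq]
  rw [m8] at m4
  rw [m10, (hsys t0 ht0).eQ, Complex.neg_re, Complex.ofReal_re] at m5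
  have m11 := lap_lower hC ht0 hx1
  -- simplification
  have hP0 : 0 ≤ (dHT r c).P l j0 (Vt t0) (V j0 (Vt t0)) (X j0 (Vt t0)) := hOK.P0 l hl _ _ _ _
  have hdv : ‖deriv Vt t0‖ ^ 2 = ‖θ t0‖ ^ 2 * ‖Y t0‖ ^ 6 := by
    rw [hC.dv t0 ht0, norm_mul, norm_pow]
    ring
  rw [hdv] at m5
  change -(Real.exp (V j0 (Vt t0)) * (1 + ‖Vt t0‖ ^ 2) ^ 10 * ‖B t0‖ ^ 2 +
    (r ^ 2 * ‖θ t0‖ ^ 2 * ((dHT r c).P l j0 (Vt t0) (V j0 (Vt t0)) (X j0 (Vt t0)) -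
      (1 + ‖Vt t0‖ ^ 2) ^ 10 * Real.exp (V j0 (Vt t0))) +
      10 * (‖θ t0‖ ^ 2 * ‖Y t0‖ ^ 6 / (1 + ‖Vt t0‖ ^ 2) ^ 2))) = _ at m5
  rw [m4] at m11
  rw [m3] at m1
  set x : ℝ := ‖Vt t0‖ with hx
  set y : ℝ := ‖Y t0‖ with hy
  set E : ℝ := Real.exp (V j0 (Vt t0)) with hE
  set P : ℝ := (dHT r c).P l j0 (Vt t0) (V j0 (Vt t0)) (X j0 (Vt t0)) with hPd
  have hx0 : 0 ≤ x := norm_nonneg _
  have hE0 : 0 < E := Real.exp_pos _
  have hθ : 0 < ‖θ t0‖ ^ 2 := by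
    have := norm_pos_iff.2 (hC.ne t0 ht0)
    positivity
  have n1 : 0 ≤ E * (1 + x ^ 2) ^ 10 * ‖B t0‖ ^ 2 := by positivity
  have n2 : 0 ≤ r ^ 2 * ‖θ t0‖ ^ 2 * P := by positivity
  have n3 : ‖θ t0‖ ^ 2 * (1 / 128000 * (x ^ 30 - 32 * y ^ 4 - 4 * y ^ 8)) ≤
      ‖θ t0‖ ^ 2 * (r ^ 2 * ((1 + x ^ 2) ^ 10 * E) - 10 * (y ^ 6 / (1 + x ^ 2) ^ 2)) := by
    have e1 : ‖θ t0‖ ^ 2 * y ^ 6 / (1 + x ^ 2) ^ 2 =
        ‖θ t0‖ ^ 2 * (y ^ 6 / (1 + x ^ 2) ^ 2) := by ring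
    rw [e1] at m5
    nlinarith
  have n4 := le_of_mul_le_mul_left n3 hθ
  have n5 : y ^ 4 = ‖Vt t0 ^ 16 + 1‖ := by
    rw [← hC.eq t0 ht0, norm_pow]
  have n6 : y ^ 4 ≤ 2 := by
    rw [n5]
    refine (norm_add_le _ _).trans ?_
    rw [norm_pow, norm_one]
    have := pow_le_one₀ hx0 hx1 (n := 16)
    linarith
  have n7 : 1 - y ^ 4 ≤ x ^ 16 := by
    have e1 : (1 : ℂ) = (Vt t0 ^ 16 + 1) - Vt t0 ^ 16 := by ring
    have e2 := norm_sub_le (Vt t0 ^ 16 + 1) (Vt t0 ^ 16)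
    rw [← e1, norm_one, norm_pow, ← n5] at e2
    linarith
  have n8 := numer hx0 hx1 n6 n7 n4
  have n9 : r ^ 2 * ((1 + x ^ 2) ^ 10 * E) ≤ (r ^ 2 * 2 ^ 10) * E := by
    have e1 : (1 + x ^ 2) ^ 10 ≤ 2 ^ 10 := by
      refine pow_le_pow_left₀ (by positivity) ?_ 10
      have := pow_le_one₀ hx0 hx1 (n := 2)
      linarith
    have e2 : (1 + x ^ 2) ^ 10 * E ≤ 2 ^ 10 * E := mul_le_mul_of_nonneg_right e1 hE0.le
    have e3 := mul_le_mul_of_nonneg_left e2 (sq_nonneg r)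
    linarith
  have n10 : 1 / 256000 / (r ^ 2 * 2 ^ 10) ≤ E := by
    rw [div_le_iff₀ (by positivity)]
    linarith
  have n11 : Real.log (1 / 256000 / (r ^ 2 * 2 ^ 10)) ≤ V j0 (Vt t0) := by
    rw [← Real.log_exp (V j0 (Vt t0))]
    exact Real.log_le_log (by positivity) n10
  have n12 := hglob j v
  have n13 := psi_nonneg v
  have n14 := psi_le (v := v0) (mem_closedBall_zero_iff.1 hv0)
  rw [hVt0] at n11
  linarith

end Pool.Agent.H794.EX
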