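import Pool.Agent.H794.EX.EXH
import Pool.Agent.H794.Est

/-!
# Upper bounds for the Hitchin section
-/

set_option autoImplicit false

open scoped Manifold ContDiff Matrix ComplexOrder
open Matrix Topology MeasureTheory Set Filter

namespace Pool.Agent.H794.EX

open Pool.Agent.Helper614.HE Pool.Agent.H794 Pool.Agent.Helper614.HE.P_HIT
  Pool.Agent.Helper614.HE.P_UN2

namespace BDUL

/-- the square of the norm of the Higgs field -/
noncomputable def fN (a b : ℂ) (U : ℝ) (X : ℂ) : ℝ :=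
  6 * ‖X‖ ^ 2 + 2 * Real.exp U + 2 * (‖al a X‖ ^ 2 * Real.exp (-U)) +
    ‖be a b X‖ ^ 2 * Real.exp (-2 * U)

theorem nrm_Hm (a b : ℂ) (U : ℝ) (X : ℂ) : nrm (Hm U X) (Phl a b) = fN a b U X := by
  have h1 := HITL.adj_Phl U X 1 a b
  rw [one_smul, one_smul] at h1
  have h2 : Phl a b = nn (-X) * HITL.Ql X (al a X) (be a b X) * nn X := by
    rw [← HITL.conj_Phl]
    have h2 : nn (-X) * (nn X * Phl a b * nn (-X)) * nn X =
        (nn (-X) * nn X) * Phl a b * (nn (-X) * nn X) := by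
      simp only [Matrix.mul_assoc]
    rw [h2, HIT_nn_mul', Matrix.one_mul, Matrix.mul_one]
  rw [nrm, h1]
  conv_lhs => rw [h2]
  set D := dd (-U) * (HITL.Ql X (al a X) (be a b X))ᴴ * dd U with hD
  set N := HITL.Ql X (al a X) (be a b X) with hN
  have h3 : nn (-X) * N * nn X * (nn (-X) * D * nn X) = nn (-X) * (N * D) * nn X := by
    calc nn (-X) * N * nn X * (nn (-X) * D * nn X)
        = nn (-X) * N * (nn X * nn (-X)) * D * nn X := by simp only [Matrix.mul_assoc]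
      _ = nn (-X) * (N * D) * nn X := by
        rw [HIT_nn_mul, Matrix.mul_one]
        simp only [Matrix.mul_assoc]
  rw [h3, Matrix.trace_mul_comm, ← Matrix.mul_assoc, HIT_nn_mul, Matrix.one_mul]
  have hE : (Real.exp U : ℂ) * (Real.exp (-U) : ℂ) = 1 := by
    rw [← Complex.ofReal_mul, ← Real.exp_add]
    simp
  have h4 : (Real.exp (-2 * U) : ℂ) = (Real.exp (-U) : ℂ) * (Real.exp (-U) : ℂ) := by
    rw [← Complex.ofReal_mul, ← Real.exp_add]
    congr 2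
    ring
  have hn : ∀ z : ℂ, ((‖z‖ ^ 2 : ℝ) : ℂ) = z * (starRingEnd ℂ) z := by
    intro z
    rw [Complex.mul_conj']
    push_cast
    rfl
  have h5 : (N * D).trace = ((fN a b U X : ℝ) : ℂ) := by
    have hdd : dd (-U) = !![(Real.exp (-U) : ℂ), 0, 0; 0, 1, 0; 0, 0, (Real.exp U : ℂ)] := by
      rw [dd, neg_neg]
    have hNc : Nᴴ = !![(starRingEnd ℂ) X, (starRingEnd ℂ) (al a X), (starRingEnd ℂ) (be a b X);
        1, -2 * (starRingEnd ℂ) X, (starRingEnd ℂ) (al a X); 0, 1, (starRingEnd ℂ) X] := by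
      ext i j
      fin_cases i <;> fin_cases j <;> simp [hN, HITL.Ql, Matrix.conjTranspose_apply]
    have e1 : ((fN a b U X : ℝ) : ℂ) = 6 * (X * (starRingEnd ℂ) X) + 2 * (Real.exp U : ℂ) +
        2 * (al a X * (starRingEnd ℂ) (al a X) * (Real.exp (-U) : ℂ)) +
        be a b X * (starRingEnd ℂ) (be a b X) * (Real.exp (-2 * U) : ℂ) := by
      rw [fN, ← hn, ← hn, ← hn]
      push_cast
      ring
    rw [e1, h4, hD, hNc, hdd, dd, hN, HITL.Ql]
    generalize (Real.exp U : ℂ) = E at *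
    generalize (Real.exp (-U) : ℂ) = E' at *
    generalize (starRingEnd ℂ) (al a X) = α' at *
    generalize (starRingEnd ℂ) (be a b X) = β' at *
    generalize (starRingEnd ℂ) X = x' at *
    rw [Matrix.trace, Fin.sum_univ_three]
    simp
    linear_combination (2 * X * x') * hE
  rw [h5, Complex.ofReal_re]

theorem fN_pos (a b : ℂ) (U : ℝ) (X : ℂ) : 0 < fN a b U X := by
  unfold fN
  positivity

/-- the function to which the maximum principle is applied -/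
noncomputable def uFn (r c l : ℝ) (V : Bool → ℂ → ℝ) (X : Bool → ℂ → ℂ) (j : Bool) (v : ℂ) : ℝ :=
  Real.log (fN ((l : ℂ) * qa r c j v) ((l : ℂ) * qb r c j v) (UU0 V j v) (X j v)) -
    10 * Real.log (1 + ‖v‖ ^ 2)

theorem uFn_cont {r c l : ℝ} {V : Bool → ℂ → ℝ} {X : Bool → ℂ → ℂ} {d : Dat} {l' : ℝ}
    (hP : Plane d l' V X) (j : Bool) : Continuous (uFn r c l V X j) := by
  have hV := hP.cV j
  have hX := hP.cX j
  have ha : Continuous (qa r c j) := (qa_diff r c j).continuous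
  have hb : Continuous (qb r c j) := (qb_diff r c j).continuous
  have hl : Continuous (fun v : ℂ => Real.log (1 + ‖v‖ ^ 2)) :=
    Continuous.log (by fun_prop) (fun v => by positivity)
  have hU : Continuous (UU0 V j) := hV.add (continuous_const.mul hl)
  refine Continuous.sub (Continuous.log ?_ fun v => (fN_pos _ _ _ _).ne') (continuous_const.mul hl)
  unfold fN al be
  fun_prop

theorem uFn_rel {r c l : ℝ} {V : Bool → ℂ → ℝ} {X : Bool → ℂ → ℂ} {d : Dat} {l' : ℝ}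
    (hP : Plane d l' V X) (j : Bool) (v : ℂ) (hv : v ≠ 0) :
    uFn r c l V X j v = uFn r c l V X (!j) v⁻¹ := by
  have hn : 0 < ‖v‖ := norm_pos_iff.2 hv
  have e3 : (1 : ℝ) + ‖v⁻¹‖ ^ 2 = (1 + ‖v‖ ^ 2) / ‖v‖ ^ 2 := by
    rw [norm_inv]; field_simp; ring
  have hp1 : (0 : ℝ) < 1 + ‖v‖ ^ 2 := by positivity
  have hU : Real.exp (UU0 V (!j) v⁻¹) = Real.exp (UU0 V j v) / ‖v‖ ^ 20 := by
    rw [exp_UU0, exp_UU0, ← hP.rV j v hv, e3, div_pow]
    field_simp
  have hUn : Real.exp (-UU0 V (!j) v⁻¹) = Real.exp (-UU0 V j v) * ‖v‖ ^ 20 := by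
    rw [Real.exp_neg, hU, Real.exp_neg]
    field_simp
  have hU2 : Real.exp (-2 * UU0 V (!j) v⁻¹) = Real.exp (-2 * UU0 V j v) * ‖v‖ ^ 40 := by
    have h1 : Real.exp (-2 * UU0 V (!j) v⁻¹) = Real.exp (-UU0 V (!j) v⁻¹) ^ 2 := by
      rw [← Real.exp_nat_mul]; congr 1; push_cast; ring
    have h2 : Real.exp (-2 * UU0 V j v) = Real.exp (-UU0 V j v) ^ 2 := by
      rw [← Real.exp_nat_mul]; congr 1; push_cast; ring
    rw [h1, hUn, h2]
    ring
  have hX : X (!j) v⁻¹ = -(X j v / v ^ 10) := by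
    rw [hP.rX j v hv]
    field_simp
  have hA : (l : ℂ) * qa r c (!j) v⁻¹ = (l : ℂ) * qa r c j v / v ^ 20 := by
    rw [qa_rel r c j hv]
    field_simp
  have hBq : (l : ℂ) * qb r c (!j) v⁻¹ = -((l : ℂ) * qb r c j v / v ^ 30) := by
    rw [qb_rel r c j hv]
    field_simp
  set a := (l : ℂ) * qa r c j v with ha
  set b := (l : ℂ) * qb r c j v with hb
  have hal : al (a / v ^ 20) (-(X j v / v ^ 10)) = al a (X j v) / v ^ 20 := by
    unfold al
    field_simp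
  have hbe : be (a / v ^ 20) (-(b / v ^ 30)) (-(X j v / v ^ 10)) = -(be a b (X j v) / v ^ 30) := by
    unfold be
    field_simp
    ring
  have hf : fN (a / v ^ 20) (-(b / v ^ 30)) (UU0 V (!j) v⁻¹) (-(X j v / v ^ 10)) =
      fN a b (UU0 V j v) (X j v) / ‖v‖ ^ 20 := by
    unfold fN
    rw [hal, hbe, hU, hUn, hU2, norm_neg, norm_neg, norm_div, norm_div, norm_div, norm_pow,
      norm_pow, norm_pow]
    field_simp
  unfold uFn
  rw [hA, hBq, hX, hf, Real.log_div (fN_pos _ _ _ _).ne' (by positivity), e3,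
    Real.log_div hp1.ne' (by positivity), ← ha, ← hb]
  have e4 : Real.log (‖v‖ ^ 20) = 10 * Real.log (‖v‖ ^ 2) := by
    rw [Real.log_pow, Real.log_pow]; norm_num; ring
  rw [e4]
  ring

/-- the Levi form of a real function with known second Wirtinger derivative -/
theorem L_of {g : ℂ → ℝ} {z : ℂ} {w : ℂ → ℂ} {k : ℂ} (hg : ContDiffAt ℝ 2 g z)
    (h1 : ∀ᶠ t in 𝓝 z, dz (fun t => (g t : ℂ)) t = w t) (h2 : dzb w z = k) :
    UN2_L g z = 4 * k.re := by
  have h3 := UN2_levi hg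
  have h4 : dzb (dz (fun t => (g t : ℂ))) z = dzb w z := by
    apply P_REM.REM_dzb_congr
    filter_upwards [h1] with t ht using ht
  rw [h4, h2] at h3
  linarith

theorem L_log_one {Vt : ℂ → ℂ} {z : ℂ} (h : ∀ᶠ w in 𝓝 z, DifferentiableAt ℂ Vt w) :
    ContDiffAt ℝ 2 (fun w => Real.log (1 + ‖Vt w‖ ^ 2)) z ∧
    UN2_L (fun w => Real.log (1 + ‖Vt w‖ ^ 2)) z =
      4 * (‖deriv Vt z‖ ^ 2 / (1 + ‖Vt z‖ ^ 2) ^ 2) := by
  have h1 : ContDiffAt ℝ 2 Vt z := by
    have := Complex.analyticAt_iff_eventually_differentiableAt.2 h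
    exact (this.contDiffAt (n := 2)).restrict_scalars ℝ
  have h2 : ContDiffAt ℝ 2 (fun t => ‖Vt t‖ ^ 2) z := h1.norm_sq ℝ
  have h3 : ContDiffAt ℝ 2 (fun t => Real.log (1 + ‖Vt t‖ ^ 2)) z :=
    (contDiffAt_const.add h2).log (by positivity)
  refine ⟨h3, ?_⟩
  obtain ⟨a, h4⟩ := HW.log_two h
  have h5 := L_of h3 (w := fun w => ((1 + ‖Vt w‖ ^ 2 : ℝ) : ℂ)⁻¹ *
    ((starRingEnd ℂ) (Vt w) * deriv Vt w)) ?_ h4.dzb
  · rw [h5, Complex.ofReal_re]
  · filter_upwards [h] with w hw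
    exact (HW.log_one hw).dz

end BDUL

open BDUL

theorem t_BDU (h1 : S_MXP) (h2 : S_CHR) (h3 : S_OKH) : S_BDU := by
  intro inst hB hG r c hr
  obtain ⟨δ, hδ, hH⟩ := henrici
  -- bounds of the coefficients on the disc
  have hK : IsCompact (DD) := isCompact_closedBall 0 1
  obtain ⟨A0, hA0⟩ : ∃ A0 : ℝ, 0 ≤ A0 ∧ ∀ j, ∀ v ∈ DD, ‖qa r c j v‖ ≤ A0 ∧ ‖qb r c j v‖ ≤ A0 := by
    have hq : ∀ j, ∃ C : ℝ, ∀ v ∈ DD, ‖qa r c j v‖ ≤ C ∧ ‖qb r c j v‖ ≤ C := fun j => by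
      obtain ⟨C1, hC1⟩ := hK.exists_bound_of_continuousOn (qa_diff r c j).continuous.continuousOn
      obtain ⟨C2, hC2⟩ := hK.exists_bound_of_continuousOn (qb_diff r c j).continuous.continuousOn
      exact ⟨max C1 C2, fun v hv => ⟨(hC1 v hv).trans (le_max_left _ _),
        (hC2 v hv).trans (le_max_right _ _)⟩⟩
    obtain ⟨C1, hC1⟩ := hq false
    obtain ⟨C2, hC2⟩ := hq true
    refine ⟨max 0 (max C1 C2), le_max_left _ _, fun j v hv => ?_⟩
    cases j
    · exact ⟨(hC1 v hv).1.trans ((le_max_left _ _).trans (le_max_right _ _)),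
        (hC1 v hv).2.trans ((le_max_left _ _).trans (le_max_right _ _))⟩
    · exact ⟨(hC2 v hv).1.trans ((le_max_right _ _).trans (le_max_right _ _)),
        (hC2 v hv).2.trans ((le_max_right _ _).trans (le_max_right _ _))⟩
  set F0 : ℝ := max (50 / (r ^ 2 * δ)) (20 * A0 + 10 * A0 ^ 2 + 1) with hF0
  have hF0p : 0 < F0 := lt_of_lt_of_le (by positivity) (le_max_left _ _)
  set R1 : ℝ := F0 * 2 ^ 10 with hR1
  refine ⟨max (Real.log R1) R1 + 1, ?_⟩
  intro l hl V X hP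
  obtain ⟨j, v0, D, Vt, Y, θ, t0, hv0, hC, ht0, hVt, hall, hmax⟩ :=
    h1 inst hB hG (uFn r c l V X) (uFn_cont hP) (uFn_rel hP)
  have hS : ChSol (dHT r c) l j D Vt θ (V j) (X j) := h2 _ (h3 r c hr).2.2 l V X hP D Vt Y θ hC j
  have hnh := hC.op.mem_nhds ht0
  have hVe : ∀ᶠ w in 𝓝 t0, DifferentiableAt ℂ Vt w := by
    filter_upwards [hnh] with w hw
    exact hC.hV.differentiableAt (hC.op.mem_nhds hw)
  -- the metric near the point
  set H : ℂ → M3 := fun w => Hm (UU0 V j (Vt w)) (X j (Vt w)) with hHdef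
  set S : ℂ → M3 := fun w => Phl ((l : ℂ) * qa r c j (Vt w)) ((l : ℂ) * qb r c j (Vt w)) with hSdef
  have hU2 : ContDiffAt ℝ 2 (fun t => UU0 V j (Vt t)) t0 :=
    contDiffAt_infty.1 ((UU0_smooth hC hS.1).contDiffAt hnh) 2
  have hX2 : ContDiffAt ℝ 2 (fun t => X j (Vt t)) t0 :=
    contDiffAt_infty.1 (hS.2.1.contDiffAt hnh) 2
  have hHC : ∀ a b, ContDiffAt ℝ 2 (fun w => H w a b) t0 := by
    intro a b
    exact contDiffAt_infty.1 (EXHL.Hm_smooth ((UU0_smooth hC hS.1).contDiffAt hnh)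
      (hS.2.1.contDiffAt hnh) a b) 2
  have hSd : ∀ᶠ w in 𝓝 t0, ∀ a b, DifferentiableAt ℂ (fun w => S w a b) w := by
    filter_upwards [hVe] with w hw a b
    have e1 : DifferentiableAt ℂ (fun w => qa r c j (Vt w)) w :=
      DifferentiableAt.comp w (qa_diff r c j _) hw
    have e2 : DifferentiableAt ℂ (fun w => qb r c j (Vt w)) w :=
      DifferentiableAt.comp w (qb_diff r c j _) hw
    fin_cases a <;> fin_cases b <;> simp [hSdef, Phl] <;> fun_prop
  have hpd : ∀ w, (H w).PosDef := fun w => (All.hHMP.1 _ _).1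
  have hS0 : S t0 ≠ 0 := by
    intro h0
    have := congrFun (congrFun h0 0) 1
    simp [hSdef, Phl] at this
  have hhit := hit_chart hC hS ht0
  set f0 : ℝ := nrm (H t0) (S t0) with hf0
  have hb := bochner (P := fun w => ((r : ℂ) * θ w) • S w) (S := S)
    (Filter.Eventually.of_forall hpd) hHC hSd
    (by simp only [Matrix.smul_mul, Matrix.mul_smul]) hS0 hhit
  have hv01 : ‖v0‖ ≤ 1 := by rwa [DD, mem_closedBall_zero_iff] at hv0
  have hθ : 0 < ‖θ t0‖ ^ 2 := by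
    have := hC.ne t0 ht0
    positivity
  have hf0p : 0 < f0 := nrm_pos (hpd t0) hS0
  have hl1 : ‖(l : ℂ)‖ ≤ 1 := by
    rw [Complex.norm_real, Real.norm_eq_abs, abs_of_nonneg hl.1]
    exact hl.2
  -- the bound at the maximum
  have hf0F : f0 ≤ F0 := by
    by_contra hcon
    push Not at hcon
    have hg1 : 20 * A0 + 10 * A0 ^ 2 + 1 < f0 := lt_of_le_of_lt (le_max_right _ _) hcon
    have hg2 : 50 / (r ^ 2 * δ) < f0 := lt_of_le_of_lt (le_max_left _ _) hcon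
    have hA00 : 0 ≤ A0 := hA0.1
    have ha : ‖(l : ℂ) * qa r c j (Vt t0)‖ ≤ A0 := by
      rw [norm_mul, hVt]
      calc ‖(l : ℂ)‖ * ‖qa r c j v0‖ ≤ 1 * A0 :=
            mul_le_mul hl1 (hA0.2 j v0 hv0).1 (norm_nonneg _) zero_le_one
        _ = A0 := one_mul _
    have hbb : ‖(l : ℂ) * qb r c j (Vt t0)‖ ≤ A0 := by
      rw [norm_mul, hVt]
      calc ‖(l : ℂ)‖ * ‖qb r c j v0‖ ≤ 1 * A0 :=
            mul_le_mul hl1 (hA0.2 j v0 hv0).2 (norm_nonneg _) zero_le_one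
        _ = A0 := one_mul _
    have hhen := henrici_nrm hH (hpd t0) (X := S t0)
      (by simp [hSdef, Phl, Matrix.trace, Fin.sum_univ_three])
      (by
        have e1 : (S t0 * S t0).trace = 2 * ((l : ℂ) * qa r c j (Vt t0)) := by
          simp only [hSdef, Phl]
          rw [Matrix.trace, Fin.sum_univ_three]
          simp
          ring
        rw [e1, norm_mul]
        have e2 : ‖(2 : ℂ)‖ = 2 := by norm_num
        rw [e2]
        change 2 * _ ≤ 1 / 10 * f0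
        nlinarith)
      (by
        have e1 : (S t0).det = (l : ℂ) * qb r c j (Vt t0) := by
          simp only [hSdef, Phl, Matrix.det_fin_three]
          simp
        rw [e1]
        change _ ≤ 1 / 100 * f0 ^ 3
        have e2 : ‖(l : ℂ) * qb r c j (Vt t0)‖ ^ 2 ≤ A0 ^ 2 := by
          exact pow_le_pow_left₀ (norm_nonneg _) hbb 2
        have e3 : 1 ≤ f0 := by nlinarith
        have e4 : (20 * A0) ^ 2 ≤ f0 ^ 2 := pow_le_pow_left₀ (by positivity) (by nlinarith) 2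
        have e5 : f0 ^ 2 ≤ f0 ^ 3 := pow_le_pow_right₀ e3 (by norm_num)
        nlinarith)
    change δ * f0 ^ 2 ≤ _ at hhen
    -- Bochner
    have hb2 := hb.2
    have e1 : adj (H t0) (((r : ℂ) * θ t0) • S t0) * S t0 -
        S t0 * adj (H t0) (((r : ℂ) * θ t0) • S t0) =
        star ((r : ℂ) * θ t0) • (adj (H t0) (S t0) * S t0 - S t0 * adj (H t0) (S t0)) := by
      rw [adj_smul, Matrix.smul_mul, Matrix.mul_smul, smul_sub]
    rw [e1, nrm_smul (hpd t0), norm_star, norm_mul, Complex.norm_real, Real.norm_eq_abs, mul_pow,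
      sq_abs] at hb2
    change 4 * (r ^ 2 * ‖θ t0‖ ^ 2 * _) / f0 ≤ _ at hb2
    have hb3 : 4 * (r ^ 2 * ‖θ t0‖ ^ 2 * (δ * f0)) ≤
        UN2_L (fun w => Real.log (nrm (H w) (S w))) t0 := by
      refine le_trans ?_ hb2
      rw [le_div_iff₀ hf0p]
      have : 0 ≤ 4 * (r ^ 2 * ‖θ t0‖ ^ 2) := by positivity
      have h9 := mul_le_mul_of_nonneg_left hhen this
      nlinarith
    -- the maximum
    have hlogC : ContDiffAt ℝ 2 (fun w => Real.log (nrm (H w) (S w))) t0 := hb.1.log hf0p.ne'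
    obtain ⟨hL1, hL2⟩ := L_log_one hVe
    have e2 : (fun t => uFn r c l V X j (Vt t)) = fun t => Real.log (nrm (H t) (S t)) +
        (-10) * Real.log (1 + ‖Vt t‖ ^ 2) := by
      funext t
      simp only [uFn, hHdef, hSdef, nrm_Hm]
      ring
    rw [e2] at hmax
    have hm := UN2_max (hlogC.add (contDiffAt_const.mul hL1)) hmax
    rw [UN2_L_add hlogC hL1, hL2] at hm
    -- the size of the last term
    have hY4 : ‖Y t0‖ ^ 4 ≤ 2 := by
      rw [← norm_pow, hC.eq t0 ht0, hVt]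
      calc ‖v0 ^ 16 + 1‖ ≤ ‖v0 ^ 16‖ + ‖(1 : ℂ)‖ := norm_add_le _ _
        _ ≤ 1 + 1 := by
          rw [norm_pow, norm_one]
          have := pow_le_one₀ (norm_nonneg v0) hv01 (n := 16)
          linarith
        _ = 2 := by norm_num
    have hY2 : ‖Y t0‖ ^ 2 ≤ 3 / 2 := by nlinarith [sq_nonneg (‖Y t0‖ ^ 2)]
    have hY6 : ‖Y t0‖ ^ 6 ≤ 4 := by
      have h8 : ‖Y t0‖ ^ 6 = ‖Y t0‖ ^ 4 * ‖Y t0‖ ^ 2 := by ring
      have h81 : 0 ≤ ‖Y t0‖ ^ 2 := by positivity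
      have h82 : 0 ≤ ‖Y t0‖ ^ 4 := by positivity
      rw [h8]
      nlinarith
    have hdv : ‖deriv Vt t0‖ ^ 2 = ‖θ t0‖ ^ 2 * ‖Y t0‖ ^ 6 := by
      rw [hC.dv t0 ht0, norm_mul, norm_pow]
      ring
    have h10 : ‖deriv Vt t0‖ ^ 2 / (1 + ‖Vt t0‖ ^ 2) ^ 2 ≤ 4 * ‖θ t0‖ ^ 2 := by
      rw [div_le_iff₀ (by positivity), hdv]
      have h11 : (1 : ℝ) ≤ (1 + ‖Vt t0‖ ^ 2) ^ 2 := by
        apply one_le_pow₀
        have : 0 ≤ ‖Vt t0‖ ^ 2 := by positivity
        linarith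
      have h12 : ‖θ t0‖ ^ 2 * ‖Y t0‖ ^ 6 ≤ ‖θ t0‖ ^ 2 * 4 := mul_le_mul_of_nonneg_left hY6 hθ.le
      nlinarith
    have h13 : 4 * (r ^ 2 * ‖θ t0‖ ^ 2 * (δ * f0)) ≤ 160 * ‖θ t0‖ ^ 2 := by linarith
    have h14 : r ^ 2 * δ * f0 ≤ 40 := by
      have h15 : ‖θ t0‖ ^ 2 * (r ^ 2 * δ * f0) ≤ ‖θ t0‖ ^ 2 * 40 := by linarith
      exact le_of_mul_le_mul_left h15 hθ
    rw [div_lt_iff₀ (by positivity)] at hg2
    linarith
  -- consequences everywhere
  have hF01 : 1 ≤ F0 := by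
    have : 20 * A0 + 10 * A0 ^ 2 + 1 ≤ F0 := le_max_right _ _
    have hA00 : 0 ≤ A0 := hA0.1
    nlinarith
  have hR11 : 1 ≤ R1 := by rw [hR1]; nlinarith
  have humax : uFn r c l V X j v0 ≤ Real.log F0 := by
    have e1 : uFn r c l V X j v0 = Real.log f0 - 10 * Real.log (1 + ‖v0‖ ^ 2) := by
      simp only [uFn, hf0, hHdef, hSdef, nrm_Hm, hVt]
    have e2 : 0 ≤ Real.log (1 + ‖v0‖ ^ 2) := Real.log_nonneg (by
      have : 0 ≤ ‖v0‖ ^ 2 := by positivity
      linarith)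
    have e3 : Real.log f0 ≤ Real.log F0 := Real.log_le_log hf0p hf0F
    rw [e1]
    linarith
  intro j' v' hv'
  have hv1 : ‖v'‖ ≤ 1 := by rwa [DD, mem_closedBall_zero_iff] at hv'
  have h20 := (hall j' v').trans humax
  set f1 : ℝ := fN ((l : ℂ) * qa r c j' v') ((l : ℂ) * qb r c j' v') (UU0 V j' v') (X j' v') with hf1
  have hf1p : 0 < f1 := fN_pos _ _ _ _
  have h21 : Real.log f1 ≤ Real.log R1 := by
    have e1 : uFn r c l V X j' v' = Real.log f1 - 10 * Real.log (1 + ‖v'‖ ^ 2) := rfl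
    rw [e1] at h20
    have e2 : Real.log (1 + ‖v'‖ ^ 2) ≤ Real.log 2 := by
      apply Real.log_le_log (by positivity)
      have : ‖v'‖ ^ 2 ≤ 1 := pow_le_one₀ (norm_nonneg _) hv1
      linarith
    rw [hR1, Real.log_mul hF0p.ne' (by norm_num), Real.log_pow]
    push_cast
    linarith
  have h22 : f1 ≤ R1 := (Real.log_le_log_iff hf1p (by linarith)).1 h21
  have h23 : 2 * Real.exp (UU0 V j' v') ≤ f1 ∧ 6 * ‖X j' v'‖ ^ 2 ≤ f1 := by
    rw [hf1, fN]
    constructor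
    · have : 0 ≤ 6 * ‖X j' v'‖ ^ 2 + 2 * (‖al ((l : ℂ) * qa r c j' v') (X j' v')‖ ^ 2 *
        Real.exp (-UU0 V j' v')) + ‖be ((l : ℂ) * qa r c j' v') ((l : ℂ) * qb r c j' v')
          (X j' v')‖ ^ 2 * Real.exp (-2 * UU0 V j' v') := by positivity
      linarith
    · have : 0 ≤ 2 * Real.exp (UU0 V j' v') + 2 * (‖al ((l : ℂ) * qa r c j' v') (X j' v')‖ ^ 2 *
        Real.exp (-UU0 V j' v')) + ‖be ((l : ℂ) * qa r c j' v') ((l : ℂ) * qb r c j' v')
          (X j' v')‖ ^ 2 * Real.exp (-2 * UU0 V j' v') := by positivity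
      linarith
  constructor
  · have e1 : V j' v' ≤ UU0 V j' v' := by
      have : 0 ≤ Real.log (1 + ‖v'‖ ^ 2) := Real.log_nonneg (by
        have : 0 ≤ ‖v'‖ ^ 2 := by positivity
        linarith)
      unfold UU0
      linarith
    have e2 : UU0 V j' v' ≤ Real.log R1 := by
      rw [Real.le_log_iff_exp_le (by linarith)]
      have := Real.exp_pos (UU0 V j' v')
      linarith [h23.1]
    have e3 : Real.log R1 ≤ max (Real.log R1) R1 := le_max_left _ _
    linarith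
  · have e1 : ‖X j' v'‖ ^ 2 ≤ R1 ^ 2 := by nlinarith [h23.2]
    have e2 : ‖X j' v'‖ ≤ R1 := abs_le_of_sq_le_sq' e1 (by linarith) |>.2
    have e3 : R1 ≤ max (Real.log R1) R1 := le_max_right _ _
    linarith

end Pool.Agent.H794.EX
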