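import Pool.Agent.H794.EX.Spec

set_option autoImplicit false

open scoped Manifold ContDiff Matrix ComplexOrder
open Matrix Topology MeasureTheory Set Filter

namespace Pool.Agent.H794.EX

open Pool.Agent.Helper614.HE Pool.Agent.H794

namespace BNDL

theorem measDD : MeasurableSet DD := Metric.isClosed_closedBall.measurableSet

theorem compDD : IsCompact DD := isCompact_closedBall 0 1

theorem norm_le_of_mem {s : ℂ} (hs : s ∈ DD) : ‖s‖ ≤ 1 := mem_closedBall_zero_iff.mp hs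

theorem sx_pos {s : ℂ} (h : s ^ 16 + 1 ≠ 0) : 0 < sx s := norm_pos_iff.mpr h

theorem sx_le {s : ℂ} (hs : s ∈ DD) : sx s ≤ 2 := by
  have h1 : ‖s ^ 16‖ ≤ 1 := by
    rw [norm_pow]; exact pow_le_one₀ (norm_nonneg _) (norm_le_of_mem hs)
  have h2 : ‖s ^ 16 + 1‖ ≤ ‖s ^ 16‖ + ‖(1 : ℂ)‖ := norm_add_le _ _
  rw [norm_one] at h2
  unfold sx; linarith

theorem ww_nonneg (s : ℂ) : 0 ≤ ww s := Real.rpow_nonneg (norm_nonneg _) _

theorem wh_nonneg (s : ℂ) : 0 ≤ wh s := Real.rpow_nonneg (norm_nonneg _) _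

theorem ww_ge {s : ℂ} (hs : s ∈ DD) (h : s ^ 16 + 1 ≠ 0) : 1 / 4 ≤ ww s := by
  have h1 : (2 : ℝ) ^ (-(3 / 2) : ℝ) ≤ ww s :=
    Real.rpow_le_rpow_of_nonpos (sx_pos h) (sx_le hs) (by norm_num)
  have h2 : (2 : ℝ) ^ (-2 : ℝ) ≤ (2 : ℝ) ^ (-(3 / 2) : ℝ) :=
    Real.rpow_le_rpow_of_exponent_le one_le_two (by norm_num)
  have h3 : (2 : ℝ) ^ (-2 : ℝ) = 1 / 4 := by
    rw [show (-2 : ℝ) = ((-2 : ℤ) : ℝ) by norm_num, Real.rpow_intCast]; norm_num
  linarith

theorem wh_sq_le {s : ℂ} (hs : s ∈ DD) (h : s ^ 16 + 1 ≠ 0) : wh s ^ 2 ≤ 2 * ww s := by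
  have h0 := sx_pos h
  have h1 : wh s ^ 2 = ww s * sx s ^ (1 / 2 : ℝ) := by
    unfold wh ww
    rw [← Real.rpow_natCast, ← Real.rpow_mul h0.le, ← Real.rpow_add h0]
    norm_num
  have h2 : sx s ^ (1 / 2 : ℝ) ≤ 2 := by
    calc sx s ^ (1 / 2 : ℝ) ≤ (2 : ℝ) ^ (1 / 2 : ℝ) :=
          Real.rpow_le_rpow h0.le (sx_le hs) (by norm_num)
      _ ≤ (2 : ℝ) ^ (1 : ℝ) := Real.rpow_le_rpow_of_exponent_le one_le_two (by norm_num)
      _ = 2 := Real.rpow_one 2
  rw [h1]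
  nlinarith [ww_nonneg s]

theorem meas_ww : Measurable ww := by
  have : Measurable sx := by
    unfold sx
    exact (by fun_prop : Continuous fun s : ℂ => ‖s ^ 16 + 1‖).measurable
  exact this.pow_const _

theorem fin16 : {s : ℂ | s ^ 16 + 1 = 0}.Finite := by
  have h : (Polynomial.X ^ 16 + 1 : Polynomial ℂ) ≠ 0 := by
    apply Polynomial.Monic.ne_zero
    monicity!
  refine (Polynomial.finite_setOfPred_isRoot h).subset (fun s hs => ?_)
  simpa [Polynomial.IsRoot] using hs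

theorem ae16 : ∀ᵐ s ∂(volume.restrict DD), s ∈ DD ∧ s ^ 16 + 1 ≠ 0 := by
  have h1 : ∀ᵐ s ∂(volume.restrict DD), s ∈ DD := ae_restrict_mem measDD
  have h2 : ∀ᵐ s ∂(volume : Measure ℂ), s ^ 16 + 1 ≠ 0 := by
    have : volume {s : ℂ | s ^ 16 + 1 = 0} = 0 := fin16.measure_zero _
    rw [ae_iff]
    simpa using this
  filter_upwards [h1, ae_restrict_of_ae h2] with s a b using ⟨a, b⟩

theorem Dom.mono {E : Type*} [NormedAddCommGroup E] {w : ℂ → ℝ} (hw : ∀ s, 0 ≤ w s) {c c' : ℝ}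
    (hc : c ≤ c') {f : Bool → ℂ → E} (h : Dom w c f) : Dom w c' f :=
  fun j s hs h16 => (h j s hs h16).trans (mul_le_mul_of_nonneg_right hc (hw s))

theorem Dom.aebd {E : Type*} [NormedAddCommGroup E] {w : ℂ → ℝ} {c : ℝ}
    {f : Bool → ℂ → E} (h : Dom w c f) (j : Bool) :
    ∀ᵐ s ∂(volume.restrict DD), ‖f j s‖ ≤ c * w s := by
  filter_upwards [ae16] with s hs using h j s hs.1 hs.2

/-- the mass of the weight -/
noncomputable def Iw : ℝ := ∫ s in DD, ww s

theorem Iw_nonneg : 0 ≤ Iw := integral_nonneg (fun s => ww_nonneg s)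

theorem int_ww (h4 : S_OPL) : IntegrableOn ww DD := by
  obtain ⟨K, _, h⟩ := h4
  exact (h (fun _ => ww) 1 (fun _ => meas_ww) zero_le_one (fun j s _ _ => by
    rw [Real.norm_of_nonneg (ww_nonneg s), one_mul])).1 true

theorem Dom.norm_int {E : Type*} [NormedAddCommGroup E] [NormedSpace ℝ E]
    (hi : IntegrableOn ww DD) {c : ℝ} {f : Bool → ℂ → E} (h : Dom ww c f) (j : Bool) :
    ‖∫ s in DD, f j s‖ ≤ c * Iw := by
  have := norm_integral_le_of_norm_le (μ := volume.restrict DD) (hi.const_mul c) (Dom.aebd h j)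
  rwa [integral_const_mul] at this

theorem cc_le {k : ℕ} (hk : k < 11) : |cc k| ≤ 1 := by
  have h1 : (k : ℝ) < 11 := by exact_mod_cast hk
  have h2 : 0 ≤ (k : ℝ) := Nat.cast_nonneg k
  have hp := Real.pi_gt_three
  have h3 : 1 ≤ Real.pi / ((k : ℝ) + 1) + Real.pi / (11 - k) := by
    rw [div_add_div _ _ (by positivity) (by linarith), le_div_iff₀ (by nlinarith)]
    nlinarith [sq_nonneg ((k : ℝ) - 5)]
  unfold cc
  rw [abs_of_nonneg (inv_nonneg.mpr (by linarith))]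
  exact inv_le_one_of_one_le₀ h3

theorem ep_norm (j : Bool) : ‖ep j‖ = 1 := by
  unfold ep; split_ifs <;> simp

theorem conj_pow_le {s : ℂ} (hs : s ∈ DD) (a : ℕ) : ‖(starRingEnd ℂ) s ^ a‖ ≤ 1 := by
  rw [norm_pow, RCLike.norm_conj]
  exact pow_le_one₀ (norm_nonneg _) (norm_le_of_mem hs)

theorem pow_le {s : ℂ} (hs : s ∈ DD) (a : ℕ) : ‖s ^ a‖ ≤ 1 := by
  rw [norm_pow]
  exact pow_le_one₀ (norm_nonneg _) (norm_le_of_mem hs)

theorem MM_le (hi : IntegrableOn ww DD) {c : ℝ} {f : Bool → ℂ → ℂ} (h : Dom ww c f) (k : ℕ) :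
    ‖MM f k‖ ≤ 2 * (c * Iw) := by
  unfold MM
  have h1 : ∀ j ∈ (Finset.univ : Finset Bool),
      ‖ep j * ∫ s in DD, (starRingEnd ℂ) s ^ ee j k * f j s‖ ≤ c * Iw := by
    intro j _
    rw [norm_mul, ep_norm, one_mul]
    have hD : Dom ww c (fun j s => (starRingEnd ℂ) s ^ ee j k * f j s) := by
      intro j s hs h16
      rw [norm_mul]
      calc _ ≤ 1 * ‖f j s‖ := mul_le_mul_of_nonneg_right (conj_pow_le hs _) (norm_nonneg _)
        _ = ‖f j s‖ := one_mul _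
        _ ≤ _ := h j s hs h16
    exact Dom.norm_int hi hD j
  refine (norm_sum_le_of_le _ h1).trans ?_
  rw [Finset.sum_const]
  simp

theorem MM_le' {c : ℝ} {f : Bool → ℂ → ℂ} (h : ∀ j, ∀ s ∈ DD, ‖f j s‖ ≤ c) (k : ℕ) :
    ‖MM f k‖ ≤ 2 * (c * Real.pi) := by
  unfold MM
  have h1 : ∀ j ∈ (Finset.univ : Finset Bool),
      ‖ep j * ∫ s in DD, (starRingEnd ℂ) s ^ ee j k * f j s‖ ≤ c * Real.pi := by
    intro j _
    rw [norm_mul, ep_norm, one_mul]
    have hv : volume.real DD = Real.pi := by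
      rw [Measure.real, DD, Complex.volume_closedBall]; simp
    rw [← hv]
    refine norm_setIntegral_le_of_norm_le_const ?_ ?_
    · exact compDD.measure_lt_top
    · intro s hs
      rw [norm_mul]
      calc _ ≤ 1 * ‖f j s‖ := mul_le_mul_of_nonneg_right (conj_pow_le hs _) (norm_nonneg _)
        _ = ‖f j s‖ := one_mul _
        _ ≤ _ := h j s hs
  refine (norm_sum_le_of_le _ h1).trans ?_
  rw [Finset.sum_const]
  simp

theorem Pj_le (f : Bool → ℂ → ℂ) {k : ℕ} (hk : k < 11) : ‖Pj f k‖ ≤ ‖MM f k‖ := by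
  unfold Pj
  rw [norm_mul, Complex.norm_real, Real.norm_eq_abs]
  exact mul_le_of_le_one_left (norm_nonneg _) (cc_le hk)

theorem pol_le {c : ℝ} {p : ℕ → ℂ} (hp : ∀ k < 11, ‖p k‖ ≤ c) (j : Bool) {s : ℂ} (hs : s ∈ DD) :
    ‖pol p j s‖ ≤ 11 * c := by
  unfold pol
  have h1 : ∀ k ∈ Finset.range 11, ‖p k * ep j * s ^ ee j k‖ ≤ c := by
    intro k hk
    rw [norm_mul, norm_mul, ep_norm, mul_one]
    have h2 := hp k (Finset.mem_range.mp hk)
    calc _ ≤ ‖p k‖ * 1 := mul_le_mul_of_nonneg_left (pow_le hs _) (norm_nonneg _)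
      _ ≤ _ := by linarith
  refine (norm_sum_le_of_le _ h1).trans ?_
  rw [Finset.sum_const]
  simp

theorem pow_sub_le {s s' : ℂ} (hs : s ∈ DD) (hs' : s' ∈ DD) (n : ℕ) :
    ‖s ^ n - s' ^ n‖ ≤ n * ‖s - s'‖ := by
  induction n with
  | zero => simp
  | succ n ih =>
    have h1 : s ^ (n + 1) - s' ^ (n + 1) = s * (s ^ n - s' ^ n) + (s - s') * s' ^ n := by ring
    rw [h1]
    refine (norm_add_le _ _).trans ?_
    rw [norm_mul, norm_mul]
    have h2 : ‖s‖ * ‖s ^ n - s' ^ n‖ ≤ n * ‖s - s'‖ := by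
      calc _ ≤ 1 * ‖s ^ n - s' ^ n‖ :=
            mul_le_mul_of_nonneg_right (norm_le_of_mem hs) (norm_nonneg _)
        _ ≤ _ := by rw [one_mul]; exact ih
    have h3 : ‖s - s'‖ * ‖s' ^ n‖ ≤ ‖s - s'‖ * 1 :=
      mul_le_mul_of_nonneg_left (pow_le hs' n) (norm_nonneg _)
    push_cast
    linarith

theorem dist_le {s s' : ℂ} (hs : s ∈ DD) (hs' : s' ∈ DD) :
    ‖s - s'‖ ≤ 2 * ‖s - s'‖ ^ (1 / 4 : ℝ) := by
  have h2 : ‖s - s'‖ ≤ 2 := by
    have := norm_sub_le s s'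
    have := norm_le_of_mem hs
    have := norm_le_of_mem hs'
    linarith
  rcases eq_or_lt_of_le (norm_nonneg (s - s')) with h | h
  · rw [← h]; positivity
  · have h3 : ‖s - s'‖ = ‖s - s'‖ ^ (3 / 4 : ℝ) * ‖s - s'‖ ^ (1 / 4 : ℝ) := by
      rw [← Real.rpow_add h]; norm_num
    have h4 : ‖s - s'‖ ^ (3 / 4 : ℝ) ≤ 2 := by
      calc ‖s - s'‖ ^ (3 / 4 : ℝ) ≤ (2 : ℝ) ^ (3 / 4 : ℝ) :=
            Real.rpow_le_rpow h.le h2 (by norm_num)
        _ ≤ (2 : ℝ) ^ (1 : ℝ) := Real.rpow_le_rpow_of_exponent_le one_le_two (by norm_num)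
        _ = 2 := Real.rpow_one 2
    calc ‖s - s'‖ = ‖s - s'‖ ^ (3 / 4 : ℝ) * ‖s - s'‖ ^ (1 / 4 : ℝ) := h3
      _ ≤ _ := mul_le_mul_of_nonneg_right h4 (by positivity)

theorem pol_hold {c : ℝ} {p : ℕ → ℂ} (hp : ∀ k < 11, ‖p k‖ ≤ c) (j : Bool) {s s' : ℂ}
    (hs : s ∈ DD) (hs' : s' ∈ DD) :
    ‖pol p j s - pol p j s'‖ ≤ 220 * c * ‖s - s'‖ ^ (1 / 4 : ℝ) := by
  have hc : 0 ≤ c := (norm_nonneg _).trans (hp 0 (by norm_num))
  unfold pol
  rw [← Finset.sum_sub_distrib]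
  have h1 : ∀ k ∈ Finset.range 11, ‖p k * ep j * s ^ ee j k - p k * ep j * s' ^ ee j k‖ ≤
      20 * c * ‖s - s'‖ ^ (1 / 4 : ℝ) := by
    intro k hk
    have hk' := Finset.mem_range.mp hk
    rw [← mul_sub, norm_mul, norm_mul, ep_norm, mul_one]
    have h2 := hp k hk'
    have h3 : ‖s ^ ee j k - s' ^ ee j k‖ ≤ 20 * ‖s - s'‖ ^ (1 / 4 : ℝ) := by
      have h4 := pow_sub_le hs hs' (ee j k)
      have h5 : ((ee j k : ℕ) : ℝ) ≤ 10 := by
        have : ee j k ≤ 10 := by unfold ee; split_ifs <;> omega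
        exact_mod_cast this
      have h6 := dist_le hs hs'
      have h7 : ((ee j k : ℕ) : ℝ) * ‖s - s'‖ ≤ 10 * ‖s - s'‖ :=
        mul_le_mul_of_nonneg_right h5 (norm_nonneg _)
      linarith
    calc _ ≤ c * (20 * ‖s - s'‖ ^ (1 / 4 : ℝ)) := by
          apply mul_le_mul h2 h3 (norm_nonneg _) hc
      _ = _ := by ring
  refine (norm_sum_le_of_le _ h1).trans ?_
  rw [Finset.sum_const, Finset.card_range, nsmul_eq_mul]
  apply le_of_eq
  push_cast
  ring

theorem cont_pol (p : ℕ → ℂ) (j : Bool) : Continuous (pol p j) := by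
  unfold pol
  fun_prop

theorem data_bd (d : Dat) (hd : d.OK) (R : ℝ) (hR : 0 ≤ R) : ∃ C δ : ℝ, 0 < C ∧ 0 < δ ∧
    ∀ l ∈ Icc (0 : ℝ) 1, (∀ j, ∀ s ∈ DD, ∀ V X, |V| ≤ R → ‖X‖ ≤ R →
      ‖d.F l j s V X‖ ≤ C ∧ d.P l j s V X ≤ C ∧ d.N j s ≤ C ∧ d.c l ≤ C) ∧
    ∀ s ∈ DD, ∀ V X, |V| ≤ R → ‖X‖ ≤ R → δ ≤ d.c l + d.P l false s V X := by
  set K : Set (ℝ × ℂ × ℝ × ℂ) := Icc (0 : ℝ) 1 ×ˢ DD ×ˢ Icc (-R) R ×ˢ Metric.closedBall (0 : ℂ) R
    with hK
  have cK : IsCompact K :=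
    isCompact_Icc.prod (compDD.prod (isCompact_Icc.prod (isCompact_closedBall 0 R)))
  have memK : ∀ l ∈ Icc (0 : ℝ) 1, ∀ s ∈ DD, ∀ (V : ℝ) (X : ℂ), |V| ≤ R → ‖X‖ ≤ R →
      (l, s, V, X) ∈ K := by
    intro l hl s hs V X hV hX
    refine ⟨hl, hs, abs_le.mp hV, ?_⟩
    simpa using hX
  have hF : ∀ j, ∃ C, ∀ x ∈ K, ‖(fun p : ℝ × ℂ × ℝ × ℂ => d.F p.1 j p.2.1 p.2.2.1 p.2.2.2) x‖ ≤ C :=
    fun j => cK.exists_bound_of_continuousOn (hd.contF j).continuousOn
  have hP : ∀ j, ∃ C, ∀ x ∈ K, ‖(fun p : ℝ × ℂ × ℝ × ℂ => d.P p.1 j p.2.1 p.2.2.1 p.2.2.2) x‖ ≤ C :=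
    fun j => cK.exists_bound_of_continuousOn (hd.contP j).continuousOn
  have hN : ∀ j, ∃ C, ∀ x ∈ DD, ‖d.N j x‖ ≤ C :=
    fun j => compDD.exists_bound_of_continuousOn (hd.contN j).continuousOn
  obtain ⟨Cc, hCc⟩ := (isCompact_Icc (a := (0 : ℝ)) (b := 1)).exists_bound_of_continuousOn
    hd.contc.continuousOn
  choose CF hCF using hF
  choose CP hCP using hP
  choose CN hCN using hN
  have hmin : ∃ x ∈ K, IsMinOn (fun p : ℝ × ℂ × ℝ × ℂ => d.c p.1 + d.P p.1 false p.2.1 p.2.2.1 p.2.2.2)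
      K x := by
    refine cK.exists_isMinOn ⟨(0, 0, 0, 0), ?_⟩ ?_
    · refine memK 0 (by simp) 0 (by simp [DD]) 0 0 (by simpa using hR) (by simpa using hR)
    · exact ((hd.contc.comp continuous_fst).add (hd.contP false)).continuousOn
  obtain ⟨x, hx, hxmin⟩ := hmin
  refine ⟨1 + |CF true| + |CF false| + |CP true| + |CP false| + |CN true| + |CN false| + |Cc|,
    d.c x.1 + d.P x.1 false x.2.1 x.2.2.1 x.2.2.2, by positivity, hd.pos x.1 hx.1 _ _ _, ?_⟩
  intro l hl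
  have e1 := abs_nonneg (CF true)
  have e2 := abs_nonneg (CF false)
  have e3 := abs_nonneg (CP true)
  have e4 := abs_nonneg (CP false)
  have e5 := abs_nonneg (CN true)
  have e6 := abs_nonneg (CN false)
  have e7 := abs_nonneg Cc
  refine ⟨fun j s hs V X hV hX => ⟨?_, ?_, ?_, ?_⟩, fun s hs V X hV hX => ?_⟩
  · have h1 := hCF j _ (memK l hl s hs V X hV hX)
    have h2 : CF j ≤ |CF true| + |CF false| := by
      cases j
      · have := le_abs_self (CF false); linarith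
      · have := le_abs_self (CF true); linarith
    simp only at h1
    linarith
  · have h1 := (le_abs_self _).trans (hCP j _ (memK l hl s hs V X hV hX))
    have h2 : CP j ≤ |CP true| + |CP false| := by
      cases j
      · have := le_abs_self (CP false); linarith
      · have := le_abs_self (CP true); linarith
    simp only at h1
    linarith
  · have h1 := (le_abs_self _).trans (hCN j _ hs)
    have h2 : CN j ≤ |CN true| + |CN false| := by
      cases j
      · have := le_abs_self (CN false); linarith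
      · have := le_abs_self (CN true); linarith
    linarith
  · have h1 := (le_abs_self _).trans (hCc l hl)
    have h2 := le_abs_self Cc
    linarith
  · exact hxmin (memK l hl s hs V X hV hX)

/-- lower bound for the mass of a density with a positive factor -/
theorem N_lower (d : Dat) (hd : d.OK) : ∃ n0 : ℝ, 0 < n0 ∧
    ∀ (G : ℂ → ℝ) (m : ℝ), 0 < m → IntegrableOn G DD → (∀ s ∈ DD, 0 ≤ G s) →
      (∀ s ∈ DD, s ^ 16 + 1 ≠ 0 → m * (d.ρ * ww s * d.N false s) ≤ G s) →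
      m * n0 ≤ ∫ s in DD, G s := by
  have h0 := hd.Npos
  have h1 : ∀ᶠ s in 𝓝 (0 : ℂ), d.N false 0 / 2 < d.N false s :=
    (hd.contN false).continuousAt.eventually (lt_mem_nhds (by linarith))
  obtain ⟨r, hr, hrN⟩ := Metric.eventually_nhds_iff_ball.mp h1
  set r' := min r (1 / 2) with hr'
  have hr'0 : 0 < r' := lt_min hr (by norm_num)
  have hsub : Metric.ball (0 : ℂ) r' ⊆ DD := by
    intro s hs
    have := mem_ball_zero_iff.mp hs
    have h2 : r' ≤ 1 / 2 := min_le_right _ _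
    apply mem_closedBall_zero_iff.mpr
    linarith
  have hvol : 0 < volume.real (Metric.ball (0 : ℂ) r') := by
    rw [Measure.real, ENNReal.toReal_pos_iff]
    exact ⟨Metric.measure_ball_pos _ _ hr'0, measure_ball_lt_top⟩
  refine ⟨d.ρ * (1 / 4) * (d.N false 0 / 2) * volume.real (Metric.ball (0 : ℂ) r'),
    mul_pos (mul_pos (mul_pos hd.rho (by norm_num)) (by linarith)) hvol, ?_⟩
  intro G m hm hG hG0 hle
  have hs1 : ∫ s in Metric.ball (0 : ℂ) r', G s ≤ ∫ s in DD, G s := by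
    apply setIntegral_mono_set hG
    · filter_upwards [ae_restrict_mem measDD] with s hs using hG0 s hs
    · exact hsub.eventuallyLE
  refine le_trans ?_ hs1
  have hs2 : ∫ s in Metric.ball (0 : ℂ) r', (m * (d.ρ * (1 / 4) * (d.N false 0 / 2)) : ℝ) ≤
      ∫ s in Metric.ball (0 : ℂ) r', G s := by
    apply setIntegral_mono_on
    · exact (integrableOn_const (C := _) measure_ball_lt_top.ne)
    · exact hG.mono_set hsub
    · exact measurableSet_ball
    · intro s hs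
      have hsn := mem_ball_zero_iff.mp hs
      have h2 : r' ≤ 1 / 2 := min_le_right _ _
      have h3 : r' ≤ r := min_le_left _ _
      have h16 : s ^ 16 + 1 ≠ 0 := by
        intro h
        have h4 : s ^ 16 = -1 := by linear_combination h
        have h5 : ‖s‖ ^ 16 = 1 := by rw [← norm_pow, h4]; simp
        have h6 : ‖s‖ ^ 16 ≤ (1 / 2) ^ 16 :=
          pow_le_pow_left₀ (norm_nonneg _) (by linarith) _
        norm_num at h6
        linarith
      refine le_trans ?_ (hle s (hsub hs) h16)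
      apply mul_le_mul_of_nonneg_left _ hm.le
      have h7 := ww_ge (hsub hs) h16
      have h8 := hrN s (mem_ball_zero_iff.mpr (lt_of_lt_of_le hsn h3))
      have h9 : d.ρ * (1 / 4) ≤ d.ρ * ww s := mul_le_mul_of_nonneg_left h7 hd.rho.le
      apply mul_le_mul h9 h8.le (by linarith) (mul_nonneg hd.rho.le (ww_nonneg s))
  refine le_trans (le_of_eq ?_) hs2
  rw [setIntegral_const, smul_eq_mul]
  ring

/-- lower bound for a mass -/
theorem const_lower {G : ℂ → ℝ} {m : ℝ} (hG : IntegrableOn G DD)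
    (hle : ∀ s ∈ DD, s ^ 16 + 1 ≠ 0 → m ≤ G s) : m * Real.pi ≤ ∫ s in DD, G s := by
  have hv : volume.real DD = Real.pi := by
    rw [Measure.real, DD, Complex.volume_closedBall]; simp
  have h1 : ∫ s in DD, (m : ℝ) ≤ ∫ s in DD, G s := by
    apply integral_mono_ae
    · exact integrableOn_const (C := _) compDD.measure_lt_top.ne
    · exact hG
    · filter_upwards [ae16] with s hs using hle s hs.1 hs.2
  rw [setIntegral_const, hv, smul_eq_mul] at h1
  linarith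

theorem tot_le (hi : IntegrableOn ww DD) {c : ℝ} {G : Bool → ℂ → ℝ} (h : Dom ww c G) :
    tot G ≤ 2 * (c * Iw) := by
  unfold tot
  rw [Fintype.sum_bool]
  have h1 := (le_abs_self _).trans (Dom.norm_int hi h true)
  have h2 := (le_abs_self _).trans (Dom.norm_int hi h false)
  linarith

theorem tot_ge {G : Bool → ℂ → ℝ} (h : ∀ j, ∀ s ∈ DD, 0 ≤ G j s) :
    ∫ s in DD, G false s ≤ tot G := by
  unfold tot
  rw [Fintype.sum_bool]
  have h1 : 0 ≤ ∫ s in DD, G true s := setIntegral_nonneg measDD (h true)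
  linarith

theorem abs_log_le {x : ℝ} (hx : 0 < x) : |Real.log x| ≤ x + x⁻¹ := by
  have h1 := Real.log_le_sub_one_of_pos hx
  have h2 := Real.log_le_sub_one_of_pos (inv_pos.mpr hx)
  rw [Real.log_inv] at h2
  have h3 := inv_pos.mpr hx
  rw [abs_le]
  constructor <;> linarith

theorem eU_pos (V : Bool → ℂ → ℝ) (j : Bool) (s : ℂ) : 0 ≤ eU V j s := by
  unfold eU; positivity

theorem eU_le {V : Bool → ℂ → ℝ} {R : ℝ} {j : Bool} {s : ℂ} (hs : s ∈ DD) (hV : |V j s| ≤ R) :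
    eU V j s ≤ Real.exp R * 2 ^ 10 := by
  unfold eU
  have h1 : Real.exp (V j s) ≤ Real.exp R := Real.exp_le_exp.mpr ((le_abs_self _).trans hV)
  have h2 : (1 + ‖s‖ ^ 2) ^ 10 ≤ (2 : ℝ) ^ 10 := by
    apply pow_le_pow_left₀ (by positivity)
    have := pow_le_one₀ (n := 2) (norm_nonneg s) (norm_le_of_mem hs)
    linarith
  exact mul_le_mul h1 h2 (by positivity) (Real.exp_nonneg _)

theorem main (h2 : S_OPB) (h3 : S_OPX) (h4 : S_OPL) : S_BND := by
  intro d hd R hR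
  have hi := int_ww h4
  obtain ⟨K2, hK2, H2⟩ := h2
  obtain ⟨K3, hK3, H3⟩ := h3
  obtain ⟨K4, hK4, H4⟩ := h4
  obtain ⟨C, δ, hC, hδ, hdat⟩ := data_bd d hd R hR.le
  obtain ⟨n0, hn0, hN0⟩ := N_lower d hd
  have hρ := hd.rho
  have hIw := Iw_nonneg
  have hπ := Real.pi_pos
  -- the constants
  obtain ⟨cf, hcf⟩ : ∃ x, x = d.ρ * C := ⟨_, rfl⟩
  obtain ⟨mm, hmm⟩ : ∃ x, x = 2 * (cf * Iw) := ⟨_, rfl⟩
  obtain ⟨cp, hcp⟩ : ∃ x, x = cf + 44 * mm := ⟨_, rfl⟩
  obtain ⟨cb, hcb⟩ : ∃ x, x = K2 * cp := ⟨_, rfl⟩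
  obtain ⟨E, hE⟩ : ∃ x, x = Real.exp R * 2 ^ 10 := ⟨_, rfl⟩
  obtain ⟨cg, hcg⟩ : ∃ x, x = E * cb := ⟨_, rfl⟩
  obtain ⟨cGp, hcGp⟩ : ∃ x, x = 2 * E * cb ^ 2 + d.ρ * C + 4 * C := ⟨_, rfl⟩
  obtain ⟨cGm, hcGm⟩ : ∃ x, x = d.ρ * (C * Real.exp R) := ⟨_, rfl⟩
  obtain ⟨Tp, hTp⟩ : ∃ x, x = 2 * (cGp * Iw) := ⟨_, rfl⟩
  obtain ⟨gp0, hgp0⟩ : ∃ x, x = min d.ρ 1 * (δ / 4) * Real.pi := ⟨_, rfl⟩
  obtain ⟨gm0, hgm0⟩ : ∃ x, x = Real.exp (-R) * n0 := ⟨_, rfl⟩
  obtain ⟨km, hkm⟩ : ∃ x, x = Tp / gm0 := ⟨_, rfl⟩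
  obtain ⟨cGh, hcGh⟩ : ∃ x, x = cGp + km * cGm := ⟨_, rfl⟩
  obtain ⟨L, hL⟩ : ∃ x, x = K4 * cGh := ⟨_, rfl⟩
  obtain ⟨cVN, hcVN⟩ : ∃ x, x = d.ρ * C * Real.exp L := ⟨_, rfl⟩
  obtain ⟨vn0, hvn0⟩ : ∃ x, x = Real.exp (-L) * n0 := ⟨_, rfl⟩
  obtain ⟨TN, hTN⟩ : ∃ x, x = 2 * (cVN * Iw) := ⟨_, rfl⟩
  obtain ⟨cTV, hcTV⟩ : ∃ x, x = L + (Tp / vn0 + TN / gp0) := ⟨_, rfl⟩
  obtain ⟨mx, hmx⟩ : ∃ x, x = 2 * (K3 * cg * Real.pi) := ⟨_, rfl⟩
  obtain ⟨mX, hmX⟩ : ∃ x, x = 2 * (R * Real.pi) + mm := ⟨_, rfl⟩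
  obtain ⟨cTX, hcTX⟩ : ∃ x, x = K3 * cg + 220 * mx + 220 * mX := ⟨_, rfl⟩
  have pcf : 0 ≤ cf := by rw [hcf]; positivity
  have pmm : 0 ≤ mm := by rw [hmm]; positivity
  have pcp : 0 ≤ cp := by rw [hcp]; positivity
  have pcb : 0 ≤ cb := by rw [hcb]; positivity
  have pE : 0 ≤ E := by rw [hE]; positivity
  have pcg : 0 ≤ cg := by rw [hcg]; positivity
  have pcGp : 0 ≤ cGp := by rw [hcGp]; positivity
  have pcGm : 0 ≤ cGm := by rw [hcGm]; positivity
  have pTp : 0 ≤ Tp := by rw [hTp]; positivity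
  have pmin : 0 < min d.ρ 1 := lt_min hρ one_pos
  have pgp0 : 0 < gp0 := by rw [hgp0]; positivity
  have pgm0 : 0 < gm0 := by rw [hgm0]; positivity
  have pkm : 0 ≤ km := by rw [hkm]; positivity
  have pcGh : 0 ≤ cGh := by rw [hcGh]; positivity
  have pL : 0 ≤ L := by rw [hL]; positivity
  have pcVN : 0 ≤ cVN := by rw [hcVN]; positivity
  have pvn0 : 0 < vn0 := by rw [hvn0]; positivity
  have pTN : 0 ≤ TN := by rw [hTN]; positivity
  have pcTV : 0 ≤ cTV := by rw [hcTV]; positivity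
  have pmx : 0 ≤ mx := by rw [hmx]; positivity
  have pmX : 0 ≤ mX := by rw [hmX]; positivity
  have pcTX : 0 ≤ cTX := by rw [hcTX]; positivity
  have igp := inv_nonneg.mpr pgp0.le
  have igm := inv_nonneg.mpr pgm0.le
  have ivn := inv_nonneg.mpr pvn0.le
  obtain ⟨M, hM⟩ : ∃ x, x = 1 + cf + cp + cb + cg + cGp + cGm + cGh + cVN + gp0⁻¹ + gm0⁻¹ +
    vn0⁻¹ + km + cTV + L + cTX := ⟨_, rfl⟩
  have pM : 0 < M := by rw [hM]; positivity
  refine ⟨M, pM, fun l hl V X hB => ?_⟩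
  obtain ⟨hdat1, hdat2⟩ := hdat l hl
  -- measurability of the data
  have hcF : ∀ j, Continuous (fun s => d.F l j s (V j s) (X j s)) := fun j =>
    (hd.contF j).comp (continuous_const.prodMk (continuous_id.prodMk ((hB.cV j).prodMk (hB.cX j))))
  have hcP : ∀ j, Continuous (fun s => d.P l j s (V j s) (X j s)) := fun j =>
    (hd.contP j).comp (continuous_const.prodMk (continuous_id.prodMk ((hB.cV j).prodMk (hB.cX j))))
  have hceU : ∀ j, Continuous (eU V j) := by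
    intro j
    unfold eU
    have := hB.cV j
    fun_prop
  have mρw : Measurable (fun s => d.ρ * ww s) := meas_ww.const_mul _
  -- fS
  have mf : ∀ j, Measurable (fS d l V X j) := fun j =>
    (Complex.measurable_ofReal.comp mρw).mul (hcF j).measurable
  have bf : Dom ww cf (fS d l V X) := by
    intro j s hs _
    have h1 := (hdat1 j s hs (V j s) (X j s) (hB.bV j s hs) (hB.bX j s hs)).1
    unfold fS
    rw [norm_mul, Complex.norm_real, Real.norm_eq_abs,
      abs_of_nonneg (mul_nonneg hρ.le (ww_nonneg s)), hcf]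
    have := mul_le_mul_of_nonneg_left h1 (mul_nonneg hρ.le (ww_nonneg s))
    linarith
  have hMf : ∀ k < 11, ‖Pj (fS d l V X) k‖ ≤ mm := fun k hk =>
    (Pj_le _ hk).trans (by rw [hmm]; exact MM_le hi bf k)
  -- perp
  have mp : ∀ j, Measurable (perp (fS d l V X) j) := fun j =>
    (mf j).sub (cont_pol _ j).measurable
  have bp : Dom ww cp (perp (fS d l V X)) := by
    intro j s hs h16
    have h1 := bf j s hs h16
    have h2 := pol_le hMf j hs
    have h3 := ww_ge hs h16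
    unfold perp
    refine (norm_sub_le _ _).trans ?_
    rw [hcp]
    nlinarith
  -- bS
  have HB := H2 (perp (fS d l V X)) cp mp pcp bp
  have mb : ∀ j, Measurable (bS d l V X j) := HB.1
  have bb : Dom wh cb (bS d l V X) := by
    intro j s hs h16
    have := (HB.2.2 j s hs h16).2.2
    rw [hcb]; exact this
  -- gS
  have mg : ∀ j, Measurable (gS d l V X j) := fun j =>
    (Complex.measurable_ofReal.comp (hceU j).measurable).mul (mb j)
  have bg : Dom wh cg (gS d l V X) := by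
    intro j s hs h16
    have h1 := bb j s hs h16
    have h2 := eU_le hs (hB.bV j s hs)
    unfold gS
    rw [norm_mul, Complex.norm_real, Real.norm_eq_abs, abs_of_nonneg (eU_pos V j s), hcg, mul_assoc]
    rw [← hE] at h2
    exact mul_le_mul h2 h1 (norm_nonneg _) pE
  -- Gp
  have mGp : ∀ j, Measurable (Gp d l V X j) := by
    intro j
    unfold Gp
    refine (((hceU j).measurable.mul ((mb j).norm.pow_const 2)).add
      (mρw.mul (hcP j).measurable)).add ?_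
    have : Continuous (fun s : ℂ => d.c l / (1 + ‖s‖ ^ 2) ^ 2) := by
      refine continuous_const.div (by fun_prop) (fun s => by positivity)
    exact this.measurable
  have pGp : ∀ j, ∀ s, 0 ≤ Gp d l V X j s := by
    intro j s
    have h1 := hd.P0 l hl j s (V j s) (X j s)
    have h2 := hd.c0 l hl
    have h3 := eU_pos V j s
    have h4 := ww_nonneg s
    unfold Gp
    positivity
  have bGp : Dom ww cGp (Gp d l V X) := by
    intro j s hs h16
    rw [Real.norm_of_nonneg (pGp j s)]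
    obtain ⟨_, h1, _, h2⟩ := hdat1 j s hs (V j s) (X j s) (hB.bV j s hs) (hB.bX j s hs)
    have h3 := bb j s hs h16
    have h4 := eU_le hs (hB.bV j s hs)
    rw [← hE] at h4
    have h5 := wh_sq_le hs h16
    have h6 := ww_ge hs h16
    have h7 : ‖bS d l V X j s‖ ^ 2 ≤ cb ^ 2 * (2 * ww s) := by
      calc ‖bS d l V X j s‖ ^ 2 ≤ (cb * wh s) ^ 2 := pow_le_pow_left₀ (norm_nonneg _) h3 2
        _ = cb ^ 2 * wh s ^ 2 := by ring
        _ ≤ _ := mul_le_mul_of_nonneg_left h5 (by positivity)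
    have h8 : eU V j s * ‖bS d l V X j s‖ ^ 2 ≤ E * (cb ^ 2 * (2 * ww s)) :=
      mul_le_mul h4 h7 (by positivity) pE
    have h9 : d.ρ * ww s * d.P l j s (V j s) (X j s) ≤ d.ρ * ww s * C :=
      mul_le_mul_of_nonneg_left h1 (mul_nonneg hρ.le (ww_nonneg s))
    have h10 : d.c l / (1 + ‖s‖ ^ 2) ^ 2 ≤ 4 * C * ww s := by
      have h11 : d.c l / (1 + ‖s‖ ^ 2) ^ 2 ≤ d.c l := by
        apply div_le_self (hd.c0 l hl)
        apply one_le_pow₀
        have := sq_nonneg ‖s‖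
        linarith
      nlinarith
    unfold Gp
    rw [hcGp]
    linarith
  have iGp : ∀ j, IntegrableOn (Gp d l V X j) DD := (H4 _ cGp mGp pcGp bGp).1
  -- Gm
  have mGm : ∀ j, Measurable (Gm d V j) := by
    intro j
    unfold Gm
    refine mρw.mul ?_
    exact ((hd.contN j).mul (Real.continuous_exp.comp (hB.cV j))).measurable
  have pGm : ∀ j, ∀ s, 0 ≤ Gm d V j s := by
    intro j s
    have h1 := hd.N0 j s
    have h4 := ww_nonneg s
    unfold Gm
    positivity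
  have bGm : Dom ww cGm (Gm d V) := by
    intro j s hs h16
    rw [Real.norm_of_nonneg (pGm j s)]
    obtain ⟨_, _, h1, _⟩ := hdat1 j s hs (V j s) (X j s) (hB.bV j s hs) (hB.bX j s hs)
    have h2 : Real.exp (V j s) ≤ Real.exp R :=
      Real.exp_le_exp.mpr ((le_abs_self _).trans (hB.bV j s hs))
    have h3 : d.N j s * Real.exp (V j s) ≤ C * Real.exp R :=
      mul_le_mul h1 h2 (Real.exp_nonneg _) hC.le
    have h4 := mul_le_mul_of_nonneg_left h3 (mul_nonneg hρ.le (ww_nonneg s))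
    unfold Gm
    rw [hcGm]
    linarith
  have iGm : ∀ j, IntegrableOn (Gm d V j) DD := (H4 _ cGm mGm pcGm bGm).1
  -- lower bounds
  have lGp : gp0 ≤ tot (Gp d l V X) := by
    refine le_trans ?_ (tot_ge (fun j s _ => pGp j s))
    rw [hgp0]
    refine const_lower (iGp false) (fun s hs h16 => ?_)
    have h1 := hdat2 s hs (V false s) (X false s) (hB.bV false s hs) (hB.bX false s hs)
    have h2 := hd.P0 l hl false s (V false s) (X false s)
    have h3 := hd.c0 l hl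
    have h4 := ww_ge hs h16
    have h5 : d.c l / 4 ≤ d.c l / (1 + ‖s‖ ^ 2) ^ 2 := by
      apply div_le_div_of_nonneg_left h3 (by positivity)
      have h6 := pow_le_one₀ (n := 2) (norm_nonneg s) (norm_le_of_mem hs)
      have h7 := sq_nonneg ‖s‖
      nlinarith
    have h6 : 0 ≤ eU V false s * ‖bS d l V X false s‖ ^ 2 := by
      have := eU_pos V false s
      positivity
    have h7 : min d.ρ 1 ≤ d.ρ := min_le_left _ _
    have h8 : min d.ρ 1 ≤ 1 := min_le_right _ _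
    have h9 : min d.ρ 1 * (1 / 4) * d.P l false s (V false s) (X false s) ≤
        d.ρ * ww s * d.P l false s (V false s) (X false s) := by
      apply mul_le_mul_of_nonneg_right _ h2
      exact mul_le_mul h7 h4 (by norm_num) hρ.le
    have h10 : min d.ρ 1 * (d.c l / 4) ≤ d.c l / (1 + ‖s‖ ^ 2) ^ 2 := by
      refine le_trans ?_ h5
      nlinarith
    have h11 : min d.ρ 1 * (δ / 4) ≤ min d.ρ 1 * ((d.c l +
        d.P l false s (V false s) (X false s)) / 4) :=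
      mul_le_mul_of_nonneg_left (by linarith) pmin.le
    unfold Gp
    linarith
  have lGm : gm0 ≤ tot (Gm d V) := by
    refine le_trans ?_ (tot_ge (fun j s _ => pGm j s))
    rw [hgm0]
    refine hN0 _ _ (Real.exp_pos _) (iGm false) (fun s _ => pGm false s) (fun s hs _ => ?_)
    have h1 : Real.exp (-R) ≤ Real.exp (V false s) :=
      Real.exp_le_exp.mpr (neg_le_of_abs_le (hB.bV false s hs))
    have h2 : 0 ≤ d.ρ * ww s * d.N false s :=
      mul_nonneg (mul_nonneg hρ.le (ww_nonneg s)) (hd.N0 false s)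
    unfold Gm
    nlinarith
  have uGp : tot (Gp d l V X) ≤ Tp := by rw [hTp]; exact tot_le hi bGp
  have tGp : 0 < tot (Gp d l V X) := lt_of_lt_of_le pgp0 lGp
  have tGm : 0 < tot (Gm d V) := lt_of_lt_of_le pgm0 lGm
  have kb1 : 0 < kap d l V X := div_pos tGp tGm
  have kb2 : kap d l V X ≤ km := by
    unfold kap
    rw [hkm]
    exact div_le_div₀ pTp uGp pgm0 lGm
  -- Gh
  have mGh : ∀ j, Measurable (Gh d l V X j) := fun j => (mGp j).sub ((mGm j).const_mul _)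
  have bGh : Dom ww cGh (Gh d l V X) := by
    intro j s hs h16
    have h1 := bGp j s hs h16
    have h2 := bGm j s hs h16
    unfold Gh
    refine (norm_sub_le _ _).trans ?_
    rw [norm_mul, Real.norm_of_nonneg kb1.le, hcGh]
    have h3 : kap d l V X * ‖Gm d V j s‖ ≤ km * (cGm * ww s) :=
      mul_le_mul kb2 h2 (norm_nonneg _) pkm
    linarith
  have HL := H4 (Gh d l V X) cGh mGh pcGh bGh
  have hPL : ∀ j, ∀ v ∈ DD, |PL (Gh d l V X) j v| ≤ L := by
    intro j v hv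
    rw [hL]
    exact (HL.2.2.1 j v hv).2.2
  -- VN
  have mVN : ∀ j, Measurable (VN d l V X j) := by
    intro j
    unfold VN
    exact (mρw.mul (hd.contN j).measurable).mul ((HL.2.1 j).neg.exp)
  have pVN : ∀ j, ∀ s, 0 ≤ VN d l V X j s := by
    intro j s
    have h1 := hd.N0 j s
    have h4 := ww_nonneg s
    unfold VN
    positivity
  have bVN : Dom ww cVN (VN d l V X) := by
    intro j s hs h16
    rw [Real.norm_of_nonneg (pVN j s)]
    obtain ⟨_, _, h1, _⟩ := hdat1 j s hs (V j s) (X j s) (hB.bV j s hs) (hB.bX j s hs)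
    have h2 : Real.exp (-PL (Gh d l V X) j s) ≤ Real.exp L :=
      Real.exp_le_exp.mpr (by have := neg_le_of_abs_le (hPL j s hs); linarith)
    have h3 : d.ρ * ww s * d.N j s ≤ d.ρ * ww s * C :=
      mul_le_mul_of_nonneg_left h1 (mul_nonneg hρ.le (ww_nonneg s))
    have h4 : d.ρ * ww s * d.N j s * Real.exp (-PL (Gh d l V X) j s) ≤
        d.ρ * ww s * C * Real.exp L :=
      mul_le_mul h3 h2 (Real.exp_nonneg _)
        (mul_nonneg (mul_nonneg hρ.le (ww_nonneg s)) hC.le)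
    unfold VN
    rw [hcVN]
    linarith
  have iVN : ∀ j, IntegrableOn (VN d l V X j) DD := (H4 _ cVN mVN pcVN bVN).1
  have lVN : vn0 ≤ tot (VN d l V X) := by
    refine le_trans ?_ (tot_ge (fun j s _ => pVN j s))
    rw [hvn0]
    refine hN0 _ _ (Real.exp_pos _) (iVN false) (fun s _ => pVN false s) (fun s hs _ => ?_)
    have h1 : Real.exp (-L) ≤ Real.exp (-PL (Gh d l V X) false s) :=
      Real.exp_le_exp.mpr (by have := (le_abs_self _).trans (hPL false s hs); linarith)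
    have h2 : 0 ≤ d.ρ * ww s * d.N false s :=
      mul_nonneg (mul_nonneg hρ.le (ww_nonneg s)) (hd.N0 false s)
    unfold VN
    nlinarith
  have uVN : tot (VN d l V X) ≤ TN := by rw [hTN]; exact tot_le hi bVN
  have tVN : 0 < tot (VN d l V X) := lt_of_lt_of_le pvn0 lVN
  -- TV
  have bTV : ∀ j, ∀ v ∈ DD, |TV d l V X j v| ≤ cTV := by
    intro j v hv
    unfold TV
    have h1 := hPL j v hv
    have h2 := abs_log_le (div_pos tGp tVN)
    have h3 : tot (Gp d l V X) / tot (VN d l V X) ≤ Tp / vn0 := div_le_div₀ pTp uGp pvn0 lVN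
    have h4 : (tot (Gp d l V X) / tot (VN d l V X))⁻¹ ≤ TN / gp0 := by
      rw [inv_div]
      exact div_le_div₀ pTN uVN pgp0 lGp
    refine (abs_add_le _ _).trans ?_
    rw [abs_neg, hcTV]
    linarith
  have hTV : ∀ j, ∀ v ∈ DD, ∀ v' ∈ DD,
      |TV d l V X j v - TV d l V X j v'| ≤ L * ‖v - v'‖ ^ (1 / 4 : ℝ) := by
    intro j v hv v' hv'
    have h1 := HL.2.2.2.1 j v hv v' hv'
    rw [← hL] at h1
    have h2 : TV d l V X j v - TV d l V X j v' =
        -(PL (Gh d l V X) j v - PL (Gh d l V X) j v') := by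
      unfold TV; ring
    rw [h2, abs_neg]
    exact h1
  -- TX
  have HX := H3 (gS d l V X) cg mg pcg bg
  have hPX : ∀ j, ∀ v ∈ DD, ‖PX (gS d l V X) j v‖ ≤ K3 * cg := fun j v hv => (HX.2.1 j v hv).2.2
  have hMx : ∀ k < 11, ‖Pj (PX (gS d l V X)) k‖ ≤ mx := fun k hk =>
    (Pj_le _ hk).trans (by rw [hmx]; exact MM_le' hPX k)
  have hMX : ∀ k < 11, ‖Pj X k - Pj (fS d l V X) k‖ ≤ mX := by
    intro k hk
    refine (norm_sub_le _ _).trans ?_
    rw [hmX]
    exact add_le_add ((Pj_le _ hk).trans (MM_le' hB.bX k)) (hMf k hk)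
  have bTX : ∀ j, ∀ v ∈ DD, ‖TX d l V X j v‖ ≤ cTX := by
    intro j v hv
    unfold TX perp
    have h1 := hPX j v hv
    have h2 := pol_le hMx j hv
    have h3 := pol_le hMX j hv
    refine (norm_add_le _ _).trans ?_
    have h4 := norm_sub_le (PX (gS d l V X) j v) (pol (Pj (PX (gS d l V X))) j v)
    rw [hcTX]
    linarith
  have hTX : ∀ j, ∀ v ∈ DD, ∀ v' ∈ DD,
      ‖TX d l V X j v - TX d l V X j v'‖ ≤ cTX * ‖v - v'‖ ^ (1 / 4 : ℝ) := by
    intro j v hv v' hv'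
    have h1 := HX.2.2 j v hv v' hv'
    have h2 := pol_hold hMx j hv hv'
    have h3 := pol_hold hMX j hv hv'
    have h4 : TX d l V X j v - TX d l V X j v' =
        (PX (gS d l V X) j v - PX (gS d l V X) j v') -
        (pol (Pj (PX (gS d l V X))) j v - pol (Pj (PX (gS d l V X))) j v') +
        (pol (fun k => Pj X k - Pj (fS d l V X) k) j v -
          pol (fun k => Pj X k - Pj (fS d l V X) k) j v') := by
      unfold TX perp; ring
    rw [h4]
    refine (norm_add_le _ _).trans ?_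
    have h5 := norm_sub_le (PX (gS d l V X) j v - PX (gS d l V X) j v')
        (pol (Pj (PX (gS d l V X))) j v - pol (Pj (PX (gS d l V X))) j v')
    rw [hcTX]
    linarith
  have hole : ∀ {a : ℝ} (_ : a ≤ M) {v v' : ℂ} {y : ℝ} (_ : y ≤ a * ‖v - v'‖ ^ (1 / 4 : ℝ)),
      y ≤ M * ‖v - v'‖ ^ (1 / 4 : ℝ) := by
    intro a ha v v' y hy
    exact hy.trans (mul_le_mul_of_nonneg_right ha (by positivity))
  have inv_le : ∀ {a b : ℝ}, 0 < a → a⁻¹ ≤ M → a ≤ b → M⁻¹ ≤ b := by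
    intro a b ha h1 h2
    refine le_trans ?_ h2
    exact inv_le_of_inv_le₀ ha h1
  exact
    { mf := mf
      mp := mp
      mb := mb
      mg := mg
      mGp := mGp
      mGm := mGm
      mGh := mGh
      mVN := mVN
      bf := Dom.mono ww_nonneg (by rw [hM]; linarith) bf
      bp := Dom.mono ww_nonneg (by rw [hM]; linarith) bp
      bb := Dom.mono wh_nonneg (by rw [hM]; linarith) bb
      bg := Dom.mono wh_nonneg (by rw [hM]; linarith) bg
      bGp := Dom.mono ww_nonneg (by rw [hM]; linarith) bGp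
      bGm := Dom.mono ww_nonneg (by rw [hM]; linarith) bGm
      bGh := Dom.mono ww_nonneg (by rw [hM]; linarith) bGh
      bVN := Dom.mono ww_nonneg (by rw [hM]; linarith) bVN
      pGp := fun j s _ => pGp j s
      pGm := fun j s _ => pGm j s
      pVN := fun j s _ => pVN j s
      lGp := inv_le pgp0 (by rw [hM]; linarith) lGp
      lGm := inv_le pgm0 (by rw [hM]; linarith) lGm
      lVN := inv_le pvn0 (by rw [hM]; linarith) lVN
      kb := ⟨kb1, kb2.trans (by rw [hM]; linarith)⟩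
      bTV := fun j v hv => (bTV j v hv).trans (by rw [hM]; linarith)
      bTX := fun j v hv => (bTX j v hv).trans (by rw [hM]; linarith)
      hTV := fun j v hv v' hv' => hole (by rw [hM]; linarith) (hTV j v hv v' hv')
      hTX := fun j v hv v' hv' => hole (by rw [hM]; linarith) (hTX j v hv v' hv') }

end BNDL

/-- **BND** -/
theorem t_BND (_h1 : S_KER) (h2 : S_OPB) (h3 : S_OPX) (h4 : S_OPL) : S_BND :=
  BNDL.main h2 h3 h4

end Pool.Agent.H794.EX
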