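import Pool.Agent.H794.EX.Spec

/-!
# Part CHR: a solution in the plane gives smooth solutions in the charts
-/

set_option autoImplicit false

open scoped Manifold ContDiff Matrix ComplexOrder
open Matrix Topology MeasureTheory Set Filter

namespace Pool.Agent.H794.EX

open Pool.Agent.Helper614.HE Pool.Agent.H794

namespace CHRL

open Pool.Agent.Helper614.HE.P_G4 (G4_comp G4_mul G4_hol)

theorem sx_eq {Y v : ℂ} (h : Y ^ 4 = v ^ 16 + 1) : sx v = ‖Y‖ ^ 4 := by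
  rw [sx, ← h, norm_pow]

theorem ww_eq {Y v : ℂ} (h : Y ^ 4 = v ^ 16 + 1) : ww v = (‖Y‖ ^ 6)⁻¹ := by
  have h1 : (0 : ℝ) ≤ ‖Y‖ := norm_nonneg Y
  rw [ww, sx_eq h, ← Real.rpow_natCast, ← Real.rpow_natCast, ← Real.rpow_neg h1,
    ← Real.rpow_mul h1]
  congr 1
  norm_num

theorem wh_eq {Y v : ℂ} (h : Y ^ 4 = v ^ 16 + 1) : wh v = (‖Y‖ ^ 2)⁻¹ := by
  have h1 : (0 : ℝ) ≤ ‖Y‖ := norm_nonneg Y
  rw [wh, sx_eq h, ← Real.rpow_natCast, ← Real.rpow_natCast, ← Real.rpow_neg h1,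
    ← Real.rpow_mul h1]
  congr 1
  norm_num

/-- the system at a point with `Y ≠ 0` -/
theorem sysAt {d : Dat} {l : ℝ} {j : Bool} {V : ℂ → ℝ} {X B Q : ℂ → ℂ} {D : Set ℂ}
    {Vt Y θ : ℂ → ℂ} (hC : Cht D Vt Y θ) {t : ℂ} (ht : t ∈ D) (hY : Y t ≠ 0)
    (hS : PlaneAt d l j V X B Q (Vt t)) :
    GSysAt (fun t => (1 + ‖Vt t‖ ^ 2) ^ 10)
      (fun t V X => ((d.ρ * ‖θ t‖ ^ 2 : ℝ) : ℂ) * d.F l j (Vt t) V X)
      (fun t V X => d.ρ * ‖θ t‖ ^ 2 * (d.P l j (Vt t) V X - d.N j (Vt t) * Real.exp V) +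
        d.c l * (‖deriv Vt t‖ ^ 2 / (1 + ‖Vt t‖ ^ 2) ^ 2))
      (fun t => V (Vt t)) (fun t => X (Vt t))
      (fun t => B (Vt t) * (starRingEnd ℂ) (deriv Vt t)) (fun t => Q (Vt t) * deriv Vt t) t := by
  have hVt : DifferentiableAt ℂ Vt t := hC.hV.differentiableAt (hC.op.mem_nhds ht)
  have hVa : AnalyticAt ℂ Vt t := hC.hV.analyticAt (hC.op.mem_nhds ht)
  have hdVa : AnalyticAt ℂ (deriv Vt) t := hVa.deriv
  have hdVt : DifferentiableAt ℂ (deriv Vt) t := hdVa.differentiableAt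
  have cV : ContDiffAt ℝ 1 Vt t := (hVa.contDiffAt (n := 1)).restrict_scalars ℝ
  have cdV : ContDiffAt ℝ 1 (deriv Vt) t := (hdVa.contDiffAt (n := 1)).restrict_scalars ℝ
  have ccV : ContDiffAt ℝ 1 (fun w => (starRingEnd ℂ) (deriv Vt w)) t :=
    Complex.conjCLE.contDiff.contDiffAt.comp t cdV
  have one : (1 : WithTop ℕ∞) ≠ 0 := one_ne_zero
  have cU : ContDiffAt ℝ 1 (fun w => (V w : ℂ)) (Vt t) :=
    Complex.ofRealCLM.contDiff.contDiffAt.comp (Vt t) hS.dV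
  have hBV : ContDiffAt ℝ 1 (fun w => B (Vt w)) t := ContDiffAt.comp t hS.dB cV
  have hqV : ContDiffAt ℝ 1 (fun w => Q (Vt w)) t := ContDiffAt.comp t hS.dQ cV
  have hYn : ‖Y t‖ ^ 6 ≠ 0 := pow_ne_zero _ (norm_ne_zero_iff.mpr hY)
  have hww : ww (Vt t) * ‖deriv Vt t‖ ^ 2 = ‖θ t‖ ^ 2 := by
    rw [ww_eq (hC.eq t ht), hC.dv t ht, norm_mul, norm_pow]
    have h1 : (‖Y t‖ ^ 6)⁻¹ * ‖Y t‖ ^ 6 = 1 := inv_mul_cancel₀ hYn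
    linear_combination (‖θ t‖ ^ 2) * h1
  have h3 : (starRingEnd ℂ) (deriv Vt t) * deriv Vt t = ((‖deriv Vt t‖ ^ 2 : ℝ) : ℂ) := by
    rw [Complex.conj_mul']
    push_cast
    rfl
  refine ⟨ContDiffAt.comp t hS.dV cV, ContDiffAt.comp t hS.dX cV, hBV.mul ccV, hqV.mul cdV,
    ?_, ?_, ?_, ?_⟩
  · have h := (G4_comp (F := fun w => (V w : ℂ)) (cU.differentiableAt one) hVt).1
    rw [hS.eV] at h
    exact h
  · have h := (G4_comp (F := X) (hS.dX.differentiableAt one) hVt).2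
    rw [hS.eX] at h
    rw [h]
    ring
  · have h := (G4_mul (F := fun w => B (Vt w)) (G := fun w => (starRingEnd ℂ) (deriv Vt w))
      (hBV.differentiableAt one) (ccV.differentiableAt one)).1
    rw [(G4_hol hdVt).2, (G4_comp (F := B) (hS.dB.differentiableAt one) hVt).1, hS.eB, mul_zero,
      add_zero] at h
    rw [h]
    have h4 : ((d.ρ * ww (Vt t) : ℝ) : ℂ) * ((starRingEnd ℂ) (deriv Vt t) * deriv Vt t) =
        ((d.ρ * ‖θ t‖ ^ 2 : ℝ) : ℂ) := by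
      rw [h3, ← Complex.ofReal_mul, mul_assoc, hww]
    linear_combination (d.F l j (Vt t) (V (Vt t)) (X (Vt t))) * h4
  · have h := (G4_mul (F := fun w => Q (Vt w)) (G := deriv Vt)
      (hqV.differentiableAt one) (cdV.differentiableAt one)).2
    rw [(G4_hol hdVt).1, (G4_comp (F := Q) (hS.dQ.differentiableAt one) hVt).2, hS.eQ, mul_zero,
      add_zero] at h
    rw [h, mul_assoc, h3, ← Complex.ofReal_neg, ← Complex.ofReal_neg, ← Complex.ofReal_mul]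
    congr 1
    have n1 : ‖B (Vt t) * (starRingEnd ℂ) (deriv Vt t)‖ = ‖B (Vt t)‖ * ‖deriv Vt t‖ := by
      rw [norm_mul, RCLike.norm_conj]
    rw [n1]
    linear_combination (-(d.ρ * (d.P l j (Vt t) (V (Vt t)) (X (Vt t)) -
      d.N j (Vt t) * Real.exp (V (Vt t))))) * hww

/-- boundedness of the derivatives -/
theorem bdd {B : ℂ → ℂ} {C : ℝ} {D : Set ℂ} {Vt Y θ : ℂ → ℂ} (hC : Cht D Vt Y θ)
    (hB : ∀ v : ℂ, ‖v‖ < 2 → v ^ 16 + 1 ≠ 0 → ‖B v‖ ≤ C * wh v) {t : ℂ} (ht : t ∈ D) :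
    ∀ᶠ t' in 𝓝[≠] t, ‖B (Vt t')‖ * ‖deriv Vt t'‖ ≤ |C| * (‖θ t‖ * ‖Y t‖ + 1) := by
  have hc : ContinuousAt (fun t => ‖θ t‖ * ‖Y t‖) t :=
    ((hC.hθ.continuousOn.continuousAt (hC.op.mem_nhds ht)).norm).mul
      (hC.hY.continuousOn.continuousAt (hC.op.mem_nhds ht)).norm
  have h1 : ∀ᶠ t' in 𝓝 t, ‖θ t'‖ * ‖Y t'‖ < ‖θ t‖ * ‖Y t‖ + 1 :=
    hc.eventually_lt continuousAt_const (lt_add_one _)
  have h2 : ∀ᶠ t' in 𝓝 t, t' ∈ D := hC.op.mem_nhds ht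
  filter_upwards [hC.iso t ht, mem_nhdsWithin_of_mem_nhds h1, mem_nhdsWithin_of_mem_nhds h2]
    with t' hY h1 h2
  have hv : Vt t' ^ 16 + 1 ≠ 0 := by
    rw [← hC.eq t' h2]
    exact pow_ne_zero _ hY
  have h3 := hB (Vt t') (hC.small t' h2) hv
  have hYn : ‖Y t'‖ ^ 2 ≠ 0 := pow_ne_zero _ (norm_ne_zero_iff.mpr hY)
  rw [wh_eq (hC.eq t' h2)] at h3
  have h4 : (‖Y t'‖ ^ 2)⁻¹ * (‖θ t'‖ * ‖Y t'‖ ^ 3) = ‖θ t'‖ * ‖Y t'‖ := by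
    have h5 : (‖Y t'‖ ^ 2)⁻¹ * ‖Y t'‖ ^ 2 = 1 := inv_mul_cancel₀ hYn
    linear_combination (‖θ t'‖ * ‖Y t'‖) * h5
  calc ‖B (Vt t')‖ * ‖deriv Vt t'‖
      = ‖B (Vt t')‖ * (‖θ t'‖ * ‖Y t'‖ ^ 3) := by rw [hC.dv t' h2, norm_mul, norm_pow]
    _ ≤ (C * (‖Y t'‖ ^ 2)⁻¹) * (‖θ t'‖ * ‖Y t'‖ ^ 3) :=
        mul_le_mul_of_nonneg_right h3 (by positivity)
    _ = C * (‖θ t'‖ * ‖Y t'‖) := by rw [mul_assoc, h4]
    _ ≤ |C| * (‖θ t'‖ * ‖Y t'‖) :=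
        mul_le_mul_of_nonneg_right (le_abs_self C) (by positivity)
    _ ≤ |C| * (‖θ t‖ * ‖Y t‖ + 1) := mul_le_mul_of_nonneg_left h1.le (abs_nonneg C)

end CHRL

open CHRL

theorem t_CHR (h : S_SRG) : S_CHR := by
  intro d hd l V X hP D Vt Y θ hC j
  obtain ⟨B, Q, hS, C, hBQ⟩ := hP.sys j
  have cVt : ContDiffOn ℝ ∞ Vt D := (hC.hV.contDiffOn hC.op).restrict_scalars ℝ
  have cdVt : ContDiffOn ℝ ∞ (deriv Vt) D :=
    ((hC.hV.deriv hC.op).contDiffOn hC.op).restrict_scalars ℝ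
  have cθ : ContDiffOn ℝ ∞ θ D := (hC.hθ.contDiffOn hC.op).restrict_scalars ℝ
  have nsq : ContDiff ℝ ∞ (fun z : ℂ => ‖z‖ ^ 2) := contDiff_norm_sq ℝ
  have nV : ContDiffOn ℝ ∞ (fun t => ‖Vt t‖ ^ 2) D := nsq.comp_contDiffOn cVt
  have ndV : ContDiffOn ℝ ∞ (fun t => ‖deriv Vt t‖ ^ 2) D := nsq.comp_contDiffOn cdVt
  have nθ : ContDiffOn ℝ ∞ (fun t => ‖θ t‖ ^ 2) D := nsq.comp_contDiffOn cθ
  have hE : ContDiffOn ℝ ∞ (fun t => (1 + ‖Vt t‖ ^ 2) ^ 10) D :=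
    (contDiffOn_const.add nV).pow 10
  have hE2 : ContDiffOn ℝ ∞ (fun t => ‖deriv Vt t‖ ^ 2 / (1 + ‖Vt t‖ ^ 2) ^ 2) D :=
    ndV.div ((contDiffOn_const.add nV).pow 2) fun t _ => by positivity
  have hfst : ContDiffOn ℝ ∞ (fun p : ℂ × ℝ × ℂ => p.1) (D ×ˢ univ) := contDiff_fst.contDiffOn
  have hmap : MapsTo (fun p : ℂ × ℝ × ℂ => p.1) (D ×ˢ univ) D := fun p hp => hp.1
  have hsub : ContDiffOn ℝ ∞ (fun p : ℂ × ℝ × ℂ => (Vt p.1, p.2.1, p.2.2)) (D ×ˢ univ) :=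
    (cVt.comp hfst hmap).prodMk (contDiff_snd.contDiffOn)
  have hΦ : ContDiffOn ℝ ∞ (fun p : ℂ × ℝ × ℂ =>
      ((d.ρ * ‖θ p.1‖ ^ 2 : ℝ) : ℂ) * d.F l j (Vt p.1) p.2.1 p.2.2) (D ×ˢ univ) :=
    (Complex.ofRealCLM.contDiff.comp_contDiffOn
      (contDiffOn_const.mul (nθ.comp hfst hmap))).mul ((hd.smF l j).comp_contDiffOn hsub)
  have hΨ : ContDiffOn ℝ ∞ (fun p : ℂ × ℝ × ℂ =>
      d.ρ * ‖θ p.1‖ ^ 2 * (d.P l j (Vt p.1) p.2.1 p.2.2 - d.N j (Vt p.1) * Real.exp p.2.1) +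
        d.c l * (‖deriv Vt p.1‖ ^ 2 / (1 + ‖Vt p.1‖ ^ 2) ^ 2)) (D ×ˢ univ) := by
    have h1 : ContDiffOn ℝ ∞ (fun p : ℂ × ℝ × ℂ => d.ρ * ‖θ p.1‖ ^ 2) (D ×ˢ univ) :=
      contDiffOn_const.mul (nθ.comp hfst hmap)
    have h2 : ContDiffOn ℝ ∞ (fun p : ℂ × ℝ × ℂ => d.P l j (Vt p.1) p.2.1 p.2.2) (D ×ˢ univ) :=
      (hd.smP l j).comp_contDiffOn hsub
    have h3 : ContDiffOn ℝ ∞ (fun p : ℂ × ℝ × ℂ => d.N j (Vt p.1)) (D ×ˢ univ) :=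
      (hd.smN j).comp_contDiffOn (cVt.comp hfst hmap)
    have h4 : ContDiffOn ℝ ∞ (fun p : ℂ × ℝ × ℂ => Real.exp p.2.1) (D ×ˢ univ) :=
      (Real.contDiff_exp.comp (contDiff_fst.comp contDiff_snd)).contDiffOn
    have h5 : ContDiffOn ℝ ∞ (fun p : ℂ × ℝ × ℂ =>
        d.c l * (‖deriv Vt p.1‖ ^ 2 / (1 + ‖Vt p.1‖ ^ 2) ^ 2)) (D ×ˢ univ) :=
      contDiffOn_const.mul (hE2.comp hfst hmap)
    exact (h1.mul (h2.sub (h3.mul h4))).add h5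
  have hPC : ∀ (m : ℕ) (V : ℂ → ℝ) (X : ℂ → ℂ), PC D m (fun t => (V t : ℂ)) → PC D m X →
      PC D m (fun t => ((d.ρ * ‖θ t‖ ^ 2 : ℝ) : ℂ) * d.F l j (Vt t) (V t) (X t)) ∧
      PC D m (fun t => ((d.ρ * ‖θ t‖ ^ 2 * (d.P l j (Vt t) (V t) (X t) -
        d.N j (Vt t) * Real.exp (V t)) +
        d.c l * (‖deriv Vt t‖ ^ 2 / (1 + ‖Vt t‖ ^ 2) ^ 2) : ℝ) : ℂ)) := by
    intro m V X hV hX
    obtain ⟨-, -, b3, b4, b5, -, -, b8, -, b10, -⟩ := All.hBT1 D hC.op m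
    have p1 : PC D m (fun t => ((d.ρ * ‖θ t‖ ^ 2 : ℝ) : ℂ)) :=
      b10 _ (Complex.ofRealCLM.contDiff.comp_contDiffOn (contDiffOn_const.mul nθ))
    have p2 : PC D m (fun t => ((d.c l * (‖deriv Vt t‖ ^ 2 / (1 + ‖Vt t‖ ^ 2) ^ 2) : ℝ) : ℂ)) :=
      b10 _ (Complex.ofRealCLM.contDiff.comp_contDiffOn (contDiffOn_const.mul hE2))
    have p3 : PC D m (fun _ => (-1 : ℂ)) := b10 _ contDiffOn_const
    refine ⟨b5 _ _ p1 (hd.pcF l j D m Vt V X hC.op hC.hV hV hX), ?_⟩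
    refine b3 _ _ ?_ (b4 _ _ (b5 _ _ p1 (b4 _ _ (hd.pcP l j D m Vt V X hC.op hC.hV hV hX)
      (b5 _ _ p3 (b5 _ _ (hd.pcN j D m Vt hC.op hC.hV) (b8 _ hV))))) p2)
    intro t _
    push_cast
    ring
  exact h D hC.op _ _ _ hE (fun t _ => by positivity) hΦ hΨ hPC (fun t => V j (Vt t))
    (fun t => X j (Vt t)) (fun t => B (Vt t) * (starRingEnd ℂ) (deriv Vt t))
    (fun t => Q (Vt t) * deriv Vt t) ((hP.cV j).comp_continuousOn hC.hV.continuousOn)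
    ((hP.cX j).comp_continuousOn hC.hV.continuousOn)
    (fun t ht => by
      have h2 : ∀ᶠ t' in 𝓝 t, t' ∈ D := hC.op.mem_nhds ht
      filter_upwards [hC.iso t ht, mem_nhdsWithin_of_mem_nhds h2] with t' hY h2
      refine sysAt hC h2 hY (hS (Vt t') (hC.small t' h2) ?_)
      rw [← hC.eq t' h2]
      exact pow_ne_zero _ hY)
    (fun t ht => by
      refine ⟨|C| * (‖θ t‖ * ‖Y t‖ + 1), ?_⟩
      filter_upwards [bdd hC (fun v h1 h2 => (hBQ v h1 h2).1) ht,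
        bdd hC (fun v h1 h2 => (hBQ v h1 h2).2) ht] with t' h1 h2
      rw [norm_mul, norm_mul, RCLike.norm_conj]
      exact ⟨h1, h2⟩)

end Pool.Agent.H794.EX
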