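import Pool.Agent.H794.EX.Spec

/-!
# The fixed point map as a compact continuous map of the Banach space
-/

set_option autoImplicit false

open Topology MeasureTheory Set Filter

namespace Pool.Agent.H794.EX

open Pool.Agent.Helper614.HE Pool.Agent.H794

namespace CPTL

theorem continuous_rt : Continuous rt := by
  refine Continuous.subtype_mk ?_ _
  refine Continuous.mul ?_ continuous_id
  refine Continuous.inv₀ (Complex.continuous_ofReal.comp (continuous_const.max continuous_norm)) ?_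
  intro s
  have h1 : (0 : ℝ) < max 1 ‖s‖ := lt_max_of_lt_left one_pos
  exact_mod_cast h1.ne'

theorem bdd_of (x : BB) {R : ℝ} (hx : ‖x‖ ≤ R) : Bdd R (bV x) (bX x) := by
  have hc : ∀ j : Bool, Continuous (fun s : ℂ => x (j, rt s)) := fun j =>
    x.continuous.comp (continuous_const.prodMk continuous_rt)
  have hb : ∀ q, ‖x q‖ ≤ R := fun q => (x.norm_coe_le_norm q).trans hx
  refine ⟨fun j => continuous_fst.comp (hc j), fun j => continuous_snd.comp (hc j), ?_, ?_⟩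
  · intro j s _
    exact (norm_fst_le _).trans (hb (j, rt s))
  · intro j s _
    exact (norm_snd_le _).trans (hb (j, rt s))

/-- the compact set of Hoelder functions -/
def KK (M : ℝ) : Set BB := {y | (∀ q, ‖y q‖ ≤ M) ∧
  ∀ (j : Bool) (v v' : Metric.closedBall (0 : ℂ) 1),
    ‖y (j, v) - y (j, v')‖ ≤ M * ‖(v : ℂ) - v'‖ ^ (1 / 4 : ℝ)}

theorem holder_tendsto (M : ℝ) (v : Metric.closedBall (0 : ℂ) 1) :
    Tendsto (fun v' : Metric.closedBall (0 : ℂ) 1 => M * ‖(v' : ℂ) - v‖ ^ (1 / 4 : ℝ)) (𝓝 v)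
      (𝓝 0) := by
  have h1 : Tendsto (fun v' : Metric.closedBall (0 : ℂ) 1 => ‖(v' : ℂ) - v‖) (𝓝 v) (𝓝 0) := by
    have hc : Continuous (fun v' : Metric.closedBall (0 : ℂ) 1 => ‖(v' : ℂ) - v‖) := by fun_prop
    have h := hc.tendsto v
    simpa using h
  have h2 := (h1.rpow_const (p := (1 / 4 : ℝ)) (Or.inr (by norm_num))).const_mul M
  rw [Real.zero_rpow (by norm_num), mul_zero] at h2
  exact h2

theorem cont_of_holder {f : Bool × Metric.closedBall (0 : ℂ) 1 → ℝ × ℂ} {M : ℝ}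
    (hf : ∀ (j : Bool) (v v' : Metric.closedBall (0 : ℂ) 1),
      ‖f (j, v) - f (j, v')‖ ≤ M * ‖(v : ℂ) - v'‖ ^ (1 / 4 : ℝ)) : Continuous f := by
  rw [continuous_prod_of_discrete_left]
  intro j
  rw [continuous_iff_continuousAt]
  intro v
  rw [ContinuousAt, tendsto_iff_norm_sub_tendsto_zero]
  exact squeeze_zero (fun _ => norm_nonneg _) (fun v' => hf j v' v) (holder_tendsto M v)

theorem isCompact_KK (M : ℝ) : IsCompact (KK M) := by
  refine ArzelaAscoli.isCompact_of_equicontinuous (KK M) ?_ ?_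
  · have himg : ContinuousMap.toFun '' (KK M) =
        {f : Bool × Metric.closedBall (0 : ℂ) 1 → ℝ × ℂ | (∀ q, f q ∈ Metric.closedBall 0 M) ∧
          ∀ (j : Bool) (v v' : Metric.closedBall (0 : ℂ) 1),
            ‖f (j, v) - f (j, v')‖ ≤ M * ‖(v : ℂ) - v'‖ ^ (1 / 4 : ℝ)} := by
      ext f
      constructor
      · rintro ⟨y, hy, rfl⟩
        exact ⟨fun q => mem_closedBall_zero_iff.2 (hy.1 q), hy.2⟩
      · rintro ⟨h1, h2⟩
        exact ⟨⟨f, cont_of_holder h2⟩, ⟨fun q => mem_closedBall_zero_iff.1 (h1 q), h2⟩, rfl⟩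
    rw [himg]
    have hc : IsCompact {f : Bool × Metric.closedBall (0 : ℂ) 1 → ℝ × ℂ |
        ∀ q, f q ∈ Metric.closedBall 0 M} :=
      isCompact_pi_infinite fun _ => isCompact_closedBall 0 M
    refine hc.inter_right ?_
    have e : {f : Bool × Metric.closedBall (0 : ℂ) 1 → ℝ × ℂ | ∀ (j : Bool)
        (v v' : Metric.closedBall (0 : ℂ) 1),
          ‖f (j, v) - f (j, v')‖ ≤ M * ‖(v : ℂ) - v'‖ ^ (1 / 4 : ℝ)} =
        ⋂ (j : Bool), ⋂ (v : Metric.closedBall (0 : ℂ) 1), ⋂ (v' : Metric.closedBall (0 : ℂ) 1),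
          {f : Bool × Metric.closedBall (0 : ℂ) 1 → ℝ × ℂ |
            ‖f (j, v) - f (j, v')‖ ≤ M * ‖(v : ℂ) - v'‖ ^ (1 / 4 : ℝ)} := by
      ext f
      simp only [mem_iInter]
      rfl
    show IsClosed {f : Bool × Metric.closedBall (0 : ℂ) 1 → ℝ × ℂ | ∀ (j : Bool)
        (v v' : Metric.closedBall (0 : ℂ) 1),
          ‖f (j, v) - f (j, v')‖ ≤ M * ‖(v : ℂ) - v'‖ ^ (1 / 4 : ℝ)}
    rw [e]
    refine isClosed_iInter fun j => isClosed_iInter fun v => isClosed_iInter fun v' => ?_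
    exact isClosed_le (((continuous_apply (j, v)).sub (continuous_apply (j, v'))).norm)
      continuous_const
  · intro q
    obtain ⟨j, v⟩ := q
    rw [Metric.equicontinuousAt_iff_right]
    intro ε hε
    have h1 := holder_tendsto M v
    have h2 : ∀ᶠ v' : Metric.closedBall (0 : ℂ) 1 in 𝓝 v, M * ‖(v' : ℂ) - v‖ ^ (1 / 4 : ℝ) < ε := h1.eventually_lt_const hε
    have h3 : ∀ᶠ q' : Bool × Metric.closedBall (0 : ℂ) 1 in 𝓝 (j, v), q'.1 = j ∧
        M * ‖((q'.2 : Metric.closedBall (0 : ℂ) 1) : ℂ) - v‖ ^ (1 / 4 : ℝ) < ε := by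
      rw [nhds_prod_eq]
      refine Filter.Eventually.and ?_ ?_
      · have : ∀ᶠ j' in 𝓝 j, j' = j := by
          rw [nhds_discrete]; exact rfl
        exact this.prod_inl _
      · exact h2.prod_inr _
    filter_upwards [h3] with q' hq' y
    obtain ⟨j', v'⟩ := q'
    obtain ⟨h4, h5⟩ := hq'
    simp only at h4 h5
    subst h4
    rw [dist_comm, dist_eq_norm]
    exact (y.2.2 j' v' v).trans_lt h5

theorem tendsto_of_KK {M : ℝ} {z : ℕ → BB} {y : BB} (hz : ∀ n, z n ∈ KK M)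
    (hp : ∀ q, Tendsto (fun n => z n q) atTop (𝓝 (y q))) : Tendsto z atTop (𝓝 y) := by
  refine tendsto_of_subseq_tendsto fun ns hns => ?_
  obtain ⟨a, _, φ, hφ, ha⟩ := (isCompact_KK M).tendsto_subseq (fun n => hz (ns n))
  refine ⟨φ, ?_⟩
  have : a = y := by
    ext q : 1
    have h1 : Tendsto (fun n => z (ns (φ n)) q) atTop (𝓝 (a q)) :=
      ((continuous_eval_const q).tendsto a).comp ha
    have h2 : Tendsto (fun n => z (ns (φ n)) q) atTop (𝓝 (y q)) :=
      (hp q).comp (hns.comp hφ.tendsto_atTop)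
    exact tendsto_nhds_unique h1 h2
  rw [← this]
  exact ha

end CPTL

open CPTL in
theorem t_CPT (h1 : S_BND) (h2 : S_SEQ) : S_CPT := by
  intro d hd
  have hM : ∀ R : ℝ, 0 < R → ∃ M : ℝ, 0 < M ∧ ∀ l ∈ Icc (0 : ℝ) 1, ∀ x : BB, ‖x‖ ≤ R →
      Est d l (bV x) (bX x) M := by
    intro R hR
    obtain ⟨M, hM0, hM⟩ := h1 d hd R hR
    exact ⟨M, hM0, fun l hl x hx => hM l hl _ _ (bdd_of x hx)⟩
  have hhol : ∀ {l : ℝ} {x : BB} {M : ℝ}, Est d l (bV x) (bX x) M →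
      ∀ (j : Bool) (v v' : Metric.closedBall (0 : ℂ) 1),
      ‖(TV d l (bV x) (bX x) j v, TX d l (bV x) (bX x) j v) -
        (TV d l (bV x) (bX x) j v', TX d l (bV x) (bX x) j v')‖ ≤
        M * ‖(v : ℂ) - v'‖ ^ (1 / 4 : ℝ) := by
    intro l x M hE j v v'
    rw [Prod.mk_sub_mk, Prod.norm_mk]
    exact max_le (hE.hTV j v v.2 v' v'.2) (hE.hTX j v v.2 v' v'.2)
  have hcont : ∀ l ∈ Icc (0 : ℝ) 1, ∀ x : BB, Continuous
      (fun q : Bool × Metric.closedBall (0 : ℂ) 1 =>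
        ((TV d l (bV x) (bX x) q.1 q.2, TX d l (bV x) (bX x) q.1 q.2) : ℝ × ℂ)) := by
    intro l hl x
    obtain ⟨M, _, hE⟩ := hM (‖x‖ + 1) (by positivity)
    exact cont_of_holder (M := M) fun j v v' => hhol (hE l hl x (by linarith)) j v v'
  classical
  let Φ : ℝ → BB → BB := fun l x => if hl : l ∈ Icc (0 : ℝ) 1 then
    ⟨fun q => (TV d l (bV x) (bX x) q.1 q.2, TX d l (bV x) (bX x) q.1 q.2), hcont l hl x⟩ else 0
  have hΦ : ∀ l ∈ Icc (0 : ℝ) 1, ∀ (x : BB) (j : Bool) (v : Metric.closedBall (0 : ℂ) 1),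
      Φ l x (j, v) = (TV d l (bV x) (bX x) j v, TX d l (bV x) (bX x) j v) := by
    intro l hl x j v
    simp only [Φ, dif_pos hl]
    rfl
  have hKK : ∀ {l : ℝ} (hl : l ∈ Icc (0 : ℝ) 1) {x : BB} {M : ℝ}, Est d l (bV x) (bX x) M →
      Φ l x ∈ KK M := by
    intro l hl x M hE
    refine ⟨fun q => ?_, fun j v v' => ?_⟩
    · obtain ⟨j, v⟩ := q
      rw [hΦ l hl, Prod.norm_mk]
      exact max_le (hE.bTV j v v.2) (hE.bTX j v v.2)
    · rw [hΦ l hl, hΦ l hl]
      exact hhol hE j v v'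
  refine ⟨Φ, hΦ, ?_, ?_⟩
  · rintro ⟨l', x'⟩ ⟨hl', _⟩
    rw [ContinuousWithinAt, tendsto_iff_seq_tendsto]
    intro z hz
    rw [tendsto_nhdsWithin_iff] at hz
    obtain ⟨hz1, hz2⟩ := hz
    have hzl : Tendsto (fun n => (z n).1) atTop (𝓝 l') := (continuous_fst.tendsto _).comp hz1
    have hzx : Tendsto (fun n => (z n).2) atTop (𝓝 x') := (continuous_snd.tendsto _).comp hz1
    have hb : ∀ᶠ n in atTop, ‖(z n).2‖ ≤ ‖x'‖ + 1 :=
      (hzx.norm.eventually_lt_const (by linarith)).mono fun n hn => hn.le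
    obtain ⟨N, hN⟩ := eventually_atTop.1 (hz2.and hb)
    have hR : 0 < ‖x'‖ + 1 := by positivity
    obtain ⟨M, _, hE⟩ := hM (‖x'‖ + 1) hR
    have hzN : ∀ n, (z (n + N)).1 ∈ Icc (0 : ℝ) 1 ∧ ‖(z (n + N)).2‖ ≤ ‖x'‖ + 1 := fun n =>
      ⟨(hN (n + N) (Nat.le_add_left _ _)).1.1, (hN (n + N) (Nat.le_add_left _ _)).2⟩
    have hzlN : Tendsto (fun n => (z (n + N)).1) atTop (𝓝 l') :=
      (tendsto_add_atTop_iff_nat N).2 hzl
    have hzxN : Tendsto (fun n => (z (n + N)).2) atTop (𝓝 x') :=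
      (tendsto_add_atTop_iff_nat N).2 hzx
    have hpt : ∀ q, Tendsto (fun n => (z (n + N)).2 q) atTop (𝓝 (x' q)) := fun q =>
      ((continuous_eval_const q).tendsto x').comp hzxN
    refine (tendsto_add_atTop_iff_nat N).1 ?_
    refine tendsto_of_KK (M := M) (fun n => hKK (hzN n).1 (hE _ (hzN n).1 _ (hzN n).2)) ?_
    rintro ⟨j, v⟩
    have hs := h2 d hd (‖x'‖ + 1) hR (fun n => (z (n + N)).1) l' (fun n => bV (z (n + N)).2)
      (fun n => bX (z (n + N)).2) (bV x') (bX x') (fun n => (hzN n).1) hl'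
      (fun n => bdd_of _ (hzN n).2) (bdd_of _ (by linarith)) hzlN
      (fun j s _ => (continuous_fst.tendsto _).comp (hpt (j, rt s)))
      (fun j s _ => (continuous_snd.tendsto _).comp (hpt (j, rt s))) j v v.2
    have hs2 := hs.1.prodMk_nhds hs.2
    have e1 : ∀ n, ((fun p : ℝ × BB => Φ p.1 p.2) ∘ z) (n + N) (j, v) =
        (TV d (z (n + N)).1 (bV (z (n + N)).2) (bX (z (n + N)).2) j v,
          TX d (z (n + N)).1 (bV (z (n + N)).2) (bX (z (n + N)).2) j v) := fun n =>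
      hΦ _ (hzN n).1 _ j v
    simp only [e1]
    rw [hΦ l' hl']
    exact hs2
  · intro R
    obtain ⟨M, _, hE⟩ := hM (|R| + 1) (by positivity)
    exact ⟨KK M, isCompact_KK M, fun l hl x hx =>
      hKK hl (hE l hl x (hx.trans ((le_abs_self R).trans (by linarith))))⟩

end Pool.Agent.H794.EX
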