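import Pool.Agent.H794.EX.Spec

/-!
# EX, leaf EN: the energy identity
-/

set_option autoImplicit false

open MeasureTheory Set Filter Topology

namespace Pool.Agent.H794.EX

namespace ENL

theorem isCompact_DD : IsCompact DD := isCompact_closedBall 0 1

theorem measurableSet_DD : MeasurableSet DD := Metric.isClosed_closedBall.measurableSet

theorem ae_exc_restrict : ∀ᵐ s : ℂ ∂(volume.restrict DD), s ∈ DD ∧ s ^ 16 + 1 ≠ 0 := by
  have hfin : ({s : ℂ | s ^ 16 + 1 = 0}).Finite := by
    have hp : ((Polynomial.X : Polynomial ℂ) ^ 16 + 1) ≠ 0 := by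
      intro h
      have := congrArg (Polynomial.eval 0) h
      simp at this
    refine (Polynomial.finite_setOfPred_isRoot hp).subset ?_
    intro s hs
    simpa [Polynomial.IsRoot] using hs
  have h := hfin.countable.ae_notMem (volume : Measure ℂ)
  filter_upwards [ae_restrict_mem measurableSet_DD, ae_restrict_of_ae h] with s h1 h2
  exact ⟨h1, h2⟩

theorem totc_congr {G H : Bool → ℂ → ℂ} (h : ∀ j, ∀ s ∈ DD, G j s = H j s) :
    totc G = totc H := by
  unfold totc
  refine Finset.sum_congr rfl fun j _ => ?_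
  exact setIntegral_congr_fun measurableSet_DD fun s hs => h j s hs

theorem totc_add {G H : Bool → ℂ → ℂ} (hG : ∀ j, IntegrableOn (G j) DD)
    (hH : ∀ j, IntegrableOn (H j) DD) :
    totc (fun j s => G j s + H j s) = totc G + totc H := by
  unfold totc
  rw [← Finset.sum_add_distrib]
  exact Finset.sum_congr rfl fun j _ => integral_add (hG j) (hH j)

theorem totc_sub {G H : Bool → ℂ → ℂ} (hG : ∀ j, IntegrableOn (G j) DD)
    (hH : ∀ j, IntegrableOn (H j) DD) :
    totc (fun j s => G j s - H j s) = totc G - totc H := by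
  unfold totc
  rw [← Finset.sum_sub_distrib]
  exact Finset.sum_congr rfl fun j _ => integral_sub (hG j) (hH j)

theorem totc_mul (c : ℂ) (G : Bool → ℂ → ℂ) :
    totc (fun j s => c * G j s) = c * totc G := by
  unfold totc
  rw [Finset.mul_sum]
  exact Finset.sum_congr rfl fun j _ => integral_const_mul c _

theorem Pj_congr {f g : Bool → ℂ → ℂ} (h : ∀ j, ∀ s ∈ DD, f j s = g j s) (k : ℕ) :
    Pj f k = Pj g k := by
  unfold Pj MM
  congr 1
  refine Finset.sum_congr rfl fun j _ => ?_
  congr 1
  exact setIntegral_congr_fun measurableSet_DD fun s hs => by rw [h j s hs]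

theorem continuous_pol (p : ℕ → ℂ) (j : Bool) : Continuous (pol p j) := by
  unfold pol
  fun_prop

theorem conj_int {f : ℂ → ℂ} (h : IntegrableOn f DD) :
    IntegrableOn (fun s => (starRingEnd ℂ) (f s)) DD :=
  (Complex.conjCLE : ℂ →L[ℝ] ℂ).integrable_comp h

theorem pair_int {f g : ℂ → ℂ} (h : IntegrableOn f DD) (hg : ContinuousOn g DD) :
    IntegrableOn (fun s => (starRingEnd ℂ) (f s) * g s) DD :=
  (conj_int h).mul_continuousOn hg isCompact_DD

theorem cont_of_holder {F : ℂ → ℂ} {K : ℝ}
    (h : ∀ v ∈ DD, ∀ v' ∈ DD, ‖F v - F v'‖ ≤ K * ‖v - v'‖ ^ (1 / 4 : ℝ)) :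
    ContinuousOn F DD := by
  intro v hv
  unfold ContinuousWithinAt
  rw [tendsto_iff_norm_sub_tendsto_zero]
  have h1 : Tendsto (fun v' : ℂ => K * ‖v' - v‖ ^ (1 / 4 : ℝ)) (𝓝[DD] v) (𝓝 0) := by
    have h2 : Continuous (fun v' : ℂ => K * ‖v' - v‖ ^ (1 / 4 : ℝ)) := by
      refine continuous_const.mul ?_
      exact (continuous_norm.comp (continuous_id.sub continuous_const)).rpow_const
        (fun _ => Or.inr (by norm_num))
    have h3 := h2.tendsto v
    simp only [sub_self, norm_zero] at h3
    rw [Real.zero_rpow (by norm_num), mul_zero] at h3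
    exact h3.mono_left nhdsWithin_le_nhds
  refine squeeze_zero' (Eventually.of_forall fun _ => norm_nonneg _) ?_ h1
  filter_upwards [self_mem_nhdsWithin] with v' hv'
  exact h v' hv' v hv

theorem cc_pos {k : ℕ} (hk : k < 11) : 0 < cc k := by
  unfold cc
  have h1 : (0 : ℝ) < 11 - k := by
    have : (k : ℝ) < 11 := by exact_mod_cast hk
    linarith
  positivity

/-- the pairing of `pol` with a function -/
theorem pair_pol {X : Bool → ℂ → ℂ} (hX : ∀ j, Continuous (X j)) (p : ℕ → ℂ) :
    totc (fun j s => (starRingEnd ℂ) (pol p j s) * X j s) =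
      ∑ k ∈ Finset.range 11, (starRingEnd ℂ) (p k) * MM X k := by
  have hep : ∀ j, (starRingEnd ℂ) (ep j) = ep j := by
    intro j
    unfold ep
    split_ifs <;> simp
  unfold totc MM
  have h1 : ∀ j, ∫ s in DD, (starRingEnd ℂ) (pol p j s) * X j s =
      ∑ k ∈ Finset.range 11, (starRingEnd ℂ) (p k) *
        (ep j * ∫ s in DD, (starRingEnd ℂ) s ^ ee j k * X j s) := by
    intro j
    have h2 : ∀ s, (starRingEnd ℂ) (pol p j s) * X j s =
        ∑ k ∈ Finset.range 11, ((starRingEnd ℂ) (p k) * ep j) *
          ((starRingEnd ℂ) s ^ ee j k * X j s) := by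
      intro s
      unfold pol
      rw [map_sum, Finset.sum_mul]
      refine Finset.sum_congr rfl fun k _ => ?_
      rw [map_mul, map_mul, map_pow, hep]
      ring
    simp_rw [h2]
    rw [integral_finsetSum]
    · refine Finset.sum_congr rfl fun k _ => ?_
      rw [integral_const_mul]
      ring
    · intro k _
      refine Integrable.const_mul ?_ _
      refine ContinuousOn.integrableOn_compact isCompact_DD (Continuous.continuousOn ?_)
      exact (Complex.continuous_conj.pow _).mul (hX j)
  simp_rw [h1]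
  rw [Finset.sum_comm]
  refine Finset.sum_congr rfl fun k _ => ?_
  rw [Finset.mul_sum]

end ENL

open ENL in
theorem t_EN (h1 : S_ADJ) (h2 : S_PRJ) (h3 : S_BND) (h4 : S_OPX) (h5 : S_OPB) : S_EN := by
  intro d hd l hl hF t ht V X hV hX hfix
  rcases eq_or_lt_of_le ht.1 with h0 | h0
  · intro j v hv
    rw [hfix j v hv, ← h0]
    simp
  obtain ⟨R, hR, hRV, hRX⟩ : ∃ R : ℝ, 0 < R ∧ (∀ j, ∀ s ∈ DD, |V j s| ≤ R) ∧
      (∀ j, ∀ s ∈ DD, ‖X j s‖ ≤ R) := by
    have e1 : ∀ j, ∃ C : ℝ, ∀ s ∈ DD, ‖V j s‖ ≤ C := fun j =>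
      isCompact_DD.exists_bound_of_continuousOn (hV j).continuousOn
    have e2 : ∀ j, ∃ C : ℝ, ∀ s ∈ DD, ‖X j s‖ ≤ C := fun j =>
      isCompact_DD.exists_bound_of_continuousOn (hX j).continuousOn
    choose C1 hC1 using e1
    choose C2 hC2 using e2
    refine ⟨1 + |C1 false| + |C1 true| + |C2 false| + |C2 true|, by positivity, ?_, ?_⟩
    · intro j s hs
      have := hC1 j s hs
      rw [Real.norm_eq_abs] at this
      cases j
      · linarith [le_abs_self (C1 false), abs_nonneg (C1 true), abs_nonneg (C2 false),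
          abs_nonneg (C2 true)]
      · linarith [le_abs_self (C1 true), abs_nonneg (C1 false), abs_nonneg (C2 false),
          abs_nonneg (C2 true)]
    · intro j s hs
      have := hC2 j s hs
      cases j
      · linarith [le_abs_self (C2 false), abs_nonneg (C1 true), abs_nonneg (C1 false),
          abs_nonneg (C2 true)]
      · linarith [le_abs_self (C2 true), abs_nonneg (C1 false), abs_nonneg (C1 true),
          abs_nonneg (C2 false)]
  obtain ⟨M, hM, hE⟩ := h3 d hd R hR
  have E := hE l hl V X ⟨hV, hX, hRV, hRX⟩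
  obtain ⟨K4, hK4, h4⟩ := h4
  obtain ⟨K5, hK5, h5⟩ := h5
  obtain ⟨p1, p2, p3⟩ := h2
  obtain ⟨a1, -⟩ := h1
  have fi : ∀ j, IntegrableOn (fS d l V X j) DD := (h5 _ M E.mf hM.le E.bf).2.1
  have pi : ∀ j, IntegrableOn (perp (fS d l V X) j) DD := (h5 _ M E.mp hM.le E.bp).2.1
  obtain ⟨-, g2, g3⟩ := h4 (gS d l V X) M E.mg hM.le E.bg
  have cP : ∀ j, ContinuousOn (PX (gS d l V X) j) DD := fun j => cont_of_holder (g3 j)
  have iP : ∀ j, IntegrableOn (PX (gS d l V X) j) DD := fun j =>
    (cP j).integrableOn_compact isCompact_DD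
  -- the moments of the orthogonal part
  have mp : ∀ k < 11, MM (perp (fS d l V X)) k = 0 := by
    intro k hk
    have e1 := (p2 _ fi).1 k hk
    unfold Pj at e1
    rcases mul_eq_zero.1 e1 with e2 | e2
    · exact absurd (by exact_mod_cast e2) (cc_pos hk).ne'
    · exact e2
  have op : ∀ p : ℕ → ℂ, totc (fun j s => (starRingEnd ℂ) (perp (fS d l V X) j s) * pol p j s) = 0 := by
    intro p
    rw [(p2 _ pi).2.1 p]
    refine Finset.sum_eq_zero fun k hk => ?_
    rw [mp k (Finset.mem_range.1 hk)]
    simp
  -- first energy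
  have e1 : totc (fun j s => (starRingEnd ℂ) (perp (fS d l V X) j s) * TX d l V X j s) =
      totc (fun j s => (starRingEnd ℂ) (perp (fS d l V X) j s) * PX (gS d l V X) j s) := by
    have e2 : totc (fun j s => (starRingEnd ℂ) (perp (fS d l V X) j s) * TX d l V X j s) =
        totc (fun j s => ((starRingEnd ℂ) (perp (fS d l V X) j s) * PX (gS d l V X) j s -
          (starRingEnd ℂ) (perp (fS d l V X) j s) * pol (Pj (PX (gS d l V X))) j s) +
          (starRingEnd ℂ) (perp (fS d l V X) j s) *
            pol (fun k => Pj X k - Pj (fS d l V X) k) j s) := by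
      refine totc_congr fun j s _ => ?_
      unfold TX
      conv_lhs => rw [show perp (PX (gS d l V X)) j s = PX (gS d l V X) j s -
        pol (Pj (PX (gS d l V X))) j s from rfl]
      ring
    rw [e2, totc_add, totc_sub, op, op, sub_zero, add_zero]
    · exact fun j => pair_int (pi j) (cP j)
    · exact fun j => pair_int (pi j) (continuous_pol _ j).continuousOn
    · exact fun j => (pair_int (pi j) (cP j)).sub
        (pair_int (pi j) (continuous_pol _ j).continuousOn)
    · exact fun j => pair_int (pi j) (continuous_pol _ j).continuousOn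
  have e3 : (totc (fun j s => (starRingEnd ℂ) (perp (fS d l V X) j s) * X j s)).re ≤ 0 := by
    have e4 : totc (fun j s => (starRingEnd ℂ) (perp (fS d l V X) j s) * X j s) =
        (t : ℂ) * totc (fun j s => (starRingEnd ℂ) (perp (fS d l V X) j s) * TX d l V X j s) := by
      rw [← totc_mul]
      refine totc_congr fun j s hs => ?_
      rw [hfix j s hs]
      ring
    rw [e4, e1, a1 _ _ M E.mp E.mg hM.le E.bp E.bg, Complex.re_ofReal_mul, Complex.neg_re]
    have e5 : 0 ≤ (totc (fun j s => gS d l V X j s *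
        (starRingEnd ℂ) (PB (perp (fS d l V X)) j s))).re := by
      have e6 : totc (fun j s => gS d l V X j s *
        (starRingEnd ℂ) (PB (perp (fS d l V X)) j s)) =
          ((∑ j, ∫ s in DD, eU V j s * ‖bS d l V X j s‖ ^ 2 : ℝ) : ℂ) := by
        unfold totc
        push_cast
        refine Finset.sum_congr rfl fun j _ => ?_
        rw [← integral_complex_ofReal]
        refine setIntegral_congr_fun measurableSet_DD fun s hs => ?_
        rw [show PB (perp (fS d l V X)) j s = bS d l V X j s from rfl]
        unfold gS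
        rw [mul_assoc, Complex.mul_conj, Complex.normSq_eq_norm_sq]
        push_cast
        ring
      rw [e6, Complex.ofReal_re]
      refine Finset.sum_nonneg fun j _ => ?_
      refine setIntegral_nonneg measurableSet_DD fun s _ => ?_
      unfold eU
      positivity
    nlinarith [h0]
  -- second energy
  have q1 : ∀ k < 11, Pj X k = t * (Pj X k - Pj (fS d l V X) k) := by
    intro k hk
    have q2 : Pj X k = Pj (fun j s => (t : ℂ) * TX d l V X j s) k :=
      Pj_congr (fun j s hs => hfix j s hs) k
    have cTX : ∀ j, ContinuousOn (TX d l V X j) DD := fun j => cont_of_holder (E.hTX j)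
    have iTX : ∀ j, IntegrableOn (TX d l V X j) DD := fun j =>
      (cTX j).integrableOn_compact isCompact_DD
    rw [(p2 _ iTX).2.2 (t : ℂ) k] at q2
    have q3 : Pj (TX d l V X) k = Pj X k - Pj (fS d l V X) k := by
      have iperp : ∀ j, IntegrableOn (perp (PX (gS d l V X)) j) DD := fun j =>
        (iP j).sub ((continuous_pol _ j).continuousOn.integrableOn_compact isCompact_DD)
      have ipol : ∀ j, IntegrableOn (pol (fun k => Pj X k - Pj (fS d l V X) k) j) DD := fun j =>
        (continuous_pol _ j).continuousOn.integrableOn_compact isCompact_DD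
      have q4 := p3 (perp (PX (gS d l V X))) (pol (fun k => Pj X k - Pj (fS d l V X) k))
        iperp ipol k
      rw [(p2 _ iP).1 k hk, p1 _ k hk, zero_add] at q4
      exact q4
    rw [q3] at q2
    exact q2
  have e7 : (totc (fun j s => (starRingEnd ℂ) (pol (Pj (fS d l V X)) j s) * X j s)).re ≤ 0 := by
    rw [pair_pol hX, Complex.re_sum]
    refine Finset.sum_nonpos fun k hk => ?_
    have hk := Finset.mem_range.1 hk
    have q5 : Pj (fS d l V X) k = ((-((1 - t) / t * cc k) : ℝ) : ℂ) * MM X k := by
      have q6 := q1 k hk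
      have q7 : (t : ℂ) ≠ 0 := by exact_mod_cast h0.ne'
      have q8 : (t : ℂ) * Pj (fS d l V X) k = -((1 - t) * Pj X k) := by linear_combination q6
      have q9 : Pj (fS d l V X) k = -((1 - t) * Pj X k) / t := by
        rw [eq_div_iff q7, mul_comm, q8]
      rw [q9]
      unfold Pj
      push_cast
      field_simp
    rw [q5, map_mul, Complex.conj_ofReal, mul_assoc, Complex.re_ofReal_mul, mul_comm
      ((starRingEnd ℂ) (MM X k)), Complex.mul_conj, Complex.ofReal_re]
    have q10 : 0 ≤ (1 - t) / t * cc k :=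
      mul_nonneg (div_nonneg (by linarith [ht.2]) h0.le) (cc_pos hk).le
    nlinarith [Complex.normSq_nonneg (MM X k), mul_nonneg q10 (Complex.normSq_nonneg (MM X k))]
  -- together
  have e8 : totc (fun j s => (starRingEnd ℂ) (fS d l V X j s) * X j s) =
      totc (fun j s => (starRingEnd ℂ) (perp (fS d l V X) j s) * X j s) +
      totc (fun j s => (starRingEnd ℂ) (pol (Pj (fS d l V X)) j s) * X j s) := by
    rw [← totc_add]
    · refine totc_congr fun j s _ => ?_
      rw [show perp (fS d l V X) j s = fS d l V X j s - pol (Pj (fS d l V X)) j s from rfl]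
      rw [map_sub]
      ring
    · exact fun j => pair_int (pi j) (hX j).continuousOn
    · exact fun j => pair_int ((continuous_pol _ j).continuousOn.integrableOn_compact isCompact_DD)
        (hX j).continuousOn
  have e9 : (totc (fun j s => (starRingEnd ℂ) (fS d l V X j s) * X j s)).re ≤ 0 := by
    rw [e8, Complex.add_re]
    linarith
  have hpt : ∀ j s, 0 ≤ ((starRingEnd ℂ) (fS d l V X j s) * X j s).re ∧
      3 * (d.ρ * ww s) * ‖X j s‖ ^ 2 ≤ ((starRingEnd ℂ) (fS d l V X j s) * X j s).re := by
    intro j s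
    have hw : 0 ≤ d.ρ * ww s := mul_nonneg hd.rho.le (Real.rpow_nonneg (norm_nonneg _) _)
    have r1 := hF j s (V j s) (X j s)
    have r2 : ((starRingEnd ℂ) (fS d l V X j s) * X j s).re =
        (d.ρ * ww s) * ((starRingEnd ℂ) (d.F l j s (V j s) (X j s)) * X j s).re := by
      unfold fS
      rw [map_mul, Complex.conj_ofReal, mul_assoc, Complex.re_ofReal_mul]
    rw [r2]
    have r3 := mul_le_mul_of_nonneg_left r1 hw
    constructor
    · exact mul_nonneg hw (le_trans (by positivity) r1)
    · linarith
  have hre : ∀ j, IntegrableOn (fun s => ((starRingEnd ℂ) (fS d l V X j s) * X j s).re) DD :=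
    fun j => (pair_int (fi j) (hX j).continuousOn).re
  have e10 : ∀ j, ∫ s in DD, ((starRingEnd ℂ) (fS d l V X j s) * X j s).re ≤ 0 := by
    have r4 : (totc (fun j s => (starRingEnd ℂ) (fS d l V X j s) * X j s)).re =
        ∑ j, ∫ s in DD, ((starRingEnd ℂ) (fS d l V X j s) * X j s).re := by
      unfold totc
      rw [Complex.re_sum]
      refine Finset.sum_congr rfl fun j _ => ?_
      exact (integral_re (pair_int (fi j) (hX j).continuousOn)).symm
    rw [r4, Fintype.sum_bool] at e9
    have r5 : ∀ j, 0 ≤ ∫ s in DD, ((starRingEnd ℂ) (fS d l V X j s) * X j s).re := fun j =>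
      setIntegral_nonneg measurableSet_DD fun s _ => (hpt j s).1
    intro j
    cases j
    · linarith [r5 true]
    · linarith [r5 false]
  intro j v hv
  have e11 : (fun s => ((starRingEnd ℂ) (fS d l V X j s) * X j s).re) =ᵐ[volume.restrict DD] 0 := by
    rw [← integral_eq_zero_iff_of_nonneg (fun s => (hpt j s).1) (hre j)]
    exact le_antisymm (e10 j) (setIntegral_nonneg measurableSet_DD fun s _ => (hpt j s).1)
  have e12 : X j =ᵐ[volume.restrict DD] (fun _ => 0) := by
    filter_upwards [e11, ae_exc_restrict] with s hs1 hs2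
    have r6 := (hpt j s).2
    simp only [Pi.zero_apply] at hs1
    rw [hs1] at r6
    have r7 : 0 < ww s := Real.rpow_pos_of_pos (norm_pos_iff.2 hs2.2) _
    have r8 : 0 < 3 * (d.ρ * ww s) := by
      have := hd.rho
      positivity
    have r9 : ‖X j s‖ ^ 2 ≤ 0 := by
      by_contra hcon
      push Not at hcon
      exact absurd r6 (not_le.2 (mul_pos r8 hcon))
    have r10 : ‖X j s‖ = 0 := by
      have := sq_nonneg ‖X j s‖
      exact pow_eq_zero_iff (two_ne_zero) |>.1 (le_antisymm r9 this)
    exact norm_eq_zero.1 r10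
  have e13 : EqOn (X j) (fun _ => 0) DD := by
    refine Measure.eqOn_of_ae_eq e12 (hX j).continuousOn continuousOn_const ?_
    unfold DD
    rw [interior_closedBall _ one_ne_zero, closure_ball _ one_ne_zero]
  exact e13 hv

end Pool.Agent.H794.EX
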