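import Pool.Agent.H794.EX.Spec

/-!
# Charts of the surface and the maximum principle
-/

set_option autoImplicit false

open scoped Manifold ContDiff Matrix ComplexOrder
open Matrix Topology MeasureTheory Set Filter

namespace Pool.Agent.H794.EX

open Pool.Agent.Helper614.HE Pool.Agent.H794 Pool.Agent.Helper614.HE.P_TH

section

variable [ChartedSpace ℂ (SX 4)] (hB : SBasic 4) (hG : SGood 4)

/-- the part of the chart where `‖v‖ < 2` -/
def cD (j : Bool) (e : OpenPartialHomeomorph (SX 4) ℂ) : Set ℂ :=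
  {w | w ∈ e.target ∩ e.symm ⁻¹' UU 4 j ∧ ‖VV 4 j (e.symm w)‖ < 2}

include hB hG in
/-- the charts of the surface -/
theorem mk_cht {e : OpenPartialHomeomorph (SX 4) ℂ} (he : e ∈ atlas ℂ (SX 4)) (j : Bool) :
    Cht (cD j e) (fun w => VV 4 j (e.symm w)) (fun w => YY 4 j (e.symm w))
      (fun w => om 4 j e (e.symm w)) := by
  have hO : IsOpen (e.target ∩ e.symm ⁻¹' UU 4 j) := TH_open hB e j
  have hVc : ContinuousOn (fun w => VV 4 j (e.symm w)) (e.target ∩ e.symm ⁻¹' UU 4 j) :=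
    (hG.holoV e he j).continuousOn
  have hop : IsOpen (cD j e) := by
    have : cD j e = (e.target ∩ e.symm ⁻¹' UU 4 j) ∩
        (fun w => VV 4 j (e.symm w)) ⁻¹' (Metric.ball 0 2) := by
      ext w
      simp [cD]
    rw [this]
    exact hVc.isOpen_inter_preimage hO Metric.isOpen_ball
  have hsub : cD j e ⊆ e.target ∩ e.symm ⁻¹' UU 4 j := fun w hw => hw.1
  have hx : ∀ t ∈ cD j e, e.symm t ∈ UU 4 j ∩ e.source := fun t ht =>
    ⟨ht.1.2, e.map_target ht.1.1⟩
  refine ⟨hop, (hG.holoV e he j).mono hsub, (hG.holoY e he j).mono hsub,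
    (om_one (by norm_num) hB hG he j).mono hsub, ?_, ?_, ?_, ?_, ?_, fun t ht => ht.2⟩
  · intro t ht
    exact hB.eqn j _ ht.1.2
  · intro t ht
    have h1 := om_four (by norm_num) hB hG he (hx t ht)
    rwa [e.right_inv ht.1.1] at h1
  · intro t ht
    by_cases hV : VV 4 j (e.symm t) = 0
    · have hd := TH_deq hB hG he ht.1
      have h4 : VV 4 j (e.symm t) ^ (4 * 4 - 1) = 0 := by rw [hV]; norm_num
      rw [h4, mul_zero, zero_mul] at hd
      have hY : YY 4 j (e.symm t) ≠ 0 := by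
        intro h0
        exact TH_V_ne (by norm_num) (hB.eqn j _ ht.1.2) h0 hV
      rcases mul_eq_zero.1 hd with h | h
      · exact absurd h (pow_ne_zero _ hY)
      · simp only [h, hV]; norm_num
    · have h1 := om_val2 (by norm_num) hB hG he ht.1 hV
      simp only [h1]
      have h2 : VV 4 j (e.symm t) ^ 15 ≠ 0 := pow_ne_zero _ hV
      have h3 : (4 * 4 - 1 : ℕ) = 15 := rfl
      rw [h3]
      push_cast
      field_simp
  · intro t ht
    have h1 := (All.hTH 4 (by norm_num) inferInstance hB hG e he j).2.2.2.2.2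
    exact h1 t ht.1
  · intro t ht
    exact om_three (by norm_num) hB hG he (hx t ht)

end

theorem t_MXP : S_MXP := by
  intro inst hB hG u hu hrel
  have hK : IsCompact (DD) := isCompact_closedBall 0 1
  have hne : (0 : ℂ) ∈ DD := by
    rw [DD, Metric.mem_closedBall]; simp
  have hmax : ∀ j, ∃ v ∈ DD, ∀ v' ∈ DD, u j v' ≤ u j v := fun j => by
    obtain ⟨v, hv, h⟩ := hK.exists_isMaxOn ⟨0, hne⟩ (hu j).continuousOn
    exact ⟨v, hv, fun v' hv' => h hv'⟩
  obtain ⟨a, ha, hA⟩ := hmax false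
  obtain ⟨b, hb, hb'⟩ := hmax true
  obtain ⟨j, v0, hv0, hm⟩ : ∃ (j : Bool) (v0 : ℂ), v0 ∈ DD ∧ ∀ j', ∀ v' ∈ DD, u j' v' ≤ u j v0 := by
    rcases le_total (u false a) (u true b) with h | h
    · refine ⟨true, b, hb, fun j' v' hv' => ?_⟩
      cases j'
      · exact (hA v' hv').trans h
      · exact hb' v' hv'
    · refine ⟨false, a, ha, fun j' v' hv' => ?_⟩
      cases j'
      · exact hA v' hv'
      · exact (hb' v' hv').trans h
  have hall : ∀ j' v', u j' v' ≤ u j v0 := by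
    intro j' v'
    by_cases h : ‖v'‖ ≤ 1
    · exact hm j' v' (by rw [DD, mem_closedBall_zero_iff]; exact h)
    · have h0 : v' ≠ 0 := by
        rintro rfl
        simp at h
      rw [hrel j' v' h0]
      refine hm _ _ ?_
      rw [DD, mem_closedBall_zero_iff, norm_inv]
      exact inv_le_one_of_one_le₀ (le_of_lt (not_le.1 h))
  obtain ⟨y, hy⟩ : ∃ y : ℂ, y ^ 4 = v0 ^ (4 * 4) + 1 :=
    ⟨(v0 ^ (4 * 4) + 1) ^ (((4 : ℕ) : ℂ)⁻¹), Complex.cpow_nat_inv_pow _ (by norm_num)⟩
  obtain ⟨x, hx, hxV, hxY⟩ := hB.surj j v0 y hy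
  letI := inst
  set e := chartAt ℂ x with he
  have hea : e ∈ atlas ℂ (SX 4) := chart_mem_atlas ℂ x
  have hxs : x ∈ e.source := mem_chart_source ℂ x
  have hv01 : ‖v0‖ ≤ 1 := by
    rwa [DD, mem_closedBall_zero_iff] at hv0
  have hC := mk_cht hB hG hea j
  have ht0 : e x ∈ cD j e := by
    refine ⟨TH_mem ⟨hx, hxs⟩, ?_⟩
    rw [e.left_inv hxs, hxV]
    linarith
  have hVt : VV 4 j (e.symm (e x)) = v0 := by rw [e.left_inv hxs, hxV]
  refine ⟨j, v0, cD j e, _, _, _, e x, hv0, hC, ht0, hVt, hall, ?_⟩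
  refine Filter.Eventually.of_forall fun t => ?_
  show u j (VV 4 j (e.symm t)) ≤ u j (VV 4 j (e.symm (e x)))
  rw [hVt]
  exact hall _ _

end Pool.Agent.H794.EX
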