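import Pool.Agent.H794.EX.Wir
import Pool.Agent.H794.EX.MXP

/-!
# A solution in the plane gives a harmonic metric on the direct sum
-/

set_option autoImplicit false

open scoped Manifold ContDiff Matrix ComplexOrder
open Matrix Topology MeasureTheory Set Filter

namespace Pool.Agent.H794.EX

open Pool.Agent.Helper614.HE Pool.Agent.H794 Pool.Agent.Helper614.HE.P_TH

namespace EXEL

/-- the diagonal metric -/
noncomputable def dg (u : ℝ) : M3 :=
  Matrix.diagonal ![(Real.exp (u / 2) : ℂ), (Real.exp (-(u / 2)) : ℂ), 1]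

theorem exp_mul_neg (u : ℝ) : (Real.exp u : ℂ) * (Real.exp (-u) : ℂ) = 1 := by
  rw [← Complex.ofReal_mul, ← Real.exp_add]
  simp

theorem dg_inv (u : ℝ) : (dg u)⁻¹ =
    Matrix.diagonal ![(Real.exp (-(u / 2)) : ℂ), (Real.exp (u / 2) : ℂ), 1] := by
  apply Matrix.inv_eq_left_inv
  rw [dg, Matrix.diagonal_mul_diagonal, ← Matrix.diagonal_one]
  congr 1
  funext i
  have h := exp_mul_neg (u / 2)
  fin_cases i
  · simpa [mul_comm] using h
  · simpa using h
  · simp

theorem dg_det (u : ℝ) : (dg u).det = 1 := by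
  rw [dg, Matrix.det_diagonal, Fin.prod_univ_three]
  simpa using exp_mul_neg (u / 2)

theorem dg_pos (u : ℝ) : (dg u).PosDef := by
  rw [dg, Matrix.posDef_diagonal_iff]
  intro i
  fin_cases i
  · show (0 : ℂ) < (Real.exp (u / 2) : ℂ)
    exact_mod_cast Real.exp_pos (u / 2)
  · show (0 : ℂ) < (Real.exp (-(u / 2)) : ℂ)
    exact_mod_cast Real.exp_pos (-(u / 2))
  · simp

theorem dg_smooth {u : ℂ → ℝ} {z : ℂ} (hu : ContDiffAt ℝ ∞ u z) (a b : Fin 3) :
    ContDiffAt ℝ ∞ (fun w => dg (u w) a b) z := by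
  have he : ContDiffAt ℝ ∞ (fun w => (Real.exp (u w / 2) : ℂ)) z :=
    Complex.ofRealCLM.contDiff.contDiffAt.comp z (hu.div_const 2).exp
  have he' : ContDiffAt ℝ ∞ (fun w => (Real.exp (-(u w / 2)) : ℂ)) z :=
    Complex.ofRealCLM.contDiff.contDiffAt.comp z (hu.div_const 2).neg.exp
  by_cases hab : a = b
  · subst hab
    simp only [dg, Matrix.diagonal_apply_eq]
    fin_cases a
    · exact he
    · exact he'
    · exact contDiffAt_const
  · simp only [dg, Matrix.diagonal_apply_ne _ hab]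
    exact contDiffAt_const

/-- the connection of the diagonal metric -/
theorem dg_conn {u : ℂ → ℝ} {z q : ℂ} (hd : DifferentiableAt ℝ u z)
    (hq : dz (fun w => (u w : ℂ)) z = q) :
    (dg (u z))⁻¹ * mdz (fun w => dg (u w)) z = Matrix.diagonal ![q / 2, -(q / 2), 0] := by
  have h1 := HW.of_real hd hq
  have h2 : HW (fun w => ((u w / 2 : ℝ) : ℂ)) z _ _ := (h1.mul (HW.const (1 / 2) z)).congr
    (Filter.Eventually.of_forall fun w => by push_cast; ring)
  have h3 : HW (fun w => ((-(u w / 2) : ℝ) : ℂ)) z _ _ := h2.neg.congr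
    (Filter.Eventually.of_forall fun w => by push_cast; ring)
  have h4 := h2.exp
  have h5 := h3.exp
  have e1 : dz (fun w => dg (u w) 0 0) z = (Real.exp (u z / 2) : ℂ) * (q / 2) := by
    have : (fun w => dg (u w) 0 0) = fun w => (Real.exp (u w / 2) : ℂ) := by
      funext w; simp [dg]
    rw [this, h4.dz]
    ring
  have e2 : dz (fun w => dg (u w) 1 1) z = (Real.exp (-(u z / 2)) : ℂ) * (-(q / 2)) := by
    have : (fun w => dg (u w) 1 1) = fun w => (Real.exp (-(u w / 2)) : ℂ) := by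
      funext w; simp [dg]
    rw [this, h5.dz]
    ring
  have e3 : mdz (fun w => dg (u w)) z = Matrix.diagonal ![(Real.exp (u z / 2) : ℂ) * (q / 2),
      (Real.exp (-(u z / 2)) : ℂ) * (-(q / 2)), 0] := by
    ext a b
    show dz (fun w => dg (u w) a b) z = _
    by_cases hab : a = b
    · subst hab
      rw [Matrix.diagonal_apply_eq]
      fin_cases a
      · exact e1
      · exact e2
      · have : (fun w => dg (u w) 2 2) = fun _ => 1 := by
          funext w; simp [dg]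
        show dz (fun w => dg (u w) 2 2) z = 0
        rw [this, (HW.const 1 z).dz]
    · rw [Matrix.diagonal_apply_ne _ hab]
      have : (fun w => dg (u w) a b) = fun _ => 0 := by
        funext w; rw [dg, Matrix.diagonal_apply_ne _ hab]
      rw [this, (HW.const 0 z).dz]
  rw [e3, dg_inv, Matrix.diagonal_mul_diagonal]
  congr 1
  funext i
  have h := exp_mul_neg (u z / 2)
  fin_cases i
  · show (Real.exp (-(u z / 2)) : ℂ) * ((Real.exp (u z / 2) : ℂ) * (q / 2)) = q / 2
    linear_combination (q / 2) * h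
  · show (Real.exp (u z / 2) : ℂ) * ((Real.exp (-(u z / 2)) : ℂ) * (-(q / 2))) = -(q / 2)
    linear_combination (-(q / 2)) * h
  · simp

theorem blk_form (r c : ℝ) (j : Bool) (v : ℂ) : blk r c j v =
    !![blk r c j v 0 0, Qe r c j v, 0; Pe r c j v, blk r c j v 0 0, 0; 0, 0, blk r c j v 2 2] := by
  cases j <;> ext a b <;> fin_cases a <;> fin_cases b <;> simp [blk, Qe, Pe]

/-- the commutator for the diagonal metric -/
theorem dg_comm (u : ℝ) (w p Q P p2 : ℂ) :
    (w • !![p, Q, 0; P, p, 0; 0, 0, p2]) * adj (dg u) (w • !![p, Q, 0; P, p, 0; 0, 0, p2]) -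
      adj (dg u) (w • !![p, Q, 0; P, p, 0; 0, 0, p2]) * (w • !![p, Q, 0; P, p, 0; 0, 0, p2]) =
    Matrix.diagonal ![((‖w‖ ^ 2 * (‖Q‖ ^ 2 * Real.exp u - ‖P‖ ^ 2 * Real.exp (-u)) : ℝ) : ℂ),
      -((‖w‖ ^ 2 * (‖Q‖ ^ 2 * Real.exp u - ‖P‖ ^ 2 * Real.exp (-u)) : ℝ) : ℂ), 0] := by
  have h := exp_mul_neg (u / 2)
  have e1 : (Real.exp u : ℂ) = (Real.exp (u / 2) : ℂ) * (Real.exp (u / 2) : ℂ) := by
    rw [← Complex.ofReal_mul, ← Real.exp_add]; congr 2; ring
  have e2 : (Real.exp (-u) : ℂ) = (Real.exp (-(u / 2)) : ℂ) * (Real.exp (-(u / 2)) : ℂ) := by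
    rw [← Complex.ofReal_mul, ← Real.exp_add]; congr 2; ring
  have hn : ∀ z : ℂ, ((‖z‖ ^ 2 : ℝ) : ℂ) = z * (starRingEnd ℂ) z := by
    intro z
    rw [Complex.mul_conj']
    push_cast
    rfl
  have e3 : ((‖w‖ ^ 2 * (‖Q‖ ^ 2 * Real.exp u - ‖P‖ ^ 2 * Real.exp (-u)) : ℝ) : ℂ) =
      (w * (starRingEnd ℂ) w) * ((Q * (starRingEnd ℂ) Q) * (Real.exp u : ℂ) -
        (P * (starRingEnd ℂ) P) * (Real.exp (-u) : ℂ)) := by
    rw [Complex.ofReal_mul, Complex.ofReal_sub, Complex.ofReal_mul, Complex.ofReal_mul, hn, hn, hn]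
  have hct : (w • !![p, Q, 0; P, p, 0; 0, 0, p2])ᴴ = (starRingEnd ℂ) w •
      !![(starRingEnd ℂ) p, (starRingEnd ℂ) P, 0; (starRingEnd ℂ) Q, (starRingEnd ℂ) p, 0;
        0, 0, (starRingEnd ℂ) p2] := by
    ext i j
    fin_cases i <;> fin_cases j <;> simp [Matrix.conjTranspose_apply]
  rw [e3, e1, e2, adj, dg_inv, hct, dg]
  have hd1 : (Matrix.diagonal ![(Real.exp (-(u / 2)) : ℂ), (Real.exp (u / 2) : ℂ), 1] : M3) =
      !![(Real.exp (-(u / 2)) : ℂ), 0, 0; 0, (Real.exp (u / 2) : ℂ), 0; 0, 0, 1] := by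
    ext i j
    fin_cases i <;> fin_cases j <;> simp
  have hd2 : (Matrix.diagonal ![(Real.exp (u / 2) : ℂ), (Real.exp (-(u / 2)) : ℂ), 1] : M3) =
      !![(Real.exp (u / 2) : ℂ), 0, 0; 0, (Real.exp (-(u / 2)) : ℂ), 0; 0, 0, 1] := by
    ext i j
    fin_cases i <;> fin_cases j <;> simp
  rw [hd1, hd2]
  generalize (Real.exp (u / 2) : ℂ) = E at *
  generalize (Real.exp (-(u / 2)) : ℂ) = E' at *
  generalize (starRingEnd ℂ) w = w' at *
  generalize (starRingEnd ℂ) p = p' at *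
  generalize (starRingEnd ℂ) Q = Q' at *
  generalize (starRingEnd ℂ) P = P' at *
  generalize (starRingEnd ℂ) p2 = p2' at *
  ext i j
  fin_cases i <;> fin_cases j <;> simp <;> ring

end EXEL

open EXEL

theorem t_EXE (h1 : S_CHR) (h2 : S_OKE) : 
    ∀ (inst : ChartedSpace ℂ (SX 4)) (hB : SBasic 4) (hG : @SGood 4 inst)
    (r c : ℝ), 0 < r → 0 < c → ∀ V X, Plane (dEB r c) 1 V X → (∀ j v, X j v = 0) →
    ∃ h : Bool → SX 4 → M3, IsHarmonicMetric (EB hB hG r c) 1 h := by
  intro inst hB hG r c hr hc V X hP hX0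
  have hch : ∀ {e : OpenPartialHomeomorph (SX 4) ℂ}, e ∈ atlas ℂ (SX 4) → ∀ j,
    ChSol (dEB r c) 1 j (cD j e) (fun w => VV 4 j (e.symm w)) (fun w => om 4 j e (e.symm w))
      (V j) (X j) := fun he j => h1 _ (h2 r c hr hc).2.2 1 V X hP _ _ _ _ (mk_cht hB hG he j) j
  -- the claim at points with `‖v‖ < 2`
  have hgood : ∀ i, ∀ e ∈ atlas ℂ (SX 4), ∀ z ∈ cD i e,
      (∀ a b, ContDiffAt ℝ ∞ (fun w => dg (V i (VV 4 i (e.symm w))) a b) z) ∧
      Hit (fun w => dg (V i (VV 4 i (e.symm w)))) ((EB hB hG r c).φ i e (e.symm z)) z := by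
    intro i e he z hz
    obtain ⟨hVs, -, B, Q, hBs, hQs, hsys⟩ := hch he i
    have hC := mk_cht hB hG he i
    have hev : ∀ᶠ w in 𝓝 z, w ∈ cD i e := hC.op.mem_nhds hz
    refine ⟨fun a b => dg_smooth (hVs.contDiffAt (hC.op.mem_nhds hz)) a b, ?_⟩
    have hB0 : B z = 0 := by
      have h3 := (hsys z hz).eX
      have h4 : dzb (fun t => X i (VV 4 i (e.symm t))) z = 0 := by
        have : (fun t => X i (VV 4 i (e.symm t))) = fun _ => 0 := by
          funext t; exact hX0 _ _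
        rw [this, (HW.const 0 z).dzb]
      rw [h4] at h3
      rcases mul_eq_zero.1 h3.symm with h5 | h5
      · exfalso
        have : (0 : ℝ) < Real.exp (V i (VV 4 i (e.symm z))) * (1 + ‖VV 4 i (e.symm z)‖ ^ 2) ^ 10 := by
          positivity
        exact this.ne' (by exact_mod_cast h5)
      · exact h5
    have hconn : (fun w => (dg (V i (VV 4 i (e.symm w))))⁻¹ *
        mdz (fun w => dg (V i (VV 4 i (e.symm w)))) w) =ᶠ[𝓝 z]
        fun w => Matrix.diagonal ![Q w / 2, -(Q w / 2), 0] := by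
      filter_upwards [hev] with w hw
      exact dg_conn (u := fun w => V i (VV 4 i (e.symm w)))
        ((hsys w hw).dV.differentiableAt (by norm_num)) (hsys w hw).eV
    unfold Hit
    rw [mdzb_congr hconn]
    have hQd := (HW.of_diff ((hsys z hz).dQ.differentiableAt (by norm_num)))
    have hQ1 : HW (fun w => Q w / 2) z _ _ := (hQd.mul (HW.const (1 / 2) z)).congr
      (Filter.Eventually.of_forall fun w => by simp only; ring)
    have e1 : mdzb (fun w => (Matrix.diagonal ![Q w / 2, -(Q w / 2), 0] : M3)) z =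
        Matrix.diagonal ![dzb Q z / 2, -(dzb Q z / 2), 0] := by
      ext a b
      show dzb (fun w => (Matrix.diagonal ![Q w / 2, -(Q w / 2), 0] : M3) a b) z = _
      by_cases hab : a = b
      · subst hab
        simp only [Matrix.diagonal_apply_eq]
        fin_cases a
        · show dzb (fun w => Q w / 2) z = dzb Q z / 2
          rw [hQ1.dzb]; ring
        · show dzb (fun w => -(Q w / 2)) z = -(dzb Q z / 2)
          rw [hQ1.neg.dzb]; ring
        · show dzb (fun _ => (0 : ℂ)) z = 0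
          rw [(HW.const 0 z).dzb]
      · simp only [Matrix.diagonal_apply_ne _ hab]
        rw [(HW.const 0 z).dzb]
    have e2 : (EB hB hG r c).φ i e (e.symm z) = ((r : ℂ) * om 4 i e (e.symm z)) •
        !![blk r c i (VV 4 i (e.symm z)) 0 0, Qe r c i (VV 4 i (e.symm z)), 0;
          Pe r c i (VV 4 i (e.symm z)), blk r c i (VV 4 i (e.symm z)) 0 0, 0;
          0, 0, blk r c i (VV 4 i (e.symm z)) 2 2] := by
      rw [← blk_form]
      rfl
    rw [e1, e2, dg_comm, (hsys z hz).eQ, hB0]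
    have e3 : ‖(r : ℂ) * om 4 i e (e.symm z)‖ ^ 2 = r ^ 2 * ‖om 4 i e (e.symm z)‖ ^ 2 := by
      rw [norm_mul, mul_pow, Complex.norm_real, Real.norm_eq_abs, sq_abs]
    rw [e3]
    simp only [dEB, norm_zero]
    congr 1
    funext a
    fin_cases a
    · simp
      ring
    · simp
      ring
    · simp
  -- the values do not depend on the copy
  have hsame : ∀ i j, ∀ x ∈ UU 4 i ∩ UU 4 j, V j (VV 4 j x) = V i (VV 4 i x) := by
    intro i j x hx
    by_cases hij : i = j
    · subst hij; rfl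
    · have h3 := VV_ne hB i j hij x hx
      have h4 := VV_inv hB i j hij x hx
      have h5 := hP.rV i _ h3
      rw [← bne hij, ← h4] at h5
      exact h5.symm
  have hall : ∀ i, ∀ e ∈ atlas ℂ (SX 4), ∀ z ∈ e.target, e.symm z ∈ UU 4 i →
      (∀ a b, ContDiffAt ℝ ∞ (fun w => dg (V i (VV 4 i (e.symm w))) a b) z) ∧
      Hit (fun w => dg (V i (VV 4 i (e.symm w)))) ((EB hB hG r c).φ i e (e.symm z)) z := by
    intro i e he z hz hi
    by_cases hsm : ‖VV 4 i (e.symm z)‖ < 2
    · exact hgood i e he z ⟨⟨hz, hi⟩, hsm⟩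
    · have hV0 : VV 4 i (e.symm z) ≠ 0 := by
        intro h0
        rw [h0] at hsm
        simp at hsm
      have hi' : e.symm z ∈ UU 4 (!i) := (hB.mem_other i _ hi).2 hV0
      have hV' : VV 4 (!i) (e.symm z) = (VV 4 i (e.symm z))⁻¹ := hB.VV_other i _ hi hi'
      have hz' : z ∈ cD (!i) e := by
        refine ⟨⟨hz, hi'⟩, ?_⟩
        rw [hV', norm_inv]
        have : 2 ≤ ‖VV 4 i (e.symm z)‖ := not_lt.1 hsm
        have h5 : ‖VV 4 i (e.symm z)‖⁻¹ ≤ 2⁻¹ := inv_anti₀ (by norm_num) this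
        linarith
      obtain ⟨g1, g2⟩ := hgood (!i) e he z hz'
      have hgl : (fun w => dg (V i (VV 4 i (e.symm w)))) =ᶠ[𝓝 z]
          fun w => dg (V (!i) (VV 4 (!i) (e.symm w))) := by
        filter_upwards [(TH_open hB e i).mem_nhds ⟨hz, hi⟩,
          (TH_open hB e (!i)).mem_nhds ⟨hz, hi'⟩] with w hw hw'
        rw [hsame (!i) i _ ⟨hw'.2, hw.2⟩]
      have hφ : (EB hB hG r c).φ i e (e.symm z) = (EB hB hG r c).φ (!i) e (e.symm z) := by
        have h6 := (EB hB hG r c).glue_φ (!i) i e he (e.symm z) ⟨⟨hi', hi⟩, e.map_target hz⟩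
        have h7 : (EB hB hG r c).g (!i) i (e.symm z) = 1 := rfl
        rw [h7, Matrix.mul_one, Matrix.one_mul] at h6
        exact h6.symm
      constructor
      · intro a b
        refine (g1 a b).congr_of_eventuallyEq ?_
        filter_upwards [hgl] with w hw
        rw [hw]
      · rw [hφ]
        exact Hit.congr g2 hgl
  refine ⟨fun i x => dg (V i (VV 4 i x)), mk_hm ?_ ?_ ?_ ?_ ?_⟩
  · intro i x _
    exact dg_pos _
  · intro i x _
    exact dg_det _
  · intro i j x hx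
    show dg (V j (VV 4 j x)) = (1 : M3)ᴴ * dg (V i (VV 4 i x)) * 1
    rw [hsame i j x hx]
    simp
  · intro i e he z hz hi a b
    exact (hall i e he z hz hi).1 a b
  · intro i e he z hz hi
    exact (hall i e he z hz hi).2

end Pool.Agent.H794.EX
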