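import Pool.Agent.H794.EX.HTL

/-!
# A solution in the plane gives a harmonic metric on the Hitchin section
-/

set_option autoImplicit false

open scoped Manifold ContDiff Matrix ComplexOrder
open Matrix Topology MeasureTheory Set Filter

namespace Pool.Agent.H794.EX

open Pool.Agent.Helper614.HE Pool.Agent.H794 Pool.Agent.Helper614.HE.P_TH

namespace EXHL

theorem Gf_det (a : ℂ) : (Gf a).det = -1 := by
  simp [Gf, Matrix.det_fin_three]

theorem Gf_cmp (a b : ℂ) : Gf a * cmp a b = Phl a b * Gf a := by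
  ext i j
  fin_cases i <;> fin_cases j <;>
    (simp [Gf, cmp, Phl, Matrix.mul_apply, Fin.sum_univ_three]; try ring)

theorem Gf_diag (a μ : ℂ) (h : μ ≠ 0) :
    Matrix.diagonal ![μ⁻¹, 1, μ] * Gf a = Gf (μ ^ 2 * a) * Matrix.diagonal ![μ, 1, μ⁻¹] := by
  ext i j
  fin_cases i <;> fin_cases j <;>
    (simp [Gf, Matrix.diagonal_mul, Matrix.mul_diagonal]; try field_simp)

theorem cd_const {n : WithTop ℕ∞} {a : ℂ} {z : ℂ} : ContDiffAt ℝ n (fun _ : ℂ => a) z :=
  contDiffAt_const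

/-- smoothness of the entries of `Hm` -/
theorem Hm_smooth {U : ℂ → ℝ} {X : ℂ → ℂ} {z : ℂ} (hU : ContDiffAt ℝ ∞ U z)
    (hX : ContDiffAt ℝ ∞ X z) (a b : Fin 3) : ContDiffAt ℝ ∞ (fun w => Hm (U w) (X w) a b) z := by
  have hX' : ContDiffAt ℝ ∞ (fun w => (starRingEnd ℂ) (X w)) z :=
    Complex.conjCLE.contDiff.contDiffAt.comp z hX
  have he : ContDiffAt ℝ ∞ (fun w => (Real.exp (U w) : ℂ)) z :=
    Complex.ofRealCLM.contDiff.contDiffAt.comp z hU.exp
  have he' : ContDiffAt ℝ ∞ (fun w => (Real.exp (-U w) : ℂ)) z :=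
    Complex.ofRealCLM.contDiff.contDiffAt.comp z hU.neg.exp
  have hn : ∀ i j, ContDiffAt ℝ ∞ (fun w => nn (X w) i j) z := by
    intro i j
    fin_cases i <;> fin_cases j <;> simp [nn] <;> fun_prop
  have hn' : ∀ i j, ContDiffAt ℝ ∞ (fun w => (nn (X w))ᴴ i j) z := by
    intro i j
    exact Complex.conjCLE.contDiff.contDiffAt.comp z (hn j i)
  have hd : ∀ i j, ContDiffAt ℝ ∞ (fun w => dd (U w) i j) z := by
    intro i j
    fin_cases i <;> fin_cases j <;> simp only [dd] <;>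
      first
        | exact he
        | exact he'
        | exact contDiffAt_const
  have h1 : ∀ i j, ContDiffAt ℝ ∞ (fun w => ((nn (X w))ᴴ * dd (U w)) i j) z := by
    intro i j
    simp only [Matrix.mul_apply]
    exact ContDiffAt.sum fun k _ => (hn' i k).mul (hd k j)
  simp only [Hm, Matrix.mul_apply (M := (nn (X _))ᴴ * dd (U _))]
  exact ContDiffAt.sum fun k _ => (h1 a k).mul (hn k b)

/-- smoothness of congruences -/
theorem conj_smooth {H G : ℂ → M3} {z : ℂ} (hH : ∀ a b, ContDiffAt ℝ ∞ (fun w => H w a b) z)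
    (hG : ∀ a b, ContDiffAt ℝ ∞ (fun w => G w a b) z) (a b : Fin 3) :
    ContDiffAt ℝ ∞ (fun w => ((G w)ᴴ * H w * G w) a b) z := by
  have hG' : ∀ i j, ContDiffAt ℝ ∞ (fun w => (G w)ᴴ i j) z := by
    intro i j
    exact Complex.conjCLE.contDiff.contDiffAt.comp z (hG j i)
  have h1 : ∀ i j, ContDiffAt ℝ ∞ (fun w => ((G w)ᴴ * H w) i j) z := by
    intro i j
    simp only [Matrix.mul_apply]
    exact ContDiffAt.sum fun k _ => (hG' i k).mul (hH k j)
  simp only [Matrix.mul_apply (M := (G _)ᴴ * H _)]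
  exact ContDiffAt.sum fun k _ => (h1 a k).mul (hG k b)

theorem cd_of_holo {f : ℂ → ℂ} {z : ℂ} (h : ∀ᶠ w in 𝓝 z, DifferentiableAt ℂ f w) :
    ContDiffAt ℝ ∞ f z := by
  have := Complex.analyticAt_iff_eventually_differentiableAt.2 h
  exact (this.contDiffAt (n := ∞)).restrict_scalars ℝ

end EXHL

open EXHL

section

variable [ChartedSpace ℂ (SX 4)] (hB : SBasic 4) (hG : SGood 4)

/-- the metric on the Hitchin section -/
noncomputable def hHT (r c : ℝ) (V : Bool → ℂ → ℝ) (X : Bool → ℂ → ℂ) (j : Bool) (x : SX 4) : M3 :=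
  (Gf (qa r c j (VV 4 j x)))ᴴ * Hm (UU0 V j (VV 4 j x)) (X j (VV 4 j x)) *
    Gf (qa r c j (VV 4 j x))

omit [ChartedSpace ℂ (SX 4)] in
include hB in
/-- the relation between the two copies -/
theorem hHT_glue {r c : ℝ} {V : Bool → ℂ → ℝ} {X : Bool → ℂ → ℂ} {d : Dat} {l : ℝ}
    (hP : Plane d l V X) (i j : Bool) {x : SX 4} (hx : x ∈ UU 4 i ∩ UU 4 j) :
    hHT r c V X j x = (gt i j x)ᴴ * hHT r c V X i x * gt i j x := by
  by_cases hij : i = j
  · subst hij
    rw [gt_self]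
    simp
  · have h1 := VV_ne hB i j hij x hx
    have h2 := VV_inv hB i j hij x hx
    have hj := bne hij
    set v := VV 4 i x with hv
    set μ : ℂ := -(v ^ 10) with hμ
    have hμ0 : μ ≠ 0 := neg_ne_zero.2 (pow_ne_zero _ h1)
    have hA := qa_rel r c i h1
    rw [← hj, ← h2, ← hμ] at hA
    have hU : UU0 V j (VV 4 j x) = UU0 V i v - Real.log (‖μ‖ ^ 2) := by
      have e1 := hP.rV i v h1
      rw [← hj, ← h2] at e1
      unfold UU0
      rw [← e1, h2]
      have hn : 0 < ‖v‖ := norm_pos_iff.2 h1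
      have e2 : Real.log (‖μ‖ ^ 2) = 10 * Real.log (‖v‖ ^ 2) := by
        rw [hμ, norm_neg, norm_pow, ← pow_mul, mul_comm 10 2, pow_mul, Real.log_pow]
        norm_num
      have e3 : (1 : ℝ) + ‖v⁻¹‖ ^ 2 = (1 + ‖v‖ ^ 2) / ‖v‖ ^ 2 := by
        rw [norm_inv]; field_simp; ring
      rw [e2, e3, Real.log_div (by positivity) (by positivity)]
      ring
    have hX : X j (VV 4 j x) = X i v / μ := by
      have e1 := hP.rX i v h1
      rw [← hj, ← h2] at e1
      rw [e1, hμ]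
      field_simp
    have key := (All.hHMP.2.1) (UU0 V i v) (X i v) μ hμ0
    unfold hHT
    rw [hU, hX, key, gt_ne hij, ← hμ]
    have h3 := Gf_diag (qa r c j (VV 4 j x)) μ hμ0
    rw [← hA] at h3
    have h4 : (Gf (qa r c j (VV 4 j x)))ᴴ * (Matrix.diagonal ![μ⁻¹, 1, μ])ᴴ =
        (Matrix.diagonal ![μ, 1, μ⁻¹])ᴴ * (Gf (qa r c i v))ᴴ := by
      rw [← Matrix.conjTranspose_mul, h3, Matrix.conjTranspose_mul]
    calc (Gf (qa r c j (VV 4 j x)))ᴴ * ((Matrix.diagonal ![μ⁻¹, 1, μ])ᴴ *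
          Hm (UU0 V i v) (X i v) * Matrix.diagonal ![μ⁻¹, 1, μ]) * Gf (qa r c j (VV 4 j x))
        = ((Gf (qa r c j (VV 4 j x)))ᴴ * (Matrix.diagonal ![μ⁻¹, 1, μ])ᴴ) *
          Hm (UU0 V i v) (X i v) * (Matrix.diagonal ![μ⁻¹, 1, μ] * Gf (qa r c j (VV 4 j x))) := by
          simp only [Matrix.mul_assoc]
      _ = _ := by rw [h4, h3]; simp only [Matrix.mul_assoc, ← hv]

end

theorem t_EXH (h1 : S_CHR) (h2 : S_OKH) : S_EXH := by
  intro inst hB hG r c hr V X hP
  have hch : ∀ {e : OpenPartialHomeomorph (SX 4) ℂ}, e ∈ atlas ℂ (SX 4) → ∀ j,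
    ChSol (dHT r c) 1 j (cD j e) (fun w => VV 4 j (e.symm w)) (fun w => om 4 j e (e.symm w))
      (V j) (X j) := fun he j => h1 _ (h2 r c hr).2.2 1 V X hP _ _ _ _ (mk_cht hB hG he j) j
  have hGu : ∀ a : ℂ, IsUnit (Gf a) := fun a => by
    rw [Matrix.isUnit_iff_isUnit_det, Gf_det]
    exact isUnit_one.neg
  have hpos : ∀ i (x : SX 4), (hHT r c V X i x).PosDef := fun i x =>
    posDef_conj (All.hHMP.1 _ _).1 (hGu _)
  have hqd : ∀ i, ∀ e ∈ atlas ℂ (SX 4), ∀ z ∈ e.target, e.symm z ∈ UU 4 i →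
      ∀ᶠ w in 𝓝 z, DifferentiableAt ℂ (fun w => qa r c i (VV 4 i (e.symm w))) w := by
    intro i e he z hz hi
    filter_upwards [(TH_open hB e i).mem_nhds ⟨hz, hi⟩] with w hw
    exact DifferentiableAt.comp w (qa_diff r c i _) (TH_diffV hB hG he hw)
  have hGd : ∀ i, ∀ e ∈ atlas ℂ (SX 4), ∀ z ∈ e.target, e.symm z ∈ UU 4 i →
      ∀ᶠ w in 𝓝 z, ∀ a b, DifferentiableAt ℂ
        (fun w => Gf (qa r c i (VV 4 i (e.symm w))) a b) w := by
    intro i e he z hz hi
    filter_upwards [hqd i e he z hz hi] with w hw a b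
    fin_cases a <;> fin_cases b <;> simp [Gf] <;> fun_prop
  -- the claim at points with `‖v‖ < 2`
  have hgood : ∀ i, ∀ e ∈ atlas ℂ (SX 4), ∀ z ∈ cD i e,
      (∀ a b, ContDiffAt ℝ ∞ (fun w => hHT r c V X i (e.symm w) a b) z) ∧
      Hit (fun w => hHT r c V X i (e.symm w)) ((HT hB hG r c).φ i e (e.symm z)) z := by
    intro i e he z hz
    have hS := hch he i
    have hC := mk_cht hB hG he i
    have hU : ContDiffAt ℝ ∞ (fun w => UU0 V i (VV 4 i (e.symm w))) z :=
      (UU0_smooth hC hS.1).contDiffAt (hC.op.mem_nhds hz)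
    have hX : ContDiffAt ℝ ∞ (fun w => X i (VV 4 i (e.symm w))) z :=
      hS.2.1.contDiffAt (hC.op.mem_nhds hz)
    have hGs : ∀ a b, ContDiffAt ℝ ∞ (fun w => Gf (qa r c i (VV 4 i (e.symm w))) a b) z :=
      fun a b => cd_of_holo ((hGd i e he z hz.1.1 hz.1.2).mono fun w hw => hw a b)
    have hHs : ∀ a b, ContDiffAt ℝ ∞
        (fun w => Hm (UU0 V i (VV 4 i (e.symm w))) (X i (VV 4 i (e.symm w))) a b) z :=
      fun a b => Hm_smooth hU hX a b
    refine ⟨fun a b => conj_smooth hHs hGs a b, ?_⟩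
    have h3 := hit_chart hC hS hz
    refine h3.conj (G := fun w => Gf (qa r c i (VV 4 i (e.symm w)))) ?_ ?_ ?_ ?_
    · exact Filter.Eventually.of_forall fun w => (All.hHMP.1 _ _).1
    · exact fun a b => contDiffAt_infty.1 (hHs a b) 2
    · filter_upwards [hGd i e he z hz.1.1 hz.1.2] with w hw
      refine ⟨hw, ?_⟩
      rw [Gf_det]
      norm_num
    · show Gf _ * (((r : ℂ) * om 4 i e (e.symm z)) • cmp _ _) =
        (((r : ℂ) * om 4 i e (e.symm z)) • Phl _ _) * Gf _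
      rw [Matrix.mul_smul, Matrix.smul_mul, Gf_cmp, Complex.ofReal_one, one_mul, one_mul]
  -- the claim at all points
  have hall : ∀ i, ∀ e ∈ atlas ℂ (SX 4), ∀ z ∈ e.target, e.symm z ∈ UU 4 i →
      (∀ a b, ContDiffAt ℝ ∞ (fun w => hHT r c V X i (e.symm w) a b) z) ∧
      Hit (fun w => hHT r c V X i (e.symm w)) ((HT hB hG r c).φ i e (e.symm z)) z := by
    intro i e he z hz hi
    by_cases hsm : ‖VV 4 i (e.symm z)‖ < 2
    · exact hgood i e he z ⟨⟨hz, hi⟩, hsm⟩
    · have hV0 : VV 4 i (e.symm z) ≠ 0 := by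
        intro h0
        rw [h0] at hsm
        simp at hsm
      have hi' : e.symm z ∈ UU 4 (!i) := (hB.mem_other i _ hi).2 hV0
      have hV' : VV 4 (!i) (e.symm z) = (VV 4 i (e.symm z))⁻¹ := hB.VV_other i _ hi hi'
      have hz' : z ∈ cD (!i) e := by
        refine ⟨⟨hz, hi'⟩, ?_⟩
        rw [hV', norm_inv]
        have : 2 ≤ ‖VV 4 i (e.symm z)‖ := not_lt.1 hsm
        have h5 : ‖VV 4 i (e.symm z)‖⁻¹ ≤ 2⁻¹ := inv_anti₀ (by norm_num) this
        linarith
      obtain ⟨g1, g2⟩ := hgood (!i) e he z hz'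
      have hO : ∀ᶠ w in 𝓝 z, w ∈ e.target ∩ e.symm ⁻¹' (UU 4 (!i) ∩ UU 4 i) := by
        filter_upwards [(TH_open hB e i).mem_nhds ⟨hz, hi⟩,
          (TH_open hB e (!i)).mem_nhds ⟨hz, hi'⟩] with w hw hw'
        exact ⟨hw.1, hw'.2, hw.2⟩
      have hgl : (fun w => hHT r c V X i (e.symm w)) =ᶠ[𝓝 z]
          fun w => (gt (!i) i (e.symm w))ᴴ * hHT r c V X (!i) (e.symm w) *
            gt (!i) i (e.symm w) := by
        filter_upwards [hO] with w hw
        exact hHT_glue hB hP (!i) i hw.2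
      have hgo : IsOpen (e.target ∩ e.symm ⁻¹' (UU 4 (!i) ∩ UU 4 i)) := by
        have h6 := (TH_open hB e (!i)).inter (TH_open hB e i)
        have h7 : (e.target ∩ e.symm ⁻¹' UU 4 (!i)) ∩ (e.target ∩ e.symm ⁻¹' UU 4 i) =
            e.target ∩ e.symm ⁻¹' (UU 4 (!i) ∩ UU 4 i) := by
          ext w; simp; tauto
        rwa [h7] at h6
      have hgd : ∀ᶠ w in 𝓝 z, ∀ a b, DifferentiableAt ℂ (fun w => gt (!i) i (e.symm w) a b) w := by
        filter_upwards [hO] with w hw a b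
        exact ((HT hB hG r c).holo_g (!i) i e he a b).differentiableAt (hgo.mem_nhds hw)
      have hgs : ∀ a b, ContDiffAt ℝ ∞ (fun w => gt (!i) i (e.symm w) a b) z :=
        fun a b => cd_of_holo (hgd.mono fun w hw => hw a b)
      constructor
      · intro a b
        refine (conj_smooth g1 hgs a b).congr_of_eventuallyEq ?_
        filter_upwards [hgl] with w hw
        rw [hw]
      · refine Hit.congr ?_ hgl
        refine g2.conj (G := fun w => gt (!i) i (e.symm w)) ?_ ?_ ?_ ?_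
        · exact Filter.Eventually.of_forall fun w => hpos _ _
        · exact fun a b => contDiffAt_infty.1 (g1 a b) 2
        · filter_upwards [hgd, hO] with w hw hw'
          refine ⟨hw, ?_⟩
          have : (gt (!i) i (e.symm w)).det = 1 := (HT hB hG r c).det_g (!i) i _ hw'.2
          rw [this]
          exact one_ne_zero
        · exact ((HT hB hG r c).glue_φ (!i) i e he (e.symm z)
            ⟨⟨hi', hi⟩, e.map_target hz⟩).symm
  refine ⟨hHT r c V X, mk_hm ?_ ?_ ?_ ?_ ?_⟩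
  · intro i x _
    exact hpos i x
  · intro i x _
    unfold hHT
    rw [Matrix.det_mul, Matrix.det_mul, Matrix.det_conjTranspose, Gf_det, (All.hHMP.1 _ _).2]
    simp
  · intro i j x hx
    exact hHT_glue hB hP i j hx
  · intro i e he z hz hi a b
    exact (hall i e he z hz hi).1 a b
  · intro i e he z hz hi
    exact (hall i e he z hz hi).2

end Pool.Agent.H794.EX
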