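import Pool.Agent.H794.EX.Spec

/-!
# FIX: existence of a fixed point
-/

set_option autoImplicit false

open scoped Manifold ContDiff Matrix ComplexOrder
open Matrix Topology MeasureTheory Set Filter

namespace Pool.Agent.H794.EX

namespace FIXL

lemma rt_mem {v : ℂ} (hv : v ∈ DD) : rt v = ⟨v, hv⟩ := by
  apply Subtype.ext
  have h1 : ‖v‖ ≤ 1 := by
    have : v ∈ Metric.closedBall (0 : ℂ) 1 := hv
    rwa [mem_closedBall_zero_iff] at this
  simp only [rt, max_eq_left h1]
  simp

lemma continuous_rt : Continuous rt := by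
  refine Continuous.subtype_mk ?_ _
  have h1 : Continuous fun s : ℂ => (max 1 ‖s‖ : ℝ) := continuous_const.max continuous_norm
  have h2 : ∀ s : ℂ, ((max 1 ‖s‖ : ℝ) : ℂ) ≠ 0 := by
    intro s
    have : (0 : ℝ) < max 1 ‖s‖ := lt_max_of_lt_left one_pos
    exact_mod_cast this.ne'
  exact ((Complex.continuous_ofReal.comp h1).inv₀ h2).mul continuous_id

lemma continuous_bV (x : BB) (j : Bool) : Continuous (bV x j) := by
  unfold bV
  exact continuous_fst.comp (x.continuous.comp (continuous_const.prodMk continuous_rt))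

lemma continuous_bX (x : BB) (j : Bool) : Continuous (bX x j) := by
  unfold bX
  exact continuous_snd.comp (x.continuous.comp (continuous_const.prodMk continuous_rt))

lemma norm_le_of_bounds (x : BB) (R : ℝ) (hR : 0 ≤ R)
    (h : ∀ j, ∀ v ∈ DD, |bV x j v| ≤ R ∧ ‖bX x j v‖ ≤ R) : ‖x‖ ≤ R := by
  rw [ContinuousMap.norm_le _ hR]
  rintro ⟨j, v⟩
  have h1 := h j v v.2
  unfold bV bX at h1
  rw [rt_mem v.2] at h1
  rw [Prod.norm_def]
  exact max_le h1.1 h1.2

end FIXL

open FIXL in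
theorem t_FIX (h1 : S_CPT) (h2 : S_ST1) : S_FIX := by
  intro d hd hbd
  obtain ⟨R2, hR2⟩ := hbd
  obtain ⟨R1, hR1⟩ := h2 d hd
  obtain ⟨Φ, hΦ, hc, hcomp⟩ := h1 d hd
  set R : ℝ := |R1| + |R2| + 1 with hR
  have hRpos : 0 < R := by positivity
  let H : ℝ → BB → BB := fun t x => (min 1 (2 * t)) • Φ (max 0 (2 * t - 1)) x
  have hmin : ∀ t ∈ Icc (0 : ℝ) 1, min 1 (2 * t) ∈ Icc (0 : ℝ) 1 := fun t ht =>
    ⟨le_min zero_le_one (by linarith [ht.1]), min_le_left _ _⟩
  have hmax : ∀ t ∈ Icc (0 : ℝ) 1, max 0 (2 * t - 1) ∈ Icc (0 : ℝ) 1 := fun t ht =>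
    ⟨le_max_left _ _, max_le zero_le_one (by linarith [ht.2])⟩
  have hHc : ContinuousOn (fun p : ℝ × BB => H p.1 p.2) (Icc (0 : ℝ) 1 ×ˢ univ) := by
    have e1 : Continuous (fun p : ℝ × BB => min 1 (2 * p.1)) :=
      continuous_const.min (continuous_const.mul continuous_fst)
    have e2 : Continuous (fun p : ℝ × BB => (max 0 (2 * p.1 - 1), p.2)) :=
      (continuous_const.max ((continuous_const.mul continuous_fst).sub continuous_const)).prodMk
        continuous_snd
    have e3 : ContinuousOn (fun p : ℝ × BB => Φ (max 0 (2 * p.1 - 1)) p.2)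
        (Icc (0 : ℝ) 1 ×ˢ univ) :=
      hc.comp e2.continuousOn fun p hp => ⟨hmax _ hp.1, trivial⟩
    exact e1.continuousOn.smul e3
  obtain ⟨K, hK, hKm⟩ := hcomp R
  have hK' : IsCompact ((fun p : ℝ × BB => p.1 • p.2) '' (Icc (0 : ℝ) 1 ×ˢ K)) :=
    (isCompact_Icc.prod hK).image (continuous_fst.smul continuous_snd)
  have hval : ∀ (s : ℝ) (l : ℝ), l ∈ Icc (0 : ℝ) 1 → ∀ x : BB, s • Φ l x = x →
      ∀ j, ∀ v ∈ DD, bV x j v = s * TV d l (bV x) (bX x) j v ∧
        bX x j v = (s : ℂ) * TX d l (bV x) (bX x) j v := by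
    intro s l hl x hx j v hv
    have e := hΦ l hl x j ⟨v, hv⟩
    have e2 : x (j, ⟨v, hv⟩) = s • (Φ l x (j, ⟨v, hv⟩)) := by
      conv_lhs => rw [← hx]
      rfl
    rw [e] at e2
    have a1 : bV x j v = (x (j, ⟨v, hv⟩)).1 := by unfold bV; rw [rt_mem hv]
    have a2 : bX x j v = (x (j, ⟨v, hv⟩)).2 := by unfold bX; rw [rt_mem hv]
    constructor
    · rw [a1, e2]
      simp
    · rw [a2, e2]
      simp
  obtain ⟨x, hx⟩ := leray_schauder H R hRpos hHc
    ⟨_, hK', fun t ht x hx => ⟨(min 1 (2 * t), Φ (max 0 (2 * t - 1)) x),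
      ⟨hmin t ht, hKm _ (hmax t ht) x hx⟩, rfl⟩⟩
    (fun x => by
      show (min 1 (2 * (0 : ℝ))) • Φ (max 0 (2 * 0 - 1)) x = 0
      rw [mul_zero, min_eq_right zero_le_one]
      exact zero_smul ℝ (Φ (max 0 (0 - 1)) x))
    (by
      intro t ht x hxR hfx
      have hfx' : (min 1 (2 * t)) • Φ (max 0 (2 * t - 1)) x = x := hfx
      rcases le_total t (1 / 2) with hle | hge
      · have e1 : min 1 (2 * t) = 2 * t := min_eq_right (by linarith)
        have e2 : max 0 (2 * t - 1) = 0 := max_eq_left (by linarith)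
        rw [e1, e2] at hfx'
        have hv := hval _ _ ⟨le_rfl, zero_le_one⟩ x hfx'
        have hb := hR1 (2 * t) ⟨by linarith [ht.1], by linarith⟩ (bV x) (bX x)
          (continuous_bV x) (continuous_bX x) (fun j v hvD => (hv j v hvD).1)
          (fun j v hvD => (hv j v hvD).2)
        have := norm_le_of_bounds x |R1| (abs_nonneg _) fun j v hvD =>
          ⟨(hb j v hvD).1.trans (le_abs_self _), (hb j v hvD).2.trans (le_abs_self _)⟩
        have := abs_nonneg R2
        linarith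
      · have e1 : min 1 (2 * t) = 1 := min_eq_left (by linarith)
        have e2 : max 0 (2 * t - 1) = 2 * t - 1 := max_eq_right (by linarith)
        rw [e1, e2] at hfx'
        have hl : 2 * t - 1 ∈ Icc (0 : ℝ) 1 := ⟨by linarith, by linarith [ht.2]⟩
        have hv := hval _ _ hl x hfx'
        have hb := hR2 (2 * t - 1) hl (bV x) (bX x)
          ⟨continuous_bV x, continuous_bX x, fun j v hvD => by
            rw [(hv j v hvD).1]; simp, fun j v hvD => by
            rw [(hv j v hvD).2]; simp⟩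
        have := norm_le_of_bounds x |R2| (abs_nonneg _) fun j v hvD =>
          ⟨(hb j v hvD).1.trans (le_abs_self _), (hb j v hvD).2.trans (le_abs_self _)⟩
        have := abs_nonneg R1
        linarith)
  have hx' : (min 1 (2 * (1 : ℝ))) • Φ (max 0 (2 * 1 - 1)) x = x := hx
  have e1 : min 1 (2 * (1 : ℝ)) = 1 := by norm_num
  have e2 : max 0 (2 * (1 : ℝ) - 1) = 1 := by norm_num
  rw [e1, e2] at hx'
  have hv := hval _ _ ⟨zero_le_one, le_rfl⟩ x hx'
  refine ⟨bV x, bX x, ⟨continuous_bV x, continuous_bX x, fun j v hvD => ?_, fun j v hvD => ?_⟩⟩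
  · have := (hv j v hvD).1
    rw [one_mul] at this
    exact this
  · have := (hv j v hvD).2
    rw [Complex.ofReal_one, one_mul] at this
    exact this

end Pool.Agent.H794.EX
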