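import Pool.Agent.H794.EX.Spec

set_option autoImplicit false

open scoped Manifold ContDiff Matrix ComplexOrder
open Matrix Topology MeasureTheory Set Filter

namespace Pool.Agent.H794.EX

open Pool.Agent.Helper614.HE Pool.Agent.H794

namespace GLUL

theorem isCompact_DD : IsCompact DD := isCompact_closedBall _ _

theorem DD_iff (v : ℂ) : v ∈ DD ↔ ‖v‖ ≤ 1 := by
  unfold DD
  rw [mem_closedBall_zero_iff]

theorem inv_mem_DD {v : ℂ} (h : v ∉ DD) : v⁻¹ ∈ DD := by
  rw [DD_iff] at *
  push Not at h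
  rw [norm_inv]
  exact inv_le_one_of_one_le₀ h.le

theorem eq_inv_of {v s : ℂ} (hv : v ≠ 0) (h : 1 - v * s = 0) : s = v⁻¹ := by
  have h1 : v⁻¹ * v = 1 := inv_mul_cancel₀ hv
  linear_combination (-s) * h1 - v⁻¹ * h

theorem ae_ne (a : ℂ) : ∀ᵐ s : ℂ ∂(volume.restrict DD), s ≠ a := by
  apply ae_restrict_of_ae
  rw [ae_iff]
  simp

theorem px (g : Bool → ℂ → ℂ) (j : Bool) (v : ℂ) (hv : v ≠ 0) :
    PX g j v = -(v ^ 10 * PX g (!j) v⁻¹) := by
  unfold PX CK
  rw [Bool.not_not]
  have e1 : ∀ s : ℂ, -1 * v ^ 11 * s ^ 0 * g (!j) s / (1 - v * s) =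
      -(v ^ 10) * (g (!j) s / (v⁻¹ - s)) := by
    intro s
    by_cases h : 1 - v * s = 0
    · have h' : v⁻¹ - s = 0 := by
        rw [eq_inv_of hv h, sub_self]
      rw [h, h', div_zero, div_zero, mul_zero]
    · have h' : v⁻¹ - s ≠ 0 := by
        intro hh
        apply h
        have : s = v⁻¹ := by linear_combination -hh
        rw [this, mul_inv_cancel₀ hv, sub_self]
      rw [mul_div_assoc', div_eq_div_iff h h']
      have : v * v⁻¹ = 1 := mul_inv_cancel₀ hv
      linear_combination (-v ^ 10 * g (!j) s) * this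
  have e2 : ∀ s : ℂ, g j s / (v - s) = v ^ 10 * (-(-1 * v⁻¹ ^ 11 * s ^ 0 * g j s / (1 - v⁻¹ * s))) := by
    intro s
    by_cases h : v - s = 0
    · have h' : 1 - v⁻¹ * s = 0 := by
        have : s = v := by linear_combination -h
        rw [this, inv_mul_cancel₀ hv, sub_self]
      rw [h, h', div_zero, div_zero, neg_zero, mul_zero]
    · have h' : 1 - v⁻¹ * s ≠ 0 := by
        intro hh
        apply h
        have h3 : v * (1 - v⁻¹ * s) = 0 := by rw [hh, mul_zero]
        have : v * v⁻¹ = 1 := mul_inv_cancel₀ hv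
        linear_combination h3 + s * this
      field_simp
  rw [integral_congr_ae (Filter.Eventually.of_forall e1), integral_const_mul,
    integral_congr_ae (Filter.Eventually.of_forall e2), integral_const_mul, integral_neg]
  ring

theorem ee_add (j : Bool) {k : ℕ} (hk : k < 11) : ee j k + ee (!j) k = 10 := by
  cases j <;> simp [ee] <;> omega

theorem ep_not (j : Bool) : ep (!j) = - ep j := by
  cases j <;> simp [ep]

theorem polg (p : ℕ → ℂ) (j : Bool) (v : ℂ) (hv : v ≠ 0) :
    pol p j v = -(v ^ 10 * pol p (!j) v⁻¹) := by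
  unfold pol
  rw [Finset.mul_sum, ← Finset.sum_neg_distrib]
  refine Finset.sum_congr rfl fun k hk => ?_
  have h := ee_add j (Finset.mem_range.1 hk)
  have h1 : v ^ 10 = v ^ ee j k * v ^ ee (!j) k := by rw [← pow_add, h]
  have h2 : v ^ ee (!j) k * v⁻¹ ^ ee (!j) k = 1 := by
    rw [← mul_pow, mul_inv_cancel₀ hv, one_pow]
  rw [ep_not, h1]
  linear_combination (p k * ep j * v ^ ee j k) * (-h2)

theorem log1 {v s : ℂ} (hv : v ≠ 0) (h : s ≠ v⁻¹) :
    Real.log (‖v⁻¹ - s‖ ^ 2) = Real.log (‖1 - v * s‖ ^ 2) - Real.log (‖v‖ ^ 2) := by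
  have h1 : v⁻¹ - s = (1 - v * s) / v := by field_simp
  have h2 : 1 - v * s ≠ 0 := by
    intro hh
    exact h (eq_inv_of hv hh)
  rw [h1, norm_div, div_pow, Real.log_div]
  · exact pow_ne_zero _ (norm_ne_zero_iff.2 h2)
  · exact pow_ne_zero _ (norm_ne_zero_iff.2 hv)

theorem log2 {v s : ℂ} (hv : v ≠ 0) (h : s ≠ v) :
    Real.log (‖1 - v⁻¹ * s‖ ^ 2) = Real.log (‖v - s‖ ^ 2) - Real.log (‖v‖ ^ 2) := by
  have h1 : 1 - v⁻¹ * s = (v - s) / v := by field_simp
  have h2 : v - s ≠ 0 := fun hh => h (by linear_combination -hh)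
  rw [h1, norm_div, div_pow, Real.log_div]
  · exact pow_ne_zero _ (norm_ne_zero_iff.2 h2)
  · exact pow_ne_zero _ (norm_ne_zero_iff.2 hv)

theorem tot_eq (G : Bool → ℂ → ℝ) (j : Bool) :
    tot G = (∫ s in DD, G j s) + ∫ s in DD, G (!j) s := by
  unfold tot
  rw [Fintype.sum_bool]
  cases j <;> simp [add_comm]

theorem pl1 (G : Bool → ℂ → ℝ) (j : Bool) (v : ℂ) (hv : v ≠ 0) (ht : tot G = 0)
    (hG : ∀ j, IntegrableOn (G j) DD)
    (h1 : IntegrableOn (fun s => Real.log (‖v - s‖ ^ 2) * G j s) DD)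
    (h2 : IntegrableOn (fun s => Real.log (‖1 - v * s‖ ^ 2) * G (!j) s) DD) :
    PL G j v = PL G (!j) v⁻¹ := by
  unfold PL
  rw [Bool.not_not]
  have e1 : ∫ s in DD, Real.log (‖v⁻¹ - s‖ ^ 2) * G (!j) s =
      (∫ s in DD, Real.log (‖1 - v * s‖ ^ 2) * G (!j) s) -
        Real.log (‖v‖ ^ 2) * ∫ s in DD, G (!j) s := by
    rw [← integral_const_mul, ← integral_sub h2 ((hG _).const_mul _)]
    apply integral_congr_ae
    filter_upwards [ae_ne v⁻¹] with s hs
    rw [log1 hv hs]
    ring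
  have e2 : ∫ s in DD, Real.log (‖1 - v⁻¹ * s‖ ^ 2) * G j s =
      (∫ s in DD, Real.log (‖v - s‖ ^ 2) * G j s) - Real.log (‖v‖ ^ 2) * ∫ s in DD, G j s := by
    rw [← integral_const_mul, ← integral_sub h1 ((hG _).const_mul _)]
    apply integral_congr_ae
    filter_upwards [ae_ne v] with s hs
    rw [log2 hv hs]
    ring
  rw [e1, e2]
  rw [tot_eq G j] at ht
  linear_combination (1 / Real.pi) * Real.log (‖v‖ ^ 2) * ht

/-- the kernel operator for the dual problem -/
noncomputable def KK (h : Bool → ℂ → ℂ) (j : Bool) (v : ℂ) : ℂ := CK 1 0 11 h j v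

theorem geom1 {v s : ℂ} (h : s ≠ v) : s ^ 11 / (v - s) =
    v ^ 11 * (v - s)⁻¹ - ∑ k ∈ Finset.range 11, v ^ (10 - k) * s ^ k := by
  have h2 : v - s ≠ 0 := fun hh => h (by linear_combination -hh)
  rw [eq_sub_iff_add_eq, div_add' _ _ _ h2, ← div_eq_mul_inv]
  congr 1
  simp only [Finset.sum_range_succ, Finset.sum_range_zero]
  ring

theorem geom2 {v s : ℂ} (h : 1 - v * s ≠ 0) : (1 - v * s)⁻¹ =
    v ^ 11 * (s ^ 11 / (1 - v * s)) + ∑ k ∈ Finset.range 11, v ^ k * s ^ k := by
  field_simp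
  simp only [Finset.sum_range_succ, Finset.sum_range_zero]
  ring

theorem kk1 (h : Bool → ℂ → ℂ) (j : Bool) (v : ℂ) (hv : v ≠ 0)
    (hi : ∀ j, IntegrableOn (h j) DD)
    (h1 : IntegrableOn (fun s => h j s / (v - s)) DD)
    (h2 : IntegrableOn (fun s => s ^ 11 * h (!j) s / (1 - v * s)) DD)
    (hm : ∀ k < 11, ∑ j, ep j * ∫ s in DD, s ^ ee j k * h j s = 0) :
    KK h j v = v⁻¹ ^ 12 * KK h (!j) v⁻¹ := by
  have hpow : ∀ (i : Bool) (k : ℕ), IntegrableOn (fun s => s ^ k * h i s) DD := fun i k =>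
    (hi i).continuousOn_mul (by fun_prop) isCompact_DD
  have e1 : ∫ s in DD, s ^ 11 * h j s / (v - s) = v ^ 11 * (∫ s in DD, h j s / (v - s)) -
      ∑ k ∈ Finset.range 11, v ^ (10 - k) * ∫ s in DD, s ^ k * h j s := by
    simp only [← integral_const_mul]
    rw [← integral_finsetSum _ fun k _ => (hpow j k).const_mul _,
      ← integral_sub (h1.const_mul _) (integrable_finsetSum _ fun k _ => (hpow j k).const_mul _)]
    apply integral_congr_ae
    filter_upwards [ae_ne v] with s hs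
    have := geom1 hs
    have e : s ^ 11 * h j s / (v - s) = (s ^ 11 / (v - s)) * h j s := by ring
    rw [e, this, sub_mul, Finset.sum_mul]
    congr 1
    · ring
    · exact Finset.sum_congr rfl fun k _ => by ring
  have e2 : ∫ s in DD, h (!j) s / (1 - v * s) =
      v ^ 11 * (∫ s in DD, s ^ 11 * h (!j) s / (1 - v * s)) +
      ∑ k ∈ Finset.range 11, v ^ k * ∫ s in DD, s ^ k * h (!j) s := by
    simp only [← integral_const_mul]
    rw [← integral_finsetSum _ fun k _ => (hpow (!j) k).const_mul _,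
      ← integral_add (h2.const_mul _)
        (integrable_finsetSum _ fun k _ => (hpow (!j) k).const_mul _)]
    apply integral_congr_ae
    filter_upwards [ae_ne v⁻¹] with s hs
    have hne : 1 - v * s ≠ 0 := by
      intro hh
      exact hs (eq_inv_of hv hh)
    have := geom2 hne
    have e : h (!j) s / (1 - v * s) = (1 - v * s)⁻¹ * h (!j) s := by ring
    rw [e, this, add_mul, Finset.sum_mul]
    congr 1
    · ring
    · exact Finset.sum_congr rfl fun k _ => by ring
  have a1 : ∫ s in DD, h (!j) s / (v⁻¹ - s) = v * ∫ s in DD, h (!j) s / (1 - v * s) := by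
    rw [← integral_const_mul]
    apply integral_congr_ae
    filter_upwards [ae_ne v⁻¹] with s hs
    have hne : 1 - v * s ≠ 0 := by
      intro hh
      exact hs (eq_inv_of hv hh)
    have e : v⁻¹ - s = (1 - v * s) / v := by field_simp
    rw [e, div_div_eq_mul_div]
    ring
  have a2 : ∫ s in DD, 1 * v⁻¹ ^ 0 * s ^ 11 * h j s / (1 - v⁻¹ * s) =
      v * ∫ s in DD, s ^ 11 * h j s / (v - s) := by
    rw [← integral_const_mul]
    apply integral_congr_ae
    filter_upwards with s
    have e : 1 - v⁻¹ * s = (v - s) / v := by field_simp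
    rw [e, div_div_eq_mul_div]
    ring
  have a3 : ∫ s in DD, 1 * v ^ 0 * s ^ 11 * h (!j) s / (1 - v * s) =
      ∫ s in DD, s ^ 11 * h (!j) s / (1 - v * s) := by
    apply integral_congr_ae
    filter_upwards with s
    ring
  -- the moments
  have hmom : ∑ k ∈ Finset.range 11, v ^ (10 - k) * (∫ s in DD, s ^ k * h j s) =
      ∑ k ∈ Finset.range 11, v ^ k * ∫ s in DD, s ^ k * h (!j) s := by
    have hm' : ∀ k < 11, ∫ s in DD, s ^ k * h false s = ∫ s in DD, s ^ (10 - k) * h true s := by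
      intro k hk
      have := hm k hk
      rw [Fintype.sum_bool] at this
      simp only [ep, ee, if_true, Bool.false_eq_true, if_false] at this
      linear_combination this
    cases j with
    | false =>
      rw [← Finset.sum_range_reflect (fun k => v ^ k * ∫ s in DD, s ^ k * h (!false) s)]
      refine Finset.sum_congr rfl fun k hk => ?_
      have hk' := Finset.mem_range.1 hk
      rw [hm' k hk']
      rfl
    | true =>
      rw [← Finset.sum_range_reflect (fun k => v ^ (10 - k) * ∫ s in DD, s ^ k * h true s)]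
      refine Finset.sum_congr rfl fun k hk => ?_
      have hk' := Finset.mem_range.1 hk
      have e : 11 - 1 - k = 10 - k := by omega
      have e' : 10 - (10 - k) = k := by omega
      rw [e, e', Bool.not_true, hm' k hk']
  unfold KK CK
  rw [Bool.not_not, a1, a2, a3, e1, e2, hmom]
  have hvv : v⁻¹ ^ 12 * v ^ 12 = 1 := by rw [← mul_pow, inv_mul_cancel₀ hv, one_pow]
  set A := ∫ s in DD, h j s / (v - s)
  set B := ∫ s in DD, s ^ 11 * h (!j) s / (1 - v * s)
  set C := ∑ k ∈ Finset.range 11, v ^ k * ∫ s in DD, s ^ k * h (!j) s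
  linear_combination (-(((1 / Real.pi : ℝ) : ℂ) * (A + B))) * hvv

end GLUL

open GLUL

theorem t_GLU (h1 : S_KER) (h2 : S_OPB) (h3 : S_OPL) : S_GLU := by
  refine ⟨px, polg, ?_, ?_⟩
  · intro G c hG hc hd ht j v hv
    obtain ⟨K, hK, hL⟩ := h3
    obtain ⟨i1, -, i2, -⟩ := hL G c hG hc hd
    by_cases hD : v ∈ DD
    · obtain ⟨a1, a2, -⟩ := i2 j v hD
      exact pl1 G j v hv ht i1 a1 a2
    · have hD' := inv_mem_DD hD
      obtain ⟨a1, a2, -⟩ := i2 (!j) v⁻¹ hD'
      have := pl1 G (!j) v⁻¹ (inv_ne_zero hv) ht i1 a1 a2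
      rw [this, Bool.not_not, inv_inv]
  · intro f c hf hc hd hm j v hv1 hv2 hv3
    have hv : v ≠ 0 := by
      rintro rfl
      rw [norm_zero] at hv1
      linarith
    obtain ⟨K, hK, hL⟩ := h2
    obtain ⟨-, i1, i2⟩ := hL f c hf hc hd
    set h : Bool → ℂ → ℂ := fun j s => (starRingEnd ℂ) (f j s) with hh
    have hi : ∀ j, IntegrableOn (h j) DD := fun j => by
      have := (Complex.conjCLE.toContinuousLinearMap.integrable_comp (i1 j))
      exact this
    have hmm : ∀ k < 11, ∑ j, ep j * ∫ s in DD, s ^ ee j k * h j s = 0 := by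
      intro k hk
      have e := congrArg (starRingEnd ℂ) (hm k hk)
      unfold MM at e
      rw [map_sum, map_zero] at e
      rw [← e]
      refine Finset.sum_congr rfl fun j _ => ?_
      rw [map_mul, ← integral_conj]
      congr 1
      · cases j <;> simp [ep]
      · congr 1
        funext s
        rw [map_mul, map_pow, Complex.conj_conj]
    have key : ∀ (j : Bool) (v : ℂ), v ≠ 0 → v ∈ DD → v ^ 16 + 1 ≠ 0 →
        KK h j v = v⁻¹ ^ 12 * KK h (!j) v⁻¹ := by
      intro j v hv hD hv3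
      obtain ⟨a1, a2, -⟩ := i2 j v hD hv3
      exact kk1 h j v hv hi a1 a2 hmm
    have key2 : KK h j v = v⁻¹ ^ 12 * KK h (!j) v⁻¹ := by
      by_cases hD : v ∈ DD
      · exact key j v hv hD hv3
      · have hD' := inv_mem_DD hD
        have h4 : v⁻¹ ^ 16 + 1 ≠ 0 := by
          intro h5
          apply hv3
          have h6 : v ^ 16 * v⁻¹ ^ 16 = 1 := by rw [← mul_pow, mul_inv_cancel₀ hv, one_pow]
          linear_combination v ^ 16 * h5 - h6
        have := key (!j) v⁻¹ (inv_ne_zero hv) hD' h4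
        rw [Bool.not_not, inv_inv] at this
        rw [this, ← mul_assoc, ← mul_pow, inv_mul_cancel₀ hv, one_pow, one_mul]
    unfold PB
    change (starRingEnd ℂ) (KK h j v) = _ * (starRingEnd ℂ) (KK h (!j) v⁻¹)
    rw [key2, map_mul, map_pow, map_inv₀]

end Pool.Agent.H794.EX
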