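import Pool.Agent.H794.EX.Spec

set_option autoImplicit false

open Topology MeasureTheory Set Filter

namespace Pool.Agent.H794.EX

open Pool.Agent.Helper614.HE Pool.Agent.H794

namespace INVL

/-- the derivative of `w ↦ 1/w` -/
noncomputable def f' (w : ℂ) : ℂ →L[ℝ] ℂ :=
  (ContinuousLinearMap.toSpanSingleton ℂ (-(w ^ 2)⁻¹)).restrictScalars ℝ

theorem hasF (w : ℂ) (hw : w ≠ 0) : HasFDerivAt (fun w : ℂ => w⁻¹) (f' w) w := by
  have h1 := (hasDerivAt_inv hw).hasFDerivAt.restrictScalars ℝ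
  exact h1

theorem det_f' (w : ℂ) : |(f' w).det| = (‖w‖ ^ 4)⁻¹ := by
  have h : (f' w).det = (‖w‖ ^ 4)⁻¹ := by
    unfold f'
    rw [ContinuousLinearMap.det]
    have e : (((ContinuousLinearMap.toSpanSingleton ℂ (-(w ^ 2)⁻¹)).restrictScalars ℝ :
        ℂ →L[ℝ] ℂ) : ℂ →ₗ[ℝ] ℂ) = (((ContinuousLinearMap.toSpanSingleton ℂ (-(w ^ 2)⁻¹) : ℂ →L[ℂ] ℂ)
          : ℂ →ₗ[ℂ] ℂ)).restrictScalars ℝ := rfl
    rw [e, LinearMap.det_restrictScalars, Algebra.norm_complex_apply, Complex.normSq_eq_norm_sq]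
    simp [← pow_mul]
  rw [h, abs_of_nonneg (by positivity)]

theorem image_inv : (fun w : ℂ => w⁻¹) '' {w : ℂ | 1 ≤ ‖w‖ ∧ ‖w‖ < 2} =
    {s : ℂ | 1 / 2 < ‖s‖ ∧ ‖s‖ ≤ 1} := by
  ext s
  simp only [mem_image, mem_ofPred_eq]
  constructor
  · rintro ⟨w, ⟨h1, h2⟩, rfl⟩
    rw [norm_inv]
    refine ⟨?_, inv_le_one_of_one_le₀ h1⟩
    rw [one_div]
    exact inv_strictAnti₀ (by linarith) h2
  · rintro ⟨h1, h2⟩
    refine ⟨s⁻¹, ⟨?_, ?_⟩, inv_inv s⟩
    · rw [norm_inv]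
      exact (one_le_inv₀ (by linarith)).2 h2
    · rw [norm_inv, inv_lt_comm₀ (by linarith) (by norm_num)]
      linarith

theorem meas_ann : MeasurableSet {w : ℂ | 1 ≤ ‖w‖ ∧ ‖w‖ < 2} :=
  (measurableSet_le measurable_const measurable_norm).inter
    (measurableSet_lt measurable_norm measurable_const)

theorem part1 (F : ℂ → ℂ) (hF : IntegrableOn F {s : ℂ | 1 / 2 < ‖s‖ ∧ ‖s‖ ≤ 1}) :
    IntegrableOn (fun w => F w⁻¹ * (((‖w‖ ^ 4)⁻¹ : ℝ) : ℂ)) {w : ℂ | 1 ≤ ‖w‖ ∧ ‖w‖ < 2} ∧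
    ∫ s in {s : ℂ | 1 / 2 < ‖s‖ ∧ ‖s‖ ≤ 1}, F s =
      ∫ w in {w : ℂ | 1 ≤ ‖w‖ ∧ ‖w‖ < 2}, F w⁻¹ * (((‖w‖ ^ 4)⁻¹ : ℝ) : ℂ) := by
  have hd : ∀ x ∈ {w : ℂ | 1 ≤ ‖w‖ ∧ ‖w‖ < 2}, HasFDerivWithinAt (fun w : ℂ => w⁻¹) (f' x)
      {w : ℂ | 1 ≤ ‖w‖ ∧ ‖w‖ < 2} x := by
    intro x hx
    refine (hasF x ?_).hasFDerivWithinAt
    rintro rfl
    have := hx.1
    rw [norm_zero] at this
    linarith
  have hinj : InjOn (fun w : ℂ => w⁻¹) {w : ℂ | 1 ≤ ‖w‖ ∧ ‖w‖ < 2} := inv_injective.injOn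
  have e : ∀ x : ℂ, |(f' x).det| • F x⁻¹ = F x⁻¹ * (((‖x‖ ^ 4)⁻¹ : ℝ) : ℂ) := by
    intro x
    rw [det_f', Complex.real_smul, mul_comm]
  have h1 := integrableOn_image_iff_integrableOn_abs_det_fderiv_smul volume meas_ann hd hinj F
  have h2 := integral_image_eq_integral_abs_det_fderiv_smul volume meas_ann hd hinj F
  rw [image_inv] at h1 h2
  simp only [e] at h1 h2
  exact ⟨h1.1 hF, h2⟩

/-- distance estimate -/
theorem dist_est {z0 z x w : ℂ} {r : ℝ} (hx : x ∈ Metric.ball z ((r - dist z z0) / 2))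
    (hw : w ∉ Metric.ball z0 r) : (r - dist z z0) / 2 ≤ ‖x - w‖ := by
  rw [Metric.mem_ball] at hx hw
  have h1 := dist_triangle w x z0
  have h2 := dist_triangle x z z0
  rw [← dist_eq_norm, dist_comm x w]
  linarith

theorem cauchy_int {f : ℂ → ℂ} {z0 z : ℂ} {r : ℝ} (hf : Integrable f)
    (h0 : ∀ w ∈ Metric.ball z0 r, f w = 0) (hz : z ∈ Metric.ball z0 r) :
    Integrable (fun w => f w / (z - w)) := by
  set δ := (r - dist z z0) / 2 with hδ
  have hδ0 : 0 < δ := by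
    rw [Metric.mem_ball] at hz
    rw [hδ]; linarith
  refine (hf.norm.div_const δ).mono' ?_ (Eventually.of_forall fun w => ?_)
  · exact hf.aestronglyMeasurable.div₀ (by fun_prop)
  · by_cases hw : w ∈ Metric.ball z0 r
    · rw [h0 w hw]; simp
    · rw [norm_div]
      have := dist_est (x := z) (Metric.mem_ball_self hδ0) hw
      gcongr

theorem cauchy_deriv {f : ℂ → ℂ} {z0 z : ℂ} {r : ℝ} (hf : Integrable f)
    (h0 : ∀ w ∈ Metric.ball z0 r, f w = 0) (hz : z ∈ Metric.ball z0 r) :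
    DifferentiableAt ℂ (fun z => ∫ w, f w / (z - w)) z := by
  set δ := (r - dist z z0) / 2 with hδ
  have hδ0 : 0 < δ := by
    rw [Metric.mem_ball] at hz
    rw [hδ]; linarith
  have h := hasDerivAt_integral_of_dominated_loc_of_deriv_le (𝕜 := ℂ) (μ := volume)
    (F := fun x w => f w / (x - w)) (F' := fun x w => -(f w) / (x - w) ^ 2)
    (bound := fun w => ‖f w‖ / δ ^ 2) (Metric.ball_mem_nhds z hδ0) ?_ (cauchy_int hf h0 hz) ?_ ?_ ?_ ?_
  · exact h.2.differentiableAt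
  · exact Eventually.of_forall fun x => hf.aestronglyMeasurable.div₀ (by fun_prop)
  · exact hf.aestronglyMeasurable.neg.div₀ (by fun_prop)
  · refine Eventually.of_forall fun w x hx => ?_
    by_cases hw : w ∈ Metric.ball z0 r
    · simp only [h0 w hw]; simp
    · rw [norm_div, norm_neg, norm_pow]
      have := dist_est hx hw
      gcongr
  · exact hf.norm.div_const _
  · refine Eventually.of_forall fun w x hx => ?_
    by_cases hw : w ∈ Metric.ball z0 r
    · simp only [h0 w hw, neg_zero, zero_div]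
      exact hasDerivAt_const x (0 : ℂ)
    · have h1 := dist_est hx hw
      have h2 : x - w ≠ 0 := norm_pos_iff.1 (by linarith)
      have h3 := (hasDerivAt_const x (f w)).div ((hasDerivAt_id x).sub_const w) h2
      refine h3.congr_deriv ?_
      simp

theorem part2 (f : ℂ → ℂ) (z0 : ℂ) (r : ℝ) (hf : Integrable f)
    (h0 : ∀ w ∈ Metric.ball z0 r, f w = 0) : DifferentiableOn ℂ (Ct f) (Metric.ball z0 r) := by
  intro z hz
  have := (cauchy_deriv hf h0 hz).const_mul (((1 / Real.pi : ℝ)) : ℂ)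
  exact this.differentiableWithinAt

theorem part3 (g : ℂ → ℂ) (hg : IntegrableOn g {s : ℂ | ‖s‖ ≤ 1 / 2}) :
    DifferentiableOn ℂ (fun v => ∫ s in {s : ℂ | ‖s‖ ≤ 1 / 2}, g s / (1 - v * s))
      (Metric.ball 0 2) := by
  intro v0 hv0
  rw [mem_ball_zero_iff] at hv0
  have hms : MeasurableSet {s : ℂ | ‖s‖ ≤ 1 / 2} := measurableSet_le measurable_norm measurable_const
  set ρ := (2 - ‖v0‖) / 2 with hρ
  have hρ0 : 0 < ρ := by rw [hρ]; linarith
  have hbd : ∀ s ∈ {s : ℂ | ‖s‖ ≤ 1 / 2}, ∀ x ∈ Metric.ball v0 ρ, ρ / 2 ≤ ‖1 - x * s‖ := by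
    intro s hs x hx
    have hs' : ‖s‖ ≤ 1 / 2 := hs
    rw [mem_ball_iff_norm] at hx
    have h1 : ‖x‖ ≤ 2 - ρ := by
      have := norm_le_norm_add_norm_sub' x v0
      rw [hρ] at hx ⊢; linarith
    have h2 : ‖x * s‖ ≤ (2 - ρ) * (1 / 2) := by
      rw [norm_mul]
      exact mul_le_mul h1 hs' (norm_nonneg _) ((norm_nonneg _).trans h1)
    have h3 := norm_sub_norm_le (1 : ℂ) (x * s)
    rw [norm_one] at h3
    linarith
  have h := hasDerivAt_integral_of_dominated_loc_of_deriv_le (𝕜 := ℂ)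
    (μ := volume.restrict {s : ℂ | ‖s‖ ≤ 1 / 2})
    (F := fun x s => g s / (1 - x * s)) (F' := fun x s => g s * s / (1 - x * s) ^ 2)
    (bound := fun s => ‖g s‖ * (1 / 2) / (ρ / 2) ^ 2) (Metric.ball_mem_nhds v0 hρ0) ?_ ?_ ?_ ?_ ?_ ?_
  · exact h.2.differentiableAt.differentiableWithinAt
  · exact Eventually.of_forall fun x => hg.aestronglyMeasurable.div₀ (by fun_prop)
  · refine (hg.norm.div_const (ρ / 2)).mono' (hg.aestronglyMeasurable.div₀ (by fun_prop)) ?_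
    refine (ae_restrict_iff' hms).2 (Eventually.of_forall fun s hs => ?_)
    rw [norm_div]
    have := hbd s hs v0 (Metric.mem_ball_self hρ0)
    gcongr
  · exact (hg.aestronglyMeasurable.mul (by fun_prop)).div₀ (by fun_prop)
  · refine (ae_restrict_iff' hms).2 (Eventually.of_forall fun s hs x hx => ?_)
    rw [norm_div, norm_mul, norm_pow]
    have := hbd s hs x hx
    have hs' : ‖s‖ ≤ 1 / 2 := hs
    gcongr
  · exact (hg.norm.mul_const _).div_const _
  · refine (ae_restrict_iff' hms).2 (Eventually.of_forall fun s hs x hx => ?_)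
    have h1 := hbd s hs x hx
    have h2 : 1 - x * s ≠ 0 := norm_pos_iff.1 (by linarith)
    have h3 := (hasDerivAt_const x (g s)).div (((hasDerivAt_id x).mul_const s).const_sub 1) h2
    refine h3.congr_deriv ?_
    simp

/-- `A c h = 2 Re (c h)` -/
noncomputable def A : ℂ →L[ℝ] ℂ →L[ℝ] ℝ :=
  (2 : ℝ) • ((ContinuousLinearMap.compL ℝ ℂ ℂ ℝ Complex.reCLM).comp (ContinuousLinearMap.mul ℝ ℂ))

theorem A_apply (c h : ℂ) : A c h = 2 * (c * h).re := by
  simp [A]

theorem log_deriv {w z : ℂ} (c : ℝ) (h : z ≠ w) :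
    HasFDerivAt (fun z : ℂ => Real.log (‖z - w‖ ^ 2) * c) (A ((c : ℂ) / (z - w))) z := by
  have h0 : z - w ≠ 0 := sub_ne_zero.2 h
  have h1 : HasFDerivAt (fun z : ℂ => z - w) (ContinuousLinearMap.id ℝ ℂ) z :=
    (hasFDerivAt_id z).sub_const w
  have h2 := (h1.norm_sq.log (by positivity)).mul_const c
  refine h2.congr_fderiv ?_
  ext1 x
  rw [A_apply]
  have h3 : (c : ℂ) / (z - w) * x = ((c / ‖z - w‖ ^ 2 : ℝ) : ℂ) * ((starRingEnd ℂ) (z - w) * x) := by
    have h4 : ((‖z - w‖ ^ 2 : ℝ) : ℂ) = (z - w) * (starRingEnd ℂ) (z - w) := by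
      rw [Complex.mul_conj, Complex.normSq_eq_norm_sq]
    have h5 : (starRingEnd ℂ) (z - w) ≠ 0 := (map_ne_zero _).2 h0
    rw [Complex.ofReal_div, h4]
    field_simp
  rw [h3, Complex.re_ofReal_mul]
  simp [Complex.inner]
  ring

theorem part4 (G : ℂ → ℝ) (z0 : ℂ) (r : ℝ) (hG : Integrable G) (hR : ∃ R : ℝ, ∀ w, R < ‖w‖ → G w = 0)
    (h0 : ∀ w ∈ Metric.ball z0 r, G w = 0) (z : ℂ) (hz : z ∈ Metric.ball z0 r) :
    HasFDerivAt (fun z => ∫ w, Real.log (‖z - w‖ ^ 2) * G w) (A (∫ w, (G w : ℂ) / (z - w))) z := by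
  obtain ⟨R, hR⟩ := hR
  have hGc : Integrable (fun w => (G w : ℂ)) := hG.ofReal
  have h0c : ∀ w ∈ Metric.ball z0 r, (G w : ℂ) = 0 := fun w hw => by rw [h0 w hw]; rfl
  set δ := (r - dist z z0) / 2 with hδ
  have hδ0 : 0 < δ := by
    rw [Metric.mem_ball] at hz
    rw [hδ]; linarith
  have hcomm : A (∫ w, (G w : ℂ) / (z - w)) = ∫ w, A ((G w : ℂ) / (z - w)) :=
    (A.integral_comp_comm (cauchy_int hGc h0c hz)).symm
  rw [hcomm]
  refine hasFDerivAt_integral_of_dominated_of_fderiv_le (𝕜 := ℝ)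
    (F := fun x w => Real.log (‖x - w‖ ^ 2) * G w)
    (F' := fun x w => A ((G w : ℂ) / (x - w)))
    (bound := fun w => ‖A‖ * (|G w| / δ)) (Metric.ball_mem_nhds z hδ0) ?_ ?_ ?_ ?_ ?_ ?_
  · refine Eventually.of_forall fun x => ?_
    refine AEStronglyMeasurable.mul ?_ hG.aestronglyMeasurable
    exact (Real.measurable_log.comp (by fun_prop)).aestronglyMeasurable
  · set M := |Real.log (δ ^ 2)| + |Real.log ((‖z‖ + |R| + 1) ^ 2)| with hM
    refine (hG.norm.const_mul M).mono' ?_ (Eventually.of_forall fun w => ?_)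
    · refine AEStronglyMeasurable.mul ?_ hG.aestronglyMeasurable
      exact (Real.measurable_log.comp (by fun_prop)).aestronglyMeasurable
    · rw [norm_mul]
      by_cases hw : G w = 0
      · rw [hw]; simp
      · have hw1 : w ∉ Metric.ball z0 r := fun h => hw (h0 w h)
        have hw2 : ‖w‖ ≤ R := by
          by_contra hn
          exact hw (hR w (not_le.1 hn))
        have h1 := dist_est (x := z) (Metric.mem_ball_self hδ0) hw1
        have h2 : ‖z - w‖ ≤ ‖z‖ + |R| + 1 := by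
          have := norm_sub_le z w
          have := le_abs_self R
          linarith
        gcongr
        rw [Real.norm_eq_abs, abs_le]
        have h3 : Real.log (δ ^ 2) ≤ Real.log (‖z - w‖ ^ 2) :=
          Real.log_le_log (by positivity) (by gcongr)
        have h4 : Real.log (‖z - w‖ ^ 2) ≤ Real.log ((‖z‖ + |R| + 1) ^ 2) := by
          refine Real.log_le_log ?_ (by gcongr)
          have : 0 < ‖z - w‖ := by linarith
          positivity
        have h5 := neg_abs_le (Real.log (δ ^ 2))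
        have h6 := le_abs_self (Real.log ((‖z‖ + |R| + 1) ^ 2))
        have h7 := abs_nonneg (Real.log (δ ^ 2))
        have h8 := abs_nonneg (Real.log ((‖z‖ + |R| + 1) ^ 2))
        constructor <;> linarith
  · exact A.continuous.comp_aestronglyMeasurable (hGc.aestronglyMeasurable.div₀ (by fun_prop))
  · refine Eventually.of_forall fun w x hx => ?_
    refine (A.le_opNorm _).trans ?_
    gcongr
    by_cases hw : w ∈ Metric.ball z0 r
    · rw [h0 w hw]; simp
    · rw [norm_div, Complex.norm_real, Real.norm_eq_abs]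
      have := dist_est hx hw
      gcongr
  · exact (hG.norm.div_const δ).const_mul _
  · refine Eventually.of_forall fun w x hx => ?_
    by_cases hw : w ∈ Metric.ball z0 r
    · simp only [h0 w hw, Complex.ofReal_zero, zero_div, mul_zero, map_zero]
      exact hasFDerivAt_const (0 : ℝ) x
    · have h1 := dist_est hx hw
      refine log_deriv _ ?_
      rintro rfl
      rw [sub_self, norm_zero] at h1
      linarith

theorem Ct_eq (f : ℂ → ℂ) (z : ℂ) : (Real.pi : ℂ) * Ct f z = ∫ w, f w / (z - w) := by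
  have : (Real.pi : ℂ) ≠ 0 := by exact_mod_cast Real.pi_ne_zero
  unfold Ct
  push_cast
  field_simp

theorem part4' (G : ℂ → ℝ) (z0 : ℂ) (r : ℝ) (hG : Integrable G)
    (hR : ∃ R : ℝ, ∀ w, R < ‖w‖ → G w = 0)
    (h0 : ∀ w ∈ Metric.ball z0 r, G w = 0) (z : ℂ) (hz : z ∈ Metric.ball z0 r) :
      ContDiffAt ℝ 1 (fun z => ∫ w, Real.log (‖z - w‖ ^ 2) * G w) z ∧
      dz (fun z => ((∫ w, Real.log (‖z - w‖ ^ 2) * G w : ℝ) : ℂ)) z =
        Real.pi * Ct (fun w => (G w : ℂ)) z := by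
  have hGc : Integrable (fun w => (G w : ℂ)) := hG.ofReal
  have h0c : ∀ w ∈ Metric.ball z0 r, (G w : ℂ) = 0 := fun w hw => by rw [h0 w hw]; rfl
  have hd := part4 G z0 r hG hR h0
  constructor
  · refine contDiffAt_one_iff.2 ⟨fun z => A (∫ w, (G w : ℂ) / (z - w)), Metric.ball z0 r,
      Metric.isOpen_ball.mem_nhds hz, ?_, hd⟩
    intro x hx
    exact (A.continuous.continuousAt.comp (cauchy_deriv hGc h0c hx).continuousAt).continuousWithinAt
  · have h1 : HasFDerivAt (fun z => ((∫ w, Real.log (‖z - w‖ ^ 2) * G w : ℝ) : ℂ))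
        (Complex.ofRealCLM.comp (A (∫ w, (G w : ℂ) / (z - w)))) z :=
      Complex.ofRealCLM.hasFDerivAt.comp z (hd z hz)
    unfold dz
    rw [h1.fderiv, Ct_eq]
    generalize (∫ w, (G w : ℂ) / (z - w)) = c
    simp only [ContinuousLinearMap.comp_apply, A_apply, Complex.ofRealCLM_apply]
    apply Complex.ext <;> simp

end INVL

open INVL in
theorem t_INV : S_INV :=
  ⟨part1, part2, part3, fun G z0 r _ hG hR h0 z hz => part4' G z0 r hG hR h0 z hz⟩

end Pool.Agent.H794.EX
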