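import Pool.Agent.H794.EX.Spec

/-!
# The derivative of the logarithmic potential
-/

set_option autoImplicit false

open scoped Manifold ContDiff Matrix ComplexOrder
open Matrix Topology MeasureTheory Set Filter

namespace Pool.Agent.H794.EX

open Pool.Agent.Helper614.HE Pool.Agent.H794

namespace LGDL

/-- the real differential with `∂`-part `q` -/
noncomputable def LL (q : ℂ) : ℂ →L[ℝ] ℝ :=
  (2 : ℝ) • (Complex.reCLM.comp ((ContinuousLinearMap.mul ℝ ℂ) q))

theorem LL_apply (q v : ℂ) : LL q v = 2 * (q * v).re := rfl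

/-- a real function which is `C¹` with `∂`-derivative `q` -/
def HH (u : ℂ → ℝ) (q : ℂ) (z : ℂ) : Prop := ContDiffAt ℝ 1 u z ∧ HasFDerivAt u (LL q) z

theorem HH_of {u : ℂ → ℝ} {q z : ℂ} (h : ContDiffAt ℝ 1 u z)
    (hq : dz (fun w => (u w : ℂ)) z = q) : HH u q z := by
  refine ⟨h, ?_⟩
  have hd : HasFDerivAt u (fderiv ℝ u z) z := (h.differentiableAt one_ne_zero).hasFDerivAt
  have hc : HasFDerivAt (fun w => (u w : ℂ)) (Complex.ofRealCLM.comp (fderiv ℝ u z)) z :=
    Complex.ofRealCLM.hasFDerivAt.comp z hd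
  have e : fderiv ℝ u z = LL q := by
    rw [← hq]
    unfold dz
    rw [hc.fderiv]
    ext v
    rw [LL_apply]
    have hv : v = (v.re : ℝ) • (1 : ℂ) + (v.im : ℝ) • Complex.I := by
      apply Complex.ext <;> simp
    have h1 : fderiv ℝ u z v = v.re * fderiv ℝ u z 1 + v.im * fderiv ℝ u z Complex.I := by
      conv_lhs => rw [hv]
      rw [map_add, map_smul, map_smul, smul_eq_mul, smul_eq_mul]
    rw [h1]
    simp only [ContinuousLinearMap.comp_apply, Complex.ofRealCLM_apply]
    simp [Complex.mul_re]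
    ring
  rw [e] at hd
  exact hd

theorem HH.dz_eq {u : ℂ → ℝ} {q z : ℂ} (h : HH u q z) : dz (fun w => (u w : ℂ)) z = q := by
  have hc : HasFDerivAt (fun w => (u w : ℂ)) (Complex.ofRealCLM.comp (LL q)) z :=
    Complex.ofRealCLM.hasFDerivAt.comp z h.2
  unfold dz
  rw [hc.fderiv]
  simp only [ContinuousLinearMap.comp_apply, Complex.ofRealCLM_apply, LL_apply]
  apply Complex.ext <;> simp

theorem HH.add {u u' : ℂ → ℝ} {q q' z : ℂ} (h : HH u q z) (h' : HH u' q' z) :
    HH (fun w => u w + u' w) (q + q') z := by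
  refine ⟨h.1.add h'.1, ?_⟩
  have e : LL (q + q') = LL q + LL q' := by
    ext v
    rw [_root_.add_apply, LL_apply, LL_apply, LL_apply, add_mul, Complex.add_re]
    ring
  rw [e]
  exact h.2.add h'.2

theorem HH.const_mul {u : ℂ → ℝ} {q z : ℂ} (h : HH u q z) (c : ℝ) :
    HH (fun w => c * u w) (c * q) z := by
  refine ⟨contDiffAt_const.mul h.1, ?_⟩
  have e : LL (c * q) = c • LL q := by
    ext v
    rw [_root_.smul_apply, LL_apply, LL_apply, mul_assoc, Complex.re_ofReal_mul,
      smul_eq_mul]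
    ring
  rw [e]
  exact h.2.const_mul c

theorem HH.congr {u u' : ℂ → ℝ} {q z : ℂ} (h : HH u q z) (he : u' =ᶠ[𝓝 z] u) : HH u' q z :=
  ⟨h.1.congr_of_eventuallyEq he, h.2.congr_of_eventuallyEq he⟩

theorem HH.comp {u : ℂ → ℝ} {q z : ℂ} {f : ℂ → ℂ} {f' : ℂ} (h : HH u q (f z))
    (hf : ContDiffAt ℝ 1 f z) (hf' : HasDerivAt f f' z) : HH (fun w => u (f w)) (q * f') z := by
  refine ⟨h.1.comp z hf, ?_⟩
  have h1 := h.2.comp z (hf'.hasFDerivAt.restrictScalars ℝ)
  refine h1.congr_fderiv ?_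
  ext v
  simp only [ContinuousLinearMap.comp_apply, LL_apply]
  simp
  ring

theorem HH_re {f : ℂ → ℂ} {z f' : ℂ} (hf : ContDiffAt ℝ 1 f z) (hf' : HasDerivAt f f' z) :
    HH (fun w => 2 * (f w).re) f' z := by
  have h0 : HH (fun w : ℂ => 2 * w.re) 1 (f z) := by
    refine ⟨contDiffAt_const.mul Complex.reCLM.contDiff.contDiffAt, ?_⟩
    have h1 : HasFDerivAt (fun w : ℂ => 2 * w.re) ((2:ℝ) • Complex.reCLM) (f z) :=
      (Complex.reCLM.hasFDerivAt).const_mul 2
    refine h1.congr_fderiv ?_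
    ext v
    rw [LL_apply]
    simp
  have := h0.comp hf hf'
  rwa [one_mul] at this

theorem HH_log {z : ℂ} (hz : z ≠ 0) : HH (fun w => Real.log (‖w‖ ^ 2)) (1 / z) z := by
  have h1 : HasFDerivAt (fun w : ℂ => ‖w‖ ^ 2) (2 • (innerSL ℝ z)) z :=
    (hasStrictFDerivAt_norm_sq z).hasFDerivAt
  have hn : ‖z‖ ^ 2 ≠ 0 := by positivity
  refine ⟨?_, ?_⟩
  · exact ((contDiff_norm_sq ℝ).contDiffAt).log hn
  · refine (h1.log hn).congr_fderiv ?_
    ext v
    rw [LL_apply, _root_.smul_apply, _root_.smul_apply, innerSL_apply_apply]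
    have e : (inner ℝ z v : ℝ) = z.re * v.re + z.im * v.im := by
      rw [Complex.inner, Complex.mul_re, Complex.conj_re, Complex.conj_im]; ring
    rw [e, smul_eq_mul, nsmul_eq_mul, one_div, Complex.mul_re, Complex.inv_re, Complex.inv_im,
      Complex.sq_norm]
    have hns : Complex.normSq z ≠ 0 := by simpa using hz
    field_simp
    ring

/-- the logarithmic potential in the plane -/
noncomputable def Lam (Q : ℂ → ℝ) (z : ℂ) : ℝ := ∫ w, Real.log (‖z - w‖ ^ 2) * Q w

theorem meas_log (z : ℂ) : Measurable (fun w : ℂ => Real.log (‖z - w‖ ^ 2)) := by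
  fun_prop

theorem LA (hI : ∀ (G : ℂ → ℝ) (z0 : ℂ) (r : ℝ), 0 < r → Integrable G →
      (∃ R : ℝ, ∀ w, R < ‖w‖ → G w = 0) →
      (∀ w ∈ Metric.ball z0 r, G w = 0) → ∀ z ∈ Metric.ball z0 r,
      ContDiffAt ℝ 1 (fun z => ∫ w, Real.log (‖z - w‖ ^ 2) * G w) z ∧
      dz (fun z => ((∫ w, Real.log (‖z - w‖ ^ 2) * G w : ℝ) : ℂ)) z =
        Real.pi * Ct (fun w => (G w : ℂ)) z)
    {Q : ℂ → ℝ} {c : ℝ} (hQm : Measurable Q) (hc : 0 ≤ c) (hQ0 : ∀ w, w ∉ DD → Q w = 0)
    (hQb : ∀ w ∈ DD, w ^ 16 + 1 ≠ 0 → |Q w| ≤ c * ww w) (hQi : Integrable Q) {z : ℂ}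
    (hz : z ^ 16 + 1 ≠ 0) :
    HH (Lam Q) (Real.pi * Ct (fun w => (Q w : ℂ)) z) z ∧
    Integrable (fun w => (Q w : ℂ) / (z - w)) ∧
    ∀ᶠ z' in 𝓝 z, Integrable (fun w => Real.log (‖z' - w‖ ^ 2) * Q w) := by
  have hopen : IsOpen {w : ℂ | w ^ 16 + 1 ≠ 0} :=
    isOpen_ne_fun (by fun_prop) continuous_const
  obtain ⟨δ, hδ, hδU⟩ := Metric.nhds_basis_closedBall.mem_iff.1 (hopen.mem_nhds hz)
  have hwc : ContinuousOn ww (Metric.closedBall z δ) := by
    unfold ww sx
    refine ContinuousOn.rpow_const (by fun_prop) fun w hw => Or.inl ?_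
    exact norm_ne_zero_iff.2 (hδU hw)
  obtain ⟨M, hM⟩ := (isCompact_closedBall z δ).exists_bound_of_continuousOn hwc
  have hM0 : 0 ≤ M := (norm_nonneg _).trans (hM z (Metric.mem_closedBall_self hδ.le))
  set Q1 : ℂ → ℝ := (Metric.ball z δ).indicator Q with hQ1
  set Q2 : ℂ → ℝ := (Metric.ball z δ)ᶜ.indicator Q with hQ2
  have hsum : ∀ w, Q w = Q1 w + Q2 w := fun w =>
    (congrFun (Set.indicator_self_add_compl (Metric.ball z δ) Q) w).symm
  have hQ1m : Measurable Q1 := hQm.indicator measurableSet_ball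
  have hQ2m : Measurable Q2 := hQm.indicator measurableSet_ball.compl
  have hQ1z : ∀ w, w ∉ DD → Q1 w = 0 := by
    intro w hw
    rw [hQ1]
    by_cases h : w ∈ Metric.ball z δ
    · rw [Set.indicator_of_mem h, hQ0 w hw]
    · rw [Set.indicator_of_notMem h]
  have hQ2z : ∀ w, w ∉ DD → Q2 w = 0 := by
    intro w hw
    rw [hQ2]
    by_cases h : w ∈ (Metric.ball z δ)ᶜ
    · rw [Set.indicator_of_mem h, hQ0 w hw]
    · rw [Set.indicator_of_notMem h]
  have hQ1b : ∀ w, |Q1 w| ≤ c * M := by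
    intro w
    by_cases hw : w ∈ Metric.ball z δ
    · rw [hQ1, Set.indicator_of_mem hw]
      by_cases hwD : w ∈ DD
      · have hw' := Metric.ball_subset_closedBall hw
        have h1 := hQb w hwD (hδU hw')
        have h2 := hM w hw'
        rw [Real.norm_eq_abs] at h2
        exact h1.trans (mul_le_mul_of_nonneg_left ((le_abs_self _).trans h2) hc)
      · rw [hQ0 w hwD, abs_zero]; positivity
    · rw [hQ1, Set.indicator_of_notMem hw, abs_zero]; positivity
  have hDD : ∀ w : ℂ, w ∈ DD ↔ ‖w‖ ≤ 1 := by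
    intro w
    unfold DD
    rw [mem_closedBall_zero_iff]
  obtain ⟨-, -, -, hOm0, -, -, -, -, -, -, -, hOm⟩ := All.hOM
  have hQ1w : ∀ w, |Q1 w| ≤ (4 * (c * M)) * (Om w / (1 + ‖w‖ ^ 2)) := by
    intro w
    by_cases hwD : w ∈ DD
    · have h1 := (hDD w).1 hwD
      have h2 := hOm w
      have h3 : (1 / 4 : ℝ) ≤ ((1 + ‖w‖ ^ 2) ^ 2)⁻¹ := by
        rw [one_div]
        refine inv_anti₀ (by positivity) ?_
        have : ‖w‖ ^ 2 ≤ 1 := pow_le_one₀ (norm_nonneg _) h1
        nlinarith [sq_nonneg ‖w‖]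
      have h4 : c * M = (4 * (c * M)) * (1 / 4) := by ring
      refine (hQ1b w).trans ?_
      calc c * M = (4 * (c * M)) * (1 / 4) := h4
        _ ≤ (4 * (c * M)) * (Om w / (1 + ‖w‖ ^ 2)) :=
          mul_le_mul_of_nonneg_left (h3.trans h2) (by positivity)
    · rw [hQ1z w hwD, abs_zero]
      have := hOm0 w
      positivity
  obtain ⟨K, _, hLOG⟩ := All.hLOG
  obtain ⟨K', _, hLOG1⟩ := All.hLOG1
  obtain ⟨hQ1i, -, -, hL1, -⟩ := hLOG Q1 (4 * (c * M)) hQ1m (by positivity) hQ1w
  obtain ⟨-, -, hL1i, -⟩ := hLOG1 Q1 (4 * (c * M)) hQ1m (by positivity) hQ1w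
  obtain ⟨K'', hCH⟩ := All.hCH 1 (c * M)
  have hQ1c := (hCH (fun w => (Q1 w : ℂ)) (Complex.measurable_ofReal.comp hQ1m) (by
    intro w
    rw [Complex.norm_real]
    exact hQ1b w) (by
    intro w hw
    rw [hQ1z w (fun h => absurd ((hDD w).1 h) (not_le.2 hw)), Complex.ofReal_zero])).1 z
  have hQ2i : Integrable Q2 := hQi.indicator measurableSet_ball.compl
  have hQ20 : ∀ w ∈ Metric.ball z δ, Q2 w = 0 := by
    intro w hw
    rw [hQ2, Set.indicator_of_notMem (by simpa using hw)]
  have hL2 := hI Q2 z δ hδ hQ2i ⟨1, fun w hw => hQ2z w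
    (fun h => absurd ((hDD w).1 h) (not_le.2 hw))⟩ hQ20 z (Metric.mem_ball_self hδ)
  have hQ2c : Integrable (fun w => (Q2 w : ℂ) / (z - w)) := by
    refine Integrable.mono' (g := fun w => |Q2 w| * δ⁻¹) (hQ2i.abs.mul_const _)
      (Measurable.aestronglyMeasurable (by
        exact (Complex.measurable_ofReal.comp hQ2m).div (measurable_const.sub measurable_id)))
      (Eventually.of_forall fun w => ?_)
    rw [norm_div, Complex.norm_real, Real.norm_eq_abs, div_eq_mul_inv]
    by_cases hw : w ∈ Metric.ball z δ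
    · rw [hQ20 w hw, abs_zero, zero_mul, zero_mul]
    · have h1 : δ ≤ ‖z - w‖ := by
        rw [Metric.mem_ball, not_lt, dist_comm, dist_eq_norm] at hw
        exact hw
      exact mul_le_mul_of_nonneg_left (inv_anti₀ hδ h1) (abs_nonneg _)
  have hL2i : ∀ z' ∈ Metric.ball z (δ / 2), Integrable (fun w => Real.log (‖z' - w‖ ^ 2) * Q2 w) := by
    intro z' hz'
    set R := ‖z‖ + δ + 1 with hR
    have hR0 : 0 < R := by positivity
    set B := |Real.log ((δ / 2) ^ 2)| + |Real.log (R ^ 2)| with hB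
    have hB0 : 0 ≤ B := by positivity
    refine Integrable.mono' (g := fun w => B * |Q2 w|) (hQ2i.abs.const_mul _)
      ((meas_log z').mul hQ2m).aestronglyMeasurable (Eventually.of_forall fun w => ?_)
    rw [Real.norm_eq_abs, abs_mul]
    by_cases hw : w ∈ Metric.ball z δ
    · rw [hQ20 w hw, abs_zero, mul_zero, mul_zero]
    by_cases hwD : w ∈ DD
    · have h1 : δ ≤ ‖z - w‖ := by
        rw [Metric.mem_ball, not_lt, dist_comm, dist_eq_norm] at hw
        exact hw
      have h2 : ‖z - z'‖ < δ / 2 := by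
        rw [Metric.mem_ball, dist_comm, dist_eq_norm] at hz'
        exact hz'
      have h3 : δ / 2 ≤ ‖z' - w‖ := by
        have : ‖z - w‖ ≤ ‖z - z'‖ + ‖z' - w‖ := norm_sub_le_norm_sub_add_norm_sub z z' w
        linarith
      have h4 : ‖z' - w‖ ≤ R := by
        have e1 : ‖z'‖ ≤ ‖z‖ + ‖z - z'‖ := by
          have := norm_sub_norm_le z' z
          rw [norm_sub_rev] at this
          linarith
        have e2 := norm_sub_le z' w
        have e3 := (hDD w).1 hwD
        rw [hR]
        linarith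
      have h5 : Real.log ((δ / 2) ^ 2) ≤ Real.log (‖z' - w‖ ^ 2) :=
        Real.log_le_log (by positivity) (by gcongr)
      have h6 : Real.log (‖z' - w‖ ^ 2) ≤ Real.log (R ^ 2) := by
        have : 0 < ‖z' - w‖ := lt_of_lt_of_le (by positivity) h3
        exact Real.log_le_log (by positivity) (by gcongr)
      have h7 : |Real.log (‖z' - w‖ ^ 2)| ≤ B := by
        refine (abs_le_max_abs_abs h5 h6).trans (max_le ?_ ?_)
        · rw [hB]; linarith [abs_nonneg (Real.log (R ^ 2))]
        · rw [hB]; linarith [abs_nonneg (Real.log ((δ / 2) ^ 2))]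
      exact mul_le_mul_of_nonneg_right h7 (abs_nonneg _)
    · rw [hQ2z w hwD, abs_zero, mul_zero, mul_zero]
  have hnb : Metric.ball z (δ / 2) ∈ 𝓝 z := Metric.ball_mem_nhds z (by positivity)
  refine ⟨?_, ?_, ?_⟩
  · have h1 : HH (Lam Q1) (Real.pi * Ct (fun w => (Q1 w : ℂ)) z) z := HH_of (hL1 z).1 (hL1 z).2
    have h2 : HH (Lam Q2) (Real.pi * Ct (fun w => (Q2 w : ℂ)) z) z := HH_of hL2.1 hL2.2
    have h3 := (h1.add h2).congr (u' := Lam Q) (by
      filter_upwards [hnb] with z' hz'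
      unfold Lam
      rw [← integral_add (hL1i z') (hL2i z' hz')]
      refine integral_congr_ae (Eventually.of_forall fun w => ?_)
      simp only [hsum w]
      ring)
    have e : (Real.pi : ℂ) * Ct (fun w => (Q w : ℂ)) z =
        Real.pi * Ct (fun w => (Q1 w : ℂ)) z + Real.pi * Ct (fun w => (Q2 w : ℂ)) z := by
      unfold Ct
      rw [← mul_add, ← mul_add, ← integral_add hQ1c hQ2c]
      congr 2
      refine integral_congr_ae (Eventually.of_forall fun w => ?_)
      simp only [hsum w]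
      push_cast
      ring
    rw [e]
    exact h3
  · refine (hQ1c.add hQ2c).congr (Eventually.of_forall fun w => ?_)
    simp only [Pi.add_apply, hsum w]
    push_cast
    ring
  · filter_upwards [hnb] with z' hz'
    refine ((hL1i z').add (hL2i z' hz')).congr (Eventually.of_forall fun w => ?_)
    simp only [Pi.add_apply, hsum w]
    ring

theorem set_ind (φ : ℂ → ℝ) (G : ℂ → ℝ) :
    ∫ s in DD, φ s * G s = ∫ s, φ s * DD.indicator G s := by
  rw [← integral_indicator (show MeasurableSet DD from measurableSet_closedBall)]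
  refine integral_congr_ae (Eventually.of_forall fun s => ?_)
  by_cases h : s ∈ DD
  · simp only [Set.indicator_of_mem h]
  · simp only [Set.indicator_of_notMem h, mul_zero]

theorem set_indc (φ : ℂ → ℂ) (G : ℂ → ℝ) :
    ∫ s in DD, (G s : ℂ) / φ s = ∫ s, ((DD.indicator G s : ℝ) : ℂ) / φ s := by
  rw [← integral_indicator (show MeasurableSet DD from measurableSet_closedBall)]
  refine integral_congr_ae (Eventually.of_forall fun s => ?_)
  by_cases h : s ∈ DD
  · simp only [Set.indicator_of_mem h]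
  · simp only [Set.indicator_of_notMem h, Complex.ofReal_zero, zero_div]

/-- the second part of the potential -/
noncomputable def TT (G : ℂ → ℝ) (v : ℂ) : ℝ := ∫ s in DD, Real.log (‖1 - v * s‖ ^ 2) * G s

theorem ae_ne (z : ℂ) : ∀ᵐ s ∂(volume.restrict DD), s ≠ z :=
  ae_restrict_of_ae (by
    have : (volume : Measure ℂ) {z} = 0 := measure_singleton z
    rw [← compl_mem_ae_iff] at this
    exact this)

/-- away from the origin -/
theorem TT_ne {G : ℂ → ℝ} {v : ℂ} (hv : v ≠ 0) (hGi : IntegrableOn G DD)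
    (hi1 : Integrable (fun w => ((DD.indicator G w : ℝ) : ℂ) / (v⁻¹ - w)))
    (hi2 : ∀ᶠ z in 𝓝 v⁻¹, Integrable (fun w => Real.log (‖z - w‖ ^ 2) * DD.indicator G w))
    (hH : HH (Lam (DD.indicator G)) (Real.pi * Ct (fun w => ((DD.indicator G w : ℝ) : ℂ)) v⁻¹) v⁻¹) :
    HH (TT G) (∫ s in DD, -1 * v ^ 0 * s ^ 1 * (G s : ℂ) / (1 - v * s)) v := by
  have h1 := (HH_log hv).const_mul (∫ s in DD, G s)
  have h2 := hH.comp (f := fun w => w⁻¹) (contDiffAt_inv ℝ hv) (hasDerivAt_inv hv)
  have h3 := (h1.add h2).congr (u' := TT G) (by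
    have hc : ContinuousAt (fun w : ℂ => w⁻¹) v := continuousAt_inv₀ hv
    filter_upwards [hc.eventually hi2, isOpen_ne.mem_nhds hv] with w hw hw0
    have hw0 : w ≠ 0 := hw0
    unfold TT Lam
    have hw' : Integrable (fun s => Real.log (‖w⁻¹ - s‖ ^ 2) * G s) (volume.restrict DD) := by
      rw [← IntegrableOn, ← integrable_indicator_iff
        (show MeasurableSet DD from measurableSet_closedBall)]
      refine hw.congr (Eventually.of_forall fun s => ?_)
      by_cases h : s ∈ DD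
      · simp only [Set.indicator_of_mem h]
      · simp only [Set.indicator_of_notMem h, mul_zero]
    rw [← set_ind, mul_comm, ← integral_const_mul, ← integral_add (hGi.const_mul _) hw']
    refine integral_congr_ae ?_
    filter_upwards [ae_ne w⁻¹] with s hs
    have e : 1 - w * s = w * (w⁻¹ - s) := by field_simp
    have hs' : w⁻¹ - s ≠ 0 := sub_ne_zero.2 (Ne.symm hs)
    rw [e, norm_mul, mul_pow, Real.log_mul (by positivity) (by positivity)]
    ring)
  convert h3 using 1
  have e1 : (Real.pi : ℂ) * Ct (fun w => ((DD.indicator G w : ℝ) : ℂ)) v⁻¹ =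
      ∫ s in DD, (G s : ℂ) / (v⁻¹ - s) := by
    rw [set_indc]
    unfold Ct
    have : (Real.pi : ℂ) ≠ 0 := by exact_mod_cast Real.pi_ne_zero
    rw [← mul_assoc]
    have e0 : (Real.pi : ℂ) * ((1 / Real.pi : ℝ) : ℂ) = 1 := by
      push_cast
      field_simp
    rw [e0, one_mul]
  have hi1' : Integrable (fun s => (G s : ℂ) / (v⁻¹ - s)) (volume.restrict DD) := by
    rw [← IntegrableOn, ← integrable_indicator_iff
      (show MeasurableSet DD from measurableSet_closedBall)]
    refine hi1.congr (Eventually.of_forall fun s => ?_)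
    by_cases h : s ∈ DD
    · simp only [Set.indicator_of_mem h]
    · simp only [Set.indicator_of_notMem h, Complex.ofReal_zero, zero_div]
  have hGc : Integrable (fun s => (G s : ℂ)) (volume.restrict DD) := hGi.ofReal
  have e2 : (((∫ s in DD, G s : ℝ)) : ℂ) = ∫ s in DD, (G s : ℂ) := integral_ofReal.symm
  rw [e1, e2, ← integral_mul_const, ← integral_mul_const,
    ← integral_add (hGc.mul_const _) (hi1'.mul_const _)]
  refine integral_congr_ae ?_
  filter_upwards [ae_ne v⁻¹] with s hs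
  have hs' : v⁻¹ - s ≠ 0 := sub_ne_zero.2 (Ne.symm hs)
  have e : 1 - v * s = v * (v⁻¹ - s) := by field_simp
  have e' : v⁻¹ - s = (1 - v * s) / v := by field_simp
  have hn : 1 - v * s ≠ 0 := by rw [e]; exact mul_ne_zero hv hs'
  rw [e']
  obtain ⟨a, ha⟩ : ∃ a, a = 1 - v * s := ⟨_, rfl⟩
  rw [← ha] at hn ⊢
  field_simp
  rw [ha]
  ring

/-- at the origin -/
theorem TT_zero {G : ℂ → ℝ} (hGm : Measurable G) (hGi : IntegrableOn G DD) :
    HH (TT G) (∫ s in DD, -1 * (0 : ℂ) ^ 0 * s ^ 1 * (G s : ℂ) / (1 - 0 * s)) 0 := by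
  have hDD : ∀ w : ℂ, w ∈ DD ↔ ‖w‖ ≤ 1 := by
    intro w
    unfold DD
    rw [mem_closedBall_zero_iff]
  have hGc : Integrable (fun s => (G s : ℂ)) (volume.restrict DD) := hGi.ofReal
  have hGcm : Measurable (fun s => (G s : ℂ)) := Complex.measurable_ofReal.comp hGm
  have hvs : ∀ v ∈ Metric.ball (0 : ℂ) (1 / 2), ∀ s ∈ DD, ‖v * s‖ ≤ 1 / 2 := by
    intro v hv s hs
    rw [mem_ball_zero_iff] at hv
    rw [norm_mul]
    have := (hDD s).1 hs
    nlinarith [norm_nonneg v, norm_nonneg s]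
  have hlow : ∀ v ∈ Metric.ball (0 : ℂ) (1 / 2), ∀ s ∈ DD, 1 / 2 ≤ ‖1 - v * s‖ := by
    intro v hv s hs
    have h1 := hvs v hv s hs
    have h2 := norm_sub_norm_le (1 : ℂ) (v * s)
    rw [norm_one] at h2
    linarith
  have hslit : ∀ v ∈ Metric.ball (0 : ℂ) (1 / 2), ∀ s ∈ DD, 1 - v * s ∈ Complex.slitPlane := by
    intro v hv s hs
    have h1 := hvs v hv s hs
    refine Or.inl ?_
    have h2 := (Complex.abs_re_le_norm (v * s)).trans h1
    rw [Complex.sub_re, Complex.one_re]
    linarith [(abs_le.1 h2).2]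
  have hbd : ∀ v ∈ Metric.ball (0 : ℂ) (1 / 2), ∀ s ∈ DD, ‖Complex.log (1 - v * s)‖ ≤ 3 / 2 := by
    intro v hv s hs
    have h1 := hvs v hv s hs
    have h2 := Complex.norm_log_one_add_half_le_self (z := -(v * s)) (by rwa [norm_neg])
    rw [norm_neg, ← sub_eq_add_neg] at h2
    linarith
  have hmeas : ∀ v : ℂ, Measurable (fun s : ℂ => Complex.log (1 - v * s) * (G s : ℂ)) := by
    intro v
    exact (Complex.measurable_log.comp (by fun_prop)).mul hGcm
  have hint : ∀ v ∈ Metric.ball (0 : ℂ) (1 / 2),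
      Integrable (fun s => Complex.log (1 - v * s) * (G s : ℂ)) (volume.restrict DD) := by
    intro v hv
    refine Integrable.mono' (g := fun s => 3 / 2 * ‖(G s : ℂ)‖) (hGc.norm.const_mul _)
      (hmeas v).aestronglyMeasurable ?_
    filter_upwards [ae_restrict_mem (show MeasurableSet DD from measurableSet_closedBall)] with s hs
    rw [norm_mul]
    exact mul_le_mul_of_nonneg_right (hbd v hv s hs) (norm_nonneg _)
  set h : ℂ → ℂ := fun v => ∫ s in DD, Complex.log (1 - v * s) * (G s : ℂ) with hh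
  have hder : ∀ v ∈ Metric.ball (0 : ℂ) (1 / 2),
      HasDerivAt h (∫ s in DD, -s / (1 - v * s) * (G s : ℂ)) v := by
    intro v hv
    refine (hasDerivAt_integral_of_dominated_loc_of_deriv_le (μ := volume.restrict DD)
      (F := fun v s => Complex.log (1 - v * s) * (G s : ℂ))
      (F' := fun v s => -s / (1 - v * s) * (G s : ℂ))
      (bound := fun s => 2 * ‖(G s : ℂ)‖) (Metric.isOpen_ball.mem_nhds hv)
      (Eventually.of_forall fun v => (hmeas v).aestronglyMeasurable) (hint v hv)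
      (Measurable.aestronglyMeasurable (by fun_prop)) ?_ (hGc.norm.const_mul _) ?_).2
    · filter_upwards [ae_restrict_mem (show MeasurableSet DD from measurableSet_closedBall)]
        with s hs w hw
      rw [norm_mul, norm_div, norm_neg]
      refine mul_le_mul_of_nonneg_right ?_ (norm_nonneg _)
      have h1 := hlow w hw s hs
      have h2 := (hDD s).1 hs
      rw [div_le_iff₀ (by linarith)]
      linarith
    · filter_upwards [ae_restrict_mem (show MeasurableSet DD from measurableSet_closedBall)]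
        with s hs w hw
      have h1 : HasDerivAt (fun w : ℂ => 1 - w * s) (-s) w := by
        have := ((hasDerivAt_id w).mul_const s).const_sub 1
        simpa using this
      exact (h1.clog (hslit w hw s hs)).mul_const _
  have h0 : (0 : ℂ) ∈ Metric.ball (0 : ℂ) (1 / 2) := Metric.mem_ball_self (by norm_num)
  have hcd : ContDiffAt ℝ 1 h 0 := by
    have hdo : DifferentiableOn ℂ h (Metric.ball 0 (1 / 2)) := fun v hv =>
      (hder v hv).differentiableAt.differentiableWithinAt
    exact ((hdo.analyticAt (Metric.isOpen_ball.mem_nhds h0)).contDiffAt (n := 1)).restrict_scalars ℝ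
  have hfin := (HH_re hcd (hder 0 h0)).congr (u' := TT G) (by
    filter_upwards [Metric.isOpen_ball.mem_nhds h0] with v hv
    unfold TT
    have e : (h v).re = ∫ s in DD, (Complex.log (1 - v * s) * (G s : ℂ)).re := by
      rw [hh]
      exact (Complex.reCLM.integral_comp_comm (hint v hv)).symm
    rw [e, ← integral_const_mul]
    refine integral_congr_ae (Eventually.of_forall fun s => ?_)
    simp only [Complex.re_mul_ofReal, Complex.log_re, Real.log_pow]
    push_cast
    ring)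
  convert hfin using 1
  refine integral_congr_ae (Eventually.of_forall fun s => ?_)
  simp only [zero_mul, sub_zero, pow_zero, pow_one]
  ring

end LGDL

open LGDL in
/-- **LGD**: the derivative of the logarithmic potential. -/
theorem t_LGD (h1 : S_INV) (_h2 : S_KER) (h3 : S_OPL) : S_LGD := by
  intro G c hGm hc hGd j v hv hv16
  obtain ⟨-, -, -, hI⟩ := h1
  obtain ⟨K, _, hOPL⟩ := h3
  obtain ⟨hGi, -⟩ := hOPL G c hGm hc hGd
  have hDm : MeasurableSet DD := measurableSet_closedBall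
  have hLA : ∀ (i : Bool) (z : ℂ), z ^ 16 + 1 ≠ 0 →
      HH (Lam (DD.indicator (G i))) (Real.pi * Ct (fun w => ((DD.indicator (G i) w : ℝ) : ℂ)) z) z ∧
      Integrable (fun w => ((DD.indicator (G i) w : ℝ) : ℂ) / (z - w)) ∧
      ∀ᶠ z' in 𝓝 z, Integrable (fun w => Real.log (‖z' - w‖ ^ 2) * DD.indicator (G i) w) := by
    intro i z hz
    refine LA hI ((hGm i).indicator hDm) hc (fun w hw => Set.indicator_of_notMem hw _)
      (fun w hw hw16 => ?_) ((integrable_indicator_iff hDm).2 (hGi i)) hz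
    rw [Set.indicator_of_mem hw]
    exact hGd i w hw hw16
  have hA := (hLA j v hv16).1
  have hB : HH (TT (G (!j))) (∫ s in DD, -1 * v ^ 0 * s ^ 1 * (G (!j) s : ℂ) / (1 - v * s)) v := by
    rcases eq_or_ne v 0 with rfl | hv0
    · exact TT_zero (hGm _) (hGi _)
    · have hv16' : (v⁻¹) ^ 16 + 1 ≠ 0 := by
        intro h
        apply hv16
        have : v ^ 16 * ((v⁻¹) ^ 16 + 1) = 1 + v ^ 16 := by field_simp
        rw [h, mul_zero] at this
        rw [add_comm]
        exact this.symm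
      obtain ⟨a1, a2, a3⟩ := hLA (!j) v⁻¹ hv16'
      exact TT_ne hv0 (hGi _) a2 a3 a1
  have hC := ((hA.add hB).const_mul (1 / Real.pi)).congr (u' := PL G j) (by
    refine Eventually.of_forall fun w => ?_
    unfold PL
    rw [set_ind]
    rfl)
  refine ⟨hC.1, ?_⟩
  rw [hC.dz_eq]
  unfold CK
  rw [set_indc]
  congr 2
  unfold Ct
  have : (Real.pi : ℂ) ≠ 0 := by exact_mod_cast Real.pi_ne_zero
  push_cast
  field_simp

end Pool.Agent.H794.EX
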