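import Pool.Agent.H794.EX.Spec

/-!
# LOC: local regularity of the operators of Cauchy type (helper249 for helper794)
-/

set_option autoImplicit false

open scoped Manifold ContDiff Matrix ComplexOrder
open Matrix Topology MeasureTheory Set Filter

namespace Pool.Agent.H794.EX

open Pool.Agent.Helper614.HE Pool.Agent.H794

namespace LOCL

theorem fin16 : {s : ℂ | s ^ 16 + 1 = 0}.Finite := by
  have h : {s : ℂ | s ^ 16 + 1 = 0} ⊆ ((Polynomial.nthRoots 16 (-1 : ℂ)).toFinset : Set ℂ) := by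
    intro s hs
    rw [Finset.mem_coe, Multiset.mem_toFinset, Polynomial.mem_nthRoots (by norm_num)]
    exact eq_neg_of_add_eq_zero_left hs
  exact (Finset.finite_toSet _).subset h

theorem ae16 : ∀ᵐ s : ℂ, s ^ 16 + 1 ≠ 0 := by
  rw [ae_iff]
  have h : {s : ℂ | ¬ (s ^ 16 + 1 ≠ 0)} = {s : ℂ | s ^ 16 + 1 = 0} := by
    ext s
    simp
  rw [h]
  exact fin16.measure_zero _

theorem ae_ne (v : ℂ) : ∀ᵐ s : ℂ, s ≠ v := by
  rw [ae_iff]
  have h : {s : ℂ | ¬ (s ≠ v)} = {v} := by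
    ext s
    simp
  rw [h]
  exact measure_singleton v

theorem ae_one : ∀ᵐ s : ℂ, ‖s‖ ≠ 1 := by
  rw [ae_iff]
  have h : {s : ℂ | ¬ (‖s‖ ≠ 1)} = Metric.sphere 0 1 := by
    ext s
    simp
  rw [h]
  exact Measure.addHaar_sphere _ _ _

theorem mDD : MeasurableSet DD := by
  unfold DD
  exact Metric.isClosed_closedBall.measurableSet

theorem mem_DD {s : ℂ} : s ∈ DD ↔ ‖s‖ ≤ 1 := by
  unfold DD
  rw [mem_closedBall_zero_iff]

section

variable {g : Bool → ℂ → ℂ} {c : ℝ}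

theorem ww_nn (s : ℂ) : 0 ≤ ww s := by
  unfold ww sx
  positivity

/-- the densities are integrable -/
theorem int_g (h2 : S_KER) (hm : ∀ j, Measurable (g j)) (hc : 0 ≤ c) (hD : Dom ww c g)
    (j : Bool) : IntegrableOn (g j) DD := by
  obtain ⟨K, -, k1, -, -⟩ := h2
  have h3 := ((k1 2).1.const_mul (3 * c))
  refine Integrable.mono' h3 (hm j).aestronglyMeasurable ?_
  rw [ae_restrict_iff' mDD]
  filter_upwards [ae16] with s hs hsD
  refine (hD j s hsD hs).trans ?_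
  have h4 := mem_DD.1 hsD
  have h5 : (1 : ℝ) ≤ ‖2 - s‖ := by
    have h6 := norm_sub_norm_le (2 : ℂ) s
    have h7 : ‖(2 : ℂ)‖ = 2 := by simp
    rw [h7] at h6
    linarith
  have h6 : ‖2 - s‖ ≤ 3 := by
    have h6 := norm_sub_le (2 : ℂ) s
    have h7 : ‖(2 : ℂ)‖ = 2 := by simp
    rw [h7] at h6
    linarith
  have h7 : (1 / 3 : ℝ) ≤ ‖2 - s‖ ^ (-(1 / 4) : ℝ) := by
    have h8 : ‖2 - s‖ ^ (-1 : ℝ) ≤ ‖2 - s‖ ^ (-(1 / 4) : ℝ) :=
      Real.rpow_le_rpow_of_exponent_le h5 (by norm_num)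
    refine le_trans ?_ h8
    rw [Real.rpow_neg_one, one_div]
    exact inv_anti₀ (by linarith) h6
  have h8 := ww_nn s
  have h9 : 0 ≤ c * ww s := mul_nonneg hc h8
  nlinarith

theorem int_gv (h2 : S_KER) (hm : ∀ j, Measurable (g j)) (hD : Dom ww c g)
    (j : Bool) {v : ℂ} (hv : ‖v‖ ≤ 2) (hv' : v ^ 16 + 1 ≠ 0) :
    IntegrableOn (fun s => g j s / (v - s)) DD := by
  obtain ⟨K, -, -, -, k3⟩ := h2
  have h3 := ((k3 v hv hv').1.const_mul c)
  refine Integrable.mono' h3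
    ((hm j).div (measurable_const.sub measurable_id)).aestronglyMeasurable ?_
  rw [ae_restrict_iff' mDD]
  filter_upwards [ae16] with s hs hsD
  rw [norm_div, div_eq_mul_inv, ← mul_assoc]
  exact mul_le_mul_of_nonneg_right (hD j s hsD hs) (by positivity)

theorem inv16 {v : ℂ} (hv : v ≠ 0) (hv' : v ^ 16 + 1 ≠ 0) : v⁻¹ ^ 16 + 1 ≠ 0 := by
  intro h
  apply hv'
  have h1 : v ^ 16 * (v⁻¹ ^ 16 + 1) = 1 + v ^ 16 := by
    rw [mul_add, mul_one, ← mul_pow, mul_inv_cancel₀ hv, one_pow]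
  rw [h, mul_zero] at h1
  rw [add_comm]
  exact h1.symm

theorem int_gw (h2 : S_KER) (hm : ∀ j, Measurable (g j)) (hc : 0 ≤ c) (hD : Dom ww c g)
    (j : Bool) {v : ℂ} (hv' : v ^ 16 + 1 ≠ 0) :
    IntegrableOn (fun s => g j s / (1 - v * s)) DD := by
  rcases lt_or_ge ‖v‖ (1 / 2) with hv | hv
  · refine Integrable.mono' ((int_g h2 hm hc hD j).norm.const_mul 2)
      ((hm j).div (measurable_const.sub (measurable_const.mul measurable_id))).aestronglyMeasurable ?_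
    rw [ae_restrict_iff' mDD]
    refine Filter.Eventually.of_forall fun s hs => ?_
    have h3 := mem_DD.1 hs
    have h4 : (1 / 2 : ℝ) ≤ ‖1 - v * s‖ := by
      have h5 := norm_sub_norm_le (1 : ℂ) (v * s)
      rw [norm_one, norm_mul] at h5
      have h6 : ‖v‖ * ‖s‖ ≤ 1 / 2 * 1 := mul_le_mul hv.le h3 (norm_nonneg _) (by norm_num)
      linarith
    rw [norm_div, div_le_iff₀ (by linarith)]
    have h7 := norm_nonneg (g j s)
    nlinarith
  · have hv0 : v ≠ 0 := by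
      rintro rfl
      rw [norm_zero] at hv
      norm_num at hv
    have h3 : ‖v⁻¹‖ ≤ 2 := by
      rw [norm_inv]
      calc ‖v‖⁻¹ ≤ (1 / 2 : ℝ)⁻¹ := inv_anti₀ (by norm_num) hv
        _ = 2 := by norm_num
    have h4 := (int_gv h2 hm hD j h3 (inv16 hv0 hv')).const_mul v⁻¹
    refine h4.congr (Filter.Eventually.of_forall fun s => ?_)
    show v⁻¹ * (g j s / (v⁻¹ - s)) = g j s / (1 - v * s)
    have h5 : 1 - v * s = v * (v⁻¹ - s) := by
      rw [mul_sub, mul_inv_cancel₀ hv0]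
    rw [h5, div_mul_eq_div_div_swap, div_eq_mul_inv (g j s / (v⁻¹ - s)) v, mul_comm]

/-- a bounded factor on a set -/
theorem int_mul {A : Set ℂ} (hA : MeasurableSet A) {f k : ℂ → ℂ} (hf : IntegrableOn f A)
    (hk : Measurable k) (M : ℝ) (hM : ∀ s ∈ A, ‖k s‖ ≤ M) :
    IntegrableOn (fun s => k s * f s) A := by
  refine Integrable.mono' (hf.norm.const_mul M) (hk.aestronglyMeasurable.mul hf.1) ?_
  rw [ae_restrict_iff' hA]
  refine Filter.Eventually.of_forall fun s hs => ?_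
  rw [norm_mul]
  exact mul_le_mul_of_nonneg_right (hM s hs) (norm_nonneg _)

/-! ### the extended density -/

/-- the small disc -/
def A1 : Set ℂ := {s : ℂ | ‖s‖ ≤ 1 / 2}

/-- the ring inside -/
def A2 : Set ℂ := {s : ℂ | 1 / 2 < ‖s‖ ∧ ‖s‖ ≤ 1}

/-- the ring outside -/
def An : Set ℂ := {w : ℂ | 1 ≤ ‖w‖ ∧ ‖w‖ < 2}

theorem mA1 : MeasurableSet A1 := measurableSet_le measurable_norm measurable_const

theorem mA2 : MeasurableSet A2 :=
  (measurableSet_lt measurable_const measurable_norm).inter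
    (measurableSet_le measurable_norm measurable_const)

theorem mAn : MeasurableSet An :=
  (measurableSet_le measurable_const measurable_norm).inter
    (measurableSet_lt measurable_norm measurable_const)

theorem DD_union : DD = A1 ∪ A2 := by
  ext s
  rw [mem_DD]
  constructor
  · intro h
    rcases le_or_gt ‖s‖ (1 / 2) with h3 | h3
    · exact Or.inl h3
    · exact Or.inr ⟨h3, h⟩
  · rintro (h | h)
    · exact le_trans h (by norm_num)
    · exact h.2

theorem disj : Disjoint A1 A2 := by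
  rw [Set.disjoint_left]
  intro s h1 h2
  exact absurd h1 (not_le.2 h2.1)

/-- the density outside the unit disc -/
noncomputable def E2 (σ : ℂ) (a b : ℕ) (g : Bool → ℂ → ℂ) (j : Bool) (w : ℂ) : ℂ :=
  -(σ * w ^ (1 + a) * (w⁻¹) ^ b * (((‖w‖ ^ 4)⁻¹ : ℝ) : ℂ) * g (!j) w⁻¹)

/-- the density, cut off at radius two -/
noncomputable def EE (σ : ℂ) (a b : ℕ) (g : Bool → ℂ → ℂ) (j : Bool) (w : ℂ) : ℂ :=
  if ‖w‖ < 2 then ext σ a b g j w else 0

theorem mE2 (hm : ∀ j, Measurable (g j)) (σ : ℂ) (a b : ℕ) (j : Bool) :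
    Measurable (E2 σ a b g j) := by
  unfold E2
  have h1 : Measurable (fun w : ℂ => g (!j) w⁻¹) := (hm (!j)).comp measurable_inv
  have h2 : Measurable (fun w : ℂ => (((‖w‖ ^ 4)⁻¹ : ℝ) : ℂ)) :=
    Complex.measurable_ofReal.comp (measurable_norm.pow_const 4).inv
  have h3 : Measurable (fun w : ℂ => (w⁻¹) ^ b) := measurable_inv.pow_const b
  have h4 : Measurable (fun w : ℂ => σ * w ^ (1 + a)) :=
    (measurable_id.pow_const (1 + a)).const_mul σ
  exact (((h4.mul h3).mul h2).mul h1).neg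

theorem mext (hm : ∀ j, Measurable (g j)) (σ : ℂ) (a b : ℕ) (j : Bool) :
    Measurable (ext σ a b g j) := by
  unfold ext
  exact Measurable.ite (measurableSet_le measurable_norm measurable_const) (hm j) (mE2 hm σ a b j)

theorem mEE (hm : ∀ j, Measurable (g j)) (σ : ℂ) (a b : ℕ) (j : Bool) :
    Measurable (EE σ a b g j) := by
  unfold EE
  exact Measurable.ite (measurableSet_lt measurable_norm measurable_const) (mext hm σ a b j)
    measurable_const

theorem ee_split (σ : ℂ) (a b : ℕ) (j : Bool) (k : ℂ → ℂ)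
    (h : IntegrableOn (fun w => g j w * k w) DD)
    (h' : IntegrableOn (fun w => E2 σ a b g j w * k w) An) :
    Integrable (fun w => EE σ a b g j w * k w) ∧
      ∫ w, EE σ a b g j w * k w =
        (∫ w in DD, g j w * k w) + ∫ w in An, E2 σ a b g j w * k w := by
  have h1 : (fun w => EE σ a b g j w * k w) =ᵐ[volume]
      fun w => DD.indicator (fun w => g j w * k w) w +
        An.indicator (fun w => E2 σ a b g j w * k w) w := by
    filter_upwards [ae_one] with w hw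
    rcases lt_or_gt_of_ne hw with h2 | h2
    · have h3 : w ∈ DD := mem_DD.2 h2.le
      have h4 : w ∉ An := fun h => absurd h.1 (not_le.2 h2)
      rw [indicator_of_mem h3, indicator_of_notMem h4, add_zero]
      have h5 : EE σ a b g j w = g j w := by
        unfold EE ext
        rw [if_pos (by linarith), if_pos h2.le]
      rw [h5]
    · have h3 : w ∉ DD := fun h => absurd (mem_DD.1 h) (not_le.2 h2)
      rw [indicator_of_notMem h3, zero_add]
      rcases lt_or_ge ‖w‖ 2 with h4 | h4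
      · have h5 : w ∈ An := ⟨h2.le, h4⟩
        rw [indicator_of_mem h5]
        have h6 : EE σ a b g j w = E2 σ a b g j w := by
          unfold EE ext E2
          rw [if_pos h4, if_neg (not_le.2 h2)]
        rw [h6]
      · have h5 : w ∉ An := fun h => absurd h.2 (not_lt.2 h4)
        rw [indicator_of_notMem h5]
        have h6 : EE σ a b g j w = 0 := by
          unfold EE
          rw [if_neg (not_lt.2 h4)]
        rw [h6, zero_mul]
  have h2 := (integrable_indicator_iff mDD).2 h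
  have h3 := (integrable_indicator_iff mAn).2 h'
  constructor
  · exact (h2.add h3).congr h1.symm
  · rw [integral_congr_ae h1, integral_add h2 h3, integral_indicator mDD, integral_indicator mAn]

/-- the kernels under the inversion -/
theorem ker_eq (σ : ℂ) (a b : ℕ) (x n : ℂ) {v w : ℂ} (hw : w ≠ 0) (hv : w ≠ v) :
    σ * v ^ a * (w⁻¹) ^ b * x / (1 - v * w⁻¹) * n =
      -(σ * w ^ (1 + a) * (w⁻¹) ^ b * n * x) * (v - w)⁻¹ +
        ∑ i ∈ Finset.range a, v ^ i * (-(σ * w ^ (a - 1 - i) * w * (w⁻¹) ^ b) * (x * n)) := by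
  have h1 : v - w ≠ 0 := sub_ne_zero.2 (Ne.symm hv)
  have h2 : 1 - v * w⁻¹ = -((v - w) * w⁻¹) := by
    rw [sub_mul, mul_inv_cancel₀ hw]
    ring
  have h3 : (1 - v * w⁻¹)⁻¹ = -(w * (v - w)⁻¹) := by
    rw [h2, inv_neg, mul_inv, inv_inv, mul_comm]
  have h4 := (Commute.all v w).geom_sum₂_mul a
  have h5 : v ^ a * (v - w)⁻¹ = w ^ a * (v - w)⁻¹ +
      ∑ i ∈ Finset.range a, v ^ i * w ^ (a - 1 - i) := by
    have h6 : v ^ a = w ^ a + (∑ i ∈ Finset.range a, v ^ i * w ^ (a - 1 - i)) * (v - w) := by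
      rw [h4]
      ring
    rw [h6, add_mul, mul_assoc, mul_inv_cancel₀ h1, mul_one]
  have h7 : (∑ i ∈ Finset.range a, v ^ i * (-(σ * w ^ (a - 1 - i) * w * (w⁻¹) ^ b) * (x * n))) =
      (∑ i ∈ Finset.range a, v ^ i * w ^ (a - 1 - i)) * (-(σ * w * (w⁻¹) ^ b) * (x * n)) := by
    rw [Finset.sum_mul]
    refine Finset.sum_congr rfl fun i _ => ?_
    ring
  rw [h7, div_eq_mul_inv, h3]
  have h8 : ∀ S : ℂ, v ^ a * (v - w)⁻¹ = w ^ a * (v - w)⁻¹ + S →
      σ * v ^ a * (w⁻¹) ^ b * x * -(w * (v - w)⁻¹) * n =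
      -(σ * w ^ (1 + a) * (w⁻¹) ^ b * n * x) * (v - w)⁻¹ +
        S * (-(σ * w * (w⁻¹) ^ b) * (x * n)) := by
    intro S hS
    have h9 : σ * v ^ a * (w⁻¹) ^ b * x * -(w * (v - w)⁻¹) * n =
      -(σ * (w⁻¹) ^ b * x * w * n) * (v ^ a * (v - w)⁻¹) := by ring
    rw [h9, hS]
    ring
  exact h8 _ h5

theorem A1_sub : A1 ⊆ DD := by
  rw [DD_union]
  exact subset_union_left

theorem A2_sub : A2 ⊆ DD := by
  rw [DD_union]
  exact subset_union_right

theorem bdk (k : ℕ) {w : ℂ} (hw : w ∈ An) : ‖w ^ k‖ ≤ 2 ^ k := by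
  rw [norm_pow]
  exact pow_le_pow_left₀ (norm_nonneg _) hw.2.le k

theorem bdi (k : ℕ) {w : ℂ} (hw : w ∈ An) : ‖(w⁻¹) ^ k‖ ≤ 1 := by
  rw [norm_pow, norm_inv]
  exact pow_le_one₀ (by positivity) (inv_le_one_of_one_le₀ hw.1)

/-- the functions whose integrals are the coefficients of the polynomial -/
noncomputable def Gi (σ : ℂ) (a b : ℕ) (g : Bool → ℂ → ℂ) (j : Bool) (i : ℕ) (w : ℂ) : ℂ :=
  -(σ * w ^ (a - 1 - i) * w * (w⁻¹) ^ b) * (g (!j) w⁻¹ * (((‖w‖ ^ 4)⁻¹ : ℝ) : ℂ))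

theorem int_gn (h1 : S_INV) (h2 : S_KER) (hm : ∀ j, Measurable (g j)) (hc : 0 ≤ c)
    (hD : Dom ww c g) (j : Bool) :
    IntegrableOn (fun w => g (!j) w⁻¹ * (((‖w‖ ^ 4)⁻¹ : ℝ) : ℂ)) An :=
  (h1.1 (g (!j)) ((int_g h2 hm hc hD (!j)).mono_set A2_sub)).1

theorem int_Gi (h1 : S_INV) (h2 : S_KER) (hm : ∀ j, Measurable (g j)) (hc : 0 ≤ c)
    (hD : Dom ww c g) (σ : ℂ) (a b : ℕ) (j : Bool) (i : ℕ) :
    IntegrableOn (Gi σ a b g j i) An := by
  have hk : Measurable (fun w : ℂ => -(σ * w ^ (a - 1 - i) * w * (w⁻¹) ^ b)) :=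
    ((((measurable_id.pow_const (a - 1 - i)).const_mul σ).mul measurable_id).mul
      (measurable_inv.pow_const b)).neg
  refine int_mul mAn (int_gn h1 h2 hm hc hD j) hk (‖σ‖ * 2 ^ (a - 1 - i) * 2 * 1) fun w hw => ?_
  rw [norm_neg, norm_mul, norm_mul, norm_mul]
  have h3 := bdk (a - 1 - i) hw
  have h4 := bdi b hw
  have h5 := hw.2.le
  gcongr

theorem int_E2 (h1 : S_INV) (h2 : S_KER) (hm : ∀ j, Measurable (g j)) (hc : 0 ≤ c)
    (hD : Dom ww c g) (σ : ℂ) (a b : ℕ) (j : Bool) :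
    IntegrableOn (E2 σ a b g j) An := by
  have hk : Measurable (fun w : ℂ => -(σ * w ^ (1 + a) * (w⁻¹) ^ b)) :=
    (((measurable_id.pow_const (1 + a)).const_mul σ).mul (measurable_inv.pow_const b)).neg
  have h := int_mul mAn (int_gn h1 h2 hm hc hD j) hk (‖σ‖ * 2 ^ (1 + a) * 1) fun w hw => by
    rw [norm_neg, norm_mul, norm_mul]
    have h3 := bdk (1 + a) hw
    have h4 := bdi b hw
    gcongr
  refine h.congr (Filter.Eventually.of_forall fun w => ?_)
  show -(σ * w ^ (1 + a) * (w⁻¹) ^ b) * (g (!j) w⁻¹ * (((‖w‖ ^ 4)⁻¹ : ℝ) : ℂ)) = E2 σ a b g j w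
  unfold E2
  ring

/-- the second integral of the operator, after the inversion -/
theorem second (h1 : S_INV) (h2 : S_KER) (hm : ∀ j, Measurable (g j)) (hc : 0 ≤ c)
    (hD : Dom ww c g) (σ : ℂ) (a b : ℕ) (j : Bool) {v : ℂ} (hv' : v ^ 16 + 1 ≠ 0) :
    IntegrableOn (fun w => E2 σ a b g j w * (v - w)⁻¹) An ∧
    ∫ s in DD, σ * v ^ a * s ^ b * g (!j) s / (1 - v * s) =
      σ * v ^ a * (∫ s in A1, (s ^ b * g (!j) s) / (1 - v * s)) +
      ((∫ w in An, E2 σ a b g j w * (v - w)⁻¹) +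
        ∑ i ∈ Finset.range a, v ^ i * ∫ w in An, Gi σ a b g j i w) := by
  have hF0 : IntegrableOn (fun s => (σ * v ^ a * s ^ b) * (g (!j) s / (1 - v * s))) DD := by
    have hk : Measurable (fun s : ℂ => σ * v ^ a * s ^ b) :=
      (measurable_id.pow_const b).const_mul (σ * v ^ a)
    refine int_mul mDD (int_gw h2 hm hc hD (!j) hv') hk (‖σ * v ^ a‖ * 1) fun s hs => ?_
    rw [norm_mul, norm_pow]
    have h3 : ‖s‖ ^ b ≤ 1 := pow_le_one₀ (norm_nonneg _) (mem_DD.1 hs)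
    gcongr
  have hF : IntegrableOn (fun s => σ * v ^ a * s ^ b * g (!j) s / (1 - v * s)) DD := by
    refine hF0.congr (Filter.Eventually.of_forall fun s => ?_)
    exact (mul_div_assoc _ _ _).symm
  obtain ⟨i1, i2⟩ := h1.1 _ (hF.mono_set A2_sub)
  have hG : ∀ i ∈ Finset.range a, IntegrableOn (fun w => v ^ i * Gi σ a b g j i w) An :=
    fun i _ => (int_Gi h1 h2 hm hc hD σ a b j i).const_mul (v ^ i)
  have hS := integrable_finsetSum (Finset.range a) hG
  have hae : (fun w => σ * v ^ a * (w⁻¹) ^ b * g (!j) w⁻¹ / (1 - v * w⁻¹) *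
        (((‖w‖ ^ 4)⁻¹ : ℝ) : ℂ)) =ᵐ[volume.restrict An]
      fun w => E2 σ a b g j w * (v - w)⁻¹ + ∑ i ∈ Finset.range a, v ^ i * Gi σ a b g j i w := by
    rw [Filter.EventuallyEq, ae_restrict_iff' mAn]
    filter_upwards [ae_ne v] with w hw hwA
    have h3 : w ≠ 0 := by
      rintro rfl
      have h4 := hwA.1
      rw [norm_zero] at h4
      norm_num at h4
    exact ker_eq σ a b (g (!j) w⁻¹) _ h3 hw
  have hE : IntegrableOn (fun w => E2 σ a b g j w * (v - w)⁻¹) An := by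
    have h4 := (i1.sub hS)
    refine h4.congr ?_
    filter_upwards [hae] with w hw
    rw [Pi.sub_apply, hw]
    ring
  refine ⟨hE, ?_⟩
  have h5 : ∫ s in DD, σ * v ^ a * s ^ b * g (!j) s / (1 - v * s) =
      (∫ s in A1, σ * v ^ a * s ^ b * g (!j) s / (1 - v * s)) +
      ∫ s in A2, σ * v ^ a * s ^ b * g (!j) s / (1 - v * s) := by
    rw [DD_union]
    exact setIntegral_union disj mA2 (hF.mono_set A1_sub) (hF.mono_set A2_sub)
  have h6 : ∫ s in A1, σ * v ^ a * s ^ b * g (!j) s / (1 - v * s) =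
      σ * v ^ a * (∫ s in A1, (s ^ b * g (!j) s) / (1 - v * s)) := by
    rw [← integral_const_mul]
    refine integral_congr_ae (Filter.Eventually.of_forall fun s => ?_)
    show σ * v ^ a * s ^ b * g (!j) s / (1 - v * s) =
      σ * v ^ a * ((s ^ b * g (!j) s) / (1 - v * s))
    rw [mul_assoc (σ * v ^ a), mul_div_assoc]
  rw [h5, h6]
  congr 1
  refine i2.trans ?_
  refine (integral_congr_ae hae).trans ?_
  rw [integral_add hE hS, integral_finsetSum _ hG]
  congr 1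
  refine Finset.sum_congr rfl fun i _ => ?_
  exact integral_const_mul _ _

/-- **the representation** -/
theorem rep (h1 : S_INV) (h2 : S_KER) (hm : ∀ j, Measurable (g j)) (hc : 0 ≤ c)
    (hD : Dom ww c g) (σ : ℂ) (a b : ℕ) (j : Bool) :
    Integrable (EE σ a b g j) ∧
    (∀ v : ℂ, ‖v‖ < 2 → v ^ 16 + 1 ≠ 0 →
      Integrable (fun w => EE σ a b g j w / (v - w))) ∧
    ∃ h : ℂ → ℂ, DifferentiableOn ℂ h (Metric.ball 0 2) ∧
      ∀ v : ℂ, ‖v‖ < 2 → v ^ 16 + 1 ≠ 0 → CK σ a b g j v = Ct (EE σ a b g j) v + h v := by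
  have hint : ∀ v : ℂ, ‖v‖ < 2 → v ^ 16 + 1 ≠ 0 →
      IntegrableOn (fun w => g j w * (v - w)⁻¹) DD := by
    intro v hv hv'
    refine (int_gv h2 hm hD j hv.le hv').congr (Filter.Eventually.of_forall fun w => ?_)
    exact div_eq_mul_inv _ _
  refine ⟨?_, ?_, ?_⟩
  · have h3 := (ee_split σ a b j (fun _ => 1) (g := g) ?_ ?_).1
    · exact h3.congr (Filter.Eventually.of_forall fun w => mul_one _)
    · exact (int_g h2 hm hc hD j).congr
        (Filter.Eventually.of_forall fun w => (mul_one (g j w)).symm)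
    · exact (int_E2 h1 h2 hm hc hD σ a b j).congr
        (Filter.Eventually.of_forall fun w => (mul_one (E2 σ a b g j w)).symm)
  · intro v hv hv'
    refine ((ee_split σ a b j (fun w => (v - w)⁻¹) (hint v hv hv')
      (second h1 h2 hm hc hD σ a b j hv').1).1).congr (Filter.Eventually.of_forall fun w => ?_)
    exact (div_eq_mul_inv _ _).symm
  · refine ⟨fun v => ((1 / Real.pi : ℝ) : ℂ) *
      (σ * v ^ a * (∫ s in A1, (s ^ b * g (!j) s) / (1 - v * s)) +
        ∑ i ∈ Finset.range a, v ^ i * ∫ w in An, Gi σ a b g j i w), ?_, ?_⟩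
    · have h3 : IntegrableOn (fun s => s ^ b * g (!j) s) A1 := by
        refine int_mul mA1 ((int_g h2 hm hc hD (!j)).mono_set A1_sub)
          (measurable_id.pow_const b) 1 fun s hs => ?_
        show ‖s ^ b‖ ≤ 1
        rw [norm_pow]
        exact pow_le_one₀ (norm_nonneg _) (mem_DD.1 (A1_sub hs))
      have h4 := h1.2.2.1 _ h3
      refine DifferentiableOn.const_mul ?_ _
      refine DifferentiableOn.add ?_ ?_
      · exact ((differentiableOn_pow a).const_mul σ).mul h4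
      · refine DifferentiableOn.fun_sum fun i _ => ?_
        exact (differentiableOn_pow i).mul_const _
    · intro v hv hv'
      have h3 := second h1 h2 hm hc hD σ a b j hv'
      have h4 := (ee_split σ a b j (fun w => (v - w)⁻¹) (hint v hv hv') h3.1).2
      unfold CK Ct
      rw [h3.2]
      have h5 : ∫ w, EE σ a b g j w / (v - w) = ∫ w, EE σ a b g j w * (v - w)⁻¹ :=
        integral_congr_ae (Filter.Eventually.of_forall fun w => div_eq_mul_inv _ _)
      have h6 : ∫ w in DD, g j w / (v - w) = ∫ w in DD, g j w * (v - w)⁻¹ :=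
        integral_congr_ae (Filter.Eventually.of_forall fun w => div_eq_mul_inv _ _)
      rw [h5, h6, h4]
      ring

theorem ww_le {e : ℝ} (he : 0 < e) {s : ℂ} (h : e ≤ sx s) : ww s ≤ e ^ (-(3 / 2) : ℝ) :=
  Real.antitoneOn_rpow_Ioi_of_exponent_nonpos (by norm_num) he (lt_of_lt_of_le he h) h

theorem sx_inv {w : ℂ} (h1 : w ≠ 0) (h2 : ‖w‖ < 2) : sx w ≤ 2 ^ 16 * sx w⁻¹ := by
  have h3 : w ^ 16 + 1 = w ^ 16 * (w⁻¹ ^ 16 + 1) := by
    rw [mul_add, mul_one, ← mul_pow, mul_inv_cancel₀ h1, one_pow, add_comm]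
  unfold sx
  rw [h3, norm_mul, norm_pow]
  have h4 : ‖w‖ ^ 16 ≤ 2 ^ 16 := pow_le_pow_left₀ (norm_nonneg _) h2.le 16
  gcongr

/-- the local bound of the density -/
theorem locb (hc : 0 ≤ c) (hD : Dom ww c g) (σ : ℂ) (a b : ℕ) (j : Bool) {v0 : ℂ}
    (hv : ‖v0‖ < 2) (hv' : v0 ^ 16 + 1 ≠ 0) :
    ∃ δ M : ℝ, 0 < δ ∧ 0 ≤ M ∧ ∀ w ∈ Metric.ball v0 δ, ‖w‖ < 2 ∧ w ^ 16 + 1 ≠ 0 ∧
      ‖EE σ a b g j w‖ ≤ M := by
  have hs0 : 0 < sx v0 := norm_pos_iff.2 hv'
  have hcs : Continuous sx := by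
    unfold sx
    fun_prop
  have ho : IsOpen {w : ℂ | ‖w‖ < 2 ∧ sx v0 / 2 < sx w} :=
    (isOpen_lt continuous_norm continuous_const).inter (isOpen_lt continuous_const hcs)
  obtain ⟨δ, hδ, hsub⟩ := Metric.isOpen_iff.1 ho v0 ⟨hv, by linarith⟩
  have he : 0 < sx v0 / 2 / 2 ^ 16 := by positivity
  obtain ⟨N, hN⟩ : ∃ N : ℝ, N = (sx v0 / 2 / 2 ^ 16) ^ (-(3 / 2) : ℝ) := ⟨_, rfl⟩
  have hN0 : 0 ≤ N := by
    rw [hN]
    positivity
  refine ⟨δ, c * N + ‖σ‖ * 2 ^ (1 + a) * 1 * 1 * (c * N), hδ, by positivity, fun w hw => ?_⟩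
  obtain ⟨hw1, hw2⟩ := hsub hw
  have hw3 : w ^ 16 + 1 ≠ 0 := by
    intro h
    have h4 : sx w = 0 := by
      unfold sx
      rw [h, norm_zero]
    linarith
  refine ⟨hw1, hw3, ?_⟩
  unfold EE
  rw [if_pos hw1]
  unfold ext
  rcases le_or_gt ‖w‖ 1 with h4 | h4
  · rw [if_pos h4]
    have h5 : sx v0 / 2 / 2 ^ 16 ≤ sx w := by
      have h6 : sx v0 / 2 / 2 ^ 16 ≤ sx v0 / 2 := div_le_self (by linarith) (by norm_num)
      linarith
    have h6 := ww_le he h5
    rw [← hN] at h6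
    have h7 : ‖g j w‖ ≤ c * N :=
      (hD j w (mem_DD.2 h4) hw3).trans (mul_le_mul_of_nonneg_left h6 hc)
    have h8 : 0 ≤ ‖σ‖ * 2 ^ (1 + a) * 1 * 1 * (c * N) := by positivity
    linarith
  · rw [if_neg (not_le.2 h4)]
    have hw0 : w ≠ 0 := by
      rintro rfl
      rw [norm_zero] at h4
      linarith
    have hwA : w ∈ An := ⟨h4.le, hw1⟩
    have h5 : sx v0 / 2 / 2 ^ 16 ≤ sx w⁻¹ := by
      rw [div_le_iff₀ (by norm_num)]
      have h6 := sx_inv hw0 hw1
      linarith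
    have h6 := ww_le he h5
    rw [← hN] at h6
    have h6' : w⁻¹ ∈ DD := by
      rw [mem_DD, norm_inv]
      exact inv_le_one_of_one_le₀ h4.le
    have h7 : ‖g (!j) w⁻¹‖ ≤ c * N :=
      (hD (!j) w⁻¹ h6' (inv16 hw0 hw3)).trans (mul_le_mul_of_nonneg_left h6 hc)
    have h8 : ‖-(σ * w ^ (1 + a) * (w⁻¹) ^ b * (((‖w‖ ^ 4)⁻¹ : ℝ) : ℂ) * g (!j) w⁻¹)‖ ≤
        ‖σ‖ * 2 ^ (1 + a) * 1 * 1 * (c * N) := by
      rw [norm_neg, norm_mul, norm_mul, norm_mul, norm_mul]
      have e1 := bdk (1 + a) hwA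
      have e2 := bdi b hwA
      have e3 : ‖(((‖w‖ ^ 4)⁻¹ : ℝ) : ℂ)‖ ≤ 1 := by
        rw [Complex.norm_real, Real.norm_eq_abs, abs_of_nonneg (by positivity)]
        exact inv_le_one_of_one_le₀ (one_le_pow₀ h4.le)
      gcongr
    have h9 : 0 ≤ c * N := by positivity
    linarith

/-- the local decomposition -/
theorem locd (h1 : S_INV) (h2 : S_KER) (hm : ∀ j, Measurable (g j)) (hc : 0 ≤ c)
    (hD : Dom ww c g) (σ : ℂ) (a b : ℕ) (j : Bool) {v0 : ℂ}
    (hv : ‖v0‖ < 2) (hv' : v0 ^ 16 + 1 ≠ 0) :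
    ∃ (δ : ℝ) (f H : ℂ → ℂ), 0 < δ ∧ DifferentiableOn ℂ H (Metric.ball v0 δ) ∧
      (∀ w ∈ Metric.ball v0 δ, f w = ext σ a b g j w) ∧ Measurable f ∧
      (∀ z, Integrable (fun w => f w / (z - w))) ∧
      (∃ C : ℝ, ∀ z z', ‖Ct f z - Ct f z'‖ ≤ C * ‖z - z'‖ ^ (1 / 2 : ℝ)) ∧
      ∀ v ∈ Metric.ball v0 δ, CK σ a b g j v = Ct f v + H v := by
  obtain ⟨δ, M, hδ, hM, hb⟩ := locb hc hD σ a b j hv hv'
  obtain ⟨r1, r2, h, r3, r4⟩ := rep h1 h2 hm hc hD σ a b j
  have hmb : MeasurableSet (Metric.ball v0 δ) := Metric.isOpen_ball.measurableSet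
  obtain ⟨f, hf⟩ : ∃ f : ℂ → ℂ, f = (Metric.ball v0 δ).indicator (EE σ a b g j) := ⟨_, rfl⟩
  obtain ⟨f', hf'⟩ : ∃ f' : ℂ → ℂ, f' = (Metric.ball v0 δ)ᶜ.indicator (EE σ a b g j) := ⟨_, rfl⟩
  have hff : ∀ w, EE σ a b g j w = f w + f' w := by
    intro w
    rw [hf, hf']
    exact (congrFun (indicator_self_add_compl (Metric.ball v0 δ) (EE σ a b g j)) w).symm
  have hfm : Measurable f := by
    rw [hf]
    exact (mEE hm σ a b j).indicator hmb
  have hfb : ∀ w, ‖f w‖ ≤ M := by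
    intro w
    rw [hf]
    by_cases hw : w ∈ Metric.ball v0 δ
    · rw [indicator_of_mem hw]
      exact (hb w hw).2.2
    · rw [indicator_of_notMem hw, norm_zero]
      exact hM
  have hf0 : ∀ w, (2 : ℝ) < ‖w‖ → f w = 0 := by
    intro w hw
    rw [hf]
    refine indicator_of_notMem (fun hw' => ?_) _
    exact absurd (hb w hw').1 (not_lt.2 hw.le)
  obtain ⟨C, hC⟩ := All.hCH 2 M
  obtain ⟨hC1, hC2⟩ := hC f hfm hfb hf0
  have hf'i : Integrable f' := by
    rw [hf']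
    exact r1.indicator hmb.compl
  have hf'0 : ∀ w ∈ Metric.ball v0 δ, f' w = 0 := by
    intro w hw
    rw [hf']
    exact indicator_of_notMem (not_not.2 hw) _
  have h5 := h1.2.1 f' v0 δ hf'i hf'0
  have hsub : Metric.ball v0 δ ⊆ Metric.ball 0 2 := by
    intro w hw
    rw [mem_ball_zero_iff]
    exact (hb w hw).1
  refine ⟨δ, f, fun v => Ct f' v + h v, hδ, h5.add (r3.mono hsub), ?_, hfm, hC1, ⟨C, hC2⟩, ?_⟩
  · intro w hw
    rw [hf, indicator_of_mem hw]
    unfold EE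
    rw [if_pos (hb w hw).1]
  · intro v hv
    obtain ⟨b1, b2, -⟩ := hb v hv
    rw [r4 v b1 b2, ← add_assoc]
    congr 1
    have h6 : (fun w => EE σ a b g j w / (v - w)) = fun w => f w / (v - w) + f' w / (v - w) := by
      funext w
      rw [hff w, add_div]
    have h7 : Integrable (fun w => f' w / (v - w)) := by
      refine ((r2 v b1 b2).sub (hC1 v)).congr (Filter.Eventually.of_forall fun w => ?_)
      rw [Pi.sub_apply, congrFun h6 w]
      ring
    unfold Ct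
    rw [h6, integral_add (hC1 v) h7, mul_add]

theorem dzb_hol {H : ℂ → ℂ} {z : ℂ} (h : DifferentiableAt ℂ H z) : dzb H z = 0 := by
  unfold dzb
  have h1 : fderiv ℝ H z = (fderiv ℂ H z).restrictScalars ℝ :=
    (h.hasFDerivAt.restrictScalars ℝ).fderiv
  rw [h1]
  show ((fderiv ℂ H z) 1 + Complex.I * (fderiv ℂ H z) Complex.I) / 2 = 0
  have h2 : (fderiv ℂ H z) Complex.I = Complex.I * (fderiv ℂ H z) 1 := by
    have h3 := (fderiv ℂ H z).map_smul Complex.I 1
    rw [smul_eq_mul, smul_eq_mul, mul_one] at h3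
    exact h3
  rw [h2, ← mul_assoc, Complex.I_mul_I]
  ring

end

end LOCL

/-- **LOC** -/
theorem t_LOC (h1 : S_INV) (h2 : S_KER) : S_LOC := by
  intro σ a b g c hm hc hD j v0 hv hv'
  obtain ⟨δ, f, H, hδ, hH, hfe, hfm, hfi, ⟨C, hC⟩, hrep⟩ :=
    LOCL.locd h1 h2 hm hc hD σ a b j hv hv'
  have hnb : Metric.ball v0 δ ∈ 𝓝 v0 := Metric.ball_mem_nhds v0 hδ
  have hHa : AnalyticAt ℂ H v0 := hH.analyticAt hnb
  have hHc : ContDiffAt ℂ 1 H v0 := hHa.contDiffAt
  constructor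
  · obtain ⟨K, t, ht, hK⟩ := hHc.exists_lipschitzOnWith
    obtain ⟨r, hr, hrs⟩ := Metric.mem_nhds_iff.1 (Filter.inter_mem hnb ht)
    refine ⟨min r (1 / 2), C + K, lt_min hr (by norm_num), fun w hw w' hw' => ?_⟩
    have h3 := hrs (Metric.ball_subset_ball (min_le_left _ _) hw)
    have h3' := hrs (Metric.ball_subset_ball (min_le_left _ _) hw')
    have h4 := Metric.ball_subset_ball (min_le_right r (1 / 2 : ℝ)) hw
    have h4' := Metric.ball_subset_ball (min_le_right r (1 / 2 : ℝ)) hw'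
    rw [hrep w h3.1, hrep w' h3'.1]
    have h5 : ‖w - w'‖ ≤ 1 := by
      rw [← dist_eq_norm]
      have h6 := dist_triangle_right w w' v0
      rw [Metric.mem_ball] at h4 h4'
      linarith
    have h6 : ‖w - w'‖ ≤ ‖w - w'‖ ^ (1 / 2 : ℝ) := by
      rcases eq_or_lt_of_le (norm_nonneg (w - w')) with h7 | h7
      · rw [← h7]
        exact Real.rpow_nonneg le_rfl _
      · have h8 := Real.rpow_le_rpow_of_exponent_ge h7 h5 (by norm_num : (1 / 2 : ℝ) ≤ 1)
        rwa [Real.rpow_one] at h8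
    have h7 : ‖H w - H w'‖ ≤ K * ‖w - w'‖ := by
      have h8 := hK.dist_le_mul w h3.2 w' h3'.2
      rwa [dist_eq_norm, dist_eq_norm] at h8
    have h8 : Ct f w + H w - (Ct f w' + H w') = (Ct f w - Ct f w') + (H w - H w') := by ring
    rw [h8, add_mul]
    refine (norm_add_le _ _).trans (add_le_add (hC w w') (h7.trans ?_))
    exact mul_le_mul_of_nonneg_left h6 K.2
  · intro r θ L hr hθ hθ' hL
    have hr' : 0 < min r δ := lt_min hr hδ
    have h3 : ∀ w ∈ Metric.ball v0 (min r δ), ∀ w' ∈ Metric.ball v0 (min r δ),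
        ‖f w - f w'‖ ≤ L * ‖w - w'‖ ^ θ := by
      intro w hw w' hw'
      rw [hfe w (Metric.ball_subset_ball (min_le_right _ _) hw),
        hfe w' (Metric.ball_subset_ball (min_le_right _ _) hw')]
      exact hL w (Metric.ball_subset_ball (min_le_left _ _) hw) w'
        (Metric.ball_subset_ball (min_le_left _ _) hw')
    obtain ⟨h4, -⟩ := All.hLH f hfm hfi v0 (min r δ) θ L hr' hθ hθ' h3
    obtain ⟨h5, h6⟩ := h4 v0 (Metric.mem_ball_self hr')
    have h7 : CK σ a b g j =ᶠ[𝓝 v0] fun v => Ct f v + H v :=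
      Filter.eventually_of_mem hnb hrep
    have h8 : ContDiffAt ℝ 1 H v0 := hHc.restrict_scalars ℝ
    refine ⟨(h5.add h8).congr_of_eventuallyEq h7, ?_⟩
    have h9 : dzb (CK σ a b g j) v0 = dzb (Ct f) v0 + dzb H v0 := by
      unfold dzb
      rw [h7.fderiv_eq]
      have e1 : fderiv ℝ (fun v => Ct f v + H v) v0 = fderiv ℝ (Ct f) v0 + fderiv ℝ H v0 :=
        fderiv_fun_add (h5.differentiableAt one_ne_zero) (h8.differentiableAt one_ne_zero)
      rw [e1]
      simp only [_root_.add_apply]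
      ring
    rw [h9, h6, LOCL.dzb_hol (hHc.differentiableAt one_ne_zero), add_zero]
    exact hfe v0 (Metric.mem_ball_self hδ)

end Pool.Agent.H794.EX
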