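import Pool.Agent.H794.EX.Spec

/-!
# Leaf OKE (by helper658): the conditions for the data of the direct sum
-/

set_option autoImplicit false

open scoped Manifold ContDiff Matrix ComplexOrder
open Matrix Topology MeasureTheory Set Filter

namespace Pool.Agent.H794.EX

open Pool.Agent.Helper614.HE Pool.Agent.H794

namespace OKEL

theorem Qe_diff (r c : ℝ) (j : Bool) : Differentiable ℂ (Qe r c j) := blk_diff r c j 0 1

theorem Pe_diff (r c : ℝ) (j : Bool) : Differentiable ℂ (Pe r c j) := blk_diff r c j 1 0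

theorem Qe_rel (r c : ℝ) (j : Bool) {v : ℂ} (hv : v ≠ 0) :
    Qe r c j v = -(v ^ 10) * Qe r c (!j) v⁻¹ := by
  have h := congrFun (congrFun (blk_rel r c j hv) 0) 1
  simpa [Qe] using h

theorem Pe_rel (r c : ℝ) (j : Bool) {v : ℂ} (hv : v ≠ 0) :
    Pe r c j v = -(v ^ 10) * Pe r c (!j) v⁻¹ := by
  have h := congrFun (congrFun (blk_rel r c j hv) 1) 0
  simpa [Pe] using h

theorem Pe_false (r c : ℝ) (v : ℂ) : Pe r c false v = 1 := by
  simp [Pe, blk]

theorem Qe_zero (r c : ℝ) : Qe r c false 0 = -(c : ℂ) := by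
  simp [Qe, blk]

theorem nsq_rel {f : Bool → ℂ → ℂ} (hf : ∀ j (v : ℂ), v ≠ 0 → f j v = -(v ^ 10) * f (!j) v⁻¹)
    (j : Bool) (v : ℂ) (hv : v ≠ 0) : ‖f j v‖ ^ 2 = ‖v‖ ^ 20 * ‖f (!j) v⁻¹‖ ^ 2 := by
  rw [hf j v hv, norm_mul, norm_neg, norm_pow, mul_pow, ← pow_mul]

theorem one_rel (v : ℂ) (hv : v ≠ 0) :
    (1 + ‖v‖ ^ 2) ^ 10 = ‖v‖ ^ 20 * (1 + ‖v⁻¹‖ ^ 2) ^ 10 := by
  have h1 : ‖v‖ ≠ 0 := norm_ne_zero_iff.2 hv
  have h2 : (1 + ‖v‖ ^ 2) = ‖v‖ ^ 2 * (1 + ‖v⁻¹‖ ^ 2) := by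
    rw [norm_inv]
    field_simp
    ring
  rw [h2, mul_pow, ← pow_mul]

theorem contDiff_of_diff {f : ℂ → ℂ} (hf : Differentiable ℂ f) : ContDiff ℝ ∞ f :=
  (hf.contDiff (n := ∞)).restrict_scalars ℝ

theorem contDiffOn_comp {E : Type} [NormedAddCommGroup E] [NormedSpace ℝ E] {g : ℂ → E}
    (hg : ContDiff ℝ ∞ g) {D : Set ℂ} (hD : IsOpen D) {v : ℂ → ℂ} (hv : DifferentiableOn ℂ v D) :
    ContDiffOn ℝ ∞ (fun t => g (v t)) D :=
  hg.comp_contDiffOn ((hv.contDiffOn hD (n := ∞)).restrict_scalars ℝ)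

end OKEL

open OKEL

theorem t_OKE : S_OKE := by
  intro r c hr hc
  have hr2 : 0 < r ^ 2 := by positivity
  have hK : 0 < (2 ^ 14 * r ^ 2 : ℝ)⁻¹ := by positivity
  have cQ : ∀ j, Continuous (Qe r c j) := fun j => (Qe_diff r c j).continuous
  have cP : ∀ j, Continuous (Pe r c j) := fun j => (Pe_diff r c j).continuous
  refine ⟨⟨hr2, ?_, ?_, ?_, ?_, ?_, ?_, ?_, ?_, ?_, ?_, ?_, ?_⟩, ⟨?_, ?_, ?_⟩,
    ⟨?_, ?_, ?_, ?_, ?_, ?_⟩⟩
  · intro j
    have := cQ j
    simp only [dEB]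
    fun_prop
  · intro j s
    simp only [dEB]
    positivity
  · simp only [dEB]
    rw [Qe_zero, norm_neg, Complex.norm_real, Real.norm_eq_abs, sq_abs]
    positivity
  · simp only [dEB]
    exact continuous_const
  · intro l hl
    simp only [dEB]
    exact le_rfl
  · intro j
    have := cP j
    simp only [dEB]
    fun_prop
  · intro l hl j s V X
    simp only [dEB]
    have h1 : 0 ≤ 1 - l := by linarith [hl.2]
    have h2 : 0 ≤ l := hl.1
    positivity
  · intro j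
    simp only [dEB]
    fun_prop
  · intro l hl s V X
    simp only [dEB]
    have h1 : 0 ≤ 1 - l := by linarith [hl.2]
    have h2 : 0 ≤ l := hl.1
    rw [Pe_false, norm_one, one_pow, mul_one, zero_add]
    rcases h2.eq_or_lt with h3 | h3
    · rw [← h3]
      have : (0 : ℝ) < (1 + ‖s‖ ^ 2) ^ 10 := by positivity
      have := mul_pos hK this
      simpa using this
    · have h4 : 0 ≤ (1 - l) * (2 ^ 14 * r ^ 2)⁻¹ * (1 + ‖s‖ ^ 2) ^ 10 := by positivity
      have h5 : 0 < l * (2 * Real.exp (-V)) := by positivity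
      linarith
  · intro j s V
    simp [dEB]
  · intro j s V
    simp [dEB]
  · intro j s V X
    simp only [dEB]
    have h1 : (starRingEnd ℂ) (3 * X) * X = ((3 * ‖X‖ ^ 2 : ℝ) : ℂ) := by
      rw [map_mul, mul_assoc, mul_comm ((starRingEnd ℂ) X) X, Complex.mul_conj,
        Complex.normSq_eq_norm_sq]
      have h2 : (starRingEnd ℂ) (3 : ℂ) = 3 := map_ofNat _ 3
      rw [h2]
      push_cast
      ring
    rw [h1, Complex.ofReal_re]
  · intro j v hv
    simp only [dEB]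
    rw [nsq_rel (f := Qe r c) (fun j v hv => Qe_rel r c j hv) j v hv]
    ring
  · intro l j v V X hv
    simp only [dEB]
    rw [nsq_rel (f := Pe r c) (fun j v hv => Pe_rel r c j hv) j v hv, one_rel v hv]
    ring
  · intro l j v V X hv
    simp only [dEB]
    rw [inv_pow]
    field_simp
  · intro j
    simp only [dEB]
    exact contDiff_const.mul ((contDiff_of_diff (Qe_diff r c j)).norm_sq ℝ)
  · intro l j
    simp only [dEB]
    have h1 : ContDiff ℝ ∞ (fun p : ℂ × ℝ × ℂ => ‖Pe r c j p.1‖ ^ 2) :=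
      ((contDiff_of_diff (Pe_diff r c j)).comp contDiff_fst).norm_sq ℝ
    have h2 : ContDiff ℝ ∞ (fun p : ℂ × ℝ × ℂ => ‖p.1‖ ^ 2) := contDiff_fst.norm_sq ℝ
    have h3 : ContDiff ℝ ∞ (fun p : ℂ × ℝ × ℂ => Real.exp (-p.2.1)) :=
      Real.contDiff_exp.comp (contDiff_snd.fst.neg)
    exact (contDiff_const.mul ((contDiff_const.add h2).pow 10)).add
      (contDiff_const.mul ((contDiff_const.mul h1).mul h3))
  · intro l j
    simp only [dEB]
    exact contDiff_const.mul contDiff_snd.snd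
  · intro j D m v hD hv
    obtain ⟨-, -, -, -, -, -, -, -, -, h10, -⟩ := All.hBT1 D hD m
    refine h10 _ ?_
    have h1 : ContDiff ℝ ∞ (fun s : ℂ => (((dEB r c).N j s : ℝ) : ℂ)) := by
      have h2 : ContDiff ℝ ∞ ((dEB r c).N j) := by
        simp only [dEB]
        exact contDiff_const.mul ((contDiff_of_diff (Qe_diff r c j)).norm_sq ℝ)
      exact Complex.ofRealCLM.contDiff.comp h2
    exact contDiffOn_comp h1 hD hv
  · intro l j D m v V X hD hv hV hX
    obtain ⟨-, -, h3, hadd, hmul, -, hd, hexp, -, h10, -⟩ := All.hBT1 D hD m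
    have hA : PC D m (fun t => (((1 - l) * (2 ^ 14 * r ^ 2)⁻¹ * (1 + ‖v t‖ ^ 2) ^ 10 : ℝ) : ℂ)) := by
      refine h10 _ ?_
      have h1 : ContDiff ℝ ∞ (fun s : ℂ =>
          (((1 - l) * (2 ^ 14 * r ^ 2)⁻¹ * (1 + ‖s‖ ^ 2) ^ 10 : ℝ) : ℂ)) :=
        Complex.ofRealCLM.contDiff.comp
          (contDiff_const.mul ((contDiff_const.add (contDiff_id.norm_sq ℝ)).pow 10))
      exact contDiffOn_comp h1 hD hv
    have hB : PC D m (fun t => ((l * (2 * ‖Pe r c j (v t)‖ ^ 2) : ℝ) : ℂ)) := by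
      refine h10 _ ?_
      have h1 : ContDiff ℝ ∞ (fun s : ℂ => ((l * (2 * ‖Pe r c j s‖ ^ 2) : ℝ) : ℂ)) :=
        Complex.ofRealCLM.contDiff.comp
          (contDiff_const.mul (contDiff_const.mul ((contDiff_of_diff (Pe_diff r c j)).norm_sq ℝ)))
      exact contDiffOn_comp h1 hD hv
    have hm1 : PC D m (fun _ => (-1 : ℂ)) := hd _ (differentiableOn_const _)
    have hE : PC D m (fun t => Complex.exp (-1 * (V t : ℂ))) := hexp _ (hmul _ _ hm1 hV)
    refine h3 _ _ ?_ (hadd _ _ hA (hmul _ _ hB hE))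
    intro t ht
    simp only [dEB]
    push_cast
    rw [neg_one_mul]
    ring
  · intro l j D m v V X hD hv hV hX
    obtain ⟨-, -, -, -, hmul, -, hd, -⟩ := All.hBT1 D hD m
    exact hmul _ _ (hd _ (differentiableOn_const (3 : ℂ))) hX

end Pool.Agent.H794.EX
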