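import Pool.Agent.H794.EX.Spec

/-!
# The conditions for the data of the Hitchin section
-/

set_option autoImplicit false

open scoped Manifold ContDiff Matrix ComplexOrder
open Matrix Topology MeasureTheory Set Filter

namespace Pool.Agent.H794.EX

open Pool.Agent.Helper614.HE Pool.Agent.H794

namespace OKHL

theorem qa_cont (r c : ℝ) (j : Bool) : Continuous (qa r c j) := (qa_diff r c j).continuous

theorem qb_cont (r c : ℝ) (j : Bool) : Continuous (qb r c j) := (qb_diff r c j).continuous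

theorem qa_sm (r c : ℝ) (j : Bool) : ContDiff ℝ ∞ (qa r c j) :=
  (qa_diff r c j).contDiff.restrict_scalars ℝ

theorem qb_sm (r c : ℝ) (j : Bool) : ContDiff ℝ ∞ (qb r c j) :=
  (qb_diff r c j).contDiff.restrict_scalars ℝ

theorem one_pos (s : ℂ) : 0 < 1 + ‖s‖ ^ 2 := by positivity

theorem inv_rel {v : ℂ} (hv : v ≠ 0) : (1 + ‖v‖ ^ 2) = ‖v‖ ^ 2 * (1 + ‖v⁻¹‖ ^ 2) := by
  rw [norm_inv]
  have : ‖v‖ ≠ 0 := norm_ne_zero_iff.2 hv
  field_simp
  ring

theorem al_rel (r c l : ℝ) (j : Bool) (v X : ℂ) (hv : v ≠ 0) :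
    al (l * qa r c (!j) v⁻¹) (-((v⁻¹) ^ 10 * X)) = (v⁻¹) ^ 20 * al (l * qa r c j v) X := by
  rw [qa_rel r c j hv]
  unfold al
  field_simp

theorem be_rel (r c l : ℝ) (j : Bool) (v X : ℂ) (hv : v ≠ 0) :
    be (l * qa r c (!j) v⁻¹) (l * qb r c (!j) v⁻¹) (-((v⁻¹) ^ 10 * X)) =
      -((v⁻¹) ^ 30 * be (l * qa r c j v) (l * qb r c j v) X) := by
  rw [qa_rel r c j hv, qb_rel r c j hv]
  unfold be
  field_simp
  ring

theorem ca (r c : ℝ) (j : Bool) :
    Continuous (fun p : ℝ × ℂ × ℝ × ℂ => al (p.1 * qa r c j p.2.1) p.2.2.2) := by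
  have h1 : Continuous (qa r c j) := qa_cont r c j
  unfold al
  fun_prop

theorem cb (r c : ℝ) (j : Bool) : Continuous (fun p : ℝ × ℂ × ℝ × ℂ =>
    be (p.1 * qa r c j p.2.1) (p.1 * qb r c j p.2.1) p.2.2.2) := by
  have h1 : Continuous (qa r c j) := qa_cont r c j
  have h2 : Continuous (qb r c j) := qb_cont r c j
  unfold be
  fun_prop

theorem ce (a : ℝ) (k : ℕ) : Continuous (fun p : ℝ × ℂ × ℝ × ℂ =>
    Real.exp (a * p.2.2.1) * ((1 + ‖p.2.1‖ ^ 2) ^ k)⁻¹) := by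
  refine Continuous.mul (by fun_prop) (Continuous.inv₀ (by fun_prop) ?_)
  intro p
  have := one_pos p.2.1
  positivity

theorem ce1 : Continuous (fun p : ℝ × ℂ × ℝ × ℂ =>
    Real.exp (-p.2.2.1) * ((1 + ‖p.2.1‖ ^ 2) ^ 10)⁻¹) := by
  have := ce (-1) 10
  simpa only [neg_one_mul] using this

theorem cP (r c : ℝ) (j : Bool) :
    Continuous (fun p : ℝ × ℂ × ℝ × ℂ => (dHT r c).P p.1 j p.2.1 p.2.2.1 p.2.2.2) := by
  simp only [dHT]
  exact (((ca r c j).norm.pow 2).mul ce1).add (((cb r c j).norm.pow 2).mul (ce (-2) 20))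

theorem cF (r c : ℝ) (j : Bool) :
    Continuous (fun p : ℝ × ℂ × ℝ × ℂ => (dHT r c).F p.1 j p.2.1 p.2.2.1 p.2.2.2) := by
  have hX : Continuous (fun p : ℝ × ℂ × ℝ × ℂ => p.2.2.2) := by fun_prop
  have hcX : Continuous (fun p : ℝ × ℂ × ℝ × ℂ => (starRingEnd ℂ) p.2.2.2) :=
    Complex.continuous_conj.comp hX
  have hca : Continuous (fun p : ℝ × ℂ × ℝ × ℂ =>
      (starRingEnd ℂ) (al (p.1 * qa r c j p.2.1) p.2.2.2)) :=
    Complex.continuous_conj.comp (ca r c j)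
  have e1 := Complex.continuous_ofReal.comp ce1
  have e2 := Complex.continuous_ofReal.comp (ce (-2) 20)
  simp only [dHT]
  exact ((continuous_const.mul hX).sub (((continuous_const.mul hcX).mul (ca r c j)).mul e1)).add
    ((hca.mul (cb r c j)).mul e2)

theorem fre (r c : ℝ) (j : Bool) (s : ℂ) (V : ℝ) (X : ℂ) :
    3 * ‖X‖ ^ 2 ≤ ((starRingEnd ℂ) ((dHT r c).F 0 j s V X) * X).re := by
  have hX : (starRingEnd ℂ) X * X = ((‖X‖ ^ 2 : ℝ) : ℂ) := by
    rw [mul_comm, Complex.mul_conj, Complex.normSq_eq_norm_sq]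
  obtain ⟨e1, he1⟩ : ∃ e1 : ℝ, e1 = Real.exp (-V) * ((1 + ‖s‖ ^ 2) ^ 10)⁻¹ := ⟨_, rfl⟩
  obtain ⟨e2, he2⟩ : ∃ e2 : ℝ, e2 = Real.exp (-2 * V) * ((1 + ‖s‖ ^ 2) ^ 20)⁻¹ := ⟨_, rfl⟩
  have hs := one_pos s
  have p1 : 0 ≤ e1 := by rw [he1]; positivity
  have p2 : 0 ≤ e2 := by rw [he2]; positivity
  have key : (starRingEnd ℂ) ((dHT r c).F 0 j s V X) * X =
      ((3 * ‖X‖ ^ 2 + 9 / 2 * ‖X‖ ^ 4 * e1 + 3 / 2 * ‖X‖ ^ 6 * e2 : ℝ) : ℂ) := by
    have h1 : (starRingEnd ℂ) ((dHT r c).F 0 j s V X) * X =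
        3 * ((starRingEnd ℂ) X * X) + 9 / 2 * ((starRingEnd ℂ) X * X) ^ 2 * (e1 : ℂ) +
          3 / 2 * ((starRingEnd ℂ) X * X) ^ 3 * (e2 : ℂ) := by
      simp only [dHT, al, be, ← he1, ← he2, map_add, map_sub, map_mul, map_div₀, map_pow,
        Complex.conj_conj, Complex.conj_ofReal, Complex.ofReal_zero, zero_mul,
        map_ofNat, zero_sub, map_neg, zero_add]
      ring
    rw [h1, hX]
    push_cast
    ring
  rw [key, Complex.ofReal_re]
  have : 0 ≤ 9 / 2 * ‖X‖ ^ 4 * e1 + 3 / 2 * ‖X‖ ^ 6 * e2 := by positivity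
  linarith

theorem P_nonneg (r c l : ℝ) (j : Bool) (s : ℂ) (V : ℝ) (X : ℂ) :
    0 ≤ (dHT r c).P l j s V X := by
  have hs := one_pos s
  simp only [dHT]
  positivity

theorem ok (r c : ℝ) (hr : 0 < r) : (dHT r c).OK where
  rho := by simp only [dHT]; positivity
  contN := by intro j; simp only [dHT]; fun_prop
  N0 := by intro j s; simp only [dHT]; positivity
  Npos := by simp only [dHT]; positivity
  contc := by simp only [dHT]; fun_prop
  c0 := by intro l _; simp only [dHT]; norm_num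
  contP := cP r c
  P0 := by intro l _ j s V X; exact P_nonneg r c l j s V X
  contF := cF r c
  pos := by
    intro l _ s V X
    have := P_nonneg r c l false s V X
    have h2 : (dHT r c).c l = 10 := rfl
    rw [h2]
    linarith
  Fz := by intro j s V; simp [dHT, al, be]
  Pz := by intro j s V; simp [dHT, al, be]
  Fre := fre r c

theorem rel (r c : ℝ) : (dHT r c).Rel where
  relN := by
    intro j v hv
    simp only [dHT]
    rw [inv_rel hv]
    ring
  relP := by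
    intro l j v V X hv
    have hn : ‖v‖ ≠ 0 := norm_ne_zero_iff.2 hv
    have ha := al_rel r c l j v X hv
    have hb := be_rel r c l j v X hv
    simp only [dHT]
    rw [ha, hb, norm_neg, norm_mul, norm_mul, norm_pow, norm_pow, norm_inv]
    have h1 : (1 + (‖v‖⁻¹) ^ 2) = (1 + ‖v‖ ^ 2) * (‖v‖⁻¹) ^ 2 := by field_simp; ring
    have h2 : (1 + ‖v‖ ^ 2) ≠ 0 := (one_pos v).ne'
    rw [h1]
    field_simp
  relF := by
    intro l j v V X hv
    have hn : ‖v‖ ≠ 0 := norm_ne_zero_iff.2 hv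
    have ha := al_rel r c l j v X hv
    have hb := be_rel r c l j v X hv
    have hc : (starRingEnd ℂ) v ≠ 0 := by simpa using hv
    have hvv : v * (starRingEnd ℂ) v = ((‖v‖ : ℝ) : ℂ) ^ 2 := by
      rw [Complex.mul_conj, Complex.normSq_eq_norm_sq]; push_cast; ring
    have hn' : ((‖v‖ : ℝ) : ℂ) ≠ 0 := by exact_mod_cast hn
    have h1 : (1 + (‖v‖⁻¹) ^ 2) = (1 + ‖v‖ ^ 2) * (‖v‖⁻¹) ^ 2 := by field_simp; ring
    have h2 : (1 + ‖v‖ ^ 2) ≠ 0 := (one_pos v).ne'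
    have h3 : ((Real.exp (-V) * ((1 + ‖v⁻¹‖ ^ 2) ^ 10)⁻¹ : ℝ) : ℂ) =
        (v * (starRingEnd ℂ) v) ^ 10 * ((Real.exp (-V) * ((1 + ‖v‖ ^ 2) ^ 10)⁻¹ : ℝ) : ℂ) := by
      rw [hvv, ← Complex.ofReal_pow, ← Complex.ofReal_pow, ← Complex.ofReal_mul, norm_inv, h1]
      congr 1
      field_simp
    have h4 : ((Real.exp (-2 * V) * ((1 + ‖v⁻¹‖ ^ 2) ^ 20)⁻¹ : ℝ) : ℂ) =
        (v * (starRingEnd ℂ) v) ^ 20 * ((Real.exp (-2 * V) * ((1 + ‖v‖ ^ 2) ^ 20)⁻¹ : ℝ) : ℂ) := by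
      rw [hvv, ← Complex.ofReal_pow, ← Complex.ofReal_pow, ← Complex.ofReal_mul, norm_inv, h1]
      congr 1
      field_simp
    simp only [dHT]
    rw [ha, hb, h3, h4]
    generalize al (l * qa r c j v) X = A
    generalize be (l * qa r c j v) (l * qb r c j v) X = B
    generalize ((Real.exp (-V) * ((1 + ‖v‖ ^ 2) ^ 10)⁻¹ : ℝ) : ℂ) = E1
    generalize ((Real.exp (-2 * V) * ((1 + ‖v‖ ^ 2) ^ 20)⁻¹ : ℝ) : ℂ) = E2
    simp only [map_neg, map_mul, map_pow, map_inv₀]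
    generalize (starRingEnd ℂ) v = w at *
    generalize (starRingEnd ℂ) X = Y
    generalize (starRingEnd ℂ) A = A'
    field_simp
    ring

theorem smooth (r c : ℝ) : (dHT r c).Smo where
  smN := by
    intro j
    simp only [dHT]
    exact (contDiff_const.add (contDiff_norm_sq ℝ)).pow 10
  smP := by
    intro l j
    have h1 : ContDiff ℝ ∞ (qa r c j) := qa_sm r c j
    have h2 : ContDiff ℝ ∞ (qb r c j) := qb_sm r c j
    have hs : ContDiff ℝ ∞ (fun p : ℂ × ℝ × ℂ => p.1) := contDiff_fst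
    have hV : ContDiff ℝ ∞ (fun p : ℂ × ℝ × ℂ => p.2.1) := contDiff_fst.comp contDiff_snd
    have hX : ContDiff ℝ ∞ (fun p : ℂ × ℝ × ℂ => p.2.2) := contDiff_snd.comp contDiff_snd
    have ha : ContDiff ℝ ∞ (fun p : ℂ × ℝ × ℂ => al (l * qa r c j p.1) p.2.2) := by
      unfold al
      exact ((contDiff_const.mul (h1.comp hs)).sub (contDiff_const.mul (hX.pow 2))).div_const 2
    have hb : ContDiff ℝ ∞ (fun p : ℂ × ℝ × ℂ =>
        be (l * qa r c j p.1) (l * qb r c j p.1) p.2.2) := by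
      unfold be
      exact ((contDiff_const.mul (h2.comp hs)).add ((contDiff_const.mul (h1.comp hs)).mul hX)).sub
        (hX.pow 3)
    have hn : ContDiff ℝ ∞ (fun p : ℂ × ℝ × ℂ => 1 + ‖p.1‖ ^ 2) :=
      contDiff_const.add (hs.norm_sq ℝ)
    simp only [dHT]
    refine ((ha.norm_sq ℝ).mul ((Real.contDiff_exp.comp hV.neg).mul ((hn.pow 10).inv ?_))).add
      ((hb.norm_sq ℝ).mul ((Real.contDiff_exp.comp (contDiff_const.mul hV)).mul
        ((hn.pow 20).inv ?_)))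
    · intro p; have := one_pos p.1; positivity
    · intro p; have := one_pos p.1; positivity
  smF := by
    intro l j
    have h1 : ContDiff ℝ ∞ (qa r c j) := qa_sm r c j
    have h2 : ContDiff ℝ ∞ (qb r c j) := qb_sm r c j
    have hs : ContDiff ℝ ∞ (fun p : ℂ × ℝ × ℂ => p.1) := contDiff_fst
    have hV : ContDiff ℝ ∞ (fun p : ℂ × ℝ × ℂ => p.2.1) := contDiff_fst.comp contDiff_snd
    have hX : ContDiff ℝ ∞ (fun p : ℂ × ℝ × ℂ => p.2.2) := contDiff_snd.comp contDiff_snd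
    have ha : ContDiff ℝ ∞ (fun p : ℂ × ℝ × ℂ => al (l * qa r c j p.1) p.2.2) := by
      unfold al
      exact ((contDiff_const.mul (h1.comp hs)).sub (contDiff_const.mul (hX.pow 2))).div_const 2
    have hb : ContDiff ℝ ∞ (fun p : ℂ × ℝ × ℂ =>
        be (l * qa r c j p.1) (l * qb r c j p.1) p.2.2) := by
      unfold be
      exact ((contDiff_const.mul (h2.comp hs)).add ((contDiff_const.mul (h1.comp hs)).mul hX)).sub
        (hX.pow 3)
    have hn : ContDiff ℝ ∞ (fun p : ℂ × ℝ × ℂ => 1 + ‖p.1‖ ^ 2) :=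
      contDiff_const.add (hs.norm_sq ℝ)
    have hc : ContDiff ℝ ∞ (fun z : ℂ => (starRingEnd ℂ) z) := Complex.conjCLE.contDiff
    have hE1 : ContDiff ℝ ∞ (fun p : ℂ × ℝ × ℂ =>
        ((Real.exp (-p.2.1) * ((1 + ‖p.1‖ ^ 2) ^ 10)⁻¹ : ℝ) : ℂ)) := by
      refine Complex.ofRealCLM.contDiff.comp
        ((Real.contDiff_exp.comp hV.neg).mul ((hn.pow 10).inv ?_))
      intro p; have := one_pos p.1; positivity
    have hE2 : ContDiff ℝ ∞ (fun p : ℂ × ℝ × ℂ =>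
        ((Real.exp (-2 * p.2.1) * ((1 + ‖p.1‖ ^ 2) ^ 20)⁻¹ : ℝ) : ℂ)) := by
      refine Complex.ofRealCLM.contDiff.comp
        ((Real.contDiff_exp.comp (contDiff_const.mul hV)).mul ((hn.pow 20).inv ?_))
      intro p; have := one_pos p.1; positivity
    simp only [dHT]
    exact ((contDiff_const.mul hX).sub (((contDiff_const.mul (hc.comp hX)).mul ha).mul hE1)).add
      (((hc.comp ha).mul hb).mul hE2)
  pcN := by
    intro j D m v hD hv
    have hv' : ContDiffOn ℝ ∞ v D := (hv.contDiffOn hD).restrict_scalars ℝ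
    refine (All.hBT1 D hD m).2.2.2.2.2.2.2.2.2.1 _ ?_
    simp only [dHT]
    exact Complex.ofRealCLM.contDiff.comp_contDiffOn
      ((contDiffOn_const.add (hv'.norm_sq ℝ)).pow 10)
  pcP := by
    intro l j D m v V X hD hv hV hX
    obtain ⟨-, -, Tcongr, Tadd, Tmul, Tconj, Thol, Texp, -, Tsm, -⟩ := All.hBT1 D hD m
    have hv' : ContDiffOn ℝ ∞ v D := (hv.contDiffOn hD).restrict_scalars ℝ
    have Tc : ∀ a : ℂ, PC D m (fun _ => a) := fun a => Thol _ (differentiableOn_const a)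
    have hqa : PC D m (fun t => qa r c j (v t)) :=
      Thol _ ((qa_diff r c j).comp_differentiableOn hv)
    have hqb : PC D m (fun t => qb r c j (v t)) :=
      Thol _ ((qb_diff r c j).comp_differentiableOn hv)
    have ha : PC D m (fun t => al (l * qa r c j (v t)) (X t)) := by
      refine Tcongr (fun t => (l / 2 : ℂ) * qa r c j (v t) + (-3 / 2 : ℂ) * (X t * X t)) _ ?_
        (Tadd _ _ (Tmul _ _ (Tc _) hqa) (Tmul _ _ (Tc _) (Tmul _ _ hX hX)))
      intro z _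
      simp only [al]; ring
    have hb : PC D m (fun t => be (l * qa r c j (v t)) (l * qb r c j (v t)) (X t)) := by
      refine Tcongr (fun t => (l : ℂ) * qb r c j (v t) + ((l : ℂ) * qa r c j (v t) * X t +
        (-1 : ℂ) * (X t * X t * X t))) _ ?_
        (Tadd _ _ (Tmul _ _ (Tc _) hqb) (Tadd _ _ (Tmul _ _ (Tmul _ _ (Tc _) hqa) hX)
          (Tmul _ _ (Tc _) (Tmul _ _ (Tmul _ _ hX hX) hX))))
      intro z _
      simp only [be]; ring
    have hI : ∀ k : ℕ, PC D m (fun t => ((((1 + ‖v t‖ ^ 2) ^ k)⁻¹ : ℝ) : ℂ)) := by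
      intro k
      refine Tsm _ ?_
      refine Complex.ofRealCLM.contDiff.comp_contDiffOn
        (((contDiffOn_const.add (hv'.norm_sq ℝ)).pow k).inv ?_)
      intro t _; have := one_pos (v t); positivity
    have hE : ∀ a : ℝ, PC D m (fun t => (Real.exp (a * V t) : ℂ)) := by
      intro a
      refine Tcongr _ _ ?_ (Texp _ (Tmul _ _ (Tc (a : ℂ)) hV))
      intro z _
      push_cast; rfl
    refine Tcongr (fun t => (al (l * qa r c j (v t)) (X t) *
        (starRingEnd ℂ) (al (l * qa r c j (v t)) (X t))) *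
        ((Real.exp (-1 * V t) : ℂ) * ((((1 + ‖v t‖ ^ 2) ^ 10)⁻¹ : ℝ) : ℂ)) +
        (be (l * qa r c j (v t)) (l * qb r c j (v t)) (X t) *
        (starRingEnd ℂ) (be (l * qa r c j (v t)) (l * qb r c j (v t)) (X t))) *
        ((Real.exp (-2 * V t) : ℂ) * ((((1 + ‖v t‖ ^ 2) ^ 20)⁻¹ : ℝ) : ℂ))) _ ?_
      (Tadd _ _ (Tmul _ _ (Tmul _ _ ha (Tconj _ ha)) (Tmul _ _ (hE (-1)) (hI 10)))
        (Tmul _ _ (Tmul _ _ hb (Tconj _ hb)) (Tmul _ _ (hE (-2)) (hI 20))))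
    intro z _
    simp only [dHT, Complex.mul_conj, Complex.normSq_eq_norm_sq, neg_one_mul]
    push_cast
    ring
  pcF := by
    intro l j D m v V X hD hv hV hX
    obtain ⟨-, -, Tcongr, Tadd, Tmul, Tconj, Thol, Texp, -, Tsm, -⟩ := All.hBT1 D hD m
    have hv' : ContDiffOn ℝ ∞ v D := (hv.contDiffOn hD).restrict_scalars ℝ
    have Tc : ∀ a : ℂ, PC D m (fun _ => a) := fun a => Thol _ (differentiableOn_const a)
    have hqa : PC D m (fun t => qa r c j (v t)) :=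
      Thol _ ((qa_diff r c j).comp_differentiableOn hv)
    have hqb : PC D m (fun t => qb r c j (v t)) :=
      Thol _ ((qb_diff r c j).comp_differentiableOn hv)
    have ha : PC D m (fun t => al (l * qa r c j (v t)) (X t)) := by
      refine Tcongr (fun t => (l / 2 : ℂ) * qa r c j (v t) + (-3 / 2 : ℂ) * (X t * X t)) _ ?_
        (Tadd _ _ (Tmul _ _ (Tc _) hqa) (Tmul _ _ (Tc _) (Tmul _ _ hX hX)))
      intro z _
      simp only [al]; ring
    have hb : PC D m (fun t => be (l * qa r c j (v t)) (l * qb r c j (v t)) (X t)) := by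
      refine Tcongr (fun t => (l : ℂ) * qb r c j (v t) + ((l : ℂ) * qa r c j (v t) * X t +
        (-1 : ℂ) * (X t * X t * X t))) _ ?_
        (Tadd _ _ (Tmul _ _ (Tc _) hqb) (Tadd _ _ (Tmul _ _ (Tmul _ _ (Tc _) hqa) hX)
          (Tmul _ _ (Tc _) (Tmul _ _ (Tmul _ _ hX hX) hX))))
      intro z _
      simp only [be]; ring
    have hI : ∀ k : ℕ, PC D m (fun t => ((((1 + ‖v t‖ ^ 2) ^ k)⁻¹ : ℝ) : ℂ)) := by
      intro k
      refine Tsm _ ?_
      refine Complex.ofRealCLM.contDiff.comp_contDiffOn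
        (((contDiffOn_const.add (hv'.norm_sq ℝ)).pow k).inv ?_)
      intro t _; have := one_pos (v t); positivity
    have hE : ∀ a : ℝ, PC D m (fun t => (Real.exp (a * V t) : ℂ)) := by
      intro a
      refine Tcongr _ _ ?_ (Texp _ (Tmul _ _ (Tc (a : ℂ)) hV))
      intro z _
      push_cast; rfl
    refine Tcongr (fun t => (3 : ℂ) * X t + ((-3 : ℂ) * ((starRingEnd ℂ) (X t) *
        al (l * qa r c j (v t)) (X t)) *
        ((Real.exp (-1 * V t) : ℂ) * ((((1 + ‖v t‖ ^ 2) ^ 10)⁻¹ : ℝ) : ℂ)) +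
        ((starRingEnd ℂ) (al (l * qa r c j (v t)) (X t)) *
        be (l * qa r c j (v t)) (l * qb r c j (v t)) (X t)) *
        ((Real.exp (-2 * V t) : ℂ) * ((((1 + ‖v t‖ ^ 2) ^ 20)⁻¹ : ℝ) : ℂ)))) _ ?_
      (Tadd _ _ (Tmul _ _ (Tc _) hX) (Tadd _ _
        (Tmul _ _ (Tmul _ _ (Tc _) (Tmul _ _ (Tconj _ hX) ha)) (Tmul _ _ (hE (-1)) (hI 10)))
        (Tmul _ _ (Tmul _ _ (Tconj _ ha) hb) (Tmul _ _ (hE (-2)) (hI 20)))))
    intro z _
    simp only [dHT, neg_one_mul]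
    push_cast
    ring

end OKHL

/-- **OKH**: the conditions for `dHT`. -/
theorem t_OKH : S_OKH := fun r c hr => ⟨OKHL.ok r c hr, OKHL.rel r c, OKHL.smooth r c⟩

end Pool.Agent.H794.EX
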