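import Pool.Agent.H794.EX.Spec

/-!
# EX, leaf OPB: bound of the conjugate Cauchy type operator
-/

set_option autoImplicit false

open MeasureTheory Set Filter

namespace Pool.Agent.H794.EX

namespace OPBL

/-- the exceptional points -/
theorem ae_exc (v : ℂ) : ∀ᵐ s : ℂ, s ^ 16 + 1 ≠ 0 ∧ s ≠ v := by
  have hfin : ({s : ℂ | s ^ 16 + 1 = 0} ∪ {v}).Finite := by
    refine Set.Finite.union ?_ (Set.finite_singleton v)
    have hp : ((Polynomial.X : Polynomial ℂ) ^ 16 + 1) ≠ 0 := by
      intro h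
      have := congrArg (Polynomial.eval 0) h
      simp at this
    refine (Polynomial.finite_setOfPred_isRoot hp).subset ?_
    intro s hs
    simpa [Polynomial.IsRoot] using hs
  have h := hfin.countable.ae_notMem (volume : Measure ℂ)
  filter_upwards [h] with s hs
  simp only [mem_union, mem_ofPred_eq, mem_singleton_iff, not_or] at hs
  exact ⟨hs.1, hs.2⟩

theorem ae_exc_restrict (v : ℂ) : ∀ᵐ s : ℂ ∂(volume.restrict DD),
    s ∈ DD ∧ s ^ 16 + 1 ≠ 0 ∧ s ≠ v := by
  have hD : MeasurableSet DD := Metric.isClosed_closedBall.measurableSet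
  filter_upwards [ae_restrict_mem hD, ae_restrict_of_ae (ae_exc v)] with s h1 h2
  exact ⟨h1, h2⟩

theorem norm_le_one {s : ℂ} (hs : s ∈ DD) : ‖s‖ ≤ 1 := by
  simpa [DD] using hs

theorem one_sub_ge {v s : ℂ} (hv : v ∈ DD) (hs : s ∈ DD) :
    ‖(starRingEnd ℂ) v - s‖ ≤ ‖1 - v * s‖ := by
  have h1 := norm_le_one hv
  have h2 := norm_le_one hs
  have h3 : 0 ≤ (1 - ‖v‖ ^ 2) * (1 - ‖s‖ ^ 2) := by
    have a1 : ‖v‖ ^ 2 ≤ 1 := by nlinarith [norm_nonneg v]
    have a2 : ‖s‖ ^ 2 ≤ 1 := by nlinarith [norm_nonneg s]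
    exact mul_nonneg (by linarith) (by linarith)
  have h4 : ‖1 - v * s‖ ^ 2 - ‖(starRingEnd ℂ) v - s‖ ^ 2 = (1 - ‖v‖ ^ 2) * (1 - ‖s‖ ^ 2) := by
    rw [← Complex.normSq_eq_norm_sq, ← Complex.normSq_eq_norm_sq, ← Complex.normSq_eq_norm_sq,
      ← Complex.normSq_eq_norm_sq]
    simp only [Complex.normSq_apply, Complex.sub_re, Complex.sub_im, Complex.mul_re,
      Complex.mul_im, Complex.one_re, Complex.one_im, Complex.conj_re, Complex.conj_im]
    ring
  exact le_of_sq_le_sq (by linarith) (norm_nonneg _)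
where
  le_of_sq_le_sq {a b : ℝ} (h : a ^ 2 ≤ b ^ 2) (hb : 0 ≤ b) : a ≤ b := by
    nlinarith [sq_nonneg (a - b), abs_nonneg a, sq_abs a, abs_le_of_sq_le_sq' h hb]

theorem ww_nonneg (s : ℂ) : 0 ≤ ww s := Real.rpow_nonneg (norm_nonneg _) _

theorem wh_conj (v : ℂ) : wh ((starRingEnd ℂ) v) = wh v := by
  unfold wh sx
  congr 1
  rw [← Complex.norm_conj (v ^ 16 + 1)]
  simp

theorem exc_conj {v : ℂ} (hv : v ^ 16 + 1 ≠ 0) : (starRingEnd ℂ) v ^ 16 + 1 ≠ 0 := by
  intro h
  apply hv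
  have := congrArg (starRingEnd ℂ) h
  simpa using this

theorem meas_int {F : ℂ → ℂ → ℂ} (hF : Measurable (fun p : ℂ × ℂ => F p.1 p.2)) :
    Measurable (fun v => ∫ s in DD, F v s) :=
  (StronglyMeasurable.integral_prod_right (f := F) (ν := volume.restrict DD)
    hF.stronglyMeasurable).measurable

end OPBL

open OPBL in
theorem t_OPB (h : S_KER) : S_OPB := by
  obtain ⟨K, hK, -, -, h3⟩ := h
  refine ⟨K, hK, ?_⟩
  intro f c hf hc hD
  have hcf : ∀ j, Measurable (fun s => (starRingEnd ℂ) (f j s)) := fun j =>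
    Complex.continuous_conj.measurable.comp (hf j)
  have hint : ∀ j, IntegrableOn (f j) DD := by
    intro j
    have h0 := (h3 0 (by simp) (by simp)).1
    refine Integrable.mono' (h0.const_mul c) (hf j).aestronglyMeasurable ?_
    filter_upwards [ae_exc_restrict 0] with s hs
    obtain ⟨hs1, hs2, hs3⟩ := hs
    refine (hD j s hs1 hs2).trans ?_
    have h5 : 1 ≤ ‖0 - s‖⁻¹ := by
      rw [zero_sub, norm_neg]
      exact (one_le_inv₀ (norm_pos_iff.2 hs3)).2 (norm_le_one hs1)
    exact mul_le_mul_of_nonneg_left (le_mul_of_one_le_right (ww_nonneg s) h5) hc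
  refine ⟨?_, hint, ?_⟩
  · intro j
    have e1 : Measurable (fun v : ℂ => ∫ s in DD, (starRingEnd ℂ) (f j s) / (v - s)) := by
      apply meas_int (F := fun v s => (starRingEnd ℂ) (f j s) / (v - s))
      exact ((hcf j).comp measurable_snd).div (measurable_fst.sub measurable_snd)
    have e2 : Measurable (fun v : ℂ => ∫ s in DD, 1 * v ^ 0 * s ^ 11 *
        (starRingEnd ℂ) (f (!j) s) / (1 - v * s)) := by
      apply meas_int (F := fun v s => 1 * v ^ 0 * s ^ 11 *
        (starRingEnd ℂ) (f (!j) s) / (1 - v * s))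
      exact ((((measurable_const.mul (measurable_fst.pow_const 0)).mul
        (measurable_snd.pow_const 11)).mul ((hcf (!j)).comp measurable_snd))).div
        (measurable_const.sub (measurable_fst.mul measurable_snd))
    exact Complex.continuous_conj.measurable.comp (measurable_const.mul (e1.add e2))
  · intro j v hv hv16
    have hv2 : ‖v‖ ≤ 2 := (norm_le_one hv).trans (by norm_num)
    obtain ⟨i1, b1⟩ := h3 v hv2 hv16
    obtain ⟨i2, b2⟩ := h3 ((starRingEnd ℂ) v) (by rwa [Complex.norm_conj]) (exc_conj hv16)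
    rw [wh_conj] at b2
    have n1 : ∀ᵐ s ∂(volume.restrict DD), ‖(starRingEnd ℂ) (f j s) / (v - s)‖ ≤
        c * (ww s * ‖v - s‖⁻¹) := by
      filter_upwards [ae_exc_restrict 0] with s hs
      obtain ⟨hs1, hs2, hs3⟩ := hs
      rw [norm_div, Complex.norm_conj, div_eq_mul_inv, ← mul_assoc]
      exact mul_le_mul_of_nonneg_right (hD j s hs1 hs2) (inv_nonneg.2 (norm_nonneg _))
    have n2 : ∀ᵐ s ∂(volume.restrict DD),
        ‖s ^ 11 * (starRingEnd ℂ) (f (!j) s) / (1 - v * s)‖ ≤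
        c * (ww s * ‖(starRingEnd ℂ) v - s‖⁻¹) := by
      filter_upwards [ae_exc_restrict ((starRingEnd ℂ) v)] with s hs
      obtain ⟨hs1, hs2, hs3⟩ := hs
      have g1 : 0 < ‖(starRingEnd ℂ) v - s‖ := norm_pos_iff.2 (sub_ne_zero.2 (Ne.symm hs3))
      have g2 : ‖1 - v * s‖⁻¹ ≤ ‖(starRingEnd ℂ) v - s‖⁻¹ :=
        inv_anti₀ g1 (one_sub_ge hv hs1)
      rw [norm_div, norm_mul, norm_pow, Complex.norm_conj, div_eq_mul_inv]
      have g3 : ‖s‖ ^ 11 ≤ 1 := pow_le_one₀ (norm_nonneg _) (norm_le_one hs1)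
      have g4 : ‖s‖ ^ 11 * ‖f (!j) s‖ ≤ c * ww s :=
        (mul_le_of_le_one_left (norm_nonneg _) g3).trans (hD (!j) s hs1 hs2)
      rw [← mul_assoc]
      exact mul_le_mul g4 g2 (inv_nonneg.2 (norm_nonneg _)) (mul_nonneg hc (ww_nonneg s))
    have m1 : AEStronglyMeasurable (fun s => (starRingEnd ℂ) (f j s) / (v - s))
        (volume.restrict DD) :=
      ((hcf j).div (measurable_const.sub measurable_id)).aestronglyMeasurable
    have m2 : AEStronglyMeasurable (fun s => s ^ 11 * (starRingEnd ℂ) (f (!j) s) / (1 - v * s))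
        (volume.restrict DD) :=
      (((measurable_id.pow_const 11).mul (hcf (!j))).div
        (measurable_const.sub (measurable_const.mul measurable_id))).aestronglyMeasurable
    refine ⟨Integrable.mono' (i1.const_mul c) m1 n1, Integrable.mono' (i2.const_mul c) m2 n2, ?_⟩
    have t1 : ‖∫ s in DD, (starRingEnd ℂ) (f j s) / (v - s)‖ ≤ c * (K * wh v) := by
      refine (norm_integral_le_of_norm_le (i1.const_mul c) n1).trans ?_
      rw [integral_const_mul]
      exact mul_le_mul_of_nonneg_left b1 hc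
    have t2 : ‖∫ s in DD, s ^ 11 * (starRingEnd ℂ) (f (!j) s) / (1 - v * s)‖ ≤
        c * (K * wh v) := by
      refine (norm_integral_le_of_norm_le (i2.const_mul c) n2).trans ?_
      rw [integral_const_mul]
      exact mul_le_mul_of_nonneg_left b2 hc
    have hw : 0 ≤ wh v := Real.rpow_nonneg (norm_nonneg _) _
    unfold PB CK
    rw [Complex.norm_conj, norm_mul]
    simp only [one_mul, pow_zero]
    have hpi : ‖((1 / Real.pi : ℝ) : ℂ)‖ ≤ 1 / 2 := by
      rw [Complex.norm_real, Real.norm_of_nonneg (by positivity)]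
      exact one_div_le_one_div_of_le (by norm_num) Real.two_le_pi
    have t3 := norm_add_le (∫ s in DD, (starRingEnd ℂ) (f j s) / (v - s))
      (∫ s in DD, s ^ 11 * (starRingEnd ℂ) (f (!j) s) / (1 - v * s))
    calc _ ≤ (1 / 2) * (c * (K * wh v) + c * (K * wh v)) :=
          mul_le_mul hpi (t3.trans (add_le_add t1 t2)) (norm_nonneg _) (by norm_num)
      _ = K * c * wh v := by ring

end Pool.Agent.H794.EX
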