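import Pool.Agent.H794.EX.Spec

/-!
Leaf OPL: the logarithmic potential.
-/

set_option autoImplicit false

open scoped Manifold ContDiff Matrix ComplexOrder
open Matrix Topology MeasureTheory Set Filter

namespace Pool.Agent.H794.EX

open Pool.Agent.Helper614.HE Pool.Agent.H794

namespace OPLL

theorem log_bd {x : ℝ} (h0 : 0 ≤ x) (h2 : x ≤ 2) :
    |Real.log (x ^ 2)| ≤ 8 * x ^ (-(1 / 4) : ℝ) := by
  rcases h0.eq_or_lt with h | h
  · rw [← h]
    simp [Real.zero_rpow]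
  have hx : 0 < x ^ (-(1 / 4) : ℝ) := Real.rpow_pos_of_pos h _
  have h1 : Real.log (x ^ (-(1 / 4) : ℝ)) = -(1 / 4) * Real.log x := Real.log_rpow h _
  have h3 := Real.log_le_sub_one_of_pos hx
  rw [h1] at h3
  have h4 : (1 / 2 : ℝ) ≤ x ^ (-(1 / 4) : ℝ) := by
    have h5 : (2 : ℝ) ^ (-(1 / 4) : ℝ) ≤ x ^ (-(1 / 4) : ℝ) :=
      Real.rpow_le_rpow_of_nonpos h h2 (by norm_num)
    have h6 : (2 : ℝ) ^ (-1 : ℝ) ≤ (2 : ℝ) ^ (-(1 / 4) : ℝ) :=
      Real.rpow_le_rpow_of_exponent_le (by norm_num) (by norm_num)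
    rw [Real.rpow_neg_one] at h6
    linarith
  have h7 := Real.log_le_sub_one_of_pos h
  rw [Real.log_pow, abs_le]
  push_cast
  constructor <;> linarith

theorem log_hl' {x y : ℝ} (hy : 0 < y) (hxy : y ≤ x) :
    Real.log x - Real.log y ≤ 4 * ((x - y) ^ (1 / 4 : ℝ) * y ^ (-(1 / 4) : ℝ)) := by
  have hx : 0 < x := lt_of_lt_of_le hy hxy
  have h1 : Real.log ((x / y) ^ (1 / 4 : ℝ)) = (1 / 4) * (Real.log x - Real.log y) := by
    rw [Real.log_rpow (div_pos hx hy), Real.log_div hx.ne' hy.ne']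
  have h2 := Real.log_le_sub_one_of_pos (Real.rpow_pos_of_pos (div_pos hx hy) (1 / 4 : ℝ))
  rw [h1] at h2
  have h3 : x ^ (1 / 4 : ℝ) ≤ (x - y) ^ (1 / 4 : ℝ) + y ^ (1 / 4 : ℝ) := by
    have := Real.rpow_add_le_add_rpow (sub_nonneg.2 hxy) hy.le (p := (1 / 4 : ℝ)) (by norm_num)
      (by norm_num)
    rwa [sub_add_cancel] at this
  have h4 : (x / y) ^ (1 / 4 : ℝ) = x ^ (1 / 4 : ℝ) * y ^ (-(1 / 4) : ℝ) := by
    rw [Real.div_rpow hx.le hy.le, Real.rpow_neg hy.le, div_eq_mul_inv]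
  have h5 : y ^ (1 / 4 : ℝ) * y ^ (-(1 / 4) : ℝ) = 1 := by
    rw [← Real.rpow_add hy]
    norm_num
  have h6 : 0 < y ^ (-(1 / 4) : ℝ) := Real.rpow_pos_of_pos hy _
  have h7 := mul_le_mul_of_nonneg_right h3 h6.le
  rw [add_mul, h5, ← h4] at h7
  linarith

theorem log_hl {x y d : ℝ} (hx : 0 < x) (hy : 0 < y) (hd : |x - y| ≤ d) :
    |Real.log (x ^ 2) - Real.log (y ^ 2)| ≤
      8 * (d ^ (1 / 4 : ℝ) * (x ^ (-(1 / 4) : ℝ) + y ^ (-(1 / 4) : ℝ))) := by
  have hd0 : 0 ≤ d := (abs_nonneg _).trans hd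
  have h6 : 0 < y ^ (-(1 / 4) : ℝ) := Real.rpow_pos_of_pos hy _
  have h6' : 0 < x ^ (-(1 / 4) : ℝ) := Real.rpow_pos_of_pos hx _
  have hdd : 0 ≤ d ^ (1 / 4 : ℝ) := Real.rpow_nonneg hd0 _
  rw [Real.log_pow, Real.log_pow]
  push_cast
  rw [← mul_sub, abs_mul]
  have key : |Real.log x - Real.log y| ≤
      4 * (d ^ (1 / 4 : ℝ) * (x ^ (-(1 / 4) : ℝ) + y ^ (-(1 / 4) : ℝ))) := by
    rcases le_total y x with h | h
    · have h1 := log_hl' hy h
      rw [abs_of_nonneg (sub_nonneg.2 (Real.log_le_log hy h))]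
      refine h1.trans ?_
      have h2 : (x - y) ^ (1 / 4 : ℝ) ≤ d ^ (1 / 4 : ℝ) :=
        Real.rpow_le_rpow (sub_nonneg.2 h) ((le_abs_self _).trans hd) (by norm_num)
      have h3 := mul_le_mul_of_nonneg_right h2 h6.le
      nlinarith [mul_nonneg hdd h6'.le]
    · have h1 := log_hl' hx h
      rw [abs_sub_comm, abs_of_nonneg (sub_nonneg.2 (Real.log_le_log hx h))]
      refine h1.trans ?_
      have h2 : (y - x) ^ (1 / 4 : ℝ) ≤ d ^ (1 / 4 : ℝ) :=
        Real.rpow_le_rpow (sub_nonneg.2 h) ((le_abs_self _).trans (by rwa [abs_sub_comm])) (by norm_num)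
      have h3 := mul_le_mul_of_nonneg_right h2 h6'.le
      nlinarith [mul_nonneg hdd h6.le]
  rw [abs_of_pos (by norm_num : (0:ℝ) < 2)]
  linarith

theorem sx_nonneg (s : ℂ) : 0 ≤ sx s := norm_nonneg _

theorem ww_nonneg (s : ℂ) : 0 ≤ ww s := Real.rpow_nonneg (sx_nonneg s) _

theorem meas_sx : Measurable sx := by
  unfold sx
  fun_prop

theorem meas_ww : Measurable ww := meas_sx.pow_const _

theorem ae_ne (v : ℂ) : ∀ᵐ s ∂(volume.restrict DD), s ≠ v := by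
  refine ae_restrict_of_ae ?_
  have : ({v} : Set ℂ)ᶜ ∈ ae (volume : Measure ℂ) := by
    rw [compl_mem_ae_iff]
    exact measure_singleton v
  exact this

theorem ae_16 : ∀ᵐ s ∂(volume.restrict DD), s ^ 16 + 1 ≠ 0 := by
  refine ae_restrict_of_ae ?_
  have hfin : {s : ℂ | s ^ 16 + 1 = 0}.Finite := by
    have hp : (Polynomial.X ^ 16 + Polynomial.C 1 : Polynomial ℂ) ≠ 0 :=
      Polynomial.X_pow_add_C_ne_zero (by norm_num) 1
    refine (Polynomial.rootSet_finite (Polynomial.X ^ 16 + Polynomial.C 1 : Polynomial ℂ) ℂ).subset ?_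
    intro s hs
    rw [Polynomial.mem_rootSet]
    refine ⟨hp, ?_⟩
    simpa using hs
  have : ({s : ℂ | s ^ 16 + 1 = 0})ᶜ ∈ ae (volume : Measure ℂ) := by
    rw [compl_mem_ae_iff]
    exact hfin.measure_zero _
  exact this

theorem meas_DD : MeasurableSet DD := Metric.isClosed_closedBall.measurableSet

theorem mem_DD {s : ℂ} : s ∈ DD ↔ ‖s‖ ≤ 1 := by
  unfold DD
  rw [mem_closedBall_zero_iff]

theorem conj_DD {s : ℂ} (h : s ∈ DD) : (starRingEnd ℂ) s ∈ DD := by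
  rw [mem_DD] at h ⊢
  rwa [Complex.norm_conj]

theorem norm_sub_le2 {v s : ℂ} (hv : v ∈ DD) (hs : s ∈ DD) : ‖v - s‖ ≤ 2 := by
  rw [mem_DD] at hv hs
  linarith [norm_sub_le v s]

theorem norm_one_sub_le2 {v s : ℂ} (hv : v ∈ DD) (hs : s ∈ DD) : ‖1 - v * s‖ ≤ 2 := by
  rw [mem_DD] at hv hs
  have h1 : ‖v * s‖ ≤ 1 := by
    rw [norm_mul]
    nlinarith [norm_nonneg v, norm_nonneg s]
  have h2 := norm_sub_le (1 : ℂ) (v * s)
  rw [norm_one] at h2
  linarith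

theorem norm_conj_sub_le {v s : ℂ} (hv : v ∈ DD) (hs : s ∈ DD) :
    ‖(starRingEnd ℂ) v - s‖ ≤ ‖1 - v * s‖ := by
  rw [mem_DD] at hv hs
  have hv' : v.re ^ 2 + v.im ^ 2 ≤ 1 := by
    have := Complex.sq_norm v
    rw [Complex.normSq_apply] at this
    nlinarith [norm_nonneg v]
  have hs' : s.re ^ 2 + s.im ^ 2 ≤ 1 := by
    have := Complex.sq_norm s
    rw [Complex.normSq_apply] at this
    nlinarith [norm_nonneg s]
  rw [← abs_of_nonneg (norm_nonneg ((starRingEnd ℂ) v - s)),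
    ← abs_of_nonneg (norm_nonneg (1 - v * s)), ← sq_le_sq, Complex.sq_norm, Complex.sq_norm,
    Complex.normSq_apply, Complex.normSq_apply]
  simp only [Complex.sub_re, Complex.sub_im, Complex.conj_re, Complex.conj_im, Complex.mul_re,
    Complex.mul_im, Complex.one_re, Complex.one_im]
  nlinarith [mul_nonneg (sub_nonneg.2 hv') (sub_nonneg.2 hs')]

/-- the bound of the second kernel -/
theorem kern2 {v s : ℂ} (hv : v ∈ DD) (hs : s ∈ DD) (hne : s ≠ (starRingEnd ℂ) v) :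
    ‖1 - v * s‖ ^ (-(1 / 4) : ℝ) ≤ ‖(starRingEnd ℂ) v - s‖ ^ (-(1 / 4) : ℝ) :=
  Real.rpow_le_rpow_of_nonpos (norm_pos_iff.2 (sub_ne_zero.2 hne.symm)) (norm_conj_sub_le hv hs)
    (by norm_num)

/-- Generic estimate. -/
theorem gen {K0 : ℝ} (hK : ∀ v : ℂ, IntegrableOn (fun s => ww s * ‖v - s‖ ^ (-(1 / 4) : ℝ)) DD ∧
    ∫ s in DD, ww s * ‖v - s‖ ^ (-(1 / 4) : ℝ) ≤ K0) {w : ℂ} {c A : ℝ} (hc : 0 ≤ c) (hA : 0 ≤ A)
    {g : ℂ → ℝ}
    (hg : Measurable g) {k : ℂ → ℝ} (hk : Measurable k)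
    (hgb : ∀ s ∈ DD, s ^ 16 + 1 ≠ 0 → ‖g s‖ ≤ c * ww s)
    (hkb : ∀ s ∈ DD, s ≠ w → |k s| ≤ A * ‖w - s‖ ^ (-(1 / 4) : ℝ)) :
    IntegrableOn (fun s => k s * g s) DD ∧ |∫ s in DD, k s * g s| ≤ A * c * K0 := by
  have hi := (hK w).1.const_mul (A * c)
  have hb : ∀ᵐ s ∂(volume.restrict DD), ‖k s * g s‖ ≤
      A * c * (ww s * ‖w - s‖ ^ (-(1 / 4) : ℝ)) := by
    filter_upwards [ae_ne w, ae_16, ae_restrict_mem meas_DD] with s h1 h2 h3
    rw [norm_mul, Real.norm_eq_abs]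
    calc |k s| * ‖g s‖ ≤ (A * ‖w - s‖ ^ (-(1 / 4) : ℝ)) * (c * ww s) :=
          mul_le_mul (hkb s h3 h1) (hgb s h3 h2) (norm_nonneg _)
            (mul_nonneg hA (Real.rpow_nonneg (norm_nonneg _) _))
      _ = _ := by ring
  have hint : IntegrableOn (fun s => k s * g s) DD :=
    Integrable.mono' hi (hk.mul hg).aestronglyMeasurable hb
  refine ⟨hint, ?_⟩
  rw [← Real.norm_eq_abs]
  calc ‖∫ s in DD, k s * g s‖ ≤ ∫ s in DD, A * c * (ww s * ‖w - s‖ ^ (-(1 / 4) : ℝ)) :=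
        norm_integral_le_of_norm_le hi hb
    _ = A * c * ∫ s in DD, ww s * ‖w - s‖ ^ (-(1 / 4) : ℝ) := integral_const_mul _ _
    _ ≤ A * c * K0 := mul_le_mul_of_nonneg_left (hK w).2 (mul_nonneg hA hc)

theorem gen2 {K0 : ℝ} (hK : ∀ v : ℂ, IntegrableOn (fun s => ww s * ‖v - s‖ ^ (-(1 / 4) : ℝ)) DD ∧
    ∫ s in DD, ww s * ‖v - s‖ ^ (-(1 / 4) : ℝ) ≤ K0) {w w' : ℂ} {c A : ℝ} (hc : 0 ≤ c)
    (hA : 0 ≤ A) {g : ℂ → ℝ} {k : ℂ → ℝ}
    (hgb : ∀ s ∈ DD, s ^ 16 + 1 ≠ 0 → ‖g s‖ ≤ c * ww s)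
    (hkb : ∀ s ∈ DD, s ≠ w → s ≠ w' →
      |k s| ≤ A * (‖w - s‖ ^ (-(1 / 4) : ℝ) + ‖w' - s‖ ^ (-(1 / 4) : ℝ))) :
    |∫ s in DD, k s * g s| ≤ 2 * (A * c * K0) := by
  have hi := ((hK w).1.add (hK w').1).const_mul (A * c)
  have hb : ∀ᵐ s ∂(volume.restrict DD), ‖k s * g s‖ ≤
      A * c * (ww s * ‖w - s‖ ^ (-(1 / 4) : ℝ) + ww s * ‖w' - s‖ ^ (-(1 / 4) : ℝ)) := by
    filter_upwards [ae_ne w, ae_ne w', ae_16, ae_restrict_mem meas_DD] with s h1 h1' h2 h3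
    rw [norm_mul, Real.norm_eq_abs]
    calc |k s| * ‖g s‖ ≤
          (A * (‖w - s‖ ^ (-(1 / 4) : ℝ) + ‖w' - s‖ ^ (-(1 / 4) : ℝ))) * (c * ww s) :=
          mul_le_mul (hkb s h3 h1 h1') (hgb s h3 h2) (norm_nonneg _)
            (mul_nonneg hA (add_nonneg (Real.rpow_nonneg (norm_nonneg _) _)
              (Real.rpow_nonneg (norm_nonneg _) _)))
      _ = _ := by ring
  rw [← Real.norm_eq_abs]
  calc ‖∫ s in DD, k s * g s‖ ≤ ∫ s in DD,
        A * c * (ww s * ‖w - s‖ ^ (-(1 / 4) : ℝ) + ww s * ‖w' - s‖ ^ (-(1 / 4) : ℝ)) :=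
        norm_integral_le_of_norm_le hi hb
    _ = A * c * ((∫ s in DD, ww s * ‖w - s‖ ^ (-(1 / 4) : ℝ)) +
        ∫ s in DD, ww s * ‖w' - s‖ ^ (-(1 / 4) : ℝ)) := by
        rw [integral_const_mul, integral_add (hK w).1 (hK w').1]
    _ ≤ A * c * (K0 + K0) := mul_le_mul_of_nonneg_left (add_le_add (hK w).2 (hK w').2)
        (mul_nonneg hA hc)
    _ = _ := by ring

theorem int_ww {K0 : ℝ}
    (hK : ∀ v : ℂ, IntegrableOn (fun s => ww s * ‖v - s‖ ^ (-(1 / 4) : ℝ)) DD ∧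
    ∫ s in DD, ww s * ‖v - s‖ ^ (-(1 / 4) : ℝ) ≤ K0) : IntegrableOn ww DD := by
  refine Integrable.mono' (hK 0).1 meas_ww.aestronglyMeasurable ?_
  filter_upwards [ae_ne 0, ae_restrict_mem meas_DD] with s h1 h3
  rw [Real.norm_eq_abs, abs_of_nonneg (ww_nonneg s), zero_sub, norm_neg]
  rw [mem_DD] at h3
  have : 1 ≤ ‖s‖ ^ (-(1 / 4) : ℝ) :=
    Real.one_le_rpow_of_pos_of_le_one_of_nonpos (norm_pos_iff.2 h1) h3 (by norm_num)
  nlinarith [ww_nonneg s]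

theorem log_le3 {x : ℝ} (h0 : 0 ≤ x) (h2 : x ≤ 2) : Real.log (x ^ 2) ≤ 3 := by
  rcases h0.eq_or_lt with h | h
  · rw [← h]
    simp
  have := Real.log_le_sub_one_of_pos (pow_pos h 2)
  nlinarith

end OPLL

open OPLL in
theorem t_OPL (h : S_KER) : S_OPL := by
  obtain ⟨K0, hK0, hK, -, -⟩ := h
  refine ⟨32 * K0 + 3, by positivity, fun G c hG hc hD => ?_⟩
  have hGb : ∀ j, ∀ s ∈ DD, s ^ 16 + 1 ≠ 0 → ‖G j s‖ ≤ c * ww s := hD
  have hGi : ∀ j, IntegrableOn (G j) DD := by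
    intro j
    refine Integrable.mono' ((int_ww hK).const_mul c) (hG j).aestronglyMeasurable ?_
    filter_upwards [ae_16, ae_restrict_mem meas_DD] with s h2 h3
    exact hGb j s h3 h2
  have hpi : (1 : ℝ) / Real.pi ≤ 1 := by
    rw [div_le_one Real.pi_pos]
    linarith [Real.pi_gt_three]
  have hpi0 : 0 < (1 : ℝ) / Real.pi := by positivity
  -- the two kernels
  have hm1 : ∀ v : ℂ, Measurable fun s : ℂ => Real.log (‖v - s‖ ^ 2) := by
    intro v
    fun_prop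
  have hm2 : ∀ v : ℂ, Measurable fun s : ℂ => Real.log (‖1 - v * s‖ ^ 2) := by
    intro v
    fun_prop
  have hk1 : ∀ j, ∀ v ∈ DD, IntegrableOn (fun s => Real.log (‖v - s‖ ^ 2) * G j s) DD ∧
      |∫ s in DD, Real.log (‖v - s‖ ^ 2) * G j s| ≤ 8 * c * K0 := by
    intro j v hv
    refine gen hK (w := v) hc (by norm_num) (hG j) (hm1 v) (hGb j) fun s hs _ => ?_
    exact log_bd (norm_nonneg _) (norm_sub_le2 hv hs)
  have hk2 : ∀ j, ∀ v ∈ DD, IntegrableOn (fun s => Real.log (‖1 - v * s‖ ^ 2) * G j s) DD ∧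
      |∫ s in DD, Real.log (‖1 - v * s‖ ^ 2) * G j s| ≤ 8 * c * K0 := by
    intro j v hv
    refine gen hK (w := (starRingEnd ℂ) v) hc (by norm_num) (hG j) (hm2 v) (hGb j)
      fun s hs hne => ?_
    refine (log_bd (norm_nonneg _) (norm_one_sub_le2 hv hs)).trans ?_
    exact mul_le_mul_of_nonneg_left (kern2 hv hs hne) (by norm_num)
  refine ⟨hGi, ?_, ?_, ?_, ?_⟩
  · -- measurability
    intro j
    unfold PL
    refine Measurable.const_mul (Measurable.add ?_ ?_) _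
    · have : StronglyMeasurable (Function.uncurry fun v s : ℂ => Real.log (‖v - s‖ ^ 2) * G j s) := by
        refine Measurable.stronglyMeasurable ?_
        have h1 : Measurable fun q : ℂ × ℂ => G j q.2 := (hG j).comp measurable_snd
        have h2 : Measurable fun q : ℂ × ℂ => Real.log (‖q.1 - q.2‖ ^ 2) := by fun_prop
        exact h2.mul h1
      exact (this.integral_prod_right (ν := volume.restrict DD)).measurable
    · have : StronglyMeasurable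
          (Function.uncurry fun v s : ℂ => Real.log (‖1 - v * s‖ ^ 2) * G (!j) s) := by
        refine Measurable.stronglyMeasurable ?_
        have h1 : Measurable fun q : ℂ × ℂ => G (!j) q.2 := (hG (!j)).comp measurable_snd
        have h2 : Measurable fun q : ℂ × ℂ => Real.log (‖1 - q.1 * q.2‖ ^ 2) := by fun_prop
        exact h2.mul h1
      exact (this.integral_prod_right (ν := volume.restrict DD)).measurable
  · intro j v hv
    refine ⟨(hk1 j v hv).1, (hk2 (!j) v hv).1, ?_⟩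
    unfold PL
    rw [abs_mul, abs_of_pos hpi0]
    have h1 := (hk1 j v hv).2
    have h2 := (hk2 (!j) v hv).2
    have h3 := abs_add_le (∫ s in DD, Real.log (‖v - s‖ ^ 2) * G j s)
      (∫ s in DD, Real.log (‖1 - v * s‖ ^ 2) * G (!j) s)
    have h4 : (0:ℝ) ≤ c * K0 := by positivity
    calc (1 / Real.pi) * |(∫ s in DD, Real.log (‖v - s‖ ^ 2) * G j s) +
          ∫ s in DD, Real.log (‖1 - v * s‖ ^ 2) * G (!j) s|
        ≤ 1 * (8 * c * K0 + 8 * c * K0) :=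
          mul_le_mul hpi (h3.trans (add_le_add h1 h2)) (abs_nonneg _) zero_le_one
      _ ≤ (32 * K0 + 3) * c := by nlinarith
  · intro j v hv v' hv'
    have hd0 : 0 ≤ ‖v - v'‖ ^ (1 / 4 : ℝ) := Real.rpow_nonneg (norm_nonneg _) _
    have e1 : (∫ s in DD, Real.log (‖v - s‖ ^ 2) * G j s) -
        (∫ s in DD, Real.log (‖v' - s‖ ^ 2) * G j s) =
        ∫ s in DD, (Real.log (‖v - s‖ ^ 2) - Real.log (‖v' - s‖ ^ 2)) * G j s := by
      rw [← integral_sub (hk1 j v hv).1 (hk1 j v' hv').1]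
      refine integral_congr_ae (ae_of_all _ fun s => ?_)
      simp only
      ring
    have e2 : (∫ s in DD, Real.log (‖1 - v * s‖ ^ 2) * G (!j) s) -
        (∫ s in DD, Real.log (‖1 - v' * s‖ ^ 2) * G (!j) s) =
        ∫ s in DD, (Real.log (‖1 - v * s‖ ^ 2) - Real.log (‖1 - v' * s‖ ^ 2)) * G (!j) s := by
      rw [← integral_sub (hk2 (!j) v hv).1 (hk2 (!j) v' hv').1]
      refine integral_congr_ae (ae_of_all _ fun s => ?_)
      simp only
      ring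
    have b1 : |∫ s in DD, (Real.log (‖v - s‖ ^ 2) - Real.log (‖v' - s‖ ^ 2)) * G j s| ≤
        2 * ((8 * ‖v - v'‖ ^ (1 / 4 : ℝ)) * c * K0) := by
      refine gen2 hK (w := v) (w' := v') hc (by positivity) (hGb j) fun s hs h1 h2 => ?_
      have := log_hl (norm_pos_iff.2 (sub_ne_zero.2 h1.symm))
        (norm_pos_iff.2 (sub_ne_zero.2 h2.symm)) (d := ‖v - v'‖) (by
          have := abs_norm_sub_norm_le (v - s) (v' - s)
          rwa [sub_sub_sub_cancel_right] at this)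
      rw [mul_assoc]
      exact this
    have b2 : |∫ s in DD, (Real.log (‖1 - v * s‖ ^ 2) - Real.log (‖1 - v' * s‖ ^ 2)) *
        G (!j) s| ≤ 2 * ((8 * ‖v - v'‖ ^ (1 / 4 : ℝ)) * c * K0) := by
      refine gen2 hK (w := (starRingEnd ℂ) v) (w' := (starRingEnd ℂ) v') hc (by positivity)
        (hGb (!j)) fun s hs h1 h2 => ?_
      have p1 : 0 < ‖1 - v * s‖ :=
        lt_of_lt_of_le (norm_pos_iff.2 (sub_ne_zero.2 h1.symm)) (norm_conj_sub_le hv hs)
      have p2 : 0 < ‖1 - v' * s‖ :=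
        lt_of_lt_of_le (norm_pos_iff.2 (sub_ne_zero.2 h2.symm)) (norm_conj_sub_le hv' hs)
      have := log_hl p1 p2 (d := ‖v - v'‖) (by
          have h3 := abs_norm_sub_norm_le (1 - v * s) (1 - v' * s)
          have h4 : (1 - v * s) - (1 - v' * s) = - ((v - v') * s) := by ring
          rw [h4, norm_neg, norm_mul] at h3
          refine h3.trans ?_
          have h5 : ‖s‖ ≤ 1 := mem_DD.1 hs
          nlinarith [norm_nonneg (v - v')])
      refine this.trans ?_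
      rw [mul_assoc]
      refine mul_le_mul_of_nonneg_left (mul_le_mul_of_nonneg_left
        (add_le_add (kern2 hv hs h1) (kern2 hv' hs h2)) hd0) (by norm_num)
    unfold PL
    rw [← mul_sub, abs_mul, abs_of_pos hpi0, add_sub_add_comm, e1, e2]
    have h3 := abs_add_le (∫ s in DD, (Real.log (‖v - s‖ ^ 2) - Real.log (‖v' - s‖ ^ 2)) * G j s)
      (∫ s in DD, (Real.log (‖1 - v * s‖ ^ 2) - Real.log (‖1 - v' * s‖ ^ 2)) * G (!j) s)
    have h5 : 0 ≤ c * ‖v - v'‖ ^ (1 / 4 : ℝ) := mul_nonneg hc hd0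
    calc (1 / Real.pi) * |(∫ s in DD, (Real.log (‖v - s‖ ^ 2) - Real.log (‖v' - s‖ ^ 2)) * G j s) +
          ∫ s in DD, (Real.log (‖1 - v * s‖ ^ 2) - Real.log (‖1 - v' * s‖ ^ 2)) * G (!j) s|
        ≤ 1 * (2 * ((8 * ‖v - v'‖ ^ (1 / 4 : ℝ)) * c * K0) +
            2 * ((8 * ‖v - v'‖ ^ (1 / 4 : ℝ)) * c * K0)) :=
          mul_le_mul hpi (h3.trans (add_le_add b1 b2)) (abs_nonneg _) zero_le_one
      _ = 32 * K0 * (c * ‖v - v'‖ ^ (1 / 4 : ℝ)) := by ring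
      _ ≤ (32 * K0 + 3) * c * ‖v - v'‖ ^ (1 / 4 : ℝ) := by nlinarith
  · intro hpos j v hv
    have i1 : ∫ s in DD, Real.log (‖v - s‖ ^ 2) * G j s ≤ 3 * ∫ s in DD, G j s := by
      rw [← integral_const_mul]
      refine setIntegral_mono_on (hk1 j v hv).1 ((hGi j).const_mul 3) meas_DD fun s hs => ?_
      exact mul_le_mul_of_nonneg_right (log_le3 (norm_nonneg _) (norm_sub_le2 hv hs)) (hpos j s hs)
    have i2 : ∫ s in DD, Real.log (‖1 - v * s‖ ^ 2) * G (!j) s ≤ 3 * ∫ s in DD, G (!j) s := by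
      rw [← integral_const_mul]
      refine setIntegral_mono_on (hk2 (!j) v hv).1 ((hGi (!j)).const_mul 3) meas_DD fun s hs => ?_
      exact mul_le_mul_of_nonneg_right (log_le3 (norm_nonneg _) (norm_one_sub_le2 hv hs))
        (hpos (!j) s hs)
    have i3 : ∀ j, 0 ≤ ∫ s in DD, G j s := fun j => setIntegral_nonneg meas_DD (hpos j)
    have i4 : tot G = (∫ s in DD, G j s) + ∫ s in DD, G (!j) s := by
      unfold tot
      rw [Fintype.sum_bool]
      cases j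
      · exact add_comm _ _
      · rfl
    have i5 : 0 ≤ tot G := by
      rw [i4]
      exact add_nonneg (i3 _) (i3 _)
    unfold PL
    calc (1 / Real.pi) * ((∫ s in DD, Real.log (‖v - s‖ ^ 2) * G j s) +
          ∫ s in DD, Real.log (‖1 - v * s‖ ^ 2) * G (!j) s)
        ≤ (1 / Real.pi) * (3 * tot G) := by
          refine mul_le_mul_of_nonneg_left ?_ hpi0.le
          rw [i4]
          linarith
      _ ≤ 1 * (3 * tot G) := mul_le_mul_of_nonneg_right hpi (by positivity)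
      _ ≤ (32 * K0 + 3) * tot G := by nlinarith

end Pool.Agent.H794.EX
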