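import Pool.Agent.H794.EX.Spec

/-!
Leaf OPX: bound and Hoelder continuity of the operator `PX`.
-/

set_option autoImplicit false

open scoped Manifold ContDiff Matrix ComplexOrder
open Matrix Topology MeasureTheory Set Filter

namespace Pool.Agent.H794.EX

open Pool.Agent.Helper614.HE Pool.Agent.H794

namespace OPXL

/-- the exceptional set -/
def Ex : Set ℂ := {s : ℂ | s ^ 16 + 1 = 0}

lemma ex_finite : Ex.Finite := by
  have h : (Polynomial.X ^ 16 + 1 : Polynomial ℂ) ≠ 0 :=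
    (Polynomial.monic_X_pow_add_C (1 : ℂ) (by norm_num : (16 : ℕ) ≠ 0)).ne_zero
  refine (Polynomial.finite_setOfPred_isRoot h).subset fun s hs => ?_
  have hs' : s ^ 16 + 1 = 0 := hs
  simp [Polynomial.IsRoot.def, hs']

lemma dom_ae (S : Set ℂ) (hS : S.Finite) {f : ℂ → ℂ} {φ : ℂ → ℝ}
    (h : ∀ s ∈ DD, s ^ 16 + 1 ≠ 0 → s ∉ S → ‖f s‖ ≤ φ s) :
    ∀ᵐ s ∂(volume.restrict DD), ‖f s‖ ≤ φ s := by
  have hm : MeasurableSet DD := Metric.isClosed_closedBall.measurableSet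
  rw [ae_restrict_iff' hm]
  have h1 : ∀ᵐ s : ℂ, s ∉ Ex ∪ S := by
    have h2 : (volume : Measure ℂ) (Ex ∪ S) = 0 := (ex_finite.union hS).measure_zero _
    exact measure_eq_zero_iff_ae_notMem.1 h2
  filter_upwards [h1] with s hs hD
  exact h s hD (fun e => hs (Or.inl e)) (fun e => hs (Or.inr e))

lemma dom_int (S : Set ℂ) (hS : S.Finite) {f : ℂ → ℂ} {φ : ℂ → ℝ} (hf : Measurable f)
    (hφ : IntegrableOn φ DD) (h : ∀ s ∈ DD, s ^ 16 + 1 ≠ 0 → s ∉ S → ‖f s‖ ≤ φ s) :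
    IntegrableOn f DD ∧ ‖∫ s in DD, f s‖ ≤ ∫ s in DD, φ s :=
  ⟨Integrable.mono' hφ hf.aestronglyMeasurable (dom_ae S hS h),
    norm_integral_le_of_norm_le hφ (dom_ae S hS h)⟩

/-- the kernel estimate -/
lemma ker_le {a b d : ℝ} (ha : 0 < a) (hb : 0 < b) (hd : 0 ≤ d) (hab : d ≤ a + b) :
    d / (a * b) ≤ 2 * d ^ (1 / 4 : ℝ) * (a ^ (-(5 / 4) : ℝ) + b ^ (-(5 / 4) : ℝ)) := by
  have main : ∀ {a b : ℝ}, 0 < a → 0 < b → a ≤ b → d ≤ a + b →
      d / (a * b) ≤ 2 * d ^ (1 / 4 : ℝ) * a ^ (-(5 / 4) : ℝ) := by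
    intro a b ha hb hab hd'
    have h1 : d = d ^ (1 / 4 : ℝ) * d ^ (3 / 4 : ℝ) := by
      rw [← Real.rpow_add_of_nonneg hd (by norm_num) (by norm_num)]
      norm_num
    have h2 : d ^ (3 / 4 : ℝ) ≤ 2 * b ^ (3 / 4 : ℝ) := by
      calc d ^ (3 / 4 : ℝ) ≤ (2 * b) ^ (3 / 4 : ℝ) :=
            Real.rpow_le_rpow hd (by linarith) (by norm_num)
        _ = 2 ^ (3 / 4 : ℝ) * b ^ (3 / 4 : ℝ) := Real.mul_rpow (by norm_num) hb.le
        _ ≤ 2 * b ^ (3 / 4 : ℝ) := by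
            gcongr
            calc (2 : ℝ) ^ (3 / 4 : ℝ) ≤ 2 ^ (1 : ℝ) :=
                  Real.rpow_le_rpow_of_exponent_le (by norm_num) (by norm_num)
              _ = 2 := Real.rpow_one 2
    have h3 : b ^ (3 / 4 : ℝ) / (a * b) ≤ a ^ (-(5 / 4) : ℝ) := by
      have e1 : b ^ (3 / 4 : ℝ) / (a * b) = a⁻¹ * b ^ (-(1 / 4) : ℝ) := by
        have : b ^ (3 / 4 : ℝ) = b ^ (-(1 / 4) : ℝ) * b := by
          nth_rewrite 3 [← Real.rpow_one b]
          rw [← Real.rpow_add hb]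
          norm_num
        rw [this]
        field_simp
      have e2 : b ^ (-(1 / 4) : ℝ) ≤ a ^ (-(1 / 4) : ℝ) :=
        Real.rpow_le_rpow_of_nonpos ha hab (by norm_num)
      have e3 : a ^ (-(5 / 4) : ℝ) = a⁻¹ * a ^ (-(1 / 4) : ℝ) := by
        rw [← Real.rpow_neg_one a, ← Real.rpow_add ha]
        norm_num
      rw [e1, e3]
      gcongr
    have hd4 : 0 ≤ d ^ (1 / 4 : ℝ) := Real.rpow_nonneg hd _
    calc d / (a * b) = d ^ (1 / 4 : ℝ) * (d ^ (3 / 4 : ℝ) / (a * b)) := by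
          nth_rewrite 1 [h1]; ring
      _ ≤ d ^ (1 / 4 : ℝ) * (2 * b ^ (3 / 4 : ℝ) / (a * b)) := by gcongr
      _ = 2 * d ^ (1 / 4 : ℝ) * (b ^ (3 / 4 : ℝ) / (a * b)) := by ring
      _ ≤ 2 * d ^ (1 / 4 : ℝ) * a ^ (-(5 / 4) : ℝ) := by gcongr
  have hd4 : 0 ≤ d ^ (1 / 4 : ℝ) := Real.rpow_nonneg hd _
  have pa : 0 ≤ a ^ (-(5 / 4) : ℝ) := Real.rpow_nonneg ha.le _
  have pb : 0 ≤ b ^ (-(5 / 4) : ℝ) := Real.rpow_nonneg hb.le _
  rcases le_total a b with h | h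
  · refine (main ha hb h hab).trans ?_
    nlinarith [mul_nonneg hd4 pb]
  · have := main hb ha h (by linarith)
    rw [mul_comm b a] at this
    refine this.trans ?_
    nlinarith [mul_nonneg hd4 pa]

lemma inv_le {a : ℝ} (ha : 0 < a) (h2 : a ≤ 2) : a⁻¹ ≤ 2 * a ^ (-(5 / 4) : ℝ) := by
  have e1 : a⁻¹ = a ^ (1 / 4 : ℝ) * a ^ (-(5 / 4) : ℝ) := by
    rw [← Real.rpow_add ha, ← Real.rpow_neg_one]
    norm_num
  have e2 : a ^ (1 / 4 : ℝ) ≤ 2 := by
    calc a ^ (1 / 4 : ℝ) ≤ 2 ^ (1 / 4 : ℝ) := Real.rpow_le_rpow ha.le h2 (by norm_num)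
      _ ≤ 2 ^ (1 : ℝ) := Real.rpow_le_rpow_of_exponent_le (by norm_num) (by norm_num)
      _ = 2 := Real.rpow_one 2
  rw [e1]
  have : 0 ≤ a ^ (-(5 / 4) : ℝ) := Real.rpow_nonneg ha.le _
  gcongr

lemma norm_le_one {v : ℂ} (h : v ∈ DD) : ‖v‖ ≤ 1 := mem_closedBall_zero_iff.1 h

lemma conj_mem {v : ℂ} (h : v ∈ DD) : (starRingEnd ℂ) v ∈ DD := by
  rw [DD, mem_closedBall_zero_iff, Complex.norm_conj]
  exact norm_le_one h

lemma norm_sub_le_two {v s : ℂ} (hv : v ∈ DD) (hs : s ∈ DD) : ‖v - s‖ ≤ 2 :=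
  (norm_sub_le v s).trans (by linarith [norm_le_one hv, norm_le_one hs])

lemma refl_le {v s : ℂ} (hv : v ∈ DD) (hs : s ∈ DD) :
    ‖(starRingEnd ℂ) v - s‖ ≤ ‖1 - v * s‖ := by
  have h1 := norm_le_one hv
  have h2 := norm_le_one hs
  have e : ‖1 - v * s‖ ^ 2 - ‖(starRingEnd ℂ) v - s‖ ^ 2 = (1 - ‖v‖ ^ 2) * (1 - ‖s‖ ^ 2) := by
    simp only [← Complex.normSq_eq_norm_sq, Complex.normSq_apply, Complex.sub_re, Complex.sub_im,
      Complex.mul_re, Complex.mul_im, Complex.one_re, Complex.one_im, Complex.conj_re,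
      Complex.conj_im]
    ring
  have h3 : 0 ≤ (1 - ‖v‖ ^ 2) * (1 - ‖s‖ ^ 2) :=
    mul_nonneg (by nlinarith [norm_nonneg v]) (by nlinarith [norm_nonneg s])
  exact le_of_sq_le_sq (by linarith) (norm_nonneg _)

/-- the two integrals -/
noncomputable def I1 (g : Bool → ℂ → ℂ) (j : Bool) (v : ℂ) : ℂ := ∫ s in DD, g j s / (v - s)
noncomputable def I2 (g : Bool → ℂ → ℂ) (j : Bool) (v : ℂ) : ℂ := ∫ s in DD, g (!j) s / (1 - v * s)

lemma PX_eq (g : Bool → ℂ → ℂ) (j : Bool) (v : ℂ) :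
    PX g j v = ((1 / Real.pi : ℝ) : ℂ) * (I1 g j v - v ^ 11 * I2 g j v) := by
  unfold PX CK I1 I2
  have h : ∀ s : ℂ, -1 * v ^ 11 * s ^ 0 * g (!j) s / (1 - v * s) =
      (-v ^ 11) * (g (!j) s / (1 - v * s)) := fun s => by ring
  simp only [h, integral_const_mul]
  ring

section
variable {K : ℝ} (hK : ∀ v : ℂ, IntegrableOn (fun s => wh s * ‖v - s‖ ^ (-(5 / 4) : ℝ)) DD ∧
    ∫ s in DD, wh s * ‖v - s‖ ^ (-(5 / 4) : ℝ) ≤ K)
  {g : Bool → ℂ → ℂ} {c : ℝ} (hg : ∀ j, Measurable (g j)) (hc : 0 ≤ c) (hd : Dom wh c g)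

include hK hg hc hd

lemma int0 (j : Bool) : IntegrableOn (g j) DD := by
  refine (dom_int {0} (finite_singleton 0) (hg j) ((hK 0).1.const_mul c) ?_).1
  intro s hs h16 h0
  have h1 := hd j s hs h16
  have hs0 : 0 < ‖s‖ := norm_pos_iff.2 h0
  have h2 : (1 : ℝ) ≤ ‖(0 : ℂ) - s‖ ^ (-(5 / 4) : ℝ) := by
    rw [zero_sub, norm_neg]
    exact Real.one_le_rpow_of_pos_of_le_one_of_nonpos hs0 (norm_le_one hs) (by norm_num)
  have hw : 0 ≤ wh s := Real.rpow_nonneg (norm_nonneg _) _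
  calc ‖g j s‖ ≤ c * wh s := h1
    _ ≤ c * (wh s * ‖(0 : ℂ) - s‖ ^ (-(5 / 4) : ℝ)) := by
        gcongr
        exact le_mul_of_one_le_right hw h2

lemma int1 (j : Bool) {v : ℂ} (hv : v ∈ DD) :
    IntegrableOn (fun s => g j s / (v - s)) DD ∧ ‖I1 g j v‖ ≤ 2 * c * K := by
  have hm : Measurable (fun s => g j s / (v - s)) := (hg j).div (measurable_const.sub measurable_id)
  have h := dom_int {v} (finite_singleton v) hm ((hK v).1.const_mul (2 * c)) ?_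
  · refine ⟨h.1, h.2.trans ?_⟩
    rw [integral_const_mul]
    exact mul_le_mul_of_nonneg_left (hK v).2 (by positivity)
  · intro s hs h16 h0
    have h1 := hd j s hs h16
    have hs0 : 0 < ‖v - s‖ := norm_pos_iff.2 (sub_ne_zero.2 (fun e => h0 (by simp [e])))
    have h2 := inv_le hs0 (norm_sub_le_two hv hs)
    have hw : 0 ≤ wh s := Real.rpow_nonneg (norm_nonneg _) _
    rw [norm_div, div_eq_mul_inv]
    calc ‖g j s‖ * ‖v - s‖⁻¹ ≤ (c * wh s) * (2 * ‖v - s‖ ^ (-(5 / 4) : ℝ)) := by gcongr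
      _ = 2 * c * (wh s * ‖v - s‖ ^ (-(5 / 4) : ℝ)) := by ring

lemma int2 (j : Bool) {v : ℂ} (hv : v ∈ DD) :
    IntegrableOn (fun s => g (!j) s / (1 - v * s)) DD ∧ ‖I2 g j v‖ ≤ 2 * c * K := by
  have hm : Measurable (fun s => g (!j) s / (1 - v * s)) :=
    (hg (!j)).div (measurable_const.sub (measurable_const.mul measurable_id))
  have h := dom_int {(starRingEnd ℂ) v} (finite_singleton _) hm
    ((hK ((starRingEnd ℂ) v)).1.const_mul (2 * c)) ?_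
  · refine ⟨h.1, h.2.trans ?_⟩
    rw [integral_const_mul]
    exact mul_le_mul_of_nonneg_left (hK _).2 (by positivity)
  · intro s hs h16 h0
    have h1 := hd (!j) s hs h16
    have hs0 : 0 < ‖(starRingEnd ℂ) v - s‖ :=
      norm_pos_iff.2 (sub_ne_zero.2 (fun e => h0 (by simp [e])))
    have h2 := inv_le hs0 (norm_sub_le_two (conj_mem hv) hs)
    have h3 : ‖1 - v * s‖⁻¹ ≤ ‖(starRingEnd ℂ) v - s‖⁻¹ := inv_anti₀ hs0 (refl_le hv hs)
    have hw : 0 ≤ wh s := Real.rpow_nonneg (norm_nonneg _) _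
    rw [norm_div, div_eq_mul_inv]
    calc ‖g (!j) s‖ * ‖1 - v * s‖⁻¹ ≤
          (c * wh s) * (2 * ‖(starRingEnd ℂ) v - s‖ ^ (-(5 / 4) : ℝ)) := by
            gcongr
            exact h3.trans h2
      _ = 2 * c * (wh s * ‖(starRingEnd ℂ) v - s‖ ^ (-(5 / 4) : ℝ)) := by ring

lemma hol1 (j : Bool) {v v' : ℂ} (hv : v ∈ DD) (hv' : v' ∈ DD) :
    ‖I1 g j v - I1 g j v'‖ ≤ 4 * c * K * ‖v - v'‖ ^ (1 / 4 : ℝ) := by
  have i1 := (int1 hK hg hc hd j hv).1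
  have i2 := (int1 hK hg hc hd j hv').1
  have hd4 : 0 ≤ ‖v - v'‖ ^ (1 / 4 : ℝ) := Real.rpow_nonneg (norm_nonneg _) _
  unfold I1
  rw [← integral_sub i1 i2]
  have hm : Measurable (fun s => g j s / (v - s) - g j s / (v' - s)) :=
    ((hg j).div (measurable_const.sub measurable_id)).sub
      ((hg j).div (measurable_const.sub measurable_id))
  have h := dom_int {v, v'} (toFinite _) hm
    (((hK v).1.add (hK v').1).const_mul (2 * c * ‖v - v'‖ ^ (1 / 4 : ℝ))) ?_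
  · refine h.2.trans ?_
    simp only [Pi.add_apply]
    rw [integral_const_mul, integral_add (hK v).1 (hK v').1]
    calc 2 * c * ‖v - v'‖ ^ (1 / 4 : ℝ) * _ ≤ 2 * c * ‖v - v'‖ ^ (1 / 4 : ℝ) * (K + K) :=
          mul_le_mul_of_nonneg_left (add_le_add (hK v).2 (hK v').2) (by positivity)
      _ = _ := by ring
  · intro s hs h16 h0
    have h1 := hd j s hs h16
    have n1 : v - s ≠ 0 := sub_ne_zero.2 (fun e => h0 (by simp [e]))
    have n2 : v' - s ≠ 0 := sub_ne_zero.2 (fun e => h0 (by simp [e]))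
    have hw : 0 ≤ wh s := Real.rpow_nonneg (norm_nonneg _) _
    have e1 : g j s / (v - s) - g j s / (v' - s) = g j s * ((v' - v) / ((v - s) * (v' - s))) := by
      field_simp
      ring
    have e2 : ‖(v' - v) / ((v - s) * (v' - s))‖ = ‖v - v'‖ / (‖v - s‖ * ‖v' - s‖) := by
      rw [norm_div, norm_mul, norm_sub_rev]
    have h3 : ‖v - v'‖ ≤ ‖v - s‖ + ‖v' - s‖ := by
      have : v - v' = (v - s) - (v' - s) := by ring
      rw [this]; exact norm_sub_le _ _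
    have h4 := ker_le (norm_pos_iff.2 n1) (norm_pos_iff.2 n2) (norm_nonneg (v - v')) h3
    rw [e1, norm_mul, e2]
    simp only [Pi.add_apply]
    calc ‖g j s‖ * (‖v - v'‖ / (‖v - s‖ * ‖v' - s‖)) ≤ (c * wh s) *
          (2 * ‖v - v'‖ ^ (1 / 4 : ℝ) * (‖v - s‖ ^ (-(5 / 4) : ℝ) + ‖v' - s‖ ^ (-(5 / 4) : ℝ))) := by
            gcongr
      _ = _ := by ring

lemma hol2 (j : Bool) {v v' : ℂ} (hv : v ∈ DD) (hv' : v' ∈ DD) :
    ‖I2 g j v - I2 g j v'‖ ≤ 4 * c * K * ‖v - v'‖ ^ (1 / 4 : ℝ) := by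
  have i1 := (int2 hK hg hc hd j hv).1
  have i2 := (int2 hK hg hc hd j hv').1
  have hd4 : 0 ≤ ‖v - v'‖ ^ (1 / 4 : ℝ) := Real.rpow_nonneg (norm_nonneg _) _
  unfold I2
  rw [← integral_sub i1 i2]
  have hm : Measurable (fun s => g (!j) s / (1 - v * s) - g (!j) s / (1 - v' * s)) :=
    ((hg (!j)).div (measurable_const.sub (measurable_const.mul measurable_id))).sub
      ((hg (!j)).div (measurable_const.sub (measurable_const.mul measurable_id)))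
  have h := dom_int {(starRingEnd ℂ) v, (starRingEnd ℂ) v'} (toFinite _) hm
    (((hK ((starRingEnd ℂ) v)).1.add (hK ((starRingEnd ℂ) v')).1).const_mul
      (2 * c * ‖v - v'‖ ^ (1 / 4 : ℝ))) ?_
  · refine h.2.trans ?_
    simp only [Pi.add_apply]
    rw [integral_const_mul, integral_add (hK _).1 (hK _).1]
    calc 2 * c * ‖v - v'‖ ^ (1 / 4 : ℝ) * _ ≤ 2 * c * ‖v - v'‖ ^ (1 / 4 : ℝ) * (K + K) :=
          mul_le_mul_of_nonneg_left (add_le_add (hK _).2 (hK _).2) (by positivity)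
      _ = _ := by ring
  · intro s hs h16 h0
    have h1 := hd (!j) s hs h16
    have hs1 := norm_le_one hs
    have n1 : 0 < ‖(starRingEnd ℂ) v - s‖ :=
      norm_pos_iff.2 (sub_ne_zero.2 (fun e => h0 (by simp [e])))
    have n2 : 0 < ‖(starRingEnd ℂ) v' - s‖ :=
      norm_pos_iff.2 (sub_ne_zero.2 (fun e => h0 (by simp [e])))
    have r1 := refl_le hv hs
    have r2 := refl_le hv' hs
    have p1 : 0 < ‖1 - v * s‖ := n1.trans_le r1
    have p2 : 0 < ‖1 - v' * s‖ := n2.trans_le r2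
    have m1 : 1 - v * s ≠ 0 := norm_pos_iff.1 p1
    have m2 : 1 - v' * s ≠ 0 := norm_pos_iff.1 p2
    have hw : 0 ≤ wh s := Real.rpow_nonneg (norm_nonneg _) _
    have e1 : g (!j) s / (1 - v * s) - g (!j) s / (1 - v' * s) =
        g (!j) s * ((v - v') * s / ((1 - v * s) * (1 - v' * s))) := by
      rw [div_sub_div _ _ m1 m2, ← mul_div_assoc]
      congr 1
      ring
    have h3 : ‖(v - v') * s‖ ≤ ‖1 - v * s‖ + ‖1 - v' * s‖ := by
      have : (v - v') * s = (1 - v' * s) - (1 - v * s) := by ring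
      rw [this, add_comm]; exact norm_sub_le _ _
    have h4 := ker_le p1 p2 (norm_nonneg ((v - v') * s)) h3
    have h5 : ‖(v - v') * s‖ ^ (1 / 4 : ℝ) ≤ ‖v - v'‖ ^ (1 / 4 : ℝ) := by
      refine Real.rpow_le_rpow (norm_nonneg _) ?_ (by norm_num)
      rw [norm_mul]
      exact mul_le_of_le_one_right (norm_nonneg _) hs1
    have h6 : ‖1 - v * s‖ ^ (-(5 / 4) : ℝ) ≤ ‖(starRingEnd ℂ) v - s‖ ^ (-(5 / 4) : ℝ) :=
      Real.rpow_le_rpow_of_nonpos n1 r1 (by norm_num)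
    have h7 : ‖1 - v' * s‖ ^ (-(5 / 4) : ℝ) ≤ ‖(starRingEnd ℂ) v' - s‖ ^ (-(5 / 4) : ℝ) :=
      Real.rpow_le_rpow_of_nonpos n2 r2 (by norm_num)
    have q1 : 0 ≤ ‖1 - v * s‖ ^ (-(5 / 4) : ℝ) := Real.rpow_nonneg (norm_nonneg _) _
    have q2 : 0 ≤ ‖1 - v' * s‖ ^ (-(5 / 4) : ℝ) := Real.rpow_nonneg (norm_nonneg _) _
    rw [e1, norm_mul, norm_div, norm_mul (1 - v * s)]
    simp only [Pi.add_apply]
    calc ‖g (!j) s‖ * (‖(v - v') * s‖ / (‖1 - v * s‖ * ‖1 - v' * s‖)) ≤ (c * wh s) *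
          (2 * ‖v - v'‖ ^ (1 / 4 : ℝ) * (‖(starRingEnd ℂ) v - s‖ ^ (-(5 / 4) : ℝ) +
            ‖(starRingEnd ℂ) v' - s‖ ^ (-(5 / 4) : ℝ))) := by
            refine mul_le_mul h1 (h4.trans ?_) (by positivity) (by positivity)
            gcongr
      _ = _ := by ring

end

end OPXL

open OPXL in
theorem t_OPX (h : S_KER) : S_OPX := by
  obtain ⟨K, hK, -, h2, -⟩ := h
  refine ⟨52 * K, by positivity, ?_⟩
  intro g c hg hc hd
  have hpi : 1 / Real.pi ≤ 1 := by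
    rw [div_le_one Real.pi_pos]; linarith [Real.pi_gt_three]
  have hpi0 : 0 ≤ 1 / Real.pi := by positivity
  have npi : ‖((1 / Real.pi : ℝ) : ℂ)‖ = 1 / Real.pi := by
    rw [Complex.norm_real, Real.norm_of_nonneg hpi0]
  refine ⟨fun j => int0 h2 hg hc hd j, fun j v hv => ⟨(int1 h2 hg hc hd j hv).1,
    (int2 h2 hg hc hd j hv).1, ?_⟩, fun j v hv v' hv' => ?_⟩
  · have b1 := (int1 h2 hg hc hd j hv).2
    have b2 := (int2 h2 hg hc hd j hv).2
    have hv1 : ‖v ^ 11‖ ≤ 1 := by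
      rw [norm_pow]; exact pow_le_one₀ (norm_nonneg _) (norm_le_one hv)
    rw [PX_eq, norm_mul, npi]
    have b3 : ‖I1 g j v - v ^ 11 * I2 g j v‖ ≤ 4 * c * K := by
      refine (norm_sub_le _ _).trans ?_
      rw [norm_mul]
      have : ‖v ^ 11‖ * ‖I2 g j v‖ ≤ 1 * (2 * c * K) :=
        mul_le_mul hv1 b2 (norm_nonneg _) zero_le_one
      linarith
    have b4 : (1 / Real.pi) * ‖I1 g j v - v ^ 11 * I2 g j v‖ ≤ 1 * (4 * c * K) :=
      mul_le_mul hpi b3 (norm_nonneg _) zero_le_one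
    have : 0 ≤ c * K := by positivity
    nlinarith
  · have b2 := (int2 h2 hg hc hd j hv).2
    have c1 := hol1 h2 hg hc hd j hv hv'
    have c2 := hol2 h2 hg hc hd j hv hv'
    have hv1 := norm_le_one hv
    have hv1' := norm_le_one hv'
    set δ := ‖v - v'‖ ^ (1 / 4 : ℝ) with hδ
    have hδ0 : 0 ≤ δ := Real.rpow_nonneg (norm_nonneg _) _
    have hdδ : ‖v - v'‖ ≤ 2 * δ := by
      have e : ‖v - v'‖ = δ * ‖v - v'‖ ^ (3 / 4 : ℝ) := by
        rw [hδ, ← Real.rpow_add_of_nonneg (norm_nonneg _) (by norm_num) (by norm_num)]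
        norm_num
      have e2 : ‖v - v'‖ ^ (3 / 4 : ℝ) ≤ 2 := by
        calc ‖v - v'‖ ^ (3 / 4 : ℝ) ≤ 2 ^ (3 / 4 : ℝ) :=
              Real.rpow_le_rpow (norm_nonneg _) (norm_sub_le_two hv hv') (by norm_num)
          _ ≤ 2 ^ (1 : ℝ) := Real.rpow_le_rpow_of_exponent_le (by norm_num) (by norm_num)
          _ = 2 := Real.rpow_one 2
      rw [e]
      nlinarith
    have hp : ‖v ^ 11 - v' ^ 11‖ ≤ 22 * δ := by
      have e : v ^ 11 - v' ^ 11 = (∑ k ∈ Finset.range 11, v ^ k * v' ^ (11 - 1 - k)) * (v - v') :=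
        (Commute.geom_sum₂_mul (Commute.all v v') 11).symm
      have e2 : ‖∑ k ∈ Finset.range 11, v ^ k * v' ^ (11 - 1 - k)‖ ≤ 11 := by
        refine (norm_sum_le _ _).trans ?_
        calc ∑ k ∈ Finset.range 11, ‖v ^ k * v' ^ (11 - 1 - k)‖ ≤ ∑ k ∈ Finset.range 11, (1 : ℝ) := by
              refine Finset.sum_le_sum fun k _ => ?_
              rw [norm_mul, norm_pow, norm_pow]
              exact mul_le_one₀ (pow_le_one₀ (norm_nonneg _) hv1) (by positivity)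
                (pow_le_one₀ (norm_nonneg _) hv1')
          _ = 11 := by simp
      rw [e, norm_mul]
      calc _ ≤ 11 * (2 * δ) := mul_le_mul e2 hdδ (norm_nonneg _) (by norm_num)
        _ = 22 * δ := by ring
    have e : PX g j v - PX g j v' = ((1 / Real.pi : ℝ) : ℂ) * ((I1 g j v - I1 g j v') -
        ((v ^ 11 - v' ^ 11) * I2 g j v + v' ^ 11 * (I2 g j v - I2 g j v'))) := by
      rw [PX_eq, PX_eq]; ring
    have hv2 : ‖v' ^ 11‖ ≤ 1 := by
      rw [norm_pow]; exact pow_le_one₀ (norm_nonneg _) hv1'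
    have b3 : ‖(I1 g j v - I1 g j v') -
        ((v ^ 11 - v' ^ 11) * I2 g j v + v' ^ 11 * (I2 g j v - I2 g j v'))‖ ≤ 52 * K * c * δ := by
      refine (norm_sub_le _ _).trans ?_
      have d1 : ‖(v ^ 11 - v' ^ 11) * I2 g j v + v' ^ 11 * (I2 g j v - I2 g j v')‖ ≤
          22 * δ * (2 * c * K) + 1 * (4 * c * K * δ) := by
        refine (norm_add_le _ _).trans ?_
        rw [norm_mul, norm_mul]
        exact add_le_add (mul_le_mul hp b2 (norm_nonneg _) (by positivity))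
          (mul_le_mul hv2 c2 (norm_nonneg _) zero_le_one)
      nlinarith
    rw [e, norm_mul, npi]
    calc _ ≤ 1 * (52 * K * c * δ) := mul_le_mul hpi b3 (norm_nonneg _) zero_le_one
      _ = _ := one_mul _

end Pool.Agent.H794.EX
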