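import Pool.Agent.H794.EX.Spec

/-!
# PLN: a fixed point gives a solution of the first order system in the plane
-/

set_option autoImplicit false

open scoped Manifold ContDiff Matrix ComplexOrder
open Matrix Topology MeasureTheory Set Filter

namespace Pool.Agent.H794.EX

open Pool.Agent.Helper614.HE Pool.Agent.H794

namespace PLNL

/-! ### The weights -/

theorem sx_pos {s : ℂ} (h : s ^ 16 + 1 ≠ 0) : 0 < sx s := norm_pos_iff.2 h

theorem sx_conj (s : ℂ) : sx ((starRingEnd ℂ) s) = sx s := by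
  unfold sx
  rw [← RCLike.norm_conj (s ^ 16 + 1)]
  simp

theorem inv_ne {w : ℂ} (hw : w ≠ 0) (h : w ^ 16 + 1 ≠ 0) : (w⁻¹) ^ 16 + 1 ≠ 0 := by
  intro h2
  apply h
  have h3 : w ^ 16 * ((w⁻¹) ^ 16 + 1) = 0 := by rw [h2, mul_zero]
  have h4 : w ^ 16 * (w⁻¹) ^ 16 = 1 := by rw [← mul_pow, mul_inv_cancel₀ hw, one_pow]
  rw [mul_add, h4, mul_one, add_comm] at h3
  exact h3

theorem sx_inv {w : ℂ} (hw : w ≠ 0) : sx w⁻¹ = sx w / ‖w‖ ^ 16 := by
  unfold sx
  have hw' : (‖w‖ : ℝ) ^ 16 ≠ 0 := pow_ne_zero _ (norm_ne_zero_iff.2 hw)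
  rw [eq_div_iff hw', ← norm_pow, ← norm_mul]
  congr 1
  have h4 : (w⁻¹) ^ 16 * w ^ 16 = 1 := by rw [← mul_pow, inv_mul_cancel₀ hw, one_pow]
  rw [add_mul, h4, one_mul, add_comm]

theorem ww_inv {w : ℂ} (hw : w ≠ 0) : ww w⁻¹ = ww w * ‖w‖ ^ 24 := by
  have h0 : 0 < ‖w‖ := norm_pos_iff.2 hw
  have hsx : 0 ≤ sx w := norm_nonneg _
  unfold ww
  rw [sx_inv hw, Real.div_rpow hsx (by positivity), ← Real.rpow_natCast ‖w‖ 16,
    ← Real.rpow_mul h0.le, div_eq_mul_inv, ← Real.rpow_neg h0.le, ← Real.rpow_natCast ‖w‖ 24]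
  norm_num

theorem wh_inv {w : ℂ} (hw : w ≠ 0) : wh w⁻¹ = wh w * ‖w‖ ^ 8 := by
  have h0 : 0 < ‖w‖ := norm_pos_iff.2 hw
  have hsx : 0 ≤ sx w := norm_nonneg _
  unfold wh
  rw [sx_inv hw, Real.div_rpow hsx (by positivity), ← Real.rpow_natCast ‖w‖ 16,
    ← Real.rpow_mul h0.le, div_eq_mul_inv, ← Real.rpow_neg h0.le, ← Real.rpow_natCast ‖w‖ 8]
  norm_num

theorem wh_nonneg (s : ℂ) : 0 ≤ wh s := Real.rpow_nonneg (norm_nonneg _) _

theorem ww_nonneg (s : ℂ) : 0 ≤ ww s := Real.rpow_nonneg (norm_nonneg _) _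

theorem wh_conj (s : ℂ) : wh ((starRingEnd ℂ) s) = wh s := by
  unfold wh
  rw [sx_conj]

theorem wh_le {s : ℂ} (hs : s ∈ DD) (h : s ^ 16 + 1 ≠ 0) : wh s ≤ 2 * ww s := by
  have h0 := sx_pos h
  have h1 : sx s ≤ 2 := by
    unfold sx
    have hs' : ‖s‖ ≤ 1 := by simpa [DD] using hs
    calc ‖s ^ 16 + 1‖ ≤ ‖s ^ 16‖ + ‖(1 : ℂ)‖ := norm_add_le _ _
      _ ≤ 1 + 1 := by
        rw [norm_pow, norm_one]
        gcongr
        exact pow_le_one₀ (norm_nonneg _) hs'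
      _ = 2 := by norm_num
  have h2 : wh s = sx s * ww s := by
    unfold wh ww
    have : (-(1 / 2) : ℝ) = 1 + (-(3 / 2)) := by norm_num
    rw [this, Real.rpow_add h0, Real.rpow_one]
  rw [h2]
  exact mul_le_mul_of_nonneg_right h1 (ww_nonneg s)

theorem ww_cd {v : ℂ} (h : v ^ 16 + 1 ≠ 0) : ContDiffAt ℝ 1 ww v := by
  unfold ww sx
  refine ContDiffAt.rpow_const_of_ne ?_ (norm_ne_zero_iff.2 h)
  refine ContDiffAt.norm ℝ ?_ h
  fun_prop

/-- the good domain -/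
def DG : Set ℂ := {w | ‖w‖ < 2 ∧ w ^ 16 + 1 ≠ 0}

theorem isOpen_DG : IsOpen DG := by
  have h1 : IsOpen {w : ℂ | ‖w‖ < 2} := isOpen_lt continuous_norm continuous_const
  have h2 : IsOpen {w : ℂ | w ^ 16 + 1 ≠ 0} := isOpen_ne_fun (by fun_prop) continuous_const
  exact h1.inter h2

theorem mem_DD {s : ℂ} : s ∈ DD ↔ ‖s‖ ≤ 1 := by simp [DD]

theorem isCompact_DD : IsCompact DD := isCompact_closedBall 0 1

theorem measurableSet_DD : MeasurableSet DD := isCompact_DD.measurableSet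

/-! ### Growth of the operators -/

theorem kern_le {v s : ℂ} (hv : ‖v‖ ≤ 1) (hs : ‖s‖ ≤ 1) : ‖(starRingEnd ℂ) v - s‖ ≤ ‖1 - v * s‖ := by
  rw [← sq_le_sq₀ (norm_nonneg _) (norm_nonneg _)]
  have h1 : ‖1 - v * s‖ ^ 2 - ‖(starRingEnd ℂ) v - s‖ ^ 2 = (1 - ‖v‖ ^ 2) * (1 - ‖s‖ ^ 2) := by
    rw [Complex.sq_norm, Complex.sq_norm, Complex.sq_norm, Complex.sq_norm, Complex.normSq_apply,
      Complex.normSq_apply, Complex.normSq_apply, Complex.normSq_apply]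
    simp only [Complex.sub_re, Complex.sub_im, Complex.mul_re, Complex.mul_im, Complex.one_re,
      Complex.one_im, Complex.conj_re, Complex.conj_im]
    ring
  have h2 : 0 ≤ (1 - ‖v‖ ^ 2) * (1 - ‖s‖ ^ 2) := by
    apply mul_nonneg
    · nlinarith [norm_nonneg v]
    · nlinarith [norm_nonneg s]
  linarith

theorem ae_good (S : Set ℂ) (hS : S.Finite) : ∀ᵐ s ∂(volume.restrict DD), s ∈ DD ∧
    s ^ 16 + 1 ≠ 0 ∧ s ∉ S := by
  have h1 : {s : ℂ | s ^ 16 + 1 = 0}.Finite := by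
    have hp : (Polynomial.X ^ 16 + 1 : Polynomial ℂ) ≠ 0 := by
      intro h
      have := congrArg (Polynomial.eval 0) h
      simp at this
    refine (Polynomial.finite_setOfPred_isRoot hp).subset ?_
    intro s hs
    have hs' : s ^ 16 + 1 = 0 := hs
    simp [Polynomial.IsRoot, hs']
  have h2 : volume ({s : ℂ | s ^ 16 + 1 = 0} ∪ S) = 0 := (h1.union hS).measure_zero _
  have h3 : ∀ᵐ s ∂(volume.restrict DD), s ∉ {s : ℂ | s ^ 16 + 1 = 0} ∪ S :=
    ae_restrict_of_ae (measure_eq_zero_iff_ae_notMem.1 h2)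
  filter_upwards [h3, ae_restrict_mem measurableSet_DD] with s hs hs'
  rw [mem_union, not_or] at hs
  exact ⟨hs', hs.1, hs.2⟩

/-- an integral with a kernel which is dominated by `‖v' - s‖⁻¹` -/
theorem int_le (h1 : S_KER) : ∃ K : ℝ, 0 < K ∧ ∀ (c : ℝ) (g : Bool → ℂ → ℂ), 0 ≤ c → Dom ww c g →
    ∀ (j : Bool) (v' : ℂ), ‖v'‖ ≤ 2 → v' ^ 16 + 1 ≠ 0 → ∀ κ : ℂ → ℂ,
    (∀ s ∈ DD, s ≠ v' → ‖κ s‖ ≤ ‖g j s‖ * ‖v' - s‖⁻¹) → ‖∫ s in DD, κ s‖ ≤ c * (K * wh v') := by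
  obtain ⟨K, hK, -, -, h3⟩ := h1
  refine ⟨K, hK, ?_⟩
  intro c g hc hg j v' hv hv' κ hκ
  obtain ⟨i1, i2⟩ := h3 v' hv hv'
  have h4 : ‖∫ s in DD, κ s‖ ≤ ∫ s in DD, c * (ww s * ‖v' - s‖⁻¹) := by
    refine norm_integral_le_of_norm_le (i1.const_mul c) ?_
    filter_upwards [ae_good {v'} (finite_singleton v')] with s hs
    refine (hκ s hs.1 hs.2.2).trans ?_
    rw [← mul_assoc]
    exact mul_le_mul_of_nonneg_right (hg j s hs.1 hs.2.1) (by positivity)
  rw [integral_const_mul] at h4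
  exact h4.trans (mul_le_mul_of_nonneg_left i2 hc)

/-- growth of `CK (-1) 0 1` -/
theorem ck_grow (h1 : S_KER) : ∃ K : ℝ, 0 < K ∧ ∀ (c : ℝ) (g : Bool → ℂ → ℂ), 0 ≤ c →
    Dom ww c g → ∀ (j : Bool) (v : ℂ), v ∈ DG → ‖CK (-1) 0 1 g j v‖ ≤ K * c * wh v := by
  obtain ⟨K, hK, h⟩ := int_le h1
  refine ⟨(1 / Real.pi) * (257 * K), by positivity, ?_⟩
  intro c g hc hg j v hv
  have hw := wh_nonneg v
  have e1 : ‖∫ s in DD, g j s / (v - s)‖ ≤ c * (K * wh v) := by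
    refine h c g hc hg j v hv.1.le hv.2 _ fun s _ _ => ?_
    rw [norm_div, div_eq_mul_inv]
  have e2 : ‖∫ s in DD, (-1) * v ^ 0 * s ^ 1 * g (!j) s / (1 - v * s)‖ ≤ 256 * (c * (K * wh v)) := by
    rcases le_or_gt ‖v‖ 1 with hv1 | hv1
    · have hne : ((starRingEnd ℂ) v) ^ 16 + 1 ≠ 0 := by
        have := sx_pos hv.2
        rw [← sx_conj] at this
        exact norm_pos_iff.1 this
      have := h c g hc hg (!j) ((starRingEnd ℂ) v) (by rw [RCLike.norm_conj]; exact hv.1.le) hne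
        (fun s => (-1) * v ^ 0 * s ^ 1 * g (!j) s / (1 - v * s)) (fun s hs hsv => by
          have hs1 : ‖s‖ ≤ 1 := mem_DD.1 hs
          have h5 := kern_le hv1 hs1
          have h6 : 0 < ‖(starRingEnd ℂ) v - s‖ := norm_pos_iff.2 (sub_ne_zero.2 (Ne.symm hsv))
          rw [norm_div, norm_mul, norm_mul, norm_mul, norm_neg, norm_one, pow_zero, norm_one,
            pow_one, one_mul, one_mul, div_eq_mul_inv]
          have h7 : ‖1 - v * s‖⁻¹ ≤ ‖(starRingEnd ℂ) v - s‖⁻¹ := inv_anti₀ h6 h5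
          have h8 : ‖s‖ * ‖g (!j) s‖ ≤ ‖g (!j) s‖ := mul_le_of_le_one_left (norm_nonneg _) hs1
          exact mul_le_mul h8 h7 (by positivity) (norm_nonneg _))
      rw [wh_conj] at this
      refine this.trans ?_
      have : 0 ≤ c * (K * wh v) := by positivity
      linarith
    · have hv0 : v ≠ 0 := by
        intro h0
        rw [h0, norm_zero] at hv1
        linarith
      have hvi : ‖v⁻¹‖ ≤ 1 := by
        rw [norm_inv]
        exact inv_le_one_of_one_le₀ hv1.le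
      have := h c g hc hg (!j) v⁻¹ (by linarith) (inv_ne hv0 hv.2)
        (fun s => (-1) * v ^ 0 * s ^ 1 * g (!j) s / (1 - v * s)) (fun s hs hsv => by
          have hs1 : ‖s‖ ≤ 1 := mem_DD.1 hs
          have h6 : 0 < ‖v⁻¹ - s‖ := norm_pos_iff.2 (sub_ne_zero.2 (Ne.symm hsv))
          have h5 : ‖v⁻¹ - s‖ ≤ ‖1 - v * s‖ := by
            have e : 1 - v * s = v * (v⁻¹ - s) := by
              rw [mul_sub, mul_inv_cancel₀ hv0]
            rw [e, norm_mul]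
            nlinarith
          rw [norm_div, norm_mul, norm_mul, norm_mul, norm_neg, norm_one, pow_zero, norm_one,
            pow_one, one_mul, one_mul, div_eq_mul_inv]
          have h7 : ‖1 - v * s‖⁻¹ ≤ ‖v⁻¹ - s‖⁻¹ := inv_anti₀ h6 h5
          have h8 : ‖s‖ * ‖g (!j) s‖ ≤ ‖g (!j) s‖ := mul_le_of_le_one_left (norm_nonneg _) hs1
          exact mul_le_mul h8 h7 (by positivity) (norm_nonneg _))
      rw [wh_inv hv0] at this
      refine this.trans ?_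
      have h8 : ‖v‖ ^ 8 ≤ 2 ^ 8 := pow_le_pow_left₀ (norm_nonneg _) hv.1.le 8
      have h9 : 0 ≤ c * (K * wh v) := by positivity
      calc c * (K * (wh v * ‖v‖ ^ 8)) = (c * (K * wh v)) * ‖v‖ ^ 8 := by ring
        _ ≤ (c * (K * wh v)) * 2 ^ 8 := mul_le_mul_of_nonneg_left h8 h9
        _ = 256 * (c * (K * wh v)) := by ring
  unfold CK
  rw [norm_mul, Complex.norm_real, Real.norm_eq_abs, abs_of_pos (by positivity : 0 < 1 / Real.pi)]
  have e3 := (norm_add_le (∫ s in DD, g j s / (v - s))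
    (∫ s in DD, (-1) * v ^ 0 * s ^ 1 * g (!j) s / (1 - v * s))).trans (add_le_add e1 e2)
  calc 1 / Real.pi * _ ≤ 1 / Real.pi * (c * (K * wh v) + 256 * (c * (K * wh v))) :=
        mul_le_mul_of_nonneg_left e3 (by positivity)
    _ = 1 / Real.pi * (257 * K) * c * wh v := by ring

/-! ### Continuity from the relation -/

theorem cont_of_rel {E : Type} [TopologicalSpace E] (W : Bool → ℂ → E) (W' : ℂ → E → E)
    (h0 : ∀ j, ContinuousOn (W j) DD)
    (h1 : ContinuousOn (fun p : ℂ × E => W' p.1 p.2) ({v : ℂ | v ≠ 0} ×ˢ univ))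
    (h2 : ∀ j (v : ℂ), v ≠ 0 → W j v = W' v (W (!j) v⁻¹)) (j : Bool) : Continuous (W j) := by
  have hc1 : IsClosed DD := Metric.isClosed_closedBall
  have hc2 : IsClosed {v : ℂ | 1 ≤ ‖v‖} := isClosed_le continuous_const continuous_norm
  have hne : ∀ v : ℂ, 1 ≤ ‖v‖ → v ≠ 0 := by
    intro v hv h
    rw [h, norm_zero] at hv
    linarith
  have h3 : ContinuousOn (W j) {v : ℂ | 1 ≤ ‖v‖} := by
    have h4 : ContinuousOn (fun v : ℂ => W' v (W (!j) v⁻¹)) {v : ℂ | 1 ≤ ‖v‖} := by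
      refine h1.comp (f := fun v : ℂ => (v, W (!j) v⁻¹)) (continuousOn_id.prodMk ?_) ?_
      · refine (h0 (!j)).comp ?_ ?_
        · intro v hv
          exact (continuousAt_inv₀ (hne v hv)).continuousWithinAt
        · intro v hv
          rw [mem_DD, norm_inv]
          exact inv_le_one_of_one_le₀ hv
      · intro v hv
        exact ⟨hne v hv, mem_univ _⟩
    exact h4.congr fun v hv => h2 j v (hne v hv)
  rw [← continuousOn_univ]
  have h5 : (univ : Set ℂ) = DD ∪ {v : ℂ | 1 ≤ ‖v‖} := by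
    symm
    rw [eq_univ_iff_forall]
    intro v
    rcases le_total ‖v‖ 1 with h | h
    · exact Or.inl (mem_DD.2 h)
    · exact Or.inr h
  rw [h5]
  exact (h0 j).union_of_isClosed h3 hc1 hc2

/-! ### The algebra of the fixed point equation -/

theorem MM_congr {f g : Bool → ℂ → ℂ} (h : ∀ j, ∀ s ∈ DD, f j s = g j s) (k : ℕ) :
    MM f k = MM g k := by
  unfold MM
  refine Finset.sum_congr rfl fun j _ => ?_
  congr 1
  refine setIntegral_congr_fun measurableSet_DD fun s hs => ?_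
  show (starRingEnd ℂ) s ^ ee j k * f j s = (starRingEnd ℂ) s ^ ee j k * g j s
  rw [h j s hs]

theorem Pj_congr {f g : Bool → ℂ → ℂ} (h : ∀ j, ∀ s ∈ DD, f j s = g j s) (k : ℕ) :
    Pj f k = Pj g k := by
  unfold Pj
  rw [MM_congr h]

theorem pol_cont (p : ℕ → ℂ) (j : Bool) : Continuous (pol p j) := by
  unfold pol
  fun_prop

theorem pol_diff (p : ℕ → ℂ) (j : Bool) : Differentiable ℂ (pol p j) := by
  unfold pol
  fun_prop

theorem pol_int (p : ℕ → ℂ) (j : Bool) : IntegrableOn (pol p j) DD :=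
  (pol_cont p j).continuousOn.integrableOn_compact isCompact_DD

theorem cc_ne {k : ℕ} (hk : k < 11) : (cc k : ℂ) ≠ 0 := by
  have h1 : (k : ℝ) < 11 := by exact_mod_cast hk
  have h2 : 0 < Real.pi / (k + 1) + Real.pi / (11 - k) := by
    have h3 : (0:ℝ) < 11 - k := by linarith
    positivity
  have h3 : cc k ≠ 0 := inv_ne_zero h2.ne'
  exact_mod_cast h3

/-- continuity from a Hoelder estimate -/
theorem cont_of_holder {E : Type} [NormedAddCommGroup E] {f : ℂ → E} {C : ℝ}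
    (h : ∀ v ∈ DD, ∀ v' ∈ DD, ‖f v - f v'‖ ≤ C * ‖v - v'‖ ^ (1 / 4 : ℝ)) : ContinuousOn f DD := by
  intro v hv
  rw [ContinuousWithinAt, tendsto_iff_norm_sub_tendsto_zero]
  have h2 : Tendsto (fun w : ℂ => C * ‖w - v‖ ^ (1 / 4 : ℝ)) (𝓝[DD] v) (𝓝 0) := by
    have h3 : Continuous fun w : ℂ => C * ‖w - v‖ ^ (1 / 4 : ℝ) := by
      refine continuous_const.mul ?_
      refine Continuous.rpow_const (by fun_prop) fun w => Or.inr (by norm_num)
    have h4 := h3.tendsto v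
    simp only [sub_self, norm_zero] at h4
    rw [Real.zero_rpow (by norm_num), mul_zero] at h4
    exact h4.mono_left nhdsWithin_le_nhds
  refine tendsto_of_tendsto_of_tendsto_of_le_of_le' tendsto_const_nhds h2 ?_ ?_
  · exact Eventually.of_forall fun w => norm_nonneg _
  · filter_upwards [self_mem_nhdsWithin] with w hw
    exact h w hw v hv

/-- the source of `B` is orthogonal to the sections -/
theorem mom_zero (h3 : S_OPX) (h5 : S_PRJ) {d : Dat} {l M : ℝ} {V : Bool → ℂ → ℝ}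
    {X : Bool → ℂ → ℂ} (hM : 0 < M) (hE : Est d l V X M) (hX : IsFix d l V X) (k : ℕ)
    (hk : k < 11) : MM (fS d l V X) k = 0 := by
  obtain ⟨K, hK, h3⟩ := h3
  obtain ⟨-, -, h33⟩ := h3 (gS d l V X) M hE.mg hM.le hE.bg
  have i1 : ∀ j, IntegrableOn (PX (gS d l V X) j) DD := fun j =>
    (cont_of_holder (h33 j)).integrableOn_compact isCompact_DD
  have i2 : ∀ j, IntegrableOn (perp (PX (gS d l V X)) j) DD := fun j =>
    (i1 j).sub (pol_int _ j)
  obtain ⟨a1, a2, a3⟩ := h5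
  have e1 : Pj X k = Pj (fun j s => perp (PX (gS d l V X)) j s +
      pol (fun k => Pj X k - Pj (fS d l V X) k) j s) k :=
    Pj_congr (fun j s hs => hX.eX j s hs) k
  rw [a3 _ _ i2 (fun j => pol_int _ j), (a2 _ i1).1 k hk, a1 _ k hk, zero_add] at e1
  have e2 : Pj (fS d l V X) k = 0 := by linear_combination e1
  unfold Pj at e2
  exact (mul_eq_zero.1 e2).resolve_left (cc_ne hk)

theorem perp_eq {f : Bool → ℂ → ℂ} (h : ∀ k < 11, MM f k = 0) : perp f = f := by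
  funext j s
  unfold perp pol Pj
  rw [Finset.sum_eq_zero, sub_zero]
  intro k hk
  rw [h k (Finset.mem_range.1 hk)]
  ring

/-- the masses agree -/
theorem mass_eq {d : Dat} {l M : ℝ} {V : Bool → ℂ → ℝ}
    {X : Bool → ℂ → ℂ} (hM : 0 < M) (hE : Est d l V X M) (hX : IsFix d l V X) :
    tot (Gm d V) = tot (Gp d l V X) := by
  have hMi : 0 < M⁻¹ := inv_pos.2 hM
  have p1 : 0 < tot (Gp d l V X) := hMi.trans_le hE.lGp
  have p2 : 0 < tot (VN d l V X) := hMi.trans_le hE.lVN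
  have e1 : ∀ j, ∀ s ∈ DD, Gm d V j s =
      VN d l V X j s * (tot (Gp d l V X) / tot (VN d l V X)) := by
    intro j s hs
    have e2 := hX.eV j s hs
    unfold TV at e2
    have e4 : VN d l V X j s = d.ρ * ww s * d.N j s * Real.exp (-PL (Gh d l V X) j s) := rfl
    rw [e4]
    unfold Gm
    rw [e2, Real.exp_add, Real.exp_log (div_pos p1 p2)]
    ring
  have e3 : tot (Gm d V) = tot (VN d l V X) * (tot (Gp d l V X) / tot (VN d l V X)) := by
    conv_lhs => unfold tot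
    conv_rhs => arg 1; unfold tot
    rw [Finset.sum_mul]
    refine Finset.sum_congr rfl fun j _ => ?_
    rw [← integral_mul_const]
    exact setIntegral_congr_fun measurableSet_DD fun s hs => e1 j s hs
  rw [e3, mul_div_cancel₀ _ p2.ne']

/-! ### The extended densities -/

theorem nsq (w : ℂ) : ((‖w‖ : ℝ) : ℂ) ^ 2 = w * (starRingEnd ℂ) w := (Complex.mul_conj' w).symm

theorem one_add_inv {w : ℂ} (hw : w ≠ 0) : 1 + ‖w⁻¹‖ ^ 2 = (1 + ‖w‖ ^ 2) / ‖w‖ ^ 2 := by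
  have h0 : ‖w‖ ≠ 0 := norm_ne_zero_iff.2 hw
  rw [norm_inv]
  field_simp
  ring

/-- all facts which are used for the extended densities -/
structure Ctx (d : Dat) (l : ℝ) (V : Bool → ℂ → ℝ) (X : Bool → ℂ → ℂ) (V' : Bool → ℂ → ℝ)
    (X' B : Bool → ℂ → ℂ) : Prop where
  rel : d.Rel
  hV : ∀ j, ∀ v ∈ DD, V' j v = V j v
  hX : ∀ j, ∀ v ∈ DD, X' j v = X j v
  rV : ∀ j (v : ℂ), v ≠ 0 → V' j v = V' (!j) v⁻¹
  rX : ∀ j (v : ℂ), v ≠ 0 → X' j v = -(v ^ 10 * X' (!j) v⁻¹)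
  rB : ∀ j (v : ℂ), 1 < ‖v‖ → v ∈ DG → B j v = ((starRingEnd ℂ) v)⁻¹ ^ 12 * B (!j) v⁻¹

section

variable {d : Dat} {l : ℝ} {V : Bool → ℂ → ℝ} {X : Bool → ℂ → ℂ} {V' : Bool → ℂ → ℝ}
  {X' B : Bool → ℂ → ℂ}

theorem inv_mem {w : ℂ} (h : ¬ ‖w‖ ≤ 1) : w ≠ 0 ∧ w⁻¹ ∈ DD := by
  push Not at h
  refine ⟨?_, ?_⟩
  · intro h0
    rw [h0, norm_zero] at h
    linarith
  · rw [mem_DD, norm_inv]
    exact inv_le_one_of_one_le₀ h.le

theorem ext_g (hC : Ctx d l V X V' X' B) {g : Bool → ℂ → ℂ}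
    (hg : ∀ j s, g j s = (eU V j s : ℂ) * B j s) (j : Bool) {w : ℂ} (hw : w ∈ DG) :
    ext (-1) 11 0 g j w = ((Real.exp (V' j w) * (1 + ‖w‖ ^ 2) ^ 10 : ℝ) : ℂ) * B j w := by
  unfold ext
  split_ifs with h
  · rw [hg, hC.hV j w (mem_DD.2 h)]
    rfl
  · obtain ⟨h0, h1⟩ := inv_mem h
    push Not at h
    rw [hg, hC.rB j w h hw]
    have e1 : eU V (!j) w⁻¹ = Real.exp (V' j w) * ((1 + ‖w‖ ^ 2) / ‖w‖ ^ 2) ^ 10 := by
      unfold eU
      rw [← hC.hV (!j) w⁻¹ h1, ← hC.rV j w h0, one_add_inv h0]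
    rw [e1]
    have hn := nsq w
    have hn0 : ((‖w‖ : ℝ) : ℂ) ≠ 0 := by exact_mod_cast norm_ne_zero_iff.2 h0
    have hc0 : (starRingEnd ℂ) w ≠ 0 := (map_ne_zero _).2 h0
    push_cast
    generalize ((‖w‖ : ℝ) : ℂ) = n at *
    generalize (starRingEnd ℂ) w = c at *
    have h24 : w ^ 12 * c ^ 12 = n ^ 24 := by
      rw [← mul_pow, ← hn]
      ring
    have key : w ^ 12 * (n ^ 4)⁻¹ * ((1 + n ^ 2) / n ^ 2) ^ 10 = (1 + n ^ 2) ^ 10 * c⁻¹ ^ 12 := by
      field_simp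
      linear_combination (1 + n ^ 2) ^ 10 * h24
    linear_combination (Complex.exp (V' j w) * B (!j) w⁻¹) * key

theorem ext_f (hC : Ctx d l V X V' X' B) (j : Bool) {w : ℂ} :
    ext 1 0 11 (fun j s => (starRingEnd ℂ) (fS d l V X j s)) j w =
      ((d.ρ * ww w : ℝ) : ℂ) * (starRingEnd ℂ) (d.F l j w (V' j w) (X' j w)) := by
  unfold ext
  split_ifs with h
  · show (starRingEnd ℂ) (fS d l V X j w) = _
    unfold fS
    rw [hC.hV j w (mem_DD.2 h), hC.hX j w (mem_DD.2 h), map_mul, Complex.conj_ofReal]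
  · obtain ⟨h0, h1⟩ := inv_mem h
    push Not at h
    have e1 : X' (!j) w⁻¹ = -((w⁻¹) ^ 10 * X' j w) := by
      rw [hC.rX j w h0]
      have : w ^ 10 * (w⁻¹) ^ 10 = 1 := by rw [← mul_pow, mul_inv_cancel₀ h0, one_pow]
      linear_combination (-X' (!j) w⁻¹) * this
    have e2 := hC.rel.relF l j w (V' j w) (X' j w) h0
    rw [← e1] at e2
    rw [e2]
    show -(1 * w ^ (1 + 0) * w⁻¹ ^ 11 * (((‖w‖ ^ 4)⁻¹ : ℝ) : ℂ) *
      (starRingEnd ℂ) (fS d l V X (!j) w⁻¹)) = _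
    unfold fS
    rw [← hC.hV (!j) w⁻¹ h1, ← hC.hX (!j) w⁻¹ h1, ← hC.rV j w h0, ww_inv h0, map_mul, map_neg,
      map_mul, map_pow, Complex.conj_ofReal]
    have hn := nsq w
    have hn0 : ((‖w‖ : ℝ) : ℂ) ≠ 0 := by exact_mod_cast norm_ne_zero_iff.2 h0
    push_cast
    generalize ((‖w‖ : ℝ) : ℂ) = n at *
    generalize (starRingEnd ℂ) w = c at *
    have key : w * (w⁻¹) ^ 11 * (n ^ 4)⁻¹ * n ^ 24 = c ^ 10 := by
      have h20 : n ^ 20 = w ^ 10 * c ^ 10 := by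
        rw [← mul_pow, ← hn]
        ring
      have : w * (w⁻¹) ^ 11 = (w ^ 10)⁻¹ := by
        field_simp
      rw [this]
      have h4 : (n ^ 4)⁻¹ * n ^ 24 = n ^ 20 := by
        field_simp
      rw [mul_assoc, h4, h20]
      field_simp
    linear_combination (-(d.ρ : ℂ) * (ww w : ℂ) *
      (starRingEnd ℂ) (d.F l (!j) w⁻¹ (V' j w) (X' (!j) w⁻¹))) * key

theorem ext_G (hC : Ctx d l V X V' X' B) (hb : ∀ j s, bS d l V X j s = B j s)
    (hk : kap d l V X = 1) (j : Bool) {w : ℂ} (hw : w ∈ DG) :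
    ext (-1) 0 1 (fun j s => (Gh d l V X j s : ℂ)) j w =
      ((Real.exp (V' j w) * (1 + ‖w‖ ^ 2) ^ 10 * ‖B j w‖ ^ 2 +
        d.ρ * ww w * (d.P l j w (V' j w) (X' j w) - d.N j w * Real.exp (V' j w)) +
        d.c l / (1 + ‖w‖ ^ 2) ^ 2 : ℝ) : ℂ) := by
  unfold ext
  split_ifs with h
  · show ((Gh d l V X j w : ℝ) : ℂ) = _
    unfold Gh
    rw [hk]
    unfold Gp Gm eU
    rw [hb, hC.hV j w (mem_DD.2 h), hC.hX j w (mem_DD.2 h)]
    push_cast
    ring
  · obtain ⟨h0, h1⟩ := inv_mem h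
    push Not at h
    have e1 : X' (!j) w⁻¹ = -((w⁻¹) ^ 10 * X' j w) := by
      rw [hC.rX j w h0]
      have : w ^ 10 * (w⁻¹) ^ 10 = 1 := by rw [← mul_pow, mul_inv_cancel₀ h0, one_pow]
      linear_combination (-X' (!j) w⁻¹) * this
    have e2 := hC.rel.relP l j w (V' j w) (X' j w) h0
    rw [← e1] at e2
    have e3 := hC.rel.relN j w h0
    have e4 : Gh d l V X (!j) w⁻¹ = ‖w‖ ^ 4 * (Real.exp (V' j w) * (1 + ‖w‖ ^ 2) ^ 10 * ‖B j w‖ ^ 2 +
        d.ρ * ww w * (d.P l j w (V' j w) (X' j w) - d.N j w * Real.exp (V' j w)) +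
        d.c l / (1 + ‖w‖ ^ 2) ^ 2) := by
      rw [e2, e3, hC.rB j w h hw]
      unfold Gh
      rw [hk]
      unfold Gp Gm eU
      rw [hb, ← hC.hV (!j) w⁻¹ h1, ← hC.hX (!j) w⁻¹ h1, ← hC.rV j w h0, ww_inv h0,
        one_add_inv h0, norm_mul, norm_pow, norm_inv, RCLike.norm_conj]
      have hr : ‖w‖ ≠ 0 := norm_ne_zero_iff.2 h0
      have hr2 : 1 + ‖w‖ ^ 2 ≠ 0 := by positivity
      field_simp
      ring
    show -((-1) * w ^ (1 + 0) * w⁻¹ ^ 1 * (((‖w‖ ^ 4)⁻¹ : ℝ) : ℂ) *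
      ((Gh d l V X (!j) w⁻¹ : ℝ) : ℂ)) = _
    rw [e4]
    have hn0 : ((‖w‖ : ℝ) : ℂ) ≠ 0 := by exact_mod_cast norm_ne_zero_iff.2 h0
    have key : -((-1 : ℂ) * w ^ (1 + 0) * (w⁻¹) ^ 1 * (((‖w‖ ^ 4)⁻¹ : ℝ) : ℂ)) *
        ((‖w‖ ^ 4 : ℝ) : ℂ) = 1 := by
      push_cast
      field_simp
    rw [Complex.ofReal_mul (‖w‖ ^ 4)]
    linear_combination (((Real.exp (V' j w) * (1 + ‖w‖ ^ 2) ^ 10 * ‖B j w‖ ^ 2 +
        d.ρ * ww w * (d.P l j w (V' j w) (X' j w) - d.N j w * Real.exp (V' j w)) +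
        d.c l / (1 + ‖w‖ ^ 2) ^ 2 : ℝ) : ℂ)) * key

end

/-! ### Calculus -/

theorem dz_neg_add {u : ℂ → ℝ} {c : ℝ} {v : ℂ} :
    dz (fun w => ((-u w + c : ℝ) : ℂ)) v = -dz (fun w => (u w : ℂ)) v := by
  have e : (fun w => ((-u w + c : ℝ) : ℂ)) = fun w => -(u w : ℂ) + (c : ℂ) := by
    funext w
    push_cast
    rfl
  unfold dz
  rw [e, fderiv_add_const, fderiv_fun_neg]
  simp only [_root_.neg_apply]
  ring

theorem dzb_neg {u : ℂ → ℂ} {v : ℂ} : dzb (fun w => -u w) v = -dzb u v := by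
  unfold dzb
  rw [fderiv_fun_neg]
  simp only [_root_.neg_apply]
  ring

theorem cd_ofReal {u : ℂ → ℝ} {v : ℂ} (h : ContDiffAt ℝ 1 u v) :
    ContDiffAt ℝ 1 (fun w => (u w : ℂ)) v :=
  Complex.ofRealCLM.contDiff.contDiffAt.comp v h

theorem cd_conj {u : ℂ → ℂ} {v : ℂ} (h : ContDiffAt ℝ 1 u v) :
    ContDiffAt ℝ 1 (fun w => (starRingEnd ℂ) (u w)) v :=
  (Complex.conjCLE : ℂ →L[ℝ] ℂ).contDiff.contDiffAt.comp v h

theorem cd_nsq {v : ℂ} : ContDiffAt ℝ 1 (fun w : ℂ => 1 + ‖w‖ ^ 2) v := by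
  have h : ContDiff ℝ 1 (fun w : ℂ => ‖w‖ ^ 2) := contDiff_norm_sq ℝ
  exact contDiffAt_const.add h.contDiffAt

/-- the second part of `S_LOC` for locally Hoelder continuous extended densities -/
theorem loc_of (h7 : S_LOC) (σ : ℂ) (a b : ℕ) (g : Bool → ℂ → ℂ) (c : ℝ)
    (hm : ∀ j, Measurable (g j)) (hc : 0 ≤ c) (hg : Dom ww c g) (j : Bool)
    (hP : PC DG 0 (ext σ a b g j)) (v : ℂ) (hv : v ∈ DG) :
    ContDiffAt ℝ 1 (CK σ a b g j) v ∧ dzb (CK σ a b g j) v = ext σ a b g j v := by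
  obtain ⟨r, θ, L, hr, hθ, hθ1, hh⟩ := hP v hv
  exact (h7 σ a b g c hm hc hg j v hv.1 hv.2).2 r θ L hr hθ hθ1 hh

theorem pc_ck (h7 : S_LOC) (σ : ℂ) (a b : ℕ) (g : Bool → ℂ → ℂ) (c : ℝ)
    (hm : ∀ j, Measurable (g j)) (hc : 0 ≤ c) (hg : Dom ww c g) (j : Bool) :
    PC DG 0 (CK σ a b g j) := by
  intro v hv
  obtain ⟨⟨r, L, hr, hh⟩, -⟩ := h7 σ a b g c hm hc hg j v hv.1 hv.2
  exact ⟨r, 1 / 2, L, hr, by norm_num, by norm_num, hh⟩

theorem bdd_of_cont {V : Bool → ℂ → ℝ} {X : Bool → ℂ → ℂ} (hV : ∀ j, Continuous (V j))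
    (hX : ∀ j, Continuous (X j)) : ∃ R : ℝ, 0 < R ∧ Bdd R V X := by
  have a : ∀ j, ∃ C, ∀ s ∈ DD, ‖V j s‖ ≤ C := fun j =>
    isCompact_DD.exists_bound_of_continuousOn (hV j).continuousOn
  have b : ∀ j, ∃ C, ∀ s ∈ DD, ‖X j s‖ ≤ C := fun j =>
    isCompact_DD.exists_bound_of_continuousOn (hX j).continuousOn
  choose C hC using a
  choose C' hC' using b
  refine ⟨|C false| + |C true| + |C' false| + |C' true| + 1, by positivity, hV, hX, ?_, ?_⟩
  · intro j s hs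
    have h1 := hC j s hs
    rw [Real.norm_eq_abs] at h1
    have h2 := le_abs_self (C j)
    have h3 := abs_nonneg (C false)
    have h4 := abs_nonneg (C true)
    have h5 := abs_nonneg (C' false)
    have h6 := abs_nonneg (C' true)
    cases j <;> linarith
  · intro j s hs
    have h1 := hC' j s hs
    have h2 := le_abs_self (C' j)
    have h3 := abs_nonneg (C false)
    have h4 := abs_nonneg (C true)
    have h5 := abs_nonneg (C' false)
    have h6 := abs_nonneg (C' true)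
    cases j <;> linarith

end PLNL

open PLNL

/-- **PLN** -/
theorem t_PLN (h1 : S_KER) (h2 : S_OPB) (h3 : S_OPX) (h4 : S_OPL) (h5 : S_PRJ) (h6 : S_BND)
    (h7 : S_LOC) (h8 : S_LGD) (h9 : S_GLU) : S_PLN := by
  intro d hd hRel hSmo l hl V X hX
  obtain ⟨R, hR, hBd⟩ := bdd_of_cont hX.cV hX.cX
  obtain ⟨M, hM, hE⟩ := h6 d hd R hR
  replace hE := hE l hl V X hBd
  have hmom : ∀ k < 11, MM (fS d l V X) k = 0 := fun k hk => mom_zero h3 h5 hM hE hX k hk
  have hperp : perp (fS d l V X) = fS d l V X := perp_eq hmom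
  have hmass := mass_eq hM hE hX
  have hMi : 0 < M⁻¹ := inv_pos.2 hM
  have hp1 : 0 < tot (Gp d l V X) := hMi.trans_le hE.lGp
  have hkap : kap d l V X = 1 := by
    unfold kap
    rw [hmass, div_self hp1.ne']
  obtain ⟨KL, hKL, hL⟩ := h4
  have htot : tot (Gh d l V X) = 0 := by
    have i1 := (hL (Gp d l V X) M hE.mGp hM.le hE.bGp).1
    have i2 := (hL (Gm d V) M hE.mGm hM.le hE.bGm).1
    have e1 : tot (Gh d l V X) = tot (Gp d l V X) - tot (Gm d V) := by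
      unfold tot
      rw [← Finset.sum_sub_distrib]
      refine Finset.sum_congr rfl fun j _ => ?_
      rw [← integral_sub (i1 j) (i2 j)]
      refine integral_congr_ae (Eventually.of_forall fun s => ?_)
      show Gp d l V X j s - kap d l V X * Gm d V j s = _
      rw [hkap, one_mul]
    rw [e1, hmass, sub_self]
  have hb : ∀ j s, bS d l V X j s = PB (fS d l V X) j s := by
    intro j s
    unfold bS
    rw [hperp]
  obtain ⟨g1, g2, g3, g4⟩ := h9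
  -- the relations
  have rV : ∀ j (v : ℂ), v ≠ 0 → TV d l V X j v = TV d l V X (!j) v⁻¹ := by
    intro j v hv
    unfold TV
    rw [g3 (Gh d l V X) M hE.mGh hM.le hE.bGh htot j v hv]
  have rX : ∀ j (v : ℂ), v ≠ 0 → TX d l V X j v = -(v ^ 10 * TX d l V X (!j) v⁻¹) := by
    intro j v hv
    unfold TX perp
    rw [g1 _ j v hv, g2 _ j v hv, g2 (fun k => Pj X k - Pj (fS d l V X) k) j v hv]
    ring
  have rB : ∀ j (v : ℂ), 1 < ‖v‖ → v ∈ DG → PB (fS d l V X) j v =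
      ((starRingEnd ℂ) v)⁻¹ ^ 12 * PB (fS d l V X) (!j) v⁻¹ := by
    intro j v hv hv'
    exact g4 (fS d l V X) M hE.mf hM.le hE.bf hmom j v (by linarith) hv'.1 hv'.2
  have hC : Ctx d l V X (TV d l V X) (TX d l V X) (PB (fS d l V X)) :=
    ⟨hRel, fun j v hv => (hX.eV j v hv).symm, fun j v hv => (hX.eX j v hv).symm, rV, rX, rB⟩
  have cV : ∀ j, Continuous (TV d l V X j) := by
    refine cont_of_rel (TV d l V X) (fun _ x => x) ?_ ?_ rV
    · intro j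
      exact (hX.cV j).continuousOn.congr fun v hv => hC.hV j v hv
    · exact continuous_snd.continuousOn
  have cX : ∀ j, Continuous (TX d l V X j) := by
    refine cont_of_rel (TX d l V X) (fun v x => -(v ^ 10 * x)) ?_ ?_ rX
    · intro j
      exact (hX.cX j).continuousOn.congr fun v hv => hC.hX j v hv
    · exact (by fun_prop : Continuous fun p : ℂ × ℂ => -(p.1 ^ 10 * p.2)).continuousOn
  -- closure properties of the Hoelder class
  obtain ⟨-, pcC, pcCongr, pcAdd, pcMul, pcConj, -⟩ := All.hBT1 DG isOpen_DG 0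
  -- `V`
  have dV : ∀ j, ∀ v ∈ DG, ContDiffAt ℝ 1 (TV d l V X j) v ∧
      dz (fun w => (TV d l V X j w : ℂ)) v =
        -CK (-1) 0 1 (fun j s => (Gh d l V X j s : ℂ)) j v := by
    intro j v hv
    obtain ⟨k1, k2⟩ := h8 (Gh d l V X) M hE.mGh hM.le hE.bGh j v hv.1 hv.2
    refine ⟨k1.neg.add contDiffAt_const, ?_⟩
    rw [← k2]
    exact dz_neg_add
  -- the domination of the sources
  have mfc : ∀ j, Measurable ((fun j s => (starRingEnd ℂ) (fS d l V X j s)) j) := fun j =>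
    Complex.continuous_conj.measurable.comp (hE.mf j)
  have bfc : Dom ww M (fun j s => (starRingEnd ℂ) (fS d l V X j s)) := by
    intro j s hs h
    rw [RCLike.norm_conj]
    exact hE.bf j s hs h
  have bg2 : Dom ww (2 * M) (gS d l V X) := by
    intro j s hs h
    refine (hE.bg j s hs h).trans ?_
    have := mul_le_mul_of_nonneg_left (wh_le hs h) hM.le
    linarith
  have mG : ∀ j, Measurable ((fun j s => (Gh d l V X j s : ℂ)) j) := fun j =>
    Complex.measurable_ofReal.comp (hE.mGh j)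
  have bG : Dom ww M (fun j s => (Gh d l V X j s : ℂ)) := by
    intro j s hs h
    rw [Complex.norm_real]
    exact hE.bGh j s hs h
  have hg : ∀ j s, gS d l V X j s = (eU V j s : ℂ) * PB (fS d l V X) j s := by
    intro j s
    unfold gS
    rw [hb]
  -- the weight
  have cE : ∀ j, ∀ v ∈ DG, ContDiffAt ℝ 1
      (fun w => Real.exp (TV d l V X j w) * (1 + ‖w‖ ^ 2) ^ 10) v := by
    intro j v hv
    exact ((dV j v hv).1.exp).mul (cd_nsq.pow 10)
  -- `X`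
  have dX : ∀ j, ∀ v ∈ DG, ContDiffAt ℝ 1 (TX d l V X j) v ∧ dzb (TX d l V X j) v =
      ((Real.exp (TV d l V X j v) * (1 + ‖v‖ ^ 2) ^ 10 : ℝ) : ℂ) * PB (fS d l V X) j v := by
    intro j v hv
    have p1 : PC DG 0 (ext (-1) 11 0 (gS d l V X) j) := by
      have p2 : PC DG 0 (PB (fS d l V X) j) := pcConj _ (pc_ck h7 1 0 11 _ M mfc hM.le bfc j)
      have p3 : PC DG 0 (fun w =>
          ((Real.exp (TV d l V X j w) * (1 + ‖w‖ ^ 2) ^ 10 : ℝ) : ℂ)) :=
        pcC _ fun z hz => cd_ofReal (cE j z hz)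
      exact pcCongr _ _ (fun z hz => (ext_g hC hg j hz).symm) (pcMul _ _ p3 p2)
    obtain ⟨k1, k2⟩ := loc_of h7 (-1) 11 0 (gS d l V X) (2 * M) hE.mg (by positivity) bg2 j p1 v hv
    have hpol : Differentiable ℂ fun w => pol (fun k => Pj X k - Pj (fS d l V X) k) j w -
        pol (Pj (PX (gS d l V X))) j w := (pol_diff _ j).sub (pol_diff _ j)
    have e1 : TX d l V X j = fun w => PX (gS d l V X) j w +
        (pol (fun k => Pj X k - Pj (fS d l V X) k) j w - pol (Pj (PX (gS d l V X))) j w) := by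
      funext w
      unfold TX perp
      ring
    have k3 : ContDiffAt ℝ 1 (fun w => pol (fun k => Pj X k - Pj (fS d l V X) k) j w -
        pol (Pj (PX (gS d l V X))) j w) v := by
      have h : ContDiff ℂ 1 fun w => pol (fun k => Pj X k - Pj (fS d l V X) k) j w -
        pol (Pj (PX (gS d l V X))) j w := hpol.contDiff
      exact (h.restrict_scalars ℝ).contDiffAt
    have k1' : ContDiffAt ℝ 1 (PX (gS d l V X) j) v := k1
    rw [e1]
    refine ⟨ContDiffAt.add k1' k3, ?_⟩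
    rw [P_REM2.REM2_dzb_add (k1'.differentiableAt one_ne_zero) (k3.differentiableAt one_ne_zero),
      dzb_holo hpol.differentiableAt, add_zero]
    exact k2.trans (ext_g hC hg j hv)
  -- `B`
  have dF : ∀ j, ∀ v ∈ DG, ContDiffAt ℝ 1
      (fun w => d.F l j w (TV d l V X j w) (TX d l V X j w)) v := by
    intro j v hv
    have h : ContDiff ℝ 1 (fun p : ℂ × ℝ × ℂ => d.F l j p.1 p.2.1 p.2.2) :=
      (hSmo.smF l j).of_le (by exact_mod_cast le_top)
    exact h.contDiffAt.comp (f := fun w : ℂ => (w, TV d l V X j w, TX d l V X j w)) v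
      (contDiffAt_id.prodMk ((dV j v hv).1.prodMk (dX j v hv).1))
  have dPP : ∀ j, ∀ v ∈ DG, ContDiffAt ℝ 1
      (fun w => d.P l j w (TV d l V X j w) (TX d l V X j w)) v := by
    intro j v hv
    have h : ContDiff ℝ 1 (fun p : ℂ × ℝ × ℂ => d.P l j p.1 p.2.1 p.2.2) :=
      (hSmo.smP l j).of_le (by exact_mod_cast le_top)
    exact h.contDiffAt.comp (f := fun w : ℂ => (w, TV d l V X j w, TX d l V X j w)) v
      (contDiffAt_id.prodMk ((dV j v hv).1.prodMk (dX j v hv).1))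
  have dBc : ∀ j, ∀ v ∈ DG,
      ContDiffAt ℝ 1 (CK 1 0 11 (fun j s => (starRingEnd ℂ) (fS d l V X j s)) j) v ∧
      dzb (CK 1 0 11 (fun j s => (starRingEnd ℂ) (fS d l V X j s)) j) v =
        ((d.ρ * ww v : ℝ) : ℂ) *
          (starRingEnd ℂ) (d.F l j v (TV d l V X j v) (TX d l V X j v)) := by
    intro j v hv
    have p1 : PC DG 0 (ext 1 0 11 (fun j s => (starRingEnd ℂ) (fS d l V X j s)) j) := by
      refine pcCongr (fun w => ((d.ρ * ww w : ℝ) : ℂ) *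
        (starRingEnd ℂ) (d.F l j w (TV d l V X j w) (TX d l V X j w))) _
        (fun z hz => (ext_f hC j).symm) (pcC _ fun z hz => ?_)
      exact (cd_ofReal (contDiffAt_const.mul (ww_cd hz.2))).mul (cd_conj (dF j z hz))
    obtain ⟨k1, k2⟩ := loc_of h7 1 0 11 _ M mfc hM.le bfc j p1 v hv
    exact ⟨k1, k2.trans (ext_f hC j)⟩
  have dB : ∀ j, ∀ v ∈ DG, ContDiffAt ℝ 1 (PB (fS d l V X) j) v ∧
      dz (PB (fS d l V X) j) v =
        ((d.ρ * ww v : ℝ) : ℂ) * d.F l j v (TV d l V X j v) (TX d l V X j v) := by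
    intro j v hv
    obtain ⟨k1, k2⟩ := dBc j v hv
    refine ⟨cd_conj k1, ?_⟩
    have h := P_REM.REM_dz_conj (CK 1 0 11 (fun j s => (starRingEnd ℂ) (fS d l V X j s)) j) v
    rw [k2, map_mul, Complex.conj_ofReal, Complex.conj_conj] at h
    exact h
  -- `Q`
  have dQ : ∀ j, ∀ v ∈ DG,
      ContDiffAt ℝ 1 (fun v => -CK (-1) 0 1 (fun j s => (Gh d l V X j s : ℂ)) j v) v ∧
      dzb (fun v => -CK (-1) 0 1 (fun j s => (Gh d l V X j s : ℂ)) j v) v =
        -((Real.exp (TV d l V X j v) * (1 + ‖v‖ ^ 2) ^ 10 * ‖PB (fS d l V X) j v‖ ^ 2 +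
          d.ρ * ww v * (d.P l j v (TV d l V X j v) (TX d l V X j v) -
            d.N j v * Real.exp (TV d l V X j v)) +
          d.c l / (1 + ‖v‖ ^ 2) ^ 2 : ℝ) : ℂ) := by
    intro j v hv
    have p1 : PC DG 0 (ext (-1) 0 1 (fun j s => (Gh d l V X j s : ℂ)) j) := by
      refine pcCongr _ _ (fun z hz => (ext_G hC hb hkap j hz).symm) (pcC _ fun z hz => ?_)
      refine cd_ofReal ?_
      have hN : ContDiffAt ℝ 1 (d.N j) z :=
        ((hSmo.smN j).of_le (by exact_mod_cast le_top)).contDiffAt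
      have hn2 : ContDiffAt ℝ 1 (fun w => ‖PB (fS d l V X) j w‖ ^ 2) z :=
        (dB j z hz).1.norm_sq ℝ
      refine (((cE j z hz).mul hn2).add ((contDiffAt_const.mul (ww_cd hz.2)).mul
        ((dPP j z hz).sub (hN.mul (dV j z hz).1.exp)))).add ?_
      refine contDiffAt_const.div (cd_nsq.pow 2) ?_
      positivity
    obtain ⟨k1, k2⟩ := loc_of h7 (-1) 0 1 _ M mG hM.le bG j p1 v hv
    refine ⟨k1.neg, ?_⟩
    rw [dzb_neg]
    rw [k2, ext_G hC hb hkap j hv]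
  -- the growth
  obtain ⟨K1, hK1, hg1⟩ := h2
  obtain ⟨K2, hK2, hg2⟩ := ck_grow h1
  have gB : ∀ j, ∀ v ∈ DG, ‖PB (fS d l V X) j v‖ ≤ 256 * (K1 * M) * wh v := by
    obtain ⟨-, -, h⟩ := hg1 (fS d l V X) M hE.mf hM.le hE.bf
    intro j v hv
    have hw := wh_nonneg v
    rcases le_or_gt ‖v‖ 1 with hv1 | hv1
    · refine ((h j v (mem_DD.2 hv1) hv.2).2.2).trans ?_
      have : 0 ≤ K1 * M * wh v := by positivity
      linarith
    · obtain ⟨h0, h1'⟩ := inv_mem (not_le.2 hv1)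
      rw [rB j v hv1 hv, norm_mul, norm_pow, norm_inv, RCLike.norm_conj]
      have e1 := (h (!j) v⁻¹ h1' (inv_ne h0 hv.2)).2.2
      rw [wh_inv h0] at e1
      have e2 : ‖v‖⁻¹ ^ 12 ≤ 1 := pow_le_one₀ (by positivity) (inv_le_one_of_one_le₀ hv1.le)
      have e3 : ‖v‖ ^ 8 ≤ 2 ^ 8 := pow_le_pow_left₀ (norm_nonneg _) hv.1.le 8
      calc ‖v‖⁻¹ ^ 12 * ‖PB (fS d l V X) (!j) v⁻¹‖ ≤ 1 * (K1 * M * (wh v * ‖v‖ ^ 8)) :=
            mul_le_mul e2 e1 (norm_nonneg _) zero_le_one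
        _ = (K1 * M * wh v) * ‖v‖ ^ 8 := by ring
        _ ≤ (K1 * M * wh v) * 2 ^ 8 := mul_le_mul_of_nonneg_left e3 (by positivity)
        _ = 256 * (K1 * M) * wh v := by ring
  refine ⟨TV d l V X, TX d l V X, ⟨cV, cX, rV, rX, ?_⟩, fun j v hv => ⟨hC.hV j v hv, hC.hX j v hv⟩⟩
  intro j
  refine ⟨PB (fS d l V X) j, fun v => -CK (-1) 0 1 (fun j s => (Gh d l V X j s : ℂ)) j v,
    ?_, 256 * (K1 * M) + K2 * M, ?_⟩
  · intro v hv hv'
    have hvD : v ∈ DG := ⟨hv, hv'⟩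
    exact ⟨(dV j v hvD).1, (dX j v hvD).1, (dB j v hvD).1, (dQ j v hvD).1, (dV j v hvD).2,
      (dX j v hvD).2, (dB j v hvD).2, (dQ j v hvD).2⟩
  · intro v hv hv'
    have hvD : v ∈ DG := ⟨hv, hv'⟩
    have hw := wh_nonneg v
    have a1 : 0 ≤ 256 * (K1 * M) * wh v := by positivity
    have a2 : 0 ≤ K2 * M * wh v := by positivity
    constructor
    · have := gB j v hvD
      linarith
    · rw [norm_neg]
      have := hg2 M (fun j s => (Gh d l V X j s : ℂ)) hM.le bG j v hvD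
      linarith

end Pool.Agent.H794.EX
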