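import Pool.Agent.H794.EX.Spec

set_option autoImplicit false

open scoped Manifold ContDiff Matrix ComplexOrder
open Matrix Topology MeasureTheory Set Filter

namespace Pool.Agent.H794.EX

open Pool.Agent.Helper614.HE Pool.Agent.H794

namespace PRJL

theorem measDD : MeasurableSet DD := Metric.isClosed_closedBall.measurableSet

theorem compDD : IsCompact DD := isCompact_closedBall 0 1

theorem intcont {f : ℂ → ℂ} (h : Continuous f) : IntegrableOn f DD :=
  h.continuousOn.integrableOn_compact compDD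

/-- rotation invariance -/
theorem rot (u : ℂ) (hu : ‖u‖ = 1) (F : ℂ → ℂ) : ∫ s in DD, F (u * s) = ∫ s in DD, F s := by
  have hu0 : u ≠ 0 := by
    intro h; rw [h, norm_zero] at hu; exact zero_ne_one hu
  let c : Circle := ⟨u, by simpa [Submonoid.unitSphere] using hu⟩
  have h1 : MeasurePreserving (rotation c) (volume : Measure ℂ) volume :=
    (rotation c).measurePreserving
  have h2 : MeasurableEmbedding (rotation c) :=
    (rotation c).toHomeomorph.measurableEmbedding
  have h3 := h1.setIntegral_preimage_emb h2 F DD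
  have h4 : (rotation c) ⁻¹' DD = DD := by
    ext s
    simp only [mem_preimage, DD, mem_closedBall_zero_iff, LinearIsometryEquiv.norm_map]
  rw [h4] at h3
  rw [← h3]
  rfl

theorem off (a b : ℕ) (hab : a ≠ b) : ∫ s in DD, (starRingEnd ℂ) s ^ a * s ^ b = 0 := by
  -- choose u with conj u ^ a * u ^ b = -1
  obtain ⟨u, hu, hu2⟩ : ∃ u : ℂ, ‖u‖ = 1 ∧ (starRingEnd ℂ) u ^ a * u ^ b = -1 := by
    refine ⟨Complex.exp ((Real.pi / ((b : ℝ) - a) : ℝ) * Complex.I), Complex.norm_exp_ofReal_mul_I _, ?_⟩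
    rw [← Complex.exp_conj, ← Complex.exp_nat_mul, ← Complex.exp_nat_mul, ← Complex.exp_add,
      ← Complex.exp_pi_mul_I]
    congr 1
    have h : ((b : ℂ) - a) ≠ 0 := by
      intro h
      apply hab
      have : (b : ℂ) = a := sub_eq_zero.mp h
      exact_mod_cast this.symm
    simp only [map_mul, Complex.conj_ofReal, Complex.conj_I]
    push_cast
    field_simp
    ring
  have h1 := rot u hu (fun s => (starRingEnd ℂ) s ^ a * s ^ b)
  have h2 : ∀ s : ℂ, (starRingEnd ℂ) (u * s) ^ a * (u * s) ^ b =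
      -((starRingEnd ℂ) s ^ a * s ^ b) := by
    intro s
    rw [map_mul, mul_pow, mul_pow]
    linear_combination ((starRingEnd ℂ) s ^ a * s ^ b) * hu2
  simp only [h2] at h1
  rw [integral_neg] at h1
  have h3 : (2 : ℂ) * ∫ s in DD, (starRingEnd ℂ) s ^ a * s ^ b = 0 := by
    linear_combination -h1
  exact (mul_eq_zero.mp h3).resolve_left two_ne_zero

theorem diagR (a : ℕ) : ∫ s in DD, ‖s‖ ^ (2 * a) = Real.pi / (a + 1) := by
  have h1 : ∫ s in DD, ‖s‖ ^ (2 * a) =
      ∫ s : ℂ, (Set.indicator (Set.Iic (1 : ℝ)) (fun y => y ^ (2 * a))) ‖s‖ := by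
    rw [← integral_indicator measDD]
    congr 1
    ext s
    simp only [indicator, DD, mem_closedBall_zero_iff, mem_Iic]
  rw [h1, integral_fun_norm_addHaar volume
    (Set.indicator (Set.Iic (1 : ℝ)) (fun y => y ^ (2 * a)))]
  have h2 : ∫ y in Ioi (0 : ℝ), y ^ (Module.finrank ℝ ℂ - 1) •
      (Set.indicator (Set.Iic (1 : ℝ)) (fun y => y ^ (2 * a))) y =
      ∫ y in (0 : ℝ)..1, y ^ (2 * a + 1) := by
    rw [intervalIntegral.integral_of_le zero_le_one, ← Ioi_inter_Iic,
      ← setIntegral_indicator measurableSet_Iic]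
    refine setIntegral_congr_fun measurableSet_Ioi (fun y _ => ?_)
    simp only [Complex.finrank_real_complex, indicator, smul_eq_mul]
    split_ifs
    · ring
    · simp
  rw [h2, integral_pow]
  have h3 : volume.real (Metric.ball (0 : ℂ) 1) = Real.pi := by
    rw [Measure.real, Complex.volume_ball]
    simp
  rw [h3, Complex.finrank_real_complex]
  have h4 : (a : ℝ) + 1 ≠ 0 := by positivity
  have h5 : ((2 * a + 1 : ℕ) : ℝ) + 1 ≠ 0 := by positivity
  push_cast at h5 ⊢
  simp only [nsmul_eq_mul, smul_eq_mul]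
  push_cast
  field_simp
  ring

theorem diag (a : ℕ) : ∫ s in DD, (starRingEnd ℂ) s ^ a * s ^ a = ((Real.pi / (a + 1) : ℝ) : ℂ) := by
  rw [← diagR, ← integral_complex_ofReal]
  congr 1
  ext s
  rw [← mul_pow, ← Complex.normSq_eq_conj_mul_self, Complex.normSq_eq_norm_sq]
  push_cast
  rw [← pow_mul]

theorem eps (j : Bool) : ep j * ep j = 1 := by
  unfold ep; split_ifs <;> norm_num

theorem ee_inj (j : Bool) {k m : ℕ} (hk : k < 11) (hm : m < 11) (h : ee j k = ee j m) : k = m := by
  unfold ee at h; split_ifs at h <;> omega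

theorem ccdef (k : ℕ) : (Real.pi / (k + 1) + Real.pi / (11 - k)) * cc k = 1 ∨ 11 ≤ k := by
  by_cases hk : k < 11
  · left
    unfold cc
    apply mul_inv_cancel₀
    have h1 : (k : ℝ) < 11 := by exact_mod_cast hk
    have h2 : 0 < Real.pi / ((k : ℝ) + 1) := by positivity
    have h3 : 0 < Real.pi / (11 - (k : ℝ)) := div_pos Real.pi_pos (by linarith)
    positivity
  · right; omega

theorem cont_pol (p : ℕ → ℂ) (j : Bool) : Continuous (pol p j) := by
  unfold pol
  fun_prop

theorem MM_pol (p : ℕ → ℂ) (k : ℕ) (hk : k < 11) :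
    MM (pol p) k = p k * ((Real.pi / (k + 1) + Real.pi / (11 - k) : ℝ) : ℂ) := by
  have h1 : ∀ j, ep j * ∫ s in DD, (starRingEnd ℂ) s ^ ee j k * pol p j s =
      p k * ((Real.pi / ((ee j k : ℕ) + 1) : ℝ) : ℂ) := by
    intro j
    have h2 : ∀ s, (starRingEnd ℂ) s ^ ee j k * pol p j s =
        ∑ m ∈ Finset.range 11, (p m * ep j) * ((starRingEnd ℂ) s ^ ee j k * s ^ ee j m) := by
      intro s
      rw [pol, Finset.mul_sum]
      exact Finset.sum_congr rfl (fun m _ => by ring)
    simp only [h2]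
    rw [integral_finsetSum]
    · rw [Finset.sum_eq_single k]
      · rw [integral_const_mul, diag]
        linear_combination (p k * ((Real.pi / ((ee j k : ℕ) + 1) : ℝ) : ℂ)) * eps j
      · intro m hm hmk
        rw [integral_const_mul, off, mul_zero]
        intro h
        exact hmk (ee_inj j hk (Finset.mem_range.mp hm) h).symm
      · intro h
        exact absurd (Finset.mem_range.mpr hk) h
    · intro m _
      exact intcont (by fun_prop)
  unfold MM
  rw [Fintype.sum_bool, h1, h1]
  have h3 : ((ee true k : ℕ) : ℝ) = 10 - k := by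
    simp only [ee, if_true]
    rw [Nat.cast_sub (by omega)]
    norm_num
  have h4 : ((ee false k : ℕ) : ℝ) = k := by
    simp [ee]
  rw [h3, h4, show (10 : ℝ) - k + 1 = 11 - k by ring]
  push_cast
  ring

theorem Pj_pol (p : ℕ → ℂ) (k : ℕ) (hk : k < 11) : Pj (pol p) k = p k := by
  unfold Pj
  rw [MM_pol p k hk]
  rcases ccdef k with h | h
  · have h' : ((Real.pi / (k + 1) + Real.pi / (11 - k) : ℝ) : ℂ) * (cc k : ℂ) = 1 := by
      exact_mod_cast h
    linear_combination (p k) * h'
  · omega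

theorem int_conj_pow {f : ℂ → ℂ} (h : IntegrableOn f DD) (a : ℕ) :
    IntegrableOn (fun s => (starRingEnd ℂ) s ^ a * f s) DD := by
  refine IntegrableOn.continuousOn_mul (K := DD) ?_ h compDD
  exact (Continuous.continuousOn (by fun_prop))

theorem MM_add (f g : Bool → ℂ → ℂ) (hf : ∀ j, IntegrableOn (f j) DD)
    (hg : ∀ j, IntegrableOn (g j) DD) (k : ℕ) :
    MM (fun j s => f j s + g j s) k = MM f k + MM g k := by
  unfold MM
  rw [← Finset.sum_add_distrib]
  refine Finset.sum_congr rfl (fun j _ => ?_)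
  rw [← mul_add, ← integral_add (int_conj_pow (hf j) _) (int_conj_pow (hg j) _)]
  simp only [mul_add]

theorem MM_smul (f : Bool → ℂ → ℂ) (t : ℂ) (k : ℕ) :
    MM (fun j s => t * f j s) k = t * MM f k := by
  unfold MM
  rw [Finset.mul_sum]
  refine Finset.sum_congr rfl (fun j _ => ?_)
  have h : ∀ s, (starRingEnd ℂ) s ^ ee j k * (t * f j s) =
      t * ((starRingEnd ℂ) s ^ ee j k * f j s) := fun s => by ring
  simp only [h]
  rw [integral_const_mul]
  ring

theorem Pj_add (f g : Bool → ℂ → ℂ) (hf : ∀ j, IntegrableOn (f j) DD)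
    (hg : ∀ j, IntegrableOn (g j) DD) (k : ℕ) :
    Pj (fun j s => f j s + g j s) k = Pj f k + Pj g k := by
  unfold Pj
  rw [MM_add f g hf hg]
  ring

theorem Pj_smul (f : Bool → ℂ → ℂ) (t : ℂ) (k : ℕ) :
    Pj (fun j s => t * f j s) k = t * Pj f k := by
  unfold Pj
  rw [MM_smul]
  ring

theorem int_pol (p : ℕ → ℂ) (j : Bool) : IntegrableOn (pol p j) DD := intcont (cont_pol p j)

theorem Pj_perp (f : Bool → ℂ → ℂ) (hf : ∀ j, IntegrableOn (f j) DD) (k : ℕ) (hk : k < 11) :
    Pj (perp f) k = 0 := by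
  have h1 : perp f = fun j s => f j s + (fun j s => (-1) * pol (Pj f) j s) j s := by
    funext j s
    simp only [perp]
    ring
  rw [h1, Pj_add f _ hf (fun j => (int_pol (Pj f) j).const_mul (-1)), Pj_smul, Pj_pol _ k hk]
  ring

theorem pairing (f : Bool → ℂ → ℂ) (hf : ∀ j, IntegrableOn (f j) DD) (p : ℕ → ℂ) :
    totc (fun j s => (starRingEnd ℂ) (f j s) * pol p j s) =
      ∑ k ∈ Finset.range 11, (starRingEnd ℂ) (MM f k) * p k := by
  unfold totc
  have hj : ∀ j, ∫ s in DD, (starRingEnd ℂ) (f j s) * pol p j s =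
      ∑ k ∈ Finset.range 11, (starRingEnd ℂ) (ep j * ∫ s in DD, (starRingEnd ℂ) s ^ ee j k * f j s)
        * p k := by
    intro j
    have h2 : ∀ s, (starRingEnd ℂ) (f j s) * pol p j s =
        ∑ m ∈ Finset.range 11, (ep j * p m) *
          (starRingEnd ℂ) ((starRingEnd ℂ) s ^ ee j m * f j s) := by
      intro s
      rw [pol, Finset.mul_sum]
      refine Finset.sum_congr rfl (fun m _ => ?_)
      rw [map_mul, map_pow, Complex.conj_conj]
      ring
    simp only [h2]
    rw [integral_finsetSum]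
    · refine Finset.sum_congr rfl (fun m _ => ?_)
      rw [integral_const_mul, integral_conj, map_mul]
      have : (starRingEnd ℂ) (ep j) = ep j := by
        unfold ep; split_ifs <;> simp
      rw [this]
      ring
    · intro m _
      refine Integrable.const_mul ?_ _
      have := int_conj_pow (hf j) (ee j m)
      exact (LinearIsometryEquiv.integrable_comp_iff
        (Complex.conjLIE : ℂ ≃ₗᵢ[ℝ] ℂ)).mpr this
  simp only [hj]
  rw [Finset.sum_comm]
  refine Finset.sum_congr rfl (fun k _ => ?_)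
  rw [← Finset.sum_mul, MM, map_sum]

end PRJL

/-- **PRJ** -/
theorem t_PRJ : S_PRJ := by
  refine ⟨fun p k hk => PRJL.Pj_pol p k hk, fun f hf => ⟨fun k hk => PRJL.Pj_perp f hf k hk,
    fun p => PRJL.pairing f hf p, fun t k => PRJL.Pj_smul f t k⟩,
    fun f g hf hg k => PRJL.Pj_add f g hf hg k⟩

end Pool.Agent.H794.EX
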