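import Pool.Agent.H794.EX.Spec

set_option autoImplicit false

open scoped Manifold ContDiff Matrix ComplexOrder
open Matrix Topology MeasureTheory Set Filter

namespace Pool.Agent.H794.EX

open Pool.Agent.Helper614.HE Pool.Agent.H794

namespace SEQL

lemma mDD : MeasurableSet DD := Metric.isClosed_closedBall.measurableSet

lemma norm_le_one_of_mem {s : ℂ} (hs : s ∈ DD) : ‖s‖ ≤ 1 := by
  have := hs
  rwa [DD, mem_closedBall_zero_iff] at this

lemma fin16 : Set.Finite {s : ℂ | s ^ 16 + 1 = 0} := by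
  have hp : (Polynomial.X ^ 16 + Polynomial.C (1 : ℂ)) ≠ 0 :=
    Polynomial.X_pow_add_C_ne_zero (by norm_num) 1
  refine (Polynomial.finite_setOfPred_isRoot hp).subset ?_
  intro s hs
  simpa [Polynomial.IsRoot] using hs

lemma ae_good : ∀ᵐ s : ℂ ∂(volume.restrict DD), s ∈ DD ∧ s ^ 16 + 1 ≠ 0 := by
  have h1 : ∀ᵐ s : ℂ ∂(volume.restrict DD), s ∈ DD := ae_restrict_mem mDD
  have h2 : ∀ᵐ s : ℂ ∂(volume.restrict DD), s ^ 16 + 1 ≠ 0 := by
    refine ae_restrict_of_ae ?_
    have h3 : (volume : Measure ℂ) {s : ℂ | s ^ 16 + 1 = 0} = 0 := fin16.measure_zero _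
    rw [ae_iff]
    simpa using h3
  exact h1.and h2

lemma mww : Measurable ww := by
  unfold ww sx
  exact (by fun_prop : Measurable fun s : ℂ => ‖s ^ 16 + 1‖).pow_const _

lemma mwh : Measurable wh := by
  unfold wh sx
  exact (by fun_prop : Measurable fun s : ℂ => ‖s ^ 16 + 1‖).pow_const _

lemma ww_nn (s : ℂ) : 0 ≤ ww s := Real.rpow_nonneg (norm_nonneg _) _

lemma wh_nn (s : ℂ) : 0 ≤ wh s := Real.rpow_nonneg (norm_nonneg _) _

/-- convergence on the disc off the 16 points -/
def Cv {E : Type*} [NormedAddCommGroup E] (F : ℕ → Bool → ℂ → E) (F' : Bool → ℂ → E) : Prop :=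
  ∀ j, ∀ s ∈ DD, s ^ 16 + 1 ≠ 0 → Tendsto (fun n => F n j s) atTop (𝓝 (F' j s))

lemma dct {E : Type*} [NormedAddCommGroup E] [NormedSpace ℝ E] (F : ℕ → ℂ → E) (F' : ℂ → E)
    (b : ℂ → ℝ) (hm : ∀ n, AEStronglyMeasurable (F n) (volume.restrict DD))
    (hb : IntegrableOn b DD) (hd : ∀ n, ∀ s ∈ DD, s ^ 16 + 1 ≠ 0 → ‖F n s‖ ≤ b s)
    (hl : ∀ s ∈ DD, s ^ 16 + 1 ≠ 0 → Tendsto (fun n => F n s) atTop (𝓝 (F' s))) :
    Tendsto (fun n => ∫ s in DD, F n s) atTop (𝓝 (∫ s in DD, F' s)) := by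
  refine tendsto_integral_of_dominated_convergence b hm hb ?_ ?_
  · intro n
    filter_upwards [ae_good] with s hs using hd n s hs.1 hs.2
  · filter_upwards [ae_good] with s hs using hl s hs.1 hs.2

lemma int_ww (h3 : S_OPL) : IntegrableOn ww DD := by
  obtain ⟨K, hK, h⟩ := h3
  have := (h (fun _ => ww) 1 (fun _ => mww) zero_le_one (by
    intro j s _ _
    rw [one_mul, Real.norm_eq_abs, abs_of_nonneg (ww_nn s)])).1 true
  exact this

lemma cvMM {w : ℂ → ℝ} (hw : IntegrableOn w DD) {F : ℕ → Bool → ℂ → ℂ} {F' : Bool → ℂ → ℂ}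
    {c : ℝ} (hm : ∀ n j, AEStronglyMeasurable (F n j) (volume.restrict DD))
    (hd : ∀ n, Dom w c (F n)) (hl : Cv F F') (k : ℕ) :
    Tendsto (fun n => MM (F n) k) atTop (𝓝 (MM F' k)) := by
  unfold MM
  refine tendsto_finsetSum _ fun j _ => ?_
  refine Tendsto.const_mul _ ?_
  refine dct _ _ (fun s => c * w s) ?_ (hw.const_mul c) ?_ ?_
  · intro n
    have hc : Continuous fun s : ℂ => (starRingEnd ℂ) s ^ ee j k :=
      Complex.continuous_conj.pow _
    exact hc.aestronglyMeasurable.mul (hm n j)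
  · intro n s hs hg
    rw [norm_mul, norm_pow, RCLike.norm_conj]
    calc ‖s‖ ^ ee j k * ‖F n j s‖ ≤ 1 * ‖F n j s‖ := by
          gcongr
          exact pow_le_one₀ (norm_nonneg _) (norm_le_one_of_mem hs)
      _ ≤ c * w s := by rw [one_mul]; exact hd n j s hs hg
  · intro s hs hg
    exact (hl j s hs hg).const_mul _

lemma cvPj {w : ℂ → ℝ} (hw : IntegrableOn w DD) {F : ℕ → Bool → ℂ → ℂ} {F' : Bool → ℂ → ℂ}
    {c : ℝ} (hm : ∀ n j, AEStronglyMeasurable (F n j) (volume.restrict DD))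
    (hd : ∀ n, Dom w c (F n)) (hl : Cv F F') (k : ℕ) :
    Tendsto (fun n => Pj (F n) k) atTop (𝓝 (Pj F' k)) := by
  unfold Pj
  exact (cvMM hw hm hd hl k).const_mul _

lemma cvpol {p : ℕ → ℕ → ℂ} {p' : ℕ → ℂ} (h : ∀ k, Tendsto (fun n => p n k) atTop (𝓝 (p' k)))
    (j : Bool) (s : ℂ) : Tendsto (fun n => pol (p n) j s) atTop (𝓝 (pol p' j s)) := by
  unfold pol
  exact tendsto_finsetSum _ fun k _ => ((h k).mul_const _).mul_const _

lemma cvCK {σ : ℂ} {a b : ℕ} {v : ℂ} {j : Bool} {F : ℕ → Bool → ℂ → ℂ} {F' : Bool → ℂ → ℂ}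
    {c : ℝ} {w : ℂ → ℝ} (hw0 : ∀ s, 0 ≤ w s) (hv : v ∈ DD)
    (h1 : IntegrableOn (fun s => (w s : ℂ) / (v - s)) DD)
    (h2 : IntegrableOn (fun s => s ^ b * (w s : ℂ) / (1 - v * s)) DD) (hσ : ‖σ‖ ≤ 1)
    (hm : ∀ n j, AEStronglyMeasurable (F n j) (volume.restrict DD))
    (hd : ∀ n, Dom w c (F n)) (hl : Cv F F') :
    Tendsto (fun n => CK σ a b (F n) j v) atTop (𝓝 (CK σ a b F' j v)) := by
  unfold CK
  refine Tendsto.const_mul _ (Tendsto.add ?_ ?_)
  · refine dct _ _ (fun s => c * ‖(w s : ℂ) / (v - s)‖) ?_ (h1.norm.const_mul c) ?_ ?_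
    · intro n
      have hc : Measurable fun s : ℂ => (v - s)⁻¹ := (measurable_const.sub measurable_id).inv
      simp only [div_eq_mul_inv]
      exact (hm n j).mul hc.aestronglyMeasurable
    · intro n s hs hg
      rw [norm_div, norm_div, Complex.norm_real, Real.norm_eq_abs, abs_of_nonneg (hw0 s),
        ← mul_div_assoc]
      exact div_le_div_of_nonneg_right (hd n j s hs hg) (norm_nonneg _)
    · intro s hs hg
      exact (hl j s hs hg).div_const _
  · refine dct _ _ (fun s => c * ‖s ^ b * (w s : ℂ) / (1 - v * s)‖) ?_ (h2.norm.const_mul c) ?_ ?_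
    · intro n
      have hc : Measurable fun s : ℂ => (1 - v * s)⁻¹ :=
        (measurable_const.sub (measurable_const.mul measurable_id)).inv
      have hc2 : Measurable fun s : ℂ => σ * v ^ a * s ^ b :=
        measurable_const.mul (measurable_id.pow_const _)
      simp only [div_eq_mul_inv]
      exact (hc2.aestronglyMeasurable.mul (hm n (!j))).mul hc.aestronglyMeasurable
    · intro n s hs hg
      rw [norm_div, norm_div, ← mul_div_assoc]
      refine div_le_div_of_nonneg_right ?_ (norm_nonneg _)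
      rw [norm_mul, norm_mul, norm_mul, norm_mul, Complex.norm_real, Real.norm_eq_abs,
        abs_of_nonneg (hw0 s), norm_pow v]
      have e1 : ‖σ‖ * ‖v‖ ^ a ≤ 1 :=
        mul_le_one₀ hσ (pow_nonneg (norm_nonneg _) _)
          (pow_le_one₀ (norm_nonneg _) (norm_le_one_of_mem hv))
      have e2 := hd n (!j) s hs hg
      calc ‖σ‖ * ‖v‖ ^ a * ‖s ^ b‖ * ‖F n (!j) s‖ ≤ 1 * ‖s ^ b‖ * (c * w s) := by
            gcongr
        _ = c * (‖s ^ b‖ * w s) := by ring
    · intro s hs hg
      exact ((hl (!j) s hs hg).const_mul _).div_const _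

lemma cvPL {v : ℂ} {j : Bool} {G : ℕ → Bool → ℂ → ℝ} {G' : Bool → ℂ → ℝ} {c : ℝ}
    (h1 : IntegrableOn (fun s => Real.log (‖v - s‖ ^ 2) * ww s) DD)
    (h2 : IntegrableOn (fun s => Real.log (‖1 - v * s‖ ^ 2) * ww s) DD)
    (hm : ∀ n j, Measurable (G n j)) (hd : ∀ n, Dom ww c (G n)) (hl : Cv G G') :
    Tendsto (fun n => PL (G n) j v) atTop (𝓝 (PL G' j v)) := by
  unfold PL
  refine Tendsto.const_mul _ (Tendsto.add ?_ ?_)
  · refine dct _ _ (fun s => c * ‖Real.log (‖v - s‖ ^ 2) * ww s‖) ?_ (h1.norm.const_mul c) ?_ ?_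
    · intro n
      have hc : Measurable fun s : ℂ => Real.log (‖v - s‖ ^ 2) :=
        Real.measurable_log.comp ((measurable_const.sub measurable_id).norm.pow_const _)
      exact (hc.mul (hm n j)).aestronglyMeasurable
    · intro n s hs hg
      rw [norm_mul, norm_mul, Real.norm_eq_abs (ww s), abs_of_nonneg (ww_nn s)]
      calc ‖Real.log (‖v - s‖ ^ 2)‖ * ‖G n j s‖ ≤ ‖Real.log (‖v - s‖ ^ 2)‖ * (c * ww s) := by
            gcongr
            exact hd n j s hs hg
        _ = c * (‖Real.log (‖v - s‖ ^ 2)‖ * ww s) := by ring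
    · intro s hs hg
      exact (hl j s hs hg).const_mul _
  · refine dct _ _ (fun s => c * ‖Real.log (‖1 - v * s‖ ^ 2) * ww s‖) ?_ (h2.norm.const_mul c)
      ?_ ?_
    · intro n
      have hc : Measurable fun s : ℂ => Real.log (‖1 - v * s‖ ^ 2) :=
        Real.measurable_log.comp
          ((measurable_const.sub (measurable_const.mul measurable_id)).norm.pow_const _)
      exact (hc.mul (hm n (!j))).aestronglyMeasurable
    · intro n s hs hg
      rw [norm_mul, norm_mul, Real.norm_eq_abs (ww s), abs_of_nonneg (ww_nn s)]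
      calc ‖Real.log (‖1 - v * s‖ ^ 2)‖ * ‖G n (!j) s‖
          ≤ ‖Real.log (‖1 - v * s‖ ^ 2)‖ * (c * ww s) := by
            gcongr
            exact hd n (!j) s hs hg
        _ = c * (‖Real.log (‖1 - v * s‖ ^ 2)‖ * ww s) := by ring
    · intro s hs hg
      exact (hl (!j) s hs hg).const_mul _

lemma cvtot {w : ℂ → ℝ} (hw : IntegrableOn w DD) {G : ℕ → Bool → ℂ → ℝ} {G' : Bool → ℂ → ℝ}
    {c : ℝ} (hm : ∀ n j, Measurable (G n j)) (hd : ∀ n, Dom w c (G n)) (hl : Cv G G') :
    Tendsto (fun n => tot (G n)) atTop (𝓝 (tot G')) := by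
  unfold tot
  refine tendsto_finsetSum _ fun j _ => ?_
  exact dct _ _ (fun s => c * w s) (fun n => (hm n j).aestronglyMeasurable) (hw.const_mul c)
    (fun n s hs hg => hd n j s hs hg) (fun s hs hg => hl j s hs hg)

end SEQL

theorem t_SEQ (h0 : S_KER) (h1 : S_OPB) (h2 : S_OPX) (h3 : S_OPL) (h4 : S_BND) : S_SEQ := by
  intro d hd R hR l l' V X V' X' hl hl' hB hB' cl cV cX
  obtain ⟨M, hM, hE⟩ := h4 d hd R hR
  have E : ∀ n, Est d (l n) (V n) (X n) M := fun n => hE (l n) (hl n) (V n) (X n) (hB n)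
  have E' : Est d l' V' X' M := hE l' hl' V' X' hB'
  have iww : IntegrableOn ww DD := SEQL.int_ww h3
  obtain ⟨KB, hKB, hOB⟩ := h1
  obtain ⟨KX, hKX, hOX⟩ := h2
  obtain ⟨KL, hKL, hOL⟩ := h3
  have hOB1 := hOB (fun _ s => (ww s : ℂ)) 1
    (fun _ => Complex.measurable_ofReal.comp SEQL.mww) zero_le_one (by
      intro j s _ _
      rw [one_mul, Complex.norm_real, Real.norm_eq_abs, abs_of_nonneg (SEQL.ww_nn s)])
  have hOX1 := hOX (fun _ s => (wh s : ℂ)) 1
    (fun _ => Complex.measurable_ofReal.comp SEQL.mwh) zero_le_one (by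
      intro j s _ _
      rw [one_mul, Complex.norm_real, Real.norm_eq_abs, abs_of_nonneg (SEQL.wh_nn s)])
  have hOL1 := hOL (fun _ s => ww s) 1 (fun _ => SEQL.mww) zero_le_one (by
      intro j s _ _
      rw [one_mul, Real.norm_eq_abs, abs_of_nonneg (SEQL.ww_nn s)])
  -- the source of `B`
  have cF : SEQL.Cv (fun n => fS d (l n) (V n) (X n)) (fS d l' V' X') := by
    intro j s hs _
    unfold fS
    refine Tendsto.const_mul _ ?_
    have hc := (hd.contF j).tendsto (l', s, V' j s, X' j s)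
    have ht : Tendsto (fun n => (l n, s, V n j s, X n j s)) atTop (𝓝 (l', s, V' j s, X' j s)) :=
      cl.prodMk_nhds (tendsto_const_nhds.prodMk_nhds ((cV j s hs).prodMk_nhds (cX j s hs)))
    exact hc.comp ht
  have cPf : ∀ k, Tendsto (fun n => Pj (fS d (l n) (V n) (X n)) k) atTop
      (𝓝 (Pj (fS d l' V' X') k)) := fun k =>
    SEQL.cvPj iww (fun n j => ((E n).mf j).aestronglyMeasurable) (fun n => (E n).bf) cF k
  have cperp : SEQL.Cv (fun n => perp (fS d (l n) (V n) (X n))) (perp (fS d l' V' X')) := by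
    intro j s hs hg
    unfold perp
    exact (cF j s hs hg).sub (SEQL.cvpol cPf j s)
  -- the function `B`
  have cB : SEQL.Cv (fun n => bS d (l n) (V n) (X n)) (bS d l' V' X') := by
    intro j v hv hg
    unfold bS PB
    refine (Complex.continuous_conj.tendsto _).comp ?_
    have hi := hOB1.2.2 j v hv hg
    simp only [Complex.conj_ofReal] at hi
    refine SEQL.cvCK (c := M) (w := ww) SEQL.ww_nn hv hi.1 hi.2.1 (by simp) ?_ ?_ ?_
    · intro n j
      exact (Complex.continuous_conj.measurable.comp ((E n).mp j)).aestronglyMeasurable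
    · intro n j s hs hg
      rw [RCLike.norm_conj]
      exact (E n).bp j s hs hg
    · intro j s hs hg
      exact (Complex.continuous_conj.tendsto _).comp (cperp j s hs hg)
  have ceU : ∀ j, ∀ s ∈ DD, Tendsto (fun n => eU (V n) j s) atTop (𝓝 (eU V' j s)) := by
    intro j s hs
    unfold eU
    exact ((Real.continuous_exp.tendsto _).comp (cV j s hs)).mul_const _
  have cg : SEQL.Cv (fun n => gS d (l n) (V n) (X n)) (gS d l' V' X') := by
    intro j s hs hg
    unfold gS
    exact ((Complex.continuous_ofReal.tendsto _).comp (ceU j s hs)).mul (cB j s hs hg)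
  have cGp : SEQL.Cv (fun n => Gp d (l n) (V n) (X n)) (Gp d l' V' X') := by
    intro j s hs hg
    unfold Gp
    refine Tendsto.add (Tendsto.add ?_ ?_) ?_
    · exact (ceU j s hs).mul (((cB j s hs hg).norm).pow 2)
    · refine Tendsto.const_mul _ ?_
      have hc := (hd.contP j).tendsto (l', s, V' j s, X' j s)
      have ht : Tendsto (fun n => (l n, s, V n j s, X n j s)) atTop (𝓝 (l', s, V' j s, X' j s)) :=
        cl.prodMk_nhds (tendsto_const_nhds.prodMk_nhds ((cV j s hs).prodMk_nhds (cX j s hs)))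
      exact hc.comp ht
    · exact (((hd.contc).tendsto l').comp cl).div_const _
  have cGm : SEQL.Cv (fun n => Gm d (V n)) (Gm d V') := by
    intro j s hs hg
    unfold Gm
    exact (((Real.continuous_exp.tendsto _).comp (cV j s hs)).const_mul _).const_mul _
  have ctp : Tendsto (fun n => tot (Gp d (l n) (V n) (X n))) atTop (𝓝 (tot (Gp d l' V' X'))) :=
    SEQL.cvtot iww (fun n => (E n).mGp) (fun n => (E n).bGp) cGp
  have ctm : Tendsto (fun n => tot (Gm d (V n))) atTop (𝓝 (tot (Gm d V'))) :=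
    SEQL.cvtot iww (fun n => (E n).mGm) (fun n => (E n).bGm) cGm
  have hM1 : 0 < M⁻¹ := inv_pos.mpr hM
  have ckap : Tendsto (fun n => kap d (l n) (V n) (X n)) atTop (𝓝 (kap d l' V' X')) := by
    unfold kap
    exact ctp.div ctm (ne_of_gt (lt_of_lt_of_le hM1 E'.lGm))
  have cGh : SEQL.Cv (fun n => Gh d (l n) (V n) (X n)) (Gh d l' V' X') := by
    intro j s hs hg
    unfold Gh
    exact (cGp j s hs hg).sub (ckap.mul (cGm j s hs hg))
  have cPL : ∀ j, ∀ v ∈ DD, Tendsto (fun n => PL (Gh d (l n) (V n) (X n)) j v) atTop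
      (𝓝 (PL (Gh d l' V' X') j v)) := by
    intro j v hv
    have hi := hOL1.2.2.1 j v hv
    exact SEQL.cvPL hi.1 hi.2.1 (fun n => (E n).mGh) (fun n => (E n).bGh) cGh
  have cVN : SEQL.Cv (fun n => VN d (l n) (V n) (X n)) (VN d l' V' X') := by
    intro j s hs hg
    unfold VN
    exact ((Real.continuous_exp.tendsto _).comp (cPL j s hs).neg).const_mul _
  have ctN : Tendsto (fun n => tot (VN d (l n) (V n) (X n))) atTop (𝓝 (tot (VN d l' V' X'))) :=
    SEQL.cvtot iww (fun n => (E n).mVN) (fun n => (E n).bVN) cVN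
  -- the potential
  have cPX : ∀ j, ∀ v ∈ DD, Tendsto (fun n => PX (gS d (l n) (V n) (X n)) j v) atTop
      (𝓝 (PX (gS d l' V' X') j v)) := by
    intro j v hv
    have hi := hOX1.2.1 j v hv
    unfold PX
    refine SEQL.cvCK (c := M) (w := wh) SEQL.wh_nn hv hi.1 (by simpa using hi.2.1) (by simp)
      (fun n j => ((E n).mg j).aestronglyMeasurable) (fun n => (E n).bg) cg
  have iDD : IntegrableOn (fun _ : ℂ => (1 : ℝ)) DD := by
    have : IsFiniteMeasure (volume.restrict DD : Measure ℂ) :=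
      ⟨by
        rw [Measure.restrict_apply_univ]
        exact (isCompact_closedBall (0 : ℂ) 1).measure_lt_top⟩
    exact integrable_const _
  have cPP : ∀ k, Tendsto (fun n => Pj (PX (gS d (l n) (V n) (X n))) k) atTop
      (𝓝 (Pj (PX (gS d l' V' X')) k)) := by
    intro k
    refine SEQL.cvPj (w := fun _ => (1 : ℝ)) (c := KX * M) iDD ?_ ?_ ?_ k
    · intro n j
      have hh := (hOX (gS d (l n) (V n) (X n)) M (E n).mg hM.le (E n).bg).2.2 j
      have hcon : ContinuousOn (PX (gS d (l n) (V n) (X n)) j) DD := by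
        intro v hv
        rw [ContinuousWithinAt, tendsto_iff_norm_sub_tendsto_zero]
        have hz : Tendsto (fun v' : ℂ => KX * M * ‖v' - v‖ ^ (1 / 4 : ℝ)) (𝓝[DD] v) (𝓝 0) := by
          have hc : Continuous fun v' : ℂ => KX * M * ‖v' - v‖ ^ (1 / 4 : ℝ) := by
            refine continuous_const.mul ?_
            exact (continuous_norm.comp (continuous_id.sub continuous_const)).rpow_const
              (fun _ => Or.inr (by norm_num))
          have h5 := hc.tendsto v
          simp only [sub_self, norm_zero] at h5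
          rw [Real.zero_rpow (by norm_num), mul_zero] at h5
          exact h5.mono_left nhdsWithin_le_nhds
        refine squeeze_zero' (Eventually.of_forall fun _ => norm_nonneg _) ?_ hz
        filter_upwards [self_mem_nhdsWithin] with v' hv'
        exact hh v' hv' v hv
      exact hcon.aestronglyMeasurable SEQL.mDD
    · intro n j s hs _
      rw [mul_one]
      exact ((hOX (gS d (l n) (V n) (X n)) M (E n).mg hM.le (E n).bg).2.1 j s hs).2.2
    · intro j s hs _
      exact cPX j s hs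
  have cPjX : ∀ k, Tendsto (fun n => Pj (X n) k) atTop (𝓝 (Pj X' k)) := by
    intro k
    refine SEQL.cvPj (w := fun _ => (1 : ℝ)) (c := R) iDD ?_ ?_ ?_ k
    · intro n j
      exact ((hB n).cX j).aestronglyMeasurable
    · intro n j s hs _
      rw [mul_one]
      exact (hB n).bX j s hs
    · intro j s hs _
      exact cX j s hs
  intro j v hv
  constructor
  · unfold TV
    refine (cPL j v hv).neg.add ?_
    have hp1 : 0 < tot (Gp d l' V' X') := lt_of_lt_of_le hM1 E'.lGp
    have hp2 : 0 < tot (VN d l' V' X') := lt_of_lt_of_le hM1 E'.lVN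
    exact (ctp.div ctN hp2.ne').log (div_pos hp1 hp2).ne'
  · unfold TX
    refine Tendsto.add ?_ ?_
    · unfold perp
      exact (cPX j v hv).sub (SEQL.cvpol cPP j v)
    · exact SEQL.cvpol (fun k => (cPjX k).sub (cPf k)) j v

end Pool.Agent.H794.EX
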