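import Pool.Agent.H794.EX.Spec

/-!
# Existence of harmonic metrics: a priori bound for the first part of the homotopy
-/

set_option autoImplicit false

open scoped Manifold ContDiff Matrix ComplexOrder
open Matrix Topology MeasureTheory Set Filter

namespace Pool.Agent.H794.EX

open Pool.Agent.Helper614.HE Pool.Agent.H794

namespace ST1L

theorem mDD : MeasurableSet DD := Metric.isClosed_closedBall.measurableSet

theorem tot_add {G H : Bool → ℂ → ℝ} (hG : ∀ j, IntegrableOn (G j) DD)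
    (hH : ∀ j, IntegrableOn (H j) DD) :
    tot (fun j s => G j s + H j s) = tot G + tot H := by
  unfold tot
  rw [← Finset.sum_add_distrib]
  exact Finset.sum_congr rfl fun j _ => integral_add (hG j) (hH j)

theorem tot_mul (c : ℝ) (G : Bool → ℂ → ℝ) : tot (fun j s => c * G j s) = c * tot G := by
  unfold tot
  rw [Finset.mul_sum]
  exact Finset.sum_congr rfl fun j _ => integral_const_mul c _

theorem tot_mono {G H : Bool → ℂ → ℝ} (hG : ∀ j, IntegrableOn (G j) DD)
    (hH : ∀ j, IntegrableOn (H j) DD) (h : ∀ j, ∀ s ∈ DD, G j s ≤ H j s) : tot G ≤ tot H :=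
  Finset.sum_le_sum fun j _ => setIntegral_mono_on (hG j) (hH j) mDD (h j)

theorem tot_congr {G H : Bool → ℂ → ℝ} (h : ∀ j, ∀ s ∈ DD, G j s = H j s) : tot G = tot H :=
  Finset.sum_congr rfl fun j _ => setIntegral_congr_fun mDD (h j)

theorem PL_congr {G H : Bool → ℂ → ℝ} (h : ∀ j, ∀ s ∈ DD, G j s = H j s) (j : Bool) (v : ℂ) :
    PL G j v = PL H j v := by
  unfold PL
  have e1 : ∫ s in DD, Real.log (‖v - s‖ ^ 2) * G j s =
      ∫ s in DD, Real.log (‖v - s‖ ^ 2) * H j s :=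
    setIntegral_congr_fun mDD fun s hs => by
      show Real.log (‖v - s‖ ^ 2) * G j s = Real.log (‖v - s‖ ^ 2) * H j s
      rw [h j s hs]
  have e2 : ∫ s in DD, Real.log (‖1 - v * s‖ ^ 2) * G (!j) s =
      ∫ s in DD, Real.log (‖1 - v * s‖ ^ 2) * H (!j) s :=
    setIntegral_congr_fun mDD fun s hs => by
      show Real.log (‖1 - v * s‖ ^ 2) * G (!j) s = Real.log (‖1 - v * s‖ ^ 2) * H (!j) s
      rw [h (!j) s hs]
  rw [e1, e2]

theorem PL_sub {G H : Bool → ℂ → ℝ} {j : Bool} {v : ℂ}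
    (hG : IntegrableOn (fun s => Real.log (‖v - s‖ ^ 2) * G j s) DD ∧
      IntegrableOn (fun s => Real.log (‖1 - v * s‖ ^ 2) * G (!j) s) DD)
    (hH : IntegrableOn (fun s => Real.log (‖v - s‖ ^ 2) * H j s) DD ∧
      IntegrableOn (fun s => Real.log (‖1 - v * s‖ ^ 2) * H (!j) s) DD) :
    PL (fun j s => G j s - H j s) j v = PL G j v - PL H j v := by
  unfold PL
  have e1 : ∫ s in DD, Real.log (‖v - s‖ ^ 2) * (G j s - H j s) =
      (∫ s in DD, Real.log (‖v - s‖ ^ 2) * G j s) -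
        ∫ s in DD, Real.log (‖v - s‖ ^ 2) * H j s := by
    rw [← integral_sub hG.1 hH.1]
    refine integral_congr_ae (Eventually.of_forall fun s => ?_)
    show Real.log (‖v - s‖ ^ 2) * (G j s - H j s) = _
    ring
  have e2 : ∫ s in DD, Real.log (‖1 - v * s‖ ^ 2) * (G (!j) s - H (!j) s) =
      (∫ s in DD, Real.log (‖1 - v * s‖ ^ 2) * G (!j) s) -
        ∫ s in DD, Real.log (‖1 - v * s‖ ^ 2) * H (!j) s := by
    rw [← integral_sub hG.2 hH.2]
    refine integral_congr_ae (Eventually.of_forall fun s => ?_)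
    show Real.log (‖1 - v * s‖ ^ 2) * (G (!j) s - H (!j) s) = _
    ring
  rw [e1, e2]
  ring

theorem CK_zero {g : Bool → ℂ → ℂ} (h : ∀ j, ∀ s ∈ DD, g j s = 0) (σ : ℂ) (a b : ℕ) (j : Bool)
    (v : ℂ) : CK σ a b g j v = 0 := by
  unfold CK
  have e1 : ∫ s in DD, g j s / (v - s) = 0 := by
    rw [setIntegral_congr_fun (g := fun _ => (0 : ℂ)) mDD fun s hs => by
      show g j s / (v - s) = 0
      rw [h j s hs, zero_div]]
    exact integral_zero _ _
  have e2 : ∫ s in DD, σ * v ^ a * s ^ b * g (!j) s / (1 - v * s) = 0 := by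
    rw [setIntegral_congr_fun (g := fun _ => (0 : ℂ)) mDD fun s hs => by
      show σ * v ^ a * s ^ b * g (!j) s / (1 - v * s) = 0
      rw [h (!j) s hs, mul_zero, zero_div]]
    exact integral_zero _ _
  rw [e1, e2, add_zero, mul_zero]

theorem PB_zero {f : Bool → ℂ → ℂ} (h : ∀ j, ∀ s ∈ DD, f j s = 0) (j : Bool) (v : ℂ) :
    PB f j v = 0 := by
  unfold PB
  rw [CK_zero (fun j s hs => by rw [h j s hs, map_zero]), map_zero]

theorem MM_zero {f : Bool → ℂ → ℂ} (h : ∀ j, ∀ s ∈ DD, f j s = 0) (k : ℕ) : MM f k = 0 := by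
  unfold MM
  refine Finset.sum_eq_zero fun j _ => ?_
  rw [setIntegral_congr_fun (g := fun _ => (0 : ℂ)) mDD fun s hs => by
    show (starRingEnd ℂ) s ^ ee j k * f j s = 0
    rw [h j s hs, mul_zero]]
  rw [integral_zero, mul_zero]

theorem perp_zero {f : Bool → ℂ → ℂ} (h : ∀ j, ∀ s ∈ DD, f j s = 0) :
    ∀ j, ∀ s ∈ DD, perp f j s = 0 := by
  intro j s hs
  unfold perp pol Pj
  rw [h j s hs, Finset.sum_eq_zero fun k _ => ?_, sub_zero]
  rw [MM_zero h, mul_zero, zero_mul, zero_mul]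

variable {d : Dat} (hd : d.OK)

include hd in
theorem Gp_eq {V : Bool → ℂ → ℝ} {X : Bool → ℂ → ℂ} (hX : ∀ j, ∀ s ∈ DD, X j s = 0) :
    ∀ j, ∀ s ∈ DD, Gp d 0 V X j s = d.ρ * ww s * d.P 0 j s 0 0 + d.c 0 / (1 + ‖s‖ ^ 2) ^ 2 := by
  intro j s hs
  have h1 : ∀ j, ∀ s ∈ DD, fS d 0 V X j s = 0 := by
    intro j s hs
    unfold fS
    rw [hX j s hs, hd.Fz, mul_zero]
  unfold Gp bS
  rw [PB_zero (perp_zero h1), hX j s hs, hd.Pz]
  simp

/-- Jensen's inequality. -/
theorem jensen {ν h : Bool → ℂ → ℝ} (h1 : ∀ j, IntegrableOn (ν j) DD)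
    (h2 : ∀ j, IntegrableOn (fun s => ν j s * h j s) DD)
    (h3 : ∀ j, IntegrableOn (fun s => ν j s * Real.exp (h j s)) DD)
    (hp : ∀ j, ∀ s ∈ DD, 0 ≤ ν j s) (hn : 0 < tot ν) :
    tot ν * Real.exp (tot (fun j s => ν j s * h j s) / tot ν) ≤
      tot (fun j s => ν j s * Real.exp (h j s)) := by
  set a := tot (fun j s => ν j s * h j s) / tot ν with ha
  have ha' : a * tot ν = tot (fun j s => ν j s * h j s) := div_mul_cancel₀ _ hn.ne'
  have e1 : tot (fun j s => (Real.exp a * (1 - a)) * ν j s + Real.exp a * (ν j s * h j s)) =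
      tot ν * Real.exp a := by
    rw [tot_add (fun j => (h1 j).const_mul _) (fun j => (h2 j).const_mul _), tot_mul, tot_mul,
      ← ha']
    ring
  rw [← e1]
  refine tot_mono (fun j => ((h1 j).const_mul _).add ((h2 j).const_mul _)) h3 ?_
  intro j s hs
  have e2 : Real.exp a * (1 + h j s - a) ≤ Real.exp (h j s) := by
    have e3 := Real.add_one_le_exp (h j s - a)
    have e4 : Real.exp (h j s) = Real.exp a * Real.exp (h j s - a) := by
      rw [← Real.exp_add]
      congr 1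
      ring
    rw [e4]
    refine mul_le_mul_of_nonneg_left ?_ (Real.exp_pos a).le
    linarith
  have e5 := mul_le_mul_of_nonneg_left e2 (hp j s hs)
  calc _ = ν j s * (Real.exp a * (1 + h j s - a)) := by ring
    _ ≤ _ := e5

/-- multiplication with a bounded function -/
theorem dom_mul {G f : Bool → ℂ → ℝ} {c C : ℝ} (_hc : 0 ≤ c) (hG : Dom ww c G)
    (hf : ∀ j, ∀ s ∈ DD, |f j s| ≤ C) : Dom ww (c * C) (fun j s => G j s * f j s) := by
  intro j s hs h0
  have h1 := hG j s hs h0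
  have h2 := hf j s hs
  rw [norm_mul]
  have h3 : 0 ≤ c * ww s := (norm_nonneg _).trans h1
  calc ‖G j s‖ * ‖f j s‖ ≤ (c * ww s) * C := mul_le_mul h1 h2 (norm_nonneg _) h3
    _ = _ := by ring

/-- continuous functions are bounded on the discs -/
theorem bdd_of_cont {V : Bool → ℂ → ℝ} {X : Bool → ℂ → ℂ} (hV : ∀ j, Continuous (V j))
    (hX : ∀ j, Continuous (X j)) : ∃ R : ℝ, 0 < R ∧ Bdd R V X := by
  have h1 : ∀ j, ∃ C, ∀ s ∈ DD, ‖V j s‖ ≤ C := fun j =>
    (isCompact_closedBall (0 : ℂ) 1).exists_bound_of_continuousOn (hV j).continuousOn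
  have h2 : ∀ j, ∃ C, ∀ s ∈ DD, ‖X j s‖ ≤ C := fun j =>
    (isCompact_closedBall (0 : ℂ) 1).exists_bound_of_continuousOn (hX j).continuousOn
  choose C hC using h1
  choose C' hC' using h2
  have e1 : ∀ j, C j ≤ |C true| + |C false| + |C' true| + |C' false| + 1 := by
    intro j
    have a1 := abs_nonneg (C true)
    have a2 := abs_nonneg (C false)
    have a3 := abs_nonneg (C' true)
    have a4 := abs_nonneg (C' false)
    cases j
    · have := le_abs_self (C false)
      linarith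
    · have := le_abs_self (C true)
      linarith
  have e2 : ∀ j, C' j ≤ |C true| + |C false| + |C' true| + |C' false| + 1 := by
    intro j
    have a1 := abs_nonneg (C true)
    have a2 := abs_nonneg (C false)
    have a3 := abs_nonneg (C' true)
    have a4 := abs_nonneg (C' false)
    cases j
    · have := le_abs_self (C' false)
      linarith
    · have := le_abs_self (C' true)
      linarith
  exact ⟨|C true| + |C false| + |C' true| + |C' false| + 1, by positivity, hV, hX,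
    fun j s hs => (hC j s hs).trans (e1 j), fun j s hs => (hC' j s hs).trans (e2 j)⟩

theorem mul_ge_neg {t x L : ℝ} (ht : t ∈ Icc (0 : ℝ) 1) (hx : -L ≤ x) (hL : 0 ≤ L) :
    -L ≤ t * x := by
  obtain ⟨h1, h2⟩ := ht
  nlinarith [mul_nonneg h1 (by linarith : 0 ≤ x + L), mul_nonneg (sub_nonneg.2 h2) hL]

end ST1L

open ST1L

theorem t_ST1 (h1 : S_EN) (h2 : S_ADJ) (h3 : S_OPL) (h4 : S_BND) : S_ST1 := by
  intro d hd
  obtain ⟨K, hK, hOP⟩ := h3
  obtain ⟨M0, hM0, hE0⟩ := h4 d hd 1 one_pos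
  have E0 : Est d 0 (fun _ _ => 0) (fun _ _ => 0) M0 := hE0 0 ⟨le_rfl, zero_le_one⟩ _ _
    ⟨fun _ => continuous_const, fun _ => continuous_const, fun _ _ _ => by simp,
      fun _ _ _ => by simp⟩
  obtain ⟨γ, hγ⟩ : ∃ γ, γ = Gp d 0 (fun _ _ => 0) (fun _ _ => 0) := ⟨_, rfl⟩
  obtain ⟨ν, hν⟩ : ∃ ν, ν = Gm d (fun _ _ => (0 : ℝ)) := ⟨_, rfl⟩
  have γm : ∀ j, Measurable (γ j) := by rw [hγ]; exact E0.mGp
  have νm : ∀ j, Measurable (ν j) := by rw [hν]; exact E0.mGm
  have γb : Dom ww M0 γ := by rw [hγ]; exact E0.bGp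
  have νb : Dom ww M0 ν := by rw [hν]; exact E0.bGm
  have νp : ∀ j, ∀ s ∈ DD, 0 ≤ ν j s := by rw [hν]; exact E0.pGm
  obtain ⟨m, hmdef⟩ : ∃ m, m = tot γ := ⟨_, rfl⟩
  obtain ⟨n, hndef⟩ : ∃ n, n = tot ν := ⟨_, rfl⟩
  have hm : 0 < m := by
    rw [hmdef, hγ]
    exact lt_of_lt_of_le (inv_pos.2 hM0) E0.lGp
  have hn : 0 < n := by
    rw [hndef, hν]
    exact lt_of_lt_of_le (inv_pos.2 hM0) E0.lGm
  obtain ⟨νi, -, νP, -, -⟩ := hOP ν M0 νm hM0.le νb
  obtain ⟨γi, -, γP, -, -⟩ := hOP γ M0 γm hM0.le γb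
  -- the constants
  obtain ⟨Ch, hCh⟩ : ∃ C, C = K * M0 + K * m := ⟨_, rfl⟩
  obtain ⟨Lh, hLh⟩ : ∃ C, C = K * M0 * n + K * M0 * m := ⟨_, rfl⟩
  obtain ⟨Ca, hCa⟩ : ∃ C, C = Ch + |Real.log m| + |Real.log n| := ⟨_, rfl⟩
  obtain ⟨Cb, hCb⟩ : ∃ C, C = |Real.log m| + |Real.log n| + Lh / n := ⟨_, rfl⟩
  obtain ⟨Cc, hCc⟩ : ∃ C, C = Ch + Cb := ⟨_, rfl⟩
  obtain ⟨c0, hc0⟩ : ∃ C, C = n * Real.exp (-(Lh / n + Ca)) := ⟨_, rfl⟩
  obtain ⟨Ck, hCk⟩ : ∃ C, C = m / c0 := ⟨_, rfl⟩
  have Ch0 : 0 < Ch := by rw [hCh]; positivity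
  have Lh0 : 0 < Lh := by rw [hLh]; positivity
  have Ca0 : 0 < Ca := by rw [hCa]; positivity
  have Cb0 : 0 < Cb := by rw [hCb]; positivity
  have c00 : 0 < c0 := by rw [hc0]; positivity
  have Ck0 : 0 < Ck := by rw [hCk]; positivity
  refine ⟨K * M0 + K * (Ck * Real.exp Cc * M0) + (Ca + Cb), ?_⟩
  intro t ht V X cV cX eV eX
  have hX0 : ∀ j, ∀ v ∈ DD, X j v = 0 := h1 d hd 0 ⟨le_rfl, zero_le_one⟩ hd.Fre t ht V X cV cX eX
  obtain ⟨R1, hR1, hB1⟩ := bdd_of_cont cV cX
  obtain ⟨M1, hM1, hE1⟩ := h4 d hd R1 hR1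
  have E : Est d 0 V X M1 := hE1 0 ⟨le_rfl, zero_le_one⟩ V X hB1
  have hG1 : ∀ j, ∀ s ∈ DD, Gp d 0 V X j s = γ j s := by
    intro j s hs
    rw [hγ, Gp_eq hd hX0 j s hs, Gp_eq hd (fun _ _ _ => rfl) j s hs]
  have hG2 : ∀ j s, Gm d V j s = ν j s * Real.exp (V j s) := by
    intro j s
    rw [hν]
    unfold Gm
    rw [Real.exp_zero]
    ring
  have htG : tot (Gp d 0 V X) = m := by
    rw [hmdef]
    exact tot_congr hG1
  obtain ⟨k, hk⟩ : ∃ k, k = kap d 0 V X := ⟨_, rfl⟩
  have hk0 : 0 < k := by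
    rw [hk]
    exact E.kb.1
  have hGm0 : 0 < tot (Gm d V) := lt_of_lt_of_le (inv_pos.2 hM1) E.lGm
  have hkm : k * tot (Gm d V) = m := by
    rw [hk]
    unfold kap
    rw [htG, div_mul_cancel₀ _ hGm0.ne']
  -- the measure mu
  obtain ⟨μ, hμ⟩ : ∃ μ : Bool → ℂ → ℝ, μ = fun j s => k * Gm d V j s := ⟨_, rfl⟩
  have μm : ∀ j, Measurable (μ j) := by
    rw [hμ]
    exact fun j => (E.mGm j).const_mul k
  have μb : Dom ww (k * M1) μ := by
    intro j s hs h0
    rw [hμ]
    have e1 := E.bGm j s hs h0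
    rw [norm_mul, Real.norm_of_nonneg hk0.le, mul_assoc]
    exact mul_le_mul_of_nonneg_left e1 hk0.le
  have μp : ∀ j, ∀ s ∈ DD, 0 ≤ μ j s := by
    intro j s hs
    rw [hμ]
    exact mul_nonneg hk0.le (E.pGm j s hs)
  have μt : tot μ = m := by
    rw [hμ, tot_mul, hkm]
  obtain ⟨μi, μPm, μP, -, μup⟩ := hOP μ (k * M1) μm (by positivity) μb
  -- the function h
  obtain ⟨h, hh⟩ : ∃ h : Bool → ℂ → ℝ, h = fun j v => -PL (Gh d 0 V X) j v := ⟨_, rfl⟩
  have hheq : ∀ j, ∀ v ∈ DD, h j v = -PL γ j v + PL μ j v := by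
    intro j v hv
    rw [hh]
    have e1 : PL (Gh d 0 V X) j v = PL (fun j s => γ j s - μ j s) j v := by
      refine PL_congr (fun j s hs => ?_) j v
      unfold Gh
      rw [hG1 j s hs, hμ, hk]
    show -PL (Gh d 0 V X) j v = _
    rw [e1, PL_sub ⟨(γP j v hv).1, (γP j v hv).2.1⟩ ⟨(μP j v hv).1, (μP j v hv).2.1⟩]
    ring
  obtain ⟨-, GhPm, GhP, -, -⟩ := hOP (Gh d 0 V X) M1 E.mGh hM1.le E.bGh
  have hhm : ∀ j, Measurable (h j) := by
    rw [hh]
    exact fun j => (GhPm j).neg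
  have hhup : ∀ j, ∀ v ∈ DD, h j v ≤ Ch := by
    intro j v hv
    rw [hheq j v hv, hCh]
    have e1 := (abs_le.1 (γP j v hv).2.2).1
    have e2 := μup μp j v hv
    rw [μt] at e2
    linarith
  have hhb : ∀ j, ∀ v ∈ DD, |h j v| ≤ K * M1 := by
    intro j v hv
    rw [hh]
    show |-PL (Gh d 0 V X) j v| ≤ _
    rw [abs_neg]
    exact (GhP j v hv).2.2
  -- integrability
  have hνh : ∀ j, IntegrableOn (fun s => ν j s * h j s) DD :=
    (hOP (fun j s => ν j s * h j s) (M0 * (K * M1)) (fun j => (νm j).mul (hhm j)) (by positivity)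
      (dom_mul hM0.le νb hhb)).1
  have hVNeq : ∀ j s, VN d 0 V X j s = ν j s * Real.exp (h j s) := by
    intro j s
    rw [hν, hh]
    unfold VN Gm
    rw [Real.exp_zero]
    ring
  have hνe : ∀ j, IntegrableOn (fun s => ν j s * Real.exp (h j s)) DD := by
    intro j
    have e1 := (hOP (VN d 0 V X) M1 E.mVN hM1.le E.bVN).1 j
    have e2 : VN d 0 V X j = fun s => ν j s * Real.exp (h j s) := funext fun s => hVNeq j s
    rwa [e2] at e1
  have htVN : tot (VN d 0 V X) = tot (fun j s => ν j s * Real.exp (h j s)) :=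
    tot_congr fun j s _ => hVNeq j s
  have hVN0 : 0 < tot (VN d 0 V X) := lt_of_lt_of_le (inv_pos.2 hM1) E.lVN
  -- (b) the integral of nu h
  have hνhL : -Lh ≤ tot (fun j s => ν j s * h j s) := by
    have e1 : tot (fun j s => ν j s * PL μ j s) = tot (fun j s => μ j s * PL ν j s) :=
      h2.2 ν μ (M0 + k * M1) νm μm (by positivity)
        (fun j s hs h0 => (νb j s hs h0).trans (by
          have e2 : 0 ≤ k * M1 * ww s := (norm_nonneg _).trans (μb j s hs h0)
          rw [add_mul]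
          linarith))
        (fun j s hs h0 => (μb j s hs h0).trans (by
          have e2 : 0 ≤ M0 * ww s := (norm_nonneg _).trans (νb j s hs h0)
          rw [add_mul]
          linarith))
    obtain ⟨-, νPm, -, -, -⟩ := hOP ν M0 νm hM0.le νb
    obtain ⟨-, γPm, -, -, -⟩ := hOP γ M0 γm hM0.le γb
    have i1 : ∀ j, IntegrableOn (fun s => μ j s * PL ν j s) DD :=
      (hOP (fun j s => μ j s * PL ν j s) (k * M1 * (K * M0)) (fun j => (μm j).mul (νPm j))
        (by positivity) (dom_mul (by positivity) μb fun j s hs => (νP j s hs).2.2)).1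
    have i2 : ∀ j, IntegrableOn (fun s => ν j s * PL μ j s) DD :=
      (hOP (fun j s => ν j s * PL μ j s) (M0 * (K * (k * M1))) (fun j => (νm j).mul (μPm j))
        (by positivity) (dom_mul (by positivity) νb fun j s hs => (μP j s hs).2.2)).1
    have i3 : ∀ j, IntegrableOn (fun s => ν j s * PL γ j s) DD :=
      (hOP (fun j s => ν j s * PL γ j s) (M0 * (K * M0)) (fun j => (νm j).mul (γPm j))
        (by positivity) (dom_mul (by positivity) νb fun j s hs => (γP j s hs).2.2)).1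
    have e2 : -(K * M0) * m ≤ tot (fun j s => μ j s * PL ν j s) := by
      rw [← μt, ← tot_mul]
      refine tot_mono (fun j => (μi j).const_mul _) i1 fun j s hs => ?_
      have e3 := (abs_le.1 (νP j s hs).2.2).1
      have e4 := mul_le_mul_of_nonneg_left e3 (μp j s hs)
      linarith
    have e5 : tot (fun j s => ν j s * PL γ j s) ≤ K * M0 * n := by
      rw [hndef, ← tot_mul]
      refine tot_mono i3 (fun j => (νi j).const_mul _) fun j s hs => ?_
      have e3 := (abs_le.1 (γP j s hs).2.2).2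
      have e4 := mul_le_mul_of_nonneg_left e3 (νp j s hs)
      linarith
    have e6 : tot (fun j s => ν j s * h j s) =
        tot (fun j s => (-1) * (ν j s * PL γ j s) + ν j s * PL μ j s) := by
      refine tot_congr fun j s hs => ?_
      rw [hheq j s hs]
      ring
    rw [e6, tot_add (fun j => (i3 j).const_mul _) i2, tot_mul, e1, hLh]
    linarith
  -- the constant s
  obtain ⟨S, hS⟩ : ∃ S, S = Real.log (tot (Gp d 0 V X) / tot (VN d 0 V X)) := ⟨_, rfl⟩
  have hS' : S = Real.log m - Real.log (tot (VN d 0 V X)) := by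
    rw [hS, htG, Real.log_div hm.ne' hVN0.ne']
  have hSa : -Ca ≤ S := by
    have e1 : tot (VN d 0 V X) ≤ Real.exp Ch * n := by
      rw [htVN, hndef, ← tot_mul]
      refine tot_mono hνe (fun j => (νi j).const_mul _) fun j s hs => ?_
      have e3 := Real.exp_le_exp.2 (hhup j s hs)
      have e4 := mul_le_mul_of_nonneg_left e3 (νp j s hs)
      linarith
    have e2 := Real.log_le_log hVN0 e1
    rw [Real.log_mul (Real.exp_pos _).ne' hn.ne', Real.log_exp] at e2
    rw [hS', hCa]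
    have e3 := neg_abs_le (Real.log m)
    have e4 := le_abs_self (Real.log n)
    linarith
  have hSb : S ≤ Cb := by
    have e1 := jensen νi hνh hνe νp (by rw [← hndef]; exact hn)
    rw [← htVN, ← hndef] at e1
    have e2 : n * Real.exp (-Lh / n) ≤ tot (VN d 0 V X) := by
      refine le_trans (mul_le_mul_of_nonneg_left (Real.exp_le_exp.2 ?_) hn.le) e1
      exact div_le_div_of_nonneg_right hνhL hn.le
    have e3 := Real.log_le_log (by positivity) e2
    rw [Real.log_mul hn.ne' (Real.exp_pos _).ne', Real.log_exp, neg_div] at e3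
    rw [hS', hCb]
    have e4 := le_abs_self (Real.log m)
    have e5 := neg_abs_le (Real.log n)
    linarith
  have hV : ∀ j, ∀ v ∈ DD, V j v = t * (h j v + S) := by
    intro j v hv
    rw [eV j v hv]
    unfold TV
    rw [hh, hS]
  have hVc : ∀ j, ∀ v ∈ DD, V j v ≤ Cc := by
    intro j v hv
    rw [hV j v hv, hCc]
    have e1 : h j v + S ≤ Ch + Cb := add_le_add (hhup j v hv) hSb
    have e2 : t * (h j v + S) ≤ t * (Ch + Cb) := mul_le_mul_of_nonneg_left e1 ht.1
    have e3 : t * (Ch + Cb) ≤ 1 * (Ch + Cb) := mul_le_mul_of_nonneg_right ht.2 (by positivity)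
    linarith
  -- (d) lower bound for the mass
  have hGmlow : c0 ≤ tot (Gm d V) := by
    have iV : ∀ j, IntegrableOn (fun s => ν j s * V j s) DD :=
      (hOP (fun j s => ν j s * V j s) (M0 * R1) (fun j => (νm j).mul (cV j).measurable)
        (by positivity) (dom_mul (by positivity) νb fun j s hs => hB1.bV j s hs)).1
    have ie : ∀ j, IntegrableOn (fun s => ν j s * Real.exp (V j s)) DD := by
      intro j
      have e1 := (hOP (Gm d V) M1 E.mGm hM1.le E.bGm).1 j
      have e2 : Gm d V j = fun s => ν j s * Real.exp (V j s) := funext fun s => hG2 j s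
      rwa [e2] at e1
    have e1 := jensen νi iV ie νp (by rw [← hndef]; exact hn)
    rw [← hndef, ← tot_congr fun j s _ => hG2 j s] at e1
    refine le_trans ?_ e1
    rw [hc0]
    refine mul_le_mul_of_nonneg_left (Real.exp_le_exp.2 ?_) hn.le
    have e2 : tot (fun j s => ν j s * V j s) =
        tot (fun j s => t * (ν j s * h j s) + (t * S) * ν j s) := by
      refine tot_congr fun j s hs => ?_
      rw [hV j s hs]
      ring
    rw [e2, tot_add (fun j => (hνh j).const_mul _) (fun j => (νi j).const_mul _), tot_mul,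
      tot_mul, ← hndef, le_div_iff₀ hn]
    have e3 := mul_ge_neg ht hνhL Lh0.le
    have e4 := mul_ge_neg ht hSa Ca0.le
    have e5 := mul_le_mul_of_nonneg_right e4 hn.le
    have e6 : -(Lh / n + Ca) * n = -Lh + -Ca * n := by
      field_simp
      ring
    rw [e6]
    linarith
  have hkC : k ≤ Ck := by
    rw [hCk, le_div_iff₀ c00, ← hkm]
    exact mul_le_mul_of_nonneg_left hGmlow hk0.le
  have μb' : Dom ww (Ck * Real.exp Cc * M0) μ := by
    intro j s hs h0
    have e1 := νb j s hs h0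
    have e2 := Real.exp_le_exp.2 (hVc j s hs)
    rw [hμ]
    show ‖k * Gm d V j s‖ ≤ _
    rw [hG2, norm_mul, norm_mul, Real.norm_of_nonneg hk0.le,
      Real.norm_of_nonneg (Real.exp_pos _).le]
    calc k * (‖ν j s‖ * Real.exp (V j s)) ≤ Ck * ((M0 * ww s) * Real.exp Cc) := by
          refine mul_le_mul hkC (mul_le_mul e1 e2 (Real.exp_pos _).le
            ((norm_nonneg _).trans e1)) (by positivity) Ck0.le
      _ = _ := by ring
  obtain ⟨-, -, μP', -, -⟩ := hOP μ (Ck * Real.exp Cc * M0) μm (by positivity) μb'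
  intro j v hv
  have hR0 : 0 ≤ K * M0 + K * (Ck * Real.exp Cc * M0) + (Ca + Cb) := by positivity
  refine ⟨?_, ?_⟩
  · rw [hV j v hv, abs_mul, abs_of_nonneg ht.1]
    have e1 : |h j v| ≤ K * M0 + K * (Ck * Real.exp Cc * M0) := by
      rw [hheq j v hv]
      refine (abs_add_le _ _).trans (add_le_add ?_ (μP' j v hv).2.2)
      rw [abs_neg]
      exact (γP j v hv).2.2
    have e2 : |S| ≤ Ca + Cb := by
      rw [abs_le]
      constructor <;> linarith
    have e3 : |h j v + S| ≤ K * M0 + K * (Ck * Real.exp Cc * M0) + (Ca + Cb) :=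
      (abs_add_le _ _).trans (add_le_add e1 e2)
    calc t * |h j v + S| ≤ 1 * |h j v + S| :=
          mul_le_mul_of_nonneg_right ht.2 (abs_nonneg _)
      _ ≤ _ := by rw [one_mul]; exact e3
  · rw [hX0 j v hv, norm_zero]
    exact hR0

end Pool.Agent.H794.EX
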