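import Pool.Agent.H794.EX.KER
import Pool.Agent.H794.EX.OPB
import Pool.Agent.H794.EX.OPX
import Pool.Agent.H794.EX.OPL
import Pool.Agent.H794.EX.ADJ
import Pool.Agent.H794.EX.PRJ
import Pool.Agent.H794.EX.SEQ
import Pool.Agent.H794.EX.CPT
import Pool.Agent.H794.EX.EN
import Pool.Agent.H794.EX.ST1
import Pool.Agent.H794.EX.FIX
import Pool.Agent.H794.EX.INV
import Pool.Agent.H794.EX.LOC
import Pool.Agent.H794.EX.LGD
import Pool.Agent.H794.EX.GLU
import Pool.Agent.H794.EX.SRG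
import Pool.Agent.H794.EX.CHR
import Pool.Agent.H794.EX.OKH
import Pool.Agent.H794.EX.OKE
import Pool.Agent.H794.EX.BND
import Pool.Agent.H794.EX.PLN
import Pool.Agent.H794.EX.BDL
import Pool.Agent.H794.EX.BDE
import Pool.Agent.H794.EX.BDU
import Pool.Agent.H794.EX.EXH
import Pool.Agent.H794.EX.EXE

/-!
# Existence of harmonic metrics
-/

set_option autoImplicit false

open scoped Manifold ContDiff Matrix ComplexOrder
open Matrix Topology Set Filter

namespace Pool.Agent.H794.EX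

open Pool.Agent.Helper614.HE Pool.Agent.Helper614.HE.P_TH

theorem a_OPB : S_OPB := t_OPB t_KER
theorem a_OPX : S_OPX := t_OPX t_KER
theorem a_OPL : S_OPL := t_OPL t_KER
theorem a_BND : S_BND := t_BND t_KER a_OPB a_OPX a_OPL
theorem a_ADJ : S_ADJ := t_ADJ t_KER a_OPB a_OPX a_OPL
theorem a_SEQ : S_SEQ := t_SEQ t_KER a_OPB a_OPX a_OPL a_BND
theorem a_CPT : S_CPT := t_CPT a_BND a_SEQ
theorem a_EN : S_EN := t_EN a_ADJ t_PRJ a_BND a_OPX a_OPB
theorem a_ST1 : S_ST1 := t_ST1 a_EN a_ADJ a_OPL a_BND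
theorem a_FIX : S_FIX := t_FIX a_CPT a_ST1
theorem a_LOC : S_LOC := t_LOC t_INV t_KER
theorem a_LGD : S_LGD := t_LGD t_INV t_KER a_OPL
theorem a_GLU : S_GLU := t_GLU t_KER a_OPB a_OPL
theorem a_PLN : S_PLN := t_PLN t_KER a_OPB a_OPX a_OPL t_PRJ a_BND a_LOC a_LGD a_GLU
theorem a_CHR : S_CHR := t_CHR t_SRG
theorem a_BDU : S_BDU := t_BDU t_MXP a_CHR t_OKH
theorem a_BDL : S_BDL := t_BDL t_MXP a_CHR t_OKH
theorem a_BDE : S_BDE := t_BDE t_MXP a_CHR t_OKE
theorem a_EXH : S_EXH := t_EXH a_CHR t_OKH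

/-- the Hitchin section has a harmonic metric -/
theorem exists_HT (inst : ChartedSpace ℂ (SX 4)) (hB : SBasic 4) (hG : @SGood 4 inst) {r : ℝ}
    (c : ℝ) (hr : 0 < r) : ∃ h : Bool → SX 4 → M3, IsHarmonicMetric (HT hB hG r c) 1 h := by
  obtain ⟨hOK, hRel, hSmo⟩ := t_OKH r c hr
  obtain ⟨R1, hR1⟩ := a_BDU inst hB hG r c hr
  obtain ⟨R2, hR2⟩ := a_BDL inst hB hG r c hr
  have key : ∃ V X, IsFix (dHT r c) 1 V X := by
    refine a_FIX _ hOK ⟨max R1 R2, fun l hl V X hF j v hv => ?_⟩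
    obtain ⟨V', X', hP, hE⟩ := a_PLN _ hOK hRel hSmo l hl V X hF
    have e1 := hR1 l hl V' X' hP j v hv
    have e2 := hR2 l hl V' X' hP j v hv
    rw [(hE j v hv).1, (hE j v hv).2] at e1
    rw [(hE j v hv).1] at e2
    refine ⟨abs_le.2 ⟨?_, e1.1.trans (le_max_left _ _)⟩, e1.2.trans (le_max_left _ _)⟩
    have := le_max_right R1 R2
    linarith
  obtain ⟨V, X, hF⟩ := key
  obtain ⟨V', X', hP, -⟩ := a_PLN _ hOK hRel hSmo 1 (by norm_num) V X hF
  exact a_EXH inst hB hG r c hr V' X' hP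

/-- the direct sum has a harmonic metric -/
theorem exists_EB (inst : ChartedSpace ℂ (SX 4)) (hB : SBasic 4) (hG : @SGood 4 inst) {r c : ℝ}
    (hr : 0 < r) (hc : 0 < c) (hrc : 16 * c < r ^ 2) :
    ∃ h : Bool → SX 4 → M3, IsHarmonicMetric (EB hB hG r c) 1 h := by
  obtain ⟨hOK, hRel, hSmo⟩ := t_OKE r c hr hc
  obtain ⟨R, hR⟩ := a_BDE inst hB hG r c hr hc hrc
  have hz : ∀ l ∈ Icc (0 : ℝ) 1, ∀ V X, IsFix (dEB r c) l V X →
      ∃ V' X', Plane (dEB r c) l V' X' ∧ (∀ j v, X' j v = 0) ∧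
        ∀ j, ∀ v ∈ DD, V' j v = V j v ∧ X j v = 0 := by
    intro l hl V X hF
    have h0 := a_EN _ hOK l hl (fun j s V X => by
      show 3 * ‖X‖ ^ 2 ≤ ((starRingEnd ℂ) (3 * X) * X).re
      rw [map_mul, mul_assoc, mul_comm ((starRingEnd ℂ) X), Complex.mul_conj,
        Complex.normSq_eq_norm_sq, show (starRingEnd ℂ) (3 : ℂ) = ((3 : ℝ) : ℂ) by
          rw [show (3 : ℂ) = ((3 : ℝ) : ℂ) by norm_num, Complex.conj_ofReal],
        ← Complex.ofReal_mul, Complex.ofReal_re]) 1 (by norm_num) V X hF.cV hF.cX (fun j v hv => by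
        rw [hF.eX j v hv]; simp)
    obtain ⟨V', X', hP, hE⟩ := a_PLN _ hOK hRel hSmo l hl V X hF
    have hD : ∀ j, ∀ v ∈ DD, X' j v = 0 := fun j v hv => by rw [(hE j v hv).2, h0 j v hv]
    refine ⟨V', X', hP, fun j v => ?_, fun j v hv => ⟨(hE j v hv).1, h0 j v hv⟩⟩
    by_cases hv : v ∈ DD
    · exact hD j v hv
    · have hv1 : 1 < ‖v‖ := by
        simpa [DD] using hv
      have hv0 : v ≠ 0 := by
        rintro rfl
        simp at hv1
        linarith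
      rw [hP.rX j v hv0, hD (!j) v⁻¹ ?_, mul_zero, neg_zero]
      simp only [DD, Metric.mem_closedBall, dist_zero_right, norm_inv]
      exact inv_le_one_of_one_le₀ hv1.le
  have key : ∃ V X, IsFix (dEB r c) 1 V X := by
    refine a_FIX _ hOK ⟨max R 0, fun l hl V X hF j v hv => ?_⟩
    obtain ⟨V', X', hP, h0, hE⟩ := hz l hl V X hF
    have e1 := hR l hl V' X' hP h0 j v hv
    rw [(hE j v hv).1] at e1
    refine ⟨e1.trans (le_max_left _ _), ?_⟩
    rw [(hE j v hv).2, norm_zero]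
    exact le_max_right _ _
  obtain ⟨V, X, hF⟩ := key
  obtain ⟨V', X', hP, h0, -⟩ := hz 1 (by norm_num) V X hF
  exact t_EXE a_CHR t_OKE inst hB hG r c hr hc V' X' hP h0

end Pool.Agent.H794.EX
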