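import Pool.Agent.H794.EX.Spec

/-!
# The local system implies Hitchin's equation for the Hitchin section
-/

set_option autoImplicit false

open scoped Manifold ContDiff Matrix ComplexOrder
open Matrix Topology MeasureTheory Set Filter

namespace Pool.Agent.H794.EX

open Pool.Agent.Helper614.HE Pool.Agent.H794 Pool.Agent.Helper614.HE.P_HIT

namespace HITL

/-- the Higgs field in the orthogonal frame -/
def Ql (x α β : ℂ) : M3 := !![x, 1, 0; α, -2 * x, 1; β, α, x]

theorem conj_Phl (x a b : ℂ) : nn x * Phl a b * nn (-x) = Ql x (al a x) (be a b x) := by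
  ext i j
  fin_cases i <;> fin_cases j <;>
    simp [nn, Phl, Ql, al, be, Matrix.mul_apply, Fin.sum_univ_three] <;> ring

theorem adj_Phl (u : ℝ) (x θ a b : ℂ) : adj (Hm u x) (θ • Phl a b) =
    nn (-x) * (dd (-u) * (θ • Ql x (al a x) (be a b x))ᴴ * dd u) * nn x := by
  rw [adj, HIT_inv, ← conj_Phl]
  have h1 : (θ • (nn x * Phl a b * nn (-x)))ᴴ = (nn (-x))ᴴ * (θ • Phl a b)ᴴ * (nn x)ᴴ := by
    rw [Matrix.conjTranspose_smul, Matrix.conjTranspose_mul, Matrix.conjTranspose_mul,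
      Matrix.conjTranspose_smul, Matrix.mul_smul, Matrix.smul_mul, Matrix.mul_assoc]
  rw [h1, Hm]
  simp only [Matrix.mul_assoc]

theorem comm_Phl (u : ℝ) (x θ a b : ℂ) :
    (θ • Phl a b) * adj (Hm u x) (θ • Phl a b) - adj (Hm u x) (θ • Phl a b) * (θ • Phl a b) =
    nn (-x) * ((θ • Ql x (al a x) (be a b x)) *
        (dd (-u) * (θ • Ql x (al a x) (be a b x))ᴴ * dd u) -
      (dd (-u) * (θ • Ql x (al a x) (be a b x))ᴴ * dd u) *
        (θ • Ql x (al a x) (be a b x))) * nn x := by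
  rw [adj_Phl]
  generalize hD : dd (-u) * (θ • Ql x (al a x) (be a b x))ᴴ * dd u = D
  have h1 : θ • Phl a b = nn (-x) * (θ • Ql x (al a x) (be a b x)) * nn x := by
    rw [← conj_Phl, Matrix.mul_smul, Matrix.smul_mul]
    have h2 : nn (-x) * (nn x * Phl a b * nn (-x)) * nn x =
        (nn (-x) * nn x) * Phl a b * (nn (-x) * nn x) := by
      simp only [Matrix.mul_assoc]
    rw [h2, HIT_nn_mul', Matrix.one_mul, Matrix.mul_one]
  conv_lhs => rw [h1]
  generalize θ • Ql x (al a x) (be a b x) = N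
  have h3 : nn (-x) * N * nn x * (nn (-x) * D * nn x) = nn (-x) * (N * D) * nn x := by
    calc nn (-x) * N * nn x * (nn (-x) * D * nn x)
        = nn (-x) * N * (nn x * nn (-x)) * D * nn x := by simp only [Matrix.mul_assoc]
      _ = nn (-x) * (N * D) * nn x := by
        rw [HIT_nn_mul, Matrix.mul_one]
        simp only [Matrix.mul_assoc]
  have h4 : nn (-x) * D * nn x * (nn (-x) * N * nn x) = nn (-x) * (D * N) * nn x := by
    calc nn (-x) * D * nn x * (nn (-x) * N * nn x)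
        = nn (-x) * D * (nn x * nn (-x)) * N * nn x := by simp only [Matrix.mul_assoc]
      _ = nn (-x) * (D * N) * nn x := by
        rw [HIT_nn_mul, Matrix.mul_one]
        simp only [Matrix.mul_assoc]
  rw [h3, h4, Matrix.mul_sub, Matrix.sub_mul]

/-- the commutator in the middle -/
theorem comm_mid (u : ℝ) (x θ α β : ℂ) :
    (θ • Ql x α β) * (dd (-u) * (θ • Ql x α β)ᴴ * dd u) -
      (dd (-u) * (θ • Ql x α β)ᴴ * dd u) * (θ • Ql x α β) =
    ((‖θ‖ ^ 2 : ℝ) : ℂ) •
    !![-((‖α‖ ^ 2 * Real.exp (-u) + ‖β‖ ^ 2 * Real.exp (-2 * u) - Real.exp u : ℝ) : ℂ),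
        -(3 * (starRingEnd ℂ) x - 3 * x * (starRingEnd ℂ) α * (Real.exp (-u) : ℂ) +
          α * (starRingEnd ℂ) β * (Real.exp (-2 * u) : ℂ)), 0;
      -((3 * x * (Real.exp u : ℂ) - 3 * (starRingEnd ℂ) x * α +
          (starRingEnd ℂ) α * β * (Real.exp (-u) : ℂ))), 0,
        3 * (starRingEnd ℂ) x - 3 * x * (starRingEnd ℂ) α * (Real.exp (-u) : ℂ) +
          α * (starRingEnd ℂ) β * (Real.exp (-2 * u) : ℂ);
      0, (3 * x * (Real.exp u : ℂ) - 3 * (starRingEnd ℂ) x * α +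
          (starRingEnd ℂ) α * β * (Real.exp (-u) : ℂ)),
        ((‖α‖ ^ 2 * Real.exp (-u) + ‖β‖ ^ 2 * Real.exp (-2 * u) - Real.exp u : ℝ) : ℂ)] := by
  have hE : (Real.exp u : ℂ) * (Real.exp (-u) : ℂ) = 1 := by
    rw [← Complex.ofReal_mul, ← Real.exp_add]
    simp
  have h2 : (Real.exp (-2 * u) : ℂ) = (Real.exp (-u) : ℂ) * (Real.exp (-u) : ℂ) := by
    rw [← Complex.ofReal_mul, ← Real.exp_add]
    congr 2
    ring
  have hn : ∀ z : ℂ, ((‖z‖ ^ 2 : ℝ) : ℂ) = z * (starRingEnd ℂ) z := by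
    intro z
    rw [Complex.mul_conj']
    push_cast
    rfl
  rw [Complex.ofReal_sub, Complex.ofReal_add, Complex.ofReal_mul, Complex.ofReal_mul, hn α, hn β,
    hn θ, h2]
  have hdd : dd (-u) = !![(Real.exp (-u) : ℂ), 0, 0; 0, 1, 0; 0, 0, (Real.exp u : ℂ)] := by
    rw [dd, neg_neg]
  have hN : (θ • Ql x α β)ᴴ = (starRingEnd ℂ) θ • !![(starRingEnd ℂ) x, (starRingEnd ℂ) α,
      (starRingEnd ℂ) β; 1, -2 * (starRingEnd ℂ) x, (starRingEnd ℂ) α; 0, 1, (starRingEnd ℂ) x] := by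
    ext i j
    fin_cases i <;> fin_cases j <;> simp [Ql, Matrix.conjTranspose_apply]
  rw [hdd, hN, dd, Ql]
  generalize (Real.exp u : ℂ) = E at *
  generalize (Real.exp (-u) : ℂ) = E' at *
  generalize (starRingEnd ℂ) α = α' at *
  generalize (starRingEnd ℂ) β = β' at *
  generalize (starRingEnd ℂ) x = x' at *
  generalize (starRingEnd ℂ) θ = θ' at *
  rw [Matrix.mul_smul, Matrix.smul_mul, Matrix.smul_mul, Matrix.smul_mul, Matrix.mul_smul,
    Matrix.mul_smul, smul_smul, smul_smul, mul_comm θ' θ, ← smul_sub]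
  congr 1
  ext i j
  fin_cases i <;> fin_cases j <;>
    simp <;>
    first
      | done
      | (ring; done)
      | linear_combination (-x') * hE
      | linear_combination (α * x') * hE
      | linear_combination (x') * hE
      | linear_combination (-α * x') * hE

end HITL

theorem t_HIT : S_HIT := by
  intro θ κ a b U X B q t hsys hκ hU hX
  have hHIT1 : T_HIT1 := All.hHIT1
  have hHIT2 : T_HIT2 := All.hHIT2
  have ht := hsys.self_of_nhds
  have hexp : ∀ u : ℝ, (Real.exp (-u) : ℂ) * (Real.exp u : ℂ) = 1 := by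
    intro u
    rw [← Complex.ofReal_mul, ← Real.exp_add]
    simp
  -- the connection matrix near `t`
  have hgerm : (fun z => (Hm (U z) (X z))⁻¹ * mdz (fun w => Hm (U w) (X w)) z) =ᶠ[𝓝 t]
      fun z => ThM (X z) ((starRingEnd ℂ) (B z)) (q z) (dz X z) := by
    filter_upwards [hsys] with z hz
    rw [hHIT1 U X z (hz.dU.differentiableAt (by norm_num)) (hz.dX.differentiableAt (by norm_num)),
      hz.eU, hz.eX]
    congr 1
    rw [map_mul, Complex.conj_ofReal, ← mul_assoc, hexp, one_mul]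
  unfold Hit
  rw [HIT_mdzb_germ hgerm]
  have hBd := ht.dB.differentiableAt (by norm_num)
  have hXd := ht.dX.differentiableAt (by norm_num)
  have hqd := ht.dq.differentiableAt (by norm_num)
  have hUd := ht.dU.differentiableAt (by norm_num)
  obtain ⟨hs1, hs2⟩ := HIT_second hX
  rw [hHIT2 X (fun w => (starRingEnd ℂ) (B w)) q (fun w => dz X w) t hXd (HIT_conj_diff hBd) hqd
    hs1, HIT_conj hBd, hs2]
  -- the mixed derivative
  obtain ⟨he1, he2⟩ := HIT_exp hUd
  have hmix : dz (fun w => dzb X w) t = (Real.exp (U t) : ℂ) * (q t * B t + dz B t) := by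
    have h1 : (fun w => dzb X w) =ᶠ[𝓝 t] fun w => (Real.exp (U w) : ℂ) * B w :=
      hsys.mono fun w hw => hw.eX
    rw [HIT_dz_germ h1, HIT_mul he1 hBd, he2, ht.eU]
    ring
  rw [hmix, HITL.comm_Phl, HITL.comm_mid, ← HIT_nu (X t)]
  have hnu : ((Real.exp (U t) : ℂ) * (q t * B t + dz B t)) • (nn (-X t) * nu * nn (X t)) =
      nn (-X t) * (((Real.exp (U t) : ℂ) * (q t * B t + dz B t)) • nu) * nn (X t) := by
    rw [Matrix.mul_smul, Matrix.smul_mul]
  rw [hnu, ← Matrix.add_mul, ← Matrix.mul_add]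
  congr 2
  have hq := ht.eq
  have hBt := ht.eB
  have hXt := ht.eX
  rw [hκ] at hq hBt
  set α := al (a t) (X t) with hα
  set β := be (a t) (b t) (X t) with hβ
  have h2 : (Real.exp (-2 * U t) : ℂ) = (Real.exp (-U t) : ℂ) * (Real.exp (-U t) : ℂ) := by
    rw [← Complex.ofReal_mul, ← Real.exp_add]
    congr 2
    ring
  have h3 : (starRingEnd ℂ) 3 = 3 := Complex.conj_ofNat 3
  have hcBt : (starRingEnd ℂ) (dz B t) = ((‖θ‖ ^ 2 : ℝ) : ℂ) * (3 * (starRingEnd ℂ) (X t) -
      3 * X t * (starRingEnd ℂ) α * (Real.exp (-U t) : ℂ) +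
      α * (starRingEnd ℂ) β * (Real.exp (-2 * U t) : ℂ)) := by
    rw [hBt]
    simp only [map_mul, map_add, map_sub, Complex.conj_conj, Complex.conj_ofReal, h3]
  have hB : ((‖B t‖ ^ 2 : ℝ) : ℂ) = B t * (starRingEnd ℂ) (B t) := by
    rw [Complex.mul_conj']
    push_cast
    rfl
  have hdiag : dzb q t + (Real.exp (U t) : ℂ) * B t * (starRingEnd ℂ) (B t) =
      ((‖θ‖ ^ 2 : ℝ) : ℂ) * -((‖α‖ ^ 2 * Real.exp (-U t) + ‖β‖ ^ 2 * Real.exp (-2 * U t) -
        Real.exp (U t) : ℝ) : ℂ) := by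
    rw [hq, Complex.ofReal_add, Complex.ofReal_mul, hB, Complex.ofReal_mul]
    ring
  have hoff : (Real.exp (U t) : ℂ) * dz B t = ((‖θ‖ ^ 2 : ℝ) : ℂ) *
      (3 * X t * (Real.exp (U t) : ℂ) - 3 * (starRingEnd ℂ) (X t) * α +
        (starRingEnd ℂ) α * β * (Real.exp (-U t) : ℂ)) := by
    rw [hBt, h2]
    linear_combination (((‖θ‖ ^ 2 : ℝ) : ℂ) * (-3 * (starRingEnd ℂ) (X t) * α +
      (starRingEnd ℂ) α * β * (Real.exp (-U t) : ℂ))) * hexp (U t)
  rw [hXt, hdiag, hcBt]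
  ext i j
  fin_cases i <;> fin_cases j <;> simp only [nu, Matrix.add_apply, Matrix.smul_apply,
    Matrix.of_apply, Matrix.cons_val', Matrix.cons_val_zero, Matrix.cons_val_one,
    Matrix.cons_val_two, Matrix.empty_val', Matrix.cons_val_fin_one, Matrix.head_cons,
    Matrix.tail_cons, Matrix.head_fin_const, Fin.isValue, smul_eq_mul, Fin.mk_one,
    Fin.zero_eta, Fin.reduceFinMk]
  · ring
  · ring
  · ring
  · linear_combination -hoff
  · ring
  · ring
  · ring
  · linear_combination hoff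
  · ring

end Pool.Agent.H794.EX
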