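import Pool.Agent.H794.EX.Wir
import Pool.Agent.H794.EX.HIT
import Pool.Agent.H794.EX.MXP

/-!
# Hitchin's equation in the charts, for the Hitchin section
-/

set_option autoImplicit false

open scoped Manifold ContDiff Matrix ComplexOrder
open Matrix Topology MeasureTheory Set Filter

namespace Pool.Agent.H794.EX

open Pool.Agent.Helper614.HE Pool.Agent.H794

/-- the function `U = V + 10 log (1 + |v|²)` -/
noncomputable def UU0 (V : Bool → ℂ → ℝ) (j : Bool) (v : ℂ) : ℝ :=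
  V j v + 10 * Real.log (1 + ‖v‖ ^ 2)

theorem exp_UU0 (V : Bool → ℂ → ℝ) (j : Bool) (v : ℂ) :
    Real.exp (UU0 V j v) = Real.exp (V j v) * (1 + ‖v‖ ^ 2) ^ 10 := by
  have h : (0 : ℝ) < 1 + ‖v‖ ^ 2 := by positivity
  rw [UU0, Real.exp_add]
  congr 1
  rw [show (10 : ℝ) * Real.log (1 + ‖v‖ ^ 2) = ((10 : ℕ) : ℝ) * Real.log (1 + ‖v‖ ^ 2) by norm_num,
    Real.exp_nat_mul, Real.exp_log h]

theorem exp_neg_UU0 (V : Bool → ℂ → ℝ) (j : Bool) (v : ℂ) :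
    Real.exp (-UU0 V j v) = Real.exp (-V j v) * ((1 + ‖v‖ ^ 2) ^ 10)⁻¹ := by
  rw [Real.exp_neg, exp_UU0, mul_inv, Real.exp_neg]

theorem exp_neg2_UU0 (V : Bool → ℂ → ℝ) (j : Bool) (v : ℂ) :
    Real.exp (-2 * UU0 V j v) = Real.exp (-2 * V j v) * ((1 + ‖v‖ ^ 2) ^ 20)⁻¹ := by
  have h1 : Real.exp (-2 * UU0 V j v) = Real.exp (-UU0 V j v) ^ 2 := by
    rw [← Real.exp_nat_mul]; congr 1; push_cast; ring
  have h2 : Real.exp (-2 * V j v) = Real.exp (-V j v) ^ 2 := by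
    rw [← Real.exp_nat_mul]; congr 1; push_cast; ring
  rw [h1, exp_neg_UU0, h2]
  field_simp

theorem UU0_smooth {D : Set ℂ} {Vt Y θ : ℂ → ℂ} (hC : Cht D Vt Y θ) {V : Bool → ℂ → ℝ} {j : Bool}
    (hV : ContDiffOn ℝ ∞ (fun t => V j (Vt t)) D) :
    ContDiffOn ℝ ∞ (fun t => UU0 V j (Vt t)) D := by
  intro t ht
  have h1 : ContDiffAt ℝ ∞ Vt t := by
    have : AnalyticAt ℂ Vt t := hC.hV.analyticAt (hC.op.mem_nhds ht)
    exact (this.contDiffAt (n := ∞)).restrict_scalars ℝ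
  have h2 : ContDiffAt ℝ ∞ (fun t => ‖Vt t‖ ^ 2) t := h1.norm_sq ℝ
  have h3 : ContDiffAt ℝ ∞ (fun t => Real.log (1 + ‖Vt t‖ ^ 2)) t :=
    (contDiffAt_const.add h2).log (by positivity)
  have h4 := (hV.contDiffAt (hC.op.mem_nhds ht)).add ((contDiffAt_const (c := (10 : ℝ))).mul h3)
  exact h4.contDiffWithinAt

/-- the local system for the Hitchin section in a chart -/
theorem lsys {r c l : ℝ} {j : Bool} {D : Set ℂ} {Vt Y θ : ℂ → ℂ} (hC : Cht D Vt Y θ)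
    {V : Bool → ℂ → ℝ} {X : Bool → ℂ → ℂ} (hS : ChSol (dHT r c) l j D Vt θ (V j) (X j)) :
    ∃ B q : ℂ → ℂ, ∀ t ∈ D, LSysAt (fun t => r ^ 2 * ‖θ t‖ ^ 2)
      (fun t => (l : ℂ) * qa r c j (Vt t)) (fun t => (l : ℂ) * qb r c j (Vt t))
      (fun t => UU0 V j (Vt t)) (fun t => X j (Vt t)) B q t := by
  obtain ⟨hVs, hXs, B, Q, hBs, hQs, hsys⟩ := hS
  have hqs : ∀ t ∈ D, ContDiffAt ℝ 1 (fun w => ((1 + ‖Vt w‖ ^ 2 : ℝ) : ℂ)⁻¹ *
      ((starRingEnd ℂ) (Vt w) * deriv Vt w)) t := by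
    intro t ht
    have hVa : AnalyticAt ℂ Vt t := hC.hV.analyticAt (hC.op.mem_nhds ht)
    have h1 : ContDiffAt ℝ 1 Vt t := (hVa.contDiffAt (n := 1)).restrict_scalars ℝ
    have h1' : ContDiffAt ℝ 1 (deriv Vt) t := (hVa.deriv.contDiffAt (n := 1)).restrict_scalars ℝ
    have h2 : ContDiffAt ℝ 1 (fun t => ‖Vt t‖ ^ 2) t := h1.norm_sq ℝ
    have h3 : ContDiffAt ℝ 1 (fun t => ((1 + ‖Vt t‖ ^ 2 : ℝ) : ℂ)) t :=
      Complex.ofRealCLM.contDiff.contDiffAt.comp t (contDiffAt_const.add h2)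
    have hp : ((1 + ‖Vt t‖ ^ 2 : ℝ) : ℂ) ≠ 0 := by
      have : (0 : ℝ) < 1 + ‖Vt t‖ ^ 2 := by positivity
      exact_mod_cast this.ne'
    have h4 : ContDiffAt ℝ 1 (fun w => (starRingEnd ℂ) (Vt w)) t :=
      Complex.conjCLE.contDiff.contDiffAt.comp t h1
    exact (h3.inv hp).mul (h4.mul h1')
  refine ⟨B, fun t => Q t + 10 * (((1 + ‖Vt t‖ ^ 2 : ℝ) : ℂ)⁻¹ *
      ((starRingEnd ℂ) (Vt t) * deriv Vt t)), fun t ht => ?_⟩
  have hs := hsys t ht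
  have hU := (UU0_smooth hC hVs).contDiffAt (hC.op.mem_nhds ht)
  have hdV := hs.dV
  have hV1 := HW.of_real (hdV.differentiableAt (by norm_num)) hs.eV
  have hVd : DifferentiableAt ℂ Vt t := hC.hV.differentiableAt (hC.op.mem_nhds ht)
  have hVe : ∀ᶠ w in 𝓝 t, DifferentiableAt ℂ Vt w := by
    filter_upwards [hC.op.mem_nhds ht] with w hw
    exact hC.hV.differentiableAt (hC.op.mem_nhds hw)
  refine ⟨?_, hs.dX, hs.dB, ?_, ?_, ?_, ?_, ?_⟩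
  · exact hU.of_le (by exact_mod_cast le_top)
  · exact hs.dQ.add (contDiffAt_const.mul (hqs t ht))
  · have h1 := hV1.add ((HW.const 10 t).mul (HW.log_one hVd))
    have h2 : HW (fun w => (UU0 V j (Vt w) : ℂ)) t _ _ := h1.congr
      (Filter.Eventually.of_forall fun w => by simp only [UU0]; push_cast; ring)
    rw [h2.dz]
    ring
  · rw [hs.eX]
    congr 2
    exact (exp_UU0 V j (Vt t)).symm
  · rw [hs.eB]
    simp only [dHT]
    rw [exp_neg_UU0, exp_neg2_UU0]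
  · obtain ⟨a, h1⟩ := HW.log_two hVe
    have h2 := (HW.of_diff (hs.dQ.differentiableAt (by norm_num))).add ((HW.const 10 t).mul h1)
    rw [h2.dzb, hs.eQ, exp_neg_UU0, exp_neg2_UU0, exp_UU0]
    simp only [dHT]
    push_cast
    ring

/-- Hitchin's equation in a chart -/
theorem hit_chart {r c l : ℝ} {j : Bool} {D : Set ℂ} {Vt Y θ : ℂ → ℂ} (hC : Cht D Vt Y θ)
    {V : Bool → ℂ → ℝ} {X : Bool → ℂ → ℂ} (hS : ChSol (dHT r c) l j D Vt θ (V j) (X j)) {t : ℂ}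
    (ht : t ∈ D) : Hit (fun w => Hm (UU0 V j (Vt w)) (X j (Vt w)))
      (((r : ℂ) * θ t) • Phl ((l : ℂ) * qa r c j (Vt t)) ((l : ℂ) * qb r c j (Vt t))) t := by
  obtain ⟨B, q, hsys⟩ := lsys hC hS
  have h1 : ∀ᶠ w in 𝓝 t, LSysAt (fun t => r ^ 2 * ‖θ t‖ ^ 2)
      (fun t => (l : ℂ) * qa r c j (Vt t)) (fun t => (l : ℂ) * qb r c j (Vt t))
      (fun t => UU0 V j (Vt t)) (fun t => X j (Vt t)) B q w := by
    filter_upwards [hC.op.mem_nhds ht] with w hw using hsys w hw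
  have h2 : r ^ 2 * ‖θ t‖ ^ 2 = ‖(r : ℂ) * θ t‖ ^ 2 := by
    rw [norm_mul, mul_pow, Complex.norm_real, Real.norm_eq_abs, sq_abs]
  have h3 : ContDiffAt ℝ 2 (fun t => UU0 V j (Vt t)) t :=
    contDiffAt_infty.1 ((UU0_smooth hC hS.1).contDiffAt (hC.op.mem_nhds ht)) 2
  have h4 : ContDiffAt ℝ 2 (fun t => X j (Vt t)) t :=
    contDiffAt_infty.1 (hS.2.1.contDiffAt (hC.op.mem_nhds ht)) 2
  exact t_HIT ((r : ℂ) * θ t) (fun t => r ^ 2 * ‖θ t‖ ^ 2) (fun t => (l : ℂ) * qa r c j (Vt t))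
    (fun t => (l : ℂ) * qb r c j (Vt t)) (fun t => UU0 V j (Vt t)) (fun t => X j (Vt t)) B q t
    h1 h2 h3 h4

end Pool.Agent.H794.EX
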