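import Pool.Agent.H794.EX.Spec

set_option autoImplicit false

open scoped Manifold ContDiff Matrix ComplexOrder
open Matrix Topology MeasureTheory Set Filter

namespace Pool.Agent.H794.EX

open Pool.Agent.Helper614.HE Pool.Agent.H794

namespace KERL

/-- comparison of products of powers -/
theorem pow_mix {x y a b : ℝ} (hx : 0 ≤ x) (hy : 0 ≤ y) (ha : 0 < a) (hb : 0 < b) :
    x ^ a * y ^ b ≤ x ^ (a + b) + y ^ (a + b) := by
  have hxx : 0 ≤ x ^ (a + b) := Real.rpow_nonneg hx _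
  have hyy : 0 ≤ y ^ (a + b) := Real.rpow_nonneg hy _
  rcases le_total x y with h | h
  · have : x ^ a * y ^ b ≤ y ^ a * y ^ b := by
      have := Real.rpow_le_rpow hx h ha.le
      have h2 := Real.rpow_nonneg hy b
      gcongr
    rw [← Real.rpow_add_of_nonneg hy ha.le hb.le] at this
    linarith
  · have : x ^ a * y ^ b ≤ x ^ a * x ^ b := by
      have := Real.rpow_le_rpow hy h hb.le
      have h2 := Real.rpow_nonneg hx a
      gcongr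
    rw [← Real.rpow_add_of_nonneg hx ha.le hb.le] at this
    linarith

theorem sx_cont : Continuous sx := by
  unfold sx; fun_prop

theorem sx_nonneg (s : ℂ) : 0 ≤ sx s := norm_nonneg _

/-- bound of the weight by powers of the distances -/
theorem sx_bound (S : Finset ℂ)
    (hb : ∀ z : ℂ, z ^ 16 + 1 ≠ 0 → ‖z ^ 16 + 1‖⁻¹ ≤ ∑ c ∈ S, ‖z - c‖⁻¹) {θ : ℝ} (hθ : 0 < θ)
    (s : ℂ) : sx s ^ (-θ) ≤ (S.card : ℝ) ^ θ * ∑ c ∈ S, ‖s - c‖ ^ (-θ) := by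
  have hsum0 : 0 ≤ ∑ c ∈ S, ‖s - c‖ ^ (-θ) :=
    Finset.sum_nonneg fun c _ => Real.rpow_nonneg (norm_nonneg _) _
  have hR0 : 0 ≤ (S.card : ℝ) ^ θ * ∑ c ∈ S, ‖s - c‖ ^ (-θ) :=
    mul_nonneg (Real.rpow_nonneg (Nat.cast_nonneg _) _) hsum0
  by_cases h0 : s ^ 16 + 1 = 0
  · have : sx s = 0 := by unfold sx; rw [h0, norm_zero]
    rw [this, Real.zero_rpow (by linarith)]
    exact hR0
  · have h1 := hb s h0
    have hx : 0 < sx s := norm_pos_iff.2 h0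
    -- some term is large
    obtain ⟨c, hc, hcl⟩ : ∃ c ∈ S, (sx s)⁻¹ ≤ S.card * ‖s - c‖⁻¹ := by
      by_contra hcon
      push Not at hcon
      rcases S.eq_empty_or_nonempty with hE | hE
      · rw [hE, Finset.sum_empty] at h1
        have : 0 < ‖s ^ 16 + 1‖⁻¹ := inv_pos.2 hx
        linarith
      · have h2 : ∑ c ∈ S, (S.card : ℝ) * ‖s - c‖⁻¹ < ∑ c ∈ S, (sx s)⁻¹ :=
          Finset.sum_lt_sum_of_nonempty hE hcon
        rw [← Finset.mul_sum, Finset.sum_const, nsmul_eq_mul] at h2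
        have h3 : (0 : ℝ) < S.card := by exact_mod_cast hE.card_pos
        have h4 := lt_of_mul_lt_mul_left h2 h3.le
        exact absurd h1 (not_le.2 h4)
    have h2 : sx s ^ (-θ) = ((sx s)⁻¹) ^ θ := by
      rw [Real.inv_rpow hx.le, Real.rpow_neg hx.le]
    have h3 : ∀ c : ℂ, ‖s - c‖ ^ (-θ) = (‖s - c‖⁻¹) ^ θ := fun c => by
      rw [Real.inv_rpow (norm_nonneg _), Real.rpow_neg (norm_nonneg _)]
    rw [h2]
    calc ((sx s)⁻¹) ^ θ ≤ (S.card * ‖s - c‖⁻¹) ^ θ :=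
          Real.rpow_le_rpow (inv_nonneg.2 hx.le) hcl hθ.le
      _ = (S.card : ℝ) ^ θ * ‖s - c‖ ^ (-θ) := by
          rw [Real.mul_rpow (Nat.cast_nonneg _) (inv_nonneg.2 (norm_nonneg _)), h3 c]
      _ ≤ _ := by
          refine mul_le_mul_of_nonneg_left ?_ (Real.rpow_nonneg (Nat.cast_nonneg _) _)
          exact Finset.single_le_sum (f := fun c => ‖s - c‖ ^ (-θ))
            (fun c _ => Real.rpow_nonneg (norm_nonneg _) _) hc

/-- uniform bound of the integrals of `‖s - c‖ ^ (-7/4)` over the disc -/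
theorem disc_bound : ∃ K : ℝ, 0 ≤ K ∧ ∀ c : ℂ,
    IntegrableOn (fun s : ℂ => ‖s - c‖ ^ (-(7 / 4) : ℝ)) DD ∧
    ∫ s in DD, ‖s - c‖ ^ (-(7 / 4) : ℝ) ≤ K := by
  have h2 := (All.hKE2).1 (7 / 4) (by norm_num) 1
  set g : ℂ → ℝ := (Metric.closedBall (0 : ℂ) 1).indicator (fun w => ‖w‖ ^ (-(7 / 4) : ℝ)) with hg
  have hgi : Integrable g := by
    rw [hg, integrable_indicator_iff Metric.isClosed_closedBall.measurableSet]
    exact h2
  have hg0 : ∀ w, 0 ≤ g w := fun w =>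
    indicator_nonneg (fun w _ => Real.rpow_nonneg (norm_nonneg _) _) w
  have hfin : volume DD < ⊤ := by
    unfold DD
    exact measure_closedBall_lt_top
  have hDm : MeasurableSet DD := by
    unfold DD
    exact Metric.isClosed_closedBall.measurableSet
  refine ⟨(∫ w, g w) + volume.real DD, add_nonneg (integral_nonneg hg0) measureReal_nonneg, ?_⟩
  intro c
  have hpt : ∀ s : ℂ, ‖s - c‖ ^ (-(7 / 4) : ℝ) ≤ g (s - c) + 1 := by
    intro s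
    by_cases h : ‖s - c‖ ≤ 1
    · have : g (s - c) = ‖s - c‖ ^ (-(7 / 4) : ℝ) := by
        rw [hg, indicator_of_mem]
        rw [Metric.mem_closedBall, dist_zero_right]
        exact h
      linarith
    · have h3 : ‖s - c‖ ^ (-(7 / 4) : ℝ) ≤ 1 :=
        Real.rpow_le_one_of_one_le_of_nonpos (not_le.1 h).le (by norm_num)
      have := hg0 (s - c)
      linarith
  have hgc : Integrable (fun s => g (s - c)) := hgi.comp_sub_right c
  have hone : IntegrableOn (fun _ : ℂ => (1 : ℝ)) DD := integrableOn_const hfin.ne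
  have hmaj : IntegrableOn (fun s => g (s - c) + 1) DD := hgc.integrableOn.add hone
  have hint : IntegrableOn (fun s : ℂ => ‖s - c‖ ^ (-(7 / 4) : ℝ)) DD := by
    refine Integrable.mono' hmaj ?_ ?_
    · have : Measurable fun s : ℂ => ‖s - c‖ ^ (-(7 / 4) : ℝ) := by fun_prop
      exact this.aestronglyMeasurable
    · refine Eventually.of_forall fun s => ?_
      rw [Real.norm_of_nonneg (Real.rpow_nonneg (norm_nonneg _) _)]
      exact hpt s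
  refine ⟨hint, ?_⟩
  calc ∫ s in DD, ‖s - c‖ ^ (-(7 / 4) : ℝ) ≤ ∫ s in DD, (g (s - c) + 1) :=
        integral_mono hint hmaj hpt
    _ = (∫ s in DD, g (s - c)) + ∫ _s in DD, (1 : ℝ) := integral_add hgc.integrableOn hone
    _ ≤ (∫ w, g w) + volume.real DD := by
        have h3 : ∫ s in DD, g (s - c) ≤ ∫ s, g (s - c) :=
          setIntegral_le_integral hgc (Eventually.of_forall fun s => hg0 _)
        have h5 : ∫ s, g (s - c) = ∫ w, g w := integral_sub_right_eq_self g c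
        rw [h5] at h3
        have h4 : ∫ _s in DD, (1 : ℝ) = volume.real DD := by simp
        linarith

theorem main {θ ρ : ℝ} (hθ : 0 < θ) (hρ : 0 < ρ) (h : θ + ρ = 7 / 4) : ∃ K : ℝ, 0 ≤ K ∧ ∀ v : ℂ,
    IntegrableOn (fun s => sx s ^ (-θ) * ‖v - s‖ ^ (-ρ)) DD ∧
    ∫ s in DD, sx s ^ (-θ) * ‖v - s‖ ^ (-ρ) ≤ K := by
  obtain ⟨S, hS, hb⟩ := All.hKE1
  obtain ⟨K0, hK0, hK⟩ := disc_bound
  have hn0 : (0 : ℝ) ≤ (S.card : ℝ) ^ θ := Real.rpow_nonneg (Nat.cast_nonneg _) _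
  refine ⟨(S.card : ℝ) ^ θ * (S.card * (K0 + K0)), by positivity, ?_⟩
  intro v
  have hpt : ∀ s : ℂ, sx s ^ (-θ) * ‖v - s‖ ^ (-ρ) ≤ (S.card : ℝ) ^ θ *
      ∑ c ∈ S, (‖s - c‖ ^ (-(7 / 4) : ℝ) + ‖s - v‖ ^ (-(7 / 4) : ℝ)) := by
    intro s
    have h1 := sx_bound S hb hθ s
    have hy0 : 0 ≤ ‖v - s‖ ^ (-ρ) := Real.rpow_nonneg (norm_nonneg _) _
    calc sx s ^ (-θ) * ‖v - s‖ ^ (-ρ) ≤
          ((S.card : ℝ) ^ θ * ∑ c ∈ S, ‖s - c‖ ^ (-θ)) * ‖v - s‖ ^ (-ρ) := by gcongr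
      _ = (S.card : ℝ) ^ θ * ∑ c ∈ S, ‖s - c‖ ^ (-θ) * ‖v - s‖ ^ (-ρ) := by
          rw [mul_assoc, Finset.sum_mul]
      _ ≤ _ := by
          refine mul_le_mul_of_nonneg_left (Finset.sum_le_sum fun c _ => ?_) hn0
          have e : ∀ (t : ℂ) (r : ℝ), ‖t‖ ^ (-r) = (‖t‖⁻¹) ^ r := fun t r => by
            rw [Real.inv_rpow (norm_nonneg _), Real.rpow_neg (norm_nonneg _)]
          rw [e, e, e, e, norm_sub_rev v s, ← h]
          exact pow_mix (inv_nonneg.2 (norm_nonneg _)) (inv_nonneg.2 (norm_nonneg _)) hθ hρ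
  have hmaj : IntegrableOn (fun s => (S.card : ℝ) ^ θ *
      ∑ c ∈ S, (‖s - c‖ ^ (-(7 / 4) : ℝ) + ‖s - v‖ ^ (-(7 / 4) : ℝ))) DD := by
    refine Integrable.const_mul ?_ _
    exact integrable_finsetSum _ fun c _ => (hK c).1.add (hK v).1
  have hnn : ∀ s : ℂ, 0 ≤ sx s ^ (-θ) * ‖v - s‖ ^ (-ρ) := fun s =>
    mul_nonneg (Real.rpow_nonneg (sx_nonneg _) _) (Real.rpow_nonneg (norm_nonneg _) _)
  have hint : IntegrableOn (fun s => sx s ^ (-θ) * ‖v - s‖ ^ (-ρ)) DD := by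
    refine Integrable.mono' hmaj ?_ ?_
    · have h1 := sx_cont.measurable
      have : Measurable fun s : ℂ => sx s ^ (-θ) * ‖v - s‖ ^ (-ρ) := by fun_prop
      exact this.aestronglyMeasurable
    · refine Eventually.of_forall fun s => ?_
      rw [Real.norm_of_nonneg (hnn s)]
      exact hpt s
  refine ⟨hint, ?_⟩
  calc ∫ s in DD, sx s ^ (-θ) * ‖v - s‖ ^ (-ρ) ≤ ∫ s in DD, (S.card : ℝ) ^ θ *
      ∑ c ∈ S, (‖s - c‖ ^ (-(7 / 4) : ℝ) + ‖s - v‖ ^ (-(7 / 4) : ℝ)) :=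
        integral_mono hint hmaj hpt
    _ = (S.card : ℝ) ^ θ * ∑ c ∈ S, ((∫ s in DD, ‖s - c‖ ^ (-(7 / 4) : ℝ)) +
        ∫ s in DD, ‖s - v‖ ^ (-(7 / 4) : ℝ)) := by
        rw [integral_const_mul]
        congr 1
        have e1 := integral_finsetSum (μ := volume.restrict DD) S
          (f := fun c s => ‖s - c‖ ^ (-(7 / 4) : ℝ) + ‖s - v‖ ^ (-(7 / 4) : ℝ))
          fun c _ => (hK c).1.add (hK v).1
        rw [e1]
        refine Finset.sum_congr rfl fun c _ => ?_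
        exact integral_add (hK c).1 (hK v).1
    _ ≤ (S.card : ℝ) ^ θ * ∑ _c ∈ S, (K0 + K0) := by
        refine mul_le_mul_of_nonneg_left (Finset.sum_le_sum fun c _ => ?_) hn0
        exact add_le_add (hK c).2 (hK v).2
    _ = _ := by rw [Finset.sum_const, nsmul_eq_mul]

theorem lip {v c : ℂ} (hv : ‖v‖ ≤ 2) (hc : c ^ 16 = -1) : sx v ≤ 16 * 2 ^ 15 * ‖v - c‖ := by
  have hcn : ‖c‖ = 1 := by
    have h1 : ‖c‖ ^ 16 = 1 := by rw [← norm_pow, hc, norm_neg, norm_one]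
    exact (pow_eq_one_iff_of_nonneg (norm_nonneg _) (by norm_num)).1 h1
  have h1 : v ^ 16 + 1 = (∑ i ∈ Finset.range 16, v ^ i * c ^ (16 - 1 - i)) * (v - c) := by
    rw [geom_sum₂_mul, hc]; ring
  unfold sx
  rw [h1, norm_mul]
  refine mul_le_mul_of_nonneg_right ?_ (norm_nonneg _)
  refine (norm_sum_le _ _).trans ?_
  have h2 : ∀ i ∈ Finset.range 16, ‖v ^ i * c ^ (16 - 1 - i)‖ ≤ 2 ^ 15 := by
    intro i hi
    rw [norm_mul, norm_pow, norm_pow, hcn, one_pow, mul_one]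
    have hi' : i ≤ 15 := by
      have := Finset.mem_range.1 hi
      omega
    calc ‖v‖ ^ i ≤ 2 ^ i := by gcongr
      _ ≤ 2 ^ 15 := pow_le_pow_right₀ (by norm_num) hi'
  refine (Finset.sum_le_sum h2).trans ?_
  simp

theorem third : ∃ K : ℝ, 0 ≤ K ∧ ∀ v : ℂ, ‖v‖ ≤ 2 → v ^ 16 + 1 ≠ 0 →
    IntegrableOn (fun s => ww s * ‖v - s‖⁻¹) DD ∧ ∫ s in DD, ww s * ‖v - s‖⁻¹ ≤ K * wh v := by
  obtain ⟨S, hS, hb⟩ := All.hKE1
  obtain ⟨C, hC0, hC⟩ := All.hLHa (1 / 2) (by norm_num) (by norm_num)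
  have hn0 : (0 : ℝ) ≤ (S.card : ℝ) ^ (3 / 2 : ℝ) := Real.rpow_nonneg (Nat.cast_nonneg _) _
  have hM0 : (0 : ℝ) ≤ (16 * 2 ^ 15 : ℝ) ^ (1 / 2 : ℝ) := Real.rpow_nonneg (by norm_num) _
  refine ⟨(S.card : ℝ) ^ (3 / 2 : ℝ) * (S.card * (C * (16 * 2 ^ 15 : ℝ) ^ (1 / 2 : ℝ))),
    by positivity, ?_⟩
  intro v hv hv0
  have hne : ∀ c ∈ S, v - c ≠ 0 := by
    intro c hc h
    have : v = c := sub_eq_zero.1 h
    rw [this, hS c hc] at hv0
    exact hv0 (by norm_num)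
  have hI : ∀ c ∈ S, Integrable (fun ζ : ℂ => ‖ζ - c‖ ^ (-(3 / 2) : ℝ) * ‖v - ζ‖⁻¹) ∧
      ∫ ζ : ℂ, ‖ζ - c‖ ^ (-(3 / 2) : ℝ) * ‖v - ζ‖⁻¹ ≤ C * ‖v - c‖ ^ (-(1 / 2) : ℝ) := by
    intro c hc
    have h1 := hC c (v - c) (hne c hc)
    have e : (fun ζ : ℂ => ‖c - ζ‖ ^ ((1 / 2 : ℝ) - 2) * ‖c + (v - c) - ζ‖⁻¹) =
        fun ζ : ℂ => ‖ζ - c‖ ^ (-(3 / 2) : ℝ) * ‖v - ζ‖⁻¹ := by
      funext ζ
      rw [norm_sub_rev c ζ, show c + (v - c) - ζ = v - ζ by ring,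
        show (1 / 2 : ℝ) - 2 = -(3 / 2) by norm_num]
    rw [e, show (1 / 2 : ℝ) - 1 = -(1 / 2) by norm_num] at h1
    exact h1
  have hpt : ∀ s : ℂ, ww s * ‖v - s‖⁻¹ ≤ (S.card : ℝ) ^ (3 / 2 : ℝ) *
      ∑ c ∈ S, ‖s - c‖ ^ (-(3 / 2) : ℝ) * ‖v - s‖⁻¹ := by
    intro s
    have h1 := sx_bound S hb (θ := 3 / 2) (by norm_num) s
    have hy0 : 0 ≤ ‖v - s‖⁻¹ := inv_nonneg.2 (norm_nonneg _)
    unfold ww
    calc sx s ^ (-(3 / 2) : ℝ) * ‖v - s‖⁻¹ ≤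
          ((S.card : ℝ) ^ (3 / 2 : ℝ) * ∑ c ∈ S, ‖s - c‖ ^ (-(3 / 2) : ℝ)) * ‖v - s‖⁻¹ := by
            gcongr
      _ = _ := by rw [mul_assoc, Finset.sum_mul]
  have hmaj' : Integrable (fun s => (S.card : ℝ) ^ (3 / 2 : ℝ) *
      ∑ c ∈ S, ‖s - c‖ ^ (-(3 / 2) : ℝ) * ‖v - s‖⁻¹) := by
    refine Integrable.const_mul ?_ _
    exact integrable_finsetSum _ fun c hc => (hI c hc).1
  have hnn : ∀ s : ℂ, 0 ≤ ww s * ‖v - s‖⁻¹ := fun s =>
    mul_nonneg (Real.rpow_nonneg (sx_nonneg _) _) (inv_nonneg.2 (norm_nonneg _))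
  have hint' : Integrable (fun s => ww s * ‖v - s‖⁻¹) := by
    refine Integrable.mono' hmaj' ?_ ?_
    · have h1 := sx_cont.measurable
      have : Measurable fun s : ℂ => ww s * ‖v - s‖⁻¹ := by unfold ww; fun_prop
      exact this.aestronglyMeasurable
    · refine Eventually.of_forall fun s => ?_
      rw [Real.norm_of_nonneg (hnn s)]
      exact hpt s
  refine ⟨hint'.integrableOn, ?_⟩
  have hx : 0 < sx v := norm_pos_iff.2 hv0
  calc ∫ s in DD, ww s * ‖v - s‖⁻¹ ≤ ∫ s, ww s * ‖v - s‖⁻¹ :=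
        setIntegral_le_integral hint' (Eventually.of_forall hnn)
    _ ≤ ∫ s, (S.card : ℝ) ^ (3 / 2 : ℝ) * ∑ c ∈ S, ‖s - c‖ ^ (-(3 / 2) : ℝ) * ‖v - s‖⁻¹ :=
        integral_mono hint' hmaj' hpt
    _ = (S.card : ℝ) ^ (3 / 2 : ℝ) * ∑ c ∈ S, ∫ s, ‖s - c‖ ^ (-(3 / 2) : ℝ) * ‖v - s‖⁻¹ := by
        rw [integral_const_mul, integral_finsetSum _ fun c hc => (hI c hc).1]
    _ ≤ (S.card : ℝ) ^ (3 / 2 : ℝ) * ∑ _c ∈ S, C * ((16 * 2 ^ 15 : ℝ) ^ (1 / 2 : ℝ) * wh v) := by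
        refine mul_le_mul_of_nonneg_left (Finset.sum_le_sum fun c hc => ?_) hn0
        refine (hI c hc).2.trans (mul_le_mul_of_nonneg_left ?_ hC0.le)
        have hvc : 0 < ‖v - c‖ := norm_pos_iff.2 (hne c hc)
        have h1 := lip hv (hS c hc)
        unfold wh
        have e : ∀ {t r : ℝ}, 0 ≤ t → t ^ (-r) = (t⁻¹) ^ r := fun {t r} ht => by
          rw [Real.inv_rpow ht, Real.rpow_neg ht]
        rw [e hvc.le, e hx.le, ← Real.mul_rpow (by norm_num) (inv_nonneg.2 hx.le)]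
        refine Real.rpow_le_rpow (inv_nonneg.2 hvc.le) ?_ (by norm_num)
        rw [← div_eq_mul_inv, inv_le_iff_one_le_mul₀ hvc, div_mul_eq_mul_div, one_le_div hx]
        exact h1
    _ = _ := by rw [Finset.sum_const, nsmul_eq_mul]; ring

end KERL

open KERL in
theorem t_KER : S_KER := by
  obtain ⟨K1, h10, h1⟩ := KERL.main (θ := 3 / 2) (ρ := 1 / 4) (by norm_num) (by norm_num) (by norm_num)
  obtain ⟨K2, h20, h2⟩ := KERL.main (θ := 1 / 2) (ρ := 5 / 4) (by norm_num) (by norm_num) (by norm_num)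
  obtain ⟨K3, h30, h3⟩ := KERL.third
  refine ⟨K1 + K2 + K3 + 1, by linarith, ?_, ?_, ?_⟩
  · intro v
    exact ⟨(h1 v).1, (h1 v).2.trans (by linarith)⟩
  · intro v
    exact ⟨(h2 v).1, (h2 v).2.trans (by linarith)⟩
  · intro v hv hv0
    refine ⟨(h3 v hv hv0).1, (h3 v hv hv0).2.trans ?_⟩
    have : 0 ≤ wh v := Real.rpow_nonneg (KERL.sx_nonneg _) _
    nlinarith

end Pool.Agent.H794.EX
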