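import Pool.Agent.H794.EX.Spec

set_option autoImplicit false

open scoped Manifold ContDiff Matrix ComplexOrder
open Matrix Topology MeasureTheory Set Filter

namespace Pool.Agent.H794.EX

open Pool.Agent.Helper614.HE Pool.Agent.H794

namespace SRGL

open Pool.Agent.Helper614.HE.P_REM Pool.Agent.Helper614.HE.P_BOOT

/-- the system with changed functions `B`, `Q` -/
theorem congr_sys {E : ℂ → ℝ} {Φ : ℂ → ℝ → ℂ → ℂ} {Ψ : ℂ → ℝ → ℂ → ℝ} {V : ℂ → ℝ}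
    {X B Q B' Q' : ℂ → ℂ} {t : ℂ} (h : GSysAt E Φ Ψ V X B Q t) (eB : B' =ᶠ[𝓝 t] B)
    (eQ : Q' =ᶠ[𝓝 t] Q) : GSysAt E Φ Ψ V X B' Q' t := by
  refine ⟨h.dV, h.dX, h.dB.congr_of_eventuallyEq eB, h.dQ.congr_of_eventuallyEq eQ, ?_, ?_, ?_, ?_⟩
  · rw [h.eV, eQ.eq_of_nhds]
  · rw [h.eX, eB.eq_of_nhds]
  · rw [REM_dz_congr eB, h.eB]
  · rw [REM_dzb_congr eQ, h.eQ, eB.eq_of_nhds]

/-- removable singularities -/
theorem rem (hREM1 : T_REM1) (hREM2 : T_REM2) {D : Set ℂ} (hD : IsOpen D) {E : ℂ → ℝ}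
    {Φ : ℂ → ℝ → ℂ → ℂ} {Ψ : ℂ → ℝ → ℂ → ℝ} (hE : ContDiffOn ℝ ∞ E D)
    (hΦ : ContDiffOn ℝ ∞ (fun p : ℂ × ℝ × ℂ => Φ p.1 p.2.1 p.2.2) (D ×ˢ univ))
    (hΨ : ContDiffOn ℝ ∞ (fun p : ℂ × ℝ × ℂ => Ψ p.1 p.2.1 p.2.2) (D ×ˢ univ))
    {V : ℂ → ℝ} {X B Q : ℂ → ℂ} (hV : ContinuousOn V D) (hX : ContinuousOn X D) {t0 : ℂ}
    (ht0 : t0 ∈ D) {ρ C : ℝ} (hρp : 0 < ρ) (hcD : Metric.closedBall t0 ρ ⊆ D)
    (hS : ∀ t ∈ Metric.ball t0 ρ \ {t0}, GSysAt E Φ Ψ V X B Q t)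
    (hC : ∀ t ∈ Metric.ball t0 ρ \ {t0}, ‖B t‖ ≤ C ∧ ‖Q t‖ ≤ C) :
    ∃ B' Q' : ℂ → ℂ, ∀ t ∈ Metric.ball t0 ρ, GSysAt E Φ Ψ V X B' Q' t := by
  set D0 : Set ℂ := Metric.ball t0 ρ with hD0
  have hD0o : IsOpen D0 := Metric.isOpen_ball
  have ht0' : t0 ∈ D0 := Metric.mem_ball_self hρp
  have hD0D : D0 ⊆ D := fun z hz => hcD (Metric.ball_subset_closedBall hz)
  have hcomp : IsCompact (Metric.closedBall t0 ρ) := isCompact_closedBall t0 ρ
  have hEc : ContinuousOn E D := hE.continuousOn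
  have hE1 : ∀ t ∈ D, ContDiffAt ℝ 1 E t := fun t ht =>
    ((hE t ht).contDiffAt (hD.mem_nhds ht)).of_le (by exact_mod_cast le_top)
  obtain ⟨bV, hbV⟩ := hcomp.exists_bound_of_continuousOn (hV.mono hcD)
  obtain ⟨bX, hbX⟩ := hcomp.exists_bound_of_continuousOn (hX.mono hcD)
  obtain ⟨bE, hbE⟩ := hcomp.exists_bound_of_continuousOn (hEc.mono hcD)
  have hbE0 : 0 ≤ bE := (norm_nonneg _).trans (hbE t0 (Metric.mem_closedBall_self hρp.le))
  have hin : ∀ t ∈ D0, t ∈ Metric.closedBall t0 ρ := fun t ht => Metric.ball_subset_closedBall ht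
  have hVc : ContinuousAt V t0 := hV.continuousAt (hD.mem_nhds ht0)
  have hXc : ContinuousAt X t0 := hX.continuousAt (hD.mem_nhds ht0)
  have hVcc : ContinuousAt (fun w => (V w : ℂ)) t0 :=
    Complex.continuous_ofReal.continuousAt.comp hVc
  have cof : ContDiff ℝ 1 (fun x : ℝ => (x : ℂ)) := Complex.ofRealCLM.contDiff
  have ccj : ContDiff ℝ 1 (fun x : ℂ => (starRingEnd ℂ) x) := Complex.conjCLE.contDiff
  have hVC1 : ∀ t ∈ D0 \ {t0}, ContDiffAt ℝ 1 (fun w => (V w : ℂ)) t := fun t ht =>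
    cof.contDiffAt.comp t (hS t ht).dV
  -- (1) Hoelder continuity of V and X
  have HV : REM_Hq t0 (fun w => (V w : ℂ)) := by
    refine REM_one hREM1 hD0o ht0' (F := fun w => (starRingEnd ℂ) (Q w)) hVcc ?_ ?_
    · intro t ht
      refine ⟨hVC1 t ht, ccj.contDiffAt.comp t (hS t ht).dQ, ?_⟩
      rw [REM_dzb_real, (hS t ht).eV]
    · refine ⟨max bV C, fun t ht => ⟨?_, ?_⟩⟩
      · have := hbV t (hin t ht.1)
        rw [Complex.norm_real]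
        exact this.trans (le_max_left _ _)
      · rw [RCLike.norm_conj]
        exact (hC t ht).2.trans (le_max_right _ _)
  have hexpb : ∀ t ∈ D0, Real.exp (V t) ≤ Real.exp bV := fun t ht =>
    Real.exp_le_exp.2 ((le_abs_self _).trans (hbV t (hin t ht)))
  have HX : REM_Hq t0 X := by
    refine REM_one hREM1 hD0o ht0' (F := fun w => ((Real.exp (V w) * E w : ℝ) : ℂ) * B w) hXc ?_ ?_
    · intro t ht
      have h1 := (hS t ht).dV
      have h2 := (hS t ht).dB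
      have h3 : ContDiffAt ℝ 1 (fun w => Real.exp (V w) * E w) t :=
        h1.exp.mul (hE1 t (hD0D ht.1))
      exact ⟨(hS t ht).dX, (cof.contDiffAt.comp t h3).mul h2, (hS t ht).eX⟩
    · refine ⟨max bX (Real.exp bV * bE * C), fun t ht => ⟨?_, ?_⟩⟩
      · exact (hbX t (hin t ht.1)).trans (le_max_left _ _)
      · refine le_trans ?_ (le_max_right _ _)
        rw [norm_mul, Complex.norm_real, Real.norm_eq_abs, abs_mul, abs_of_pos (Real.exp_pos _)]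
        refine mul_le_mul ?_ (hC t ht).1 (norm_nonneg _) (by positivity)
        exact mul_le_mul (hexpb t ht.1) (hbE t (hin t ht.1)) (abs_nonneg _) (Real.exp_pos _).le
  have HVr : REM_Hq t0 V := by
    have h1 := REM_Hq_comp (g := Complex.re) HV Complex.reCLM.contDiff.contDiffAt
    simpa using h1
  have Hid : REM_Hq t0 (fun t : ℂ => t) := REM_Hq_smooth contDiffAt_id
  have hDu : IsOpen (D ×ˢ (univ : Set (ℝ × ℂ))) := hD.prod isOpen_univ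
  have hmem : (t0, V t0, X t0) ∈ D ×ˢ (univ : Set (ℝ × ℂ)) := ⟨ht0, mem_univ _⟩
  have hΦ1 : ContDiffAt ℝ 1 (fun p : ℂ × ℝ × ℂ => Φ p.1 p.2.1 p.2.2) (t0, V t0, X t0) :=
    ((hΦ _ hmem).contDiffAt (hDu.mem_nhds hmem)).of_le (by exact_mod_cast le_top)
  have hΨ1 : ContDiffAt ℝ 1 (fun p : ℂ × ℝ × ℂ => Ψ p.1 p.2.1 p.2.2) (t0, V t0, X t0) :=
    ((hΨ _ hmem).contDiffAt (hDu.mem_nhds hmem)).of_le (by exact_mod_cast le_top)
  have HtVX : REM_Hq t0 (fun t => (t, V t, X t)) := REM_Hq_prod Hid (REM_Hq_prod HVr HX)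
  -- (2) the extension of B
  set FB : ℂ → ℂ := fun t => (starRingEnd ℂ) (Φ t (V t) (X t)) with hFB
  have HFB : REM_Hq t0 FB :=
    REM_Hq_comp (g := fun p : ℂ × ℝ × ℂ => (starRingEnd ℂ) (Φ p.1 p.2.1 p.2.2)) HtVX
      (ccj.contDiffAt.comp (t0, V t0, X t0) hΦ1)
  obtain ⟨β, hβ1, hβ2, hβ3⟩ := REM_two hREM2 hD0o ht0' (w := fun w => (starRingEnd ℂ) (B w)) HFB
    (by
      intro t ht
      refine ⟨ccj.contDiffAt.comp t (hS t ht).dB, ?_⟩
      rw [REM_dzb_conj, (hS t ht).eB, hFB])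
    ⟨C, fun t ht => by rw [RCLike.norm_conj]; exact (hC t ht).1⟩
  set B' : ℂ → ℂ := fun t => (starRingEnd ℂ) (β t) with hB'
  have hB'B : ∀ t, t ≠ t0 → B' t = B t := by
    intro t ht
    rw [hB']
    simp only
    rw [hβ1 t ht, Complex.conj_conj]
  have hB'c : ContDiffAt ℝ 1 B' t0 := ccj.contDiffAt.comp t0 hβ2
  have hB'z : dz B' t0 = Φ t0 (V t0) (X t0) := by
    rw [hB', REM_dz_conj, hβ3, hFB]
    simp only [Complex.conj_conj]
  -- the extension of Q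
  set Fq : ℂ → ℂ := fun t => -((Real.exp (V t) * E t * ‖B' t‖ ^ 2 + Ψ t (V t) (X t) : ℝ) : ℂ)
    with hFq
  have HFq : REM_Hq t0 Fq := by
    have h1 : ContDiffAt ℝ 1 (fun v : ℂ × ℝ × (ℂ × ℝ × ℂ) =>
        -((Real.exp (v.2.2.2.1) * v.2.1 * ‖v.1‖ ^ 2 + Ψ v.2.2.1 v.2.2.2.1 v.2.2.2.2 : ℝ) : ℂ))
        (B' t0, E t0, (t0, V t0, X t0)) := by
      have n1 : ContDiff ℝ 1 (fun x : ℂ => ‖x‖ ^ 2) := contDiff_norm_sq ℝ
      have e1 : ContDiff ℝ 1 (fun v : ℂ × ℝ × (ℂ × ℝ × ℂ) => Real.exp (v.2.2.2.1)) := by fun_prop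
      have e2 : ContDiff ℝ 1 (fun v : ℂ × ℝ × (ℂ × ℝ × ℂ) => v.2.1) := by fun_prop
      have e3 : ContDiff ℝ 1 (fun v : ℂ × ℝ × (ℂ × ℝ × ℂ) => v.1) := by fun_prop
      have e4 : ContDiff ℝ 1 (fun v : ℂ × ℝ × (ℂ × ℝ × ℂ) => v.2.2) := by fun_prop
      have e5 : ContDiffAt ℝ 1 (fun v : ℂ × ℝ × (ℂ × ℝ × ℂ) =>
          Ψ v.2.2.1 v.2.2.2.1 v.2.2.2.2) (B' t0, E t0, (t0, V t0, X t0)) :=
        ContDiffAt.comp (g := fun p : ℂ × ℝ × ℂ => Ψ p.1 p.2.1 p.2.2)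
          (f := fun v : ℂ × ℝ × (ℂ × ℝ × ℂ) => v.2.2) (B' t0, E t0, (t0, V t0, X t0))
          hΨ1 e4.contDiffAt
      have e6 : ContDiff ℝ 1 (fun v : ℂ × ℝ × (ℂ × ℝ × ℂ) =>
          Real.exp (v.2.2.2.1) * v.2.1 * ‖v.1‖ ^ 2) := (e1.mul e2).mul (n1.comp e3)
      exact (cof.contDiffAt.comp _ (e6.contDiffAt.add e5)).neg
    have h2 := REM_Hq_comp (REM_Hq_prod (REM_Hq_smooth hB'c)
      (REM_Hq_prod (REM_Hq_smooth (hE1 t0 ht0)) HtVX)) h1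
    exact h2
  obtain ⟨q', hq1, hq2, hq3⟩ := REM_two hREM2 hD0o ht0' (w := Q) HFq
    (by
      intro t ht
      refine ⟨(hS t ht).dQ, ?_⟩
      rw [(hS t ht).eQ, hFq]
      simp only
      rw [hB'B t ht.2])
    ⟨C, fun t ht => (hC t ht).2⟩
  -- (3) regularity of V and X at the point
  have hVfin := REM_two' hREM2 hD0o ht0' (w := fun w => (V w : ℂ))
    (F := fun w => (starRingEnd ℂ) (q' w)) hVcc
    (REM_Hq_smooth (ccj.contDiffAt.comp t0 hq2))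
    (by
      intro t ht
      refine ⟨hVC1 t ht, ?_⟩
      rw [REM_dzb_real, (hS t ht).eV, hq1 t ht.2])
    ⟨bV, fun t ht => by rw [Complex.norm_real]; exact hbV t (hin t ht.1)⟩
  have hXfin := REM_two' hREM2 hD0o ht0' (w := X)
    (F := fun w => ((Real.exp (V w) * E w : ℝ) : ℂ) * B' w) hXc
    (by
      have h1 : ContDiff ℝ 1 (fun v : ℝ × ℝ × ℂ => ((Real.exp v.1 * v.2.1 : ℝ) : ℂ) * v.2.2) := by
        have e1 : ContDiff ℝ 1 (fun v : ℝ × ℝ × ℂ => Real.exp v.1 * v.2.1) := by fun_prop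
        have e2 : ContDiff ℝ 1 (fun v : ℝ × ℝ × ℂ => v.2.2) := by fun_prop
        exact (cof.comp e1).mul e2
      exact REM_Hq_comp (REM_Hq_prod HVr (REM_Hq_prod (REM_Hq_smooth (hE1 t0 ht0))
        (REM_Hq_smooth hB'c))) h1.contDiffAt)
    (by
      intro t ht
      refine ⟨(hS t ht).dX, ?_⟩
      rw [(hS t ht).eX, hB'B t ht.2])
    ⟨bX, fun t ht => hbX t (hin t ht.1)⟩
  refine ⟨B', q', fun t ht => ?_⟩
  by_cases htt : t = t0
  · subst htt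
    refine ⟨?_, hXfin.1, hB'c, hq2, ?_, hXfin.2, hB'z, ?_⟩
    · have h1 : ContDiffAt ℝ 1 (fun w => ((V w : ℂ)).re) t :=
        Complex.reCLM.contDiff.contDiffAt.comp t hVfin.1
      simpa using h1
    · have h1 := REM_dzb_real V t
      rw [hVfin.2] at h1
      have h2 := congrArg (starRingEnd ℂ) h1
      rw [Complex.conj_conj, Complex.conj_conj] at h2
      exact h2.symm
    · rw [hq3]
  · have hs := hS t ⟨ht, htt⟩
    have hnb : ∀ᶠ z in 𝓝 t, z ≠ t0 := isOpen_ne.mem_nhds htt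
    refine congr_sys hs ?_ ?_
    · filter_upwards [hnb] with z hz using hB'B z hz
    · filter_upwards [hnb] with z hz using hq1 z hz

/-- bootstrapping -/
theorem boot (hBT1 : T_BT1) (hBT2 : T_BT2) (hBT4 : T_BT4) {D : Set ℂ} (hD : IsOpen D) {E : ℂ → ℝ}
    {Φ : ℂ → ℝ → ℂ → ℂ} {Ψ : ℂ → ℝ → ℂ → ℝ} (hE : ContDiffOn ℝ ∞ E D)
    (hPC : ∀ (m : ℕ) (V : ℂ → ℝ) (X : ℂ → ℂ), PC D m (fun t => (V t : ℂ)) → PC D m X →
      PC D m (fun t => Φ t (V t) (X t)) ∧ PC D m (fun t => (Ψ t (V t) (X t) : ℂ)))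
    {V : ℂ → ℝ} {X B q : ℂ → ℂ} (hS : ∀ t ∈ D, GSysAt E Φ Ψ V X B q t) :
    ContDiffOn ℝ ∞ V D ∧ ContDiffOn ℝ ∞ X D ∧ ContDiffOn ℝ ∞ B D ∧ ContDiffOn ℝ ∞ q D := by
  have hUc : ∀ t ∈ D, ContDiffAt ℝ 1 (fun w => (V w : ℂ)) t := fun t ht =>
    (BOOT_U V t (hS t ht).dV).1
  have hEc : ContDiffOn ℝ ∞ (fun t => (E t : ℂ)) D :=
    Complex.ofRealCLM.contDiff.comp_contDiffOn hE
  have key : ∀ m, PC D m (fun w => (V w : ℂ)) ∧ PC D m X ∧ PC D m B ∧ PC D m q := by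
    intro m
    induction m with
    | zero =>
      obtain ⟨-, i2, -⟩ := hBT1 D hD 0
      exact ⟨i2 _ hUc, i2 _ fun t ht => (hS t ht).dX, i2 _ fun t ht => (hS t ht).dB,
        i2 _ fun t ht => (hS t ht).dQ⟩
    | succ m ih =>
      obtain ⟨hV, hX, hB, hq⟩ := ih
      obtain ⟨-, -, i3, i4, i5, i6, i7, i8, -, i10, -⟩ := hBT1 D hD m
      obtain ⟨-, -, j3, -, -, j6, -, -, -, -, -⟩ := hBT1 D hD (m + 1)
      have hconst : ∀ c : ℂ, PC D m (fun _ => c) := fun c => i7 _ (differentiableOn_const c)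
      have hexp : PC D m (fun t => Complex.exp (V t : ℂ)) := i8 _ hV
      have hEm : PC D m (fun t => (E t : ℂ)) := i10 _ hEc
      obtain ⟨hΦ, hΨ⟩ := hPC m V X hV hX
      refine ⟨⟨hUc, ?_, ?_⟩, ?_, ?_, ?_⟩
      · exact i3 q _ (fun t ht => (hS t ht).eV.symm) hq
      · refine i3 (fun t => (starRingEnd ℂ) (q t)) _ (fun t ht => ?_) (i6 _ hq)
        rw [(BOOT_U V t (hS t ht).dV).2, (hS t ht).eV]
      · refine hBT4 D hD m X (fun t ht => (hS t ht).dX) ?_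
        refine i3 (fun t => Complex.exp (V t : ℂ) * (E t : ℂ) * B t) _ (fun t ht => ?_)
          (i5 _ _ (i5 _ _ hexp hEm) hB)
        rw [(hS t ht).eX]
        push_cast
        rfl
      · have h1 : PC D (m + 1) (fun t => (starRingEnd ℂ) (B t)) := by
          refine hBT4 D hD m _ (fun t ht => (BOOT_conj B t (hS t ht).dB).1) ?_
          refine i3 (fun t => (starRingEnd ℂ) (Φ t (V t) (X t))) _ (fun t ht => ?_) (i6 _ hΦ)
          rw [(BOOT_conj B t (hS t ht).dB).2, (hS t ht).eB]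
        refine j3 _ _ (fun t _ => ?_) (j6 _ h1)
        exact Complex.conj_conj _
      · refine hBT4 D hD m q (fun t ht => (hS t ht).dQ) ?_
        refine i3 (fun t => (-1) * ((Complex.exp (V t : ℂ) * (E t : ℂ)) *
          (B t * (starRingEnd ℂ) (B t)) + (Ψ t (V t) (X t) : ℂ))) _ (fun t ht => ?_)
          (i5 _ _ (hconst (-1)) (i4 _ _ (i5 _ _ (i5 _ _ hexp hEm) (i5 _ _ hB (i6 _ hB))) hΨ))
        rw [(hS t ht).eQ]
        simp only [Complex.mul_conj']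
        push_cast
        ring
  have hsm := fun f (h : ∀ m, PC D m f) => hBT2 D hD f h
  refine ⟨?_, hsm _ fun m => (key m).2.1, hsm _ fun m => (key m).2.2.1, hsm _ fun m => (key m).2.2.2⟩
  have h1 := hsm _ fun m => (key m).1
  exact Complex.reCLM.contDiff.comp_contDiffOn h1

end SRGL

open SRGL

theorem t_SRG : S_SRG := by
  intro D hD E Φ Ψ hE hE0 hΦ hΨ hPC V X B Q hV hX hS hbd
  set Q' : ℂ → ℂ := fun t => dz (fun w => (V w : ℂ)) t with hQ'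
  set B' : ℂ → ℂ := fun t => dzb X t / ((Real.exp (V t) * E t : ℝ) : ℂ) with hB'
  have hall : ∀ t ∈ D, GSysAt E Φ Ψ V X B' Q' t := by
    intro t0 ht0
    obtain ⟨C, hC⟩ := hbd t0 ht0
    have h1 : ∀ᶠ t in 𝓝[≠] t0, GSysAt E Φ Ψ V X B Q t ∧ ‖B t‖ ≤ C ∧ ‖Q t‖ ≤ C :=
      (hS t0 ht0).and hC
    rw [eventually_nhdsWithin_iff] at h1
    obtain ⟨ρ0, hρ0, h2⟩ := Metric.eventually_nhds_iff_ball.1
      (h1.and (hD.mem_nhds ht0 : ∀ᶠ t in 𝓝 t0, t ∈ D))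
    have hρp : 0 < ρ0 / 2 := by positivity
    have hcl : Metric.closedBall t0 (ρ0 / 2) ⊆ Metric.ball t0 ρ0 :=
      Metric.closedBall_subset_ball (by linarith)
    have hcD : Metric.closedBall t0 (ρ0 / 2) ⊆ D := fun z hz => (h2 z (hcl hz)).2
    obtain ⟨B1, Q1, h3⟩ := rem All.hREM1 All.hREM2 hD hE hΦ hΨ hV hX ht0 (C := C) hρp hcD
      (fun t ht => ((h2 t (hcl (Metric.ball_subset_closedBall ht.1))).1 ht.2).1)
      (fun t ht => ((h2 t (hcl (Metric.ball_subset_closedBall ht.1))).1 ht.2).2)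
    have hnb : Metric.ball t0 (ρ0 / 2) ∈ 𝓝 t0 := Metric.ball_mem_nhds t0 hρp
    refine congr_sys (h3 t0 (Metric.mem_ball_self hρp)) ?_ ?_
    · filter_upwards [hnb] with t ht
      have h4 := (h3 t ht).eX
      have h5 : ((Real.exp (V t) * E t : ℝ) : ℂ) ≠ 0 := by
        rw [Complex.ofReal_ne_zero]
        exact (mul_pos (Real.exp_pos _)
          (hE0 t (hcD (Metric.ball_subset_closedBall ht)))).ne'
      rw [hB']
      simp only
      rw [h4, mul_div_cancel_left₀ _ h5]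
    · filter_upwards [hnb] with t ht
      exact (h3 t ht).eV
  obtain ⟨h1, h2, h3, h4⟩ := boot All.hBT1 All.hBT2 All.hBT4 hD hE hPC hall
  exact ⟨h1, h2, B', Q', h3, h4, hall⟩

end Pool.Agent.H794.EX
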