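import Pool.Agent.H794.LS
import Pool.Agent.H794.HTsym
import Pool.Graph.R_pool_sql_team_seeded_620a6dc7.Helper614.HE.Assembled

/-!
# Existence of harmonic metrics: specification of the parts

We solve a semilinear elliptic system on the Riemann sphere, which is covered by two closed unit
discs (the copies `false` and `true`, glued by `v' = 1/v` along the unit circle), by the theorem of
Leray and Schauder. The unknown functions are `V` (real) and `X` (complex, a section of `O(10)`).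
-/

set_option autoImplicit false

open scoped Manifold ContDiff Matrix ComplexOrder
open Matrix Topology MeasureTheory Set Filter

namespace Pool.Agent.H794.EX

open Pool.Agent.Helper614.HE Pool.Agent.H794

/-! ### Basic notions -/

/-- the closed unit disc -/
def DD : Set ℂ := Metric.closedBall 0 1

/-- the function `|s¹⁶ + 1|` -/
noncomputable def sx (s : ℂ) : ℝ := ‖s ^ 16 + 1‖

/-- the weight `|s¹⁶ + 1| ^ (-3/2)` -/
noncomputable def ww (s : ℂ) : ℝ := sx s ^ (-(3 / 2) : ℝ)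

/-- the weight `|s¹⁶ + 1| ^ (-1/2)` -/
noncomputable def wh (s : ℂ) : ℝ := sx s ^ (-(1 / 2) : ℝ)

/-- the function is dominated by `c` times the weight `w` on the disc, off the 16 points with
`s¹⁶ + 1 = 0` -/
def Dom {E : Type*} [NormedAddCommGroup E] (w : ℂ → ℝ) (c : ℝ) (f : Bool → ℂ → E) : Prop :=
  ∀ j, ∀ s ∈ DD, s ^ 16 + 1 ≠ 0 → ‖f j s‖ ≤ c * w s

/-- total integral over the two discs -/
noncomputable def tot (G : Bool → ℂ → ℝ) : ℝ := ∑ j, ∫ s in DD, G j s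

/-- total integral over the two discs, complex version -/
noncomputable def totc (G : Bool → ℂ → ℂ) : ℂ := ∑ j, ∫ s in DD, G j s

/-- the general kernel operator of Cauchy type:
`(1/π) (∫ g_j(s)/(v-s) + ∫ σ v^a s^b g_{!j}(s)/(1-vs))` -/
noncomputable def CK (σ : ℂ) (a b : ℕ) (g : Bool → ℂ → ℂ) (j : Bool) (v : ℂ) : ℂ :=
  ((1 / Real.pi : ℝ) : ℂ) * ((∫ s in DD, g j s / (v - s)) +
    ∫ s in DD, σ * v ^ a * s ^ b * g (!j) s / (1 - v * s))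

/-- the potential of `∂̄` for sections of `O(10)` -/
noncomputable def PX (g : Bool → ℂ → ℂ) : Bool → ℂ → ℂ := CK (-1) 11 0 g

/-- the potential of `∂` for the dual problem -/
noncomputable def PB (f : Bool → ℂ → ℂ) (j : Bool) (v : ℂ) : ℂ :=
  (starRingEnd ℂ) (CK 1 0 11 (fun j s => (starRingEnd ℂ) (f j s)) j v)

/-- the logarithmic potential -/
noncomputable def PL (G : Bool → ℂ → ℝ) (j : Bool) (v : ℂ) : ℝ :=
  (1 / Real.pi) * ((∫ s in DD, Real.log (‖v - s‖ ^ 2) * G j s) +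
    ∫ s in DD, Real.log (‖1 - v * s‖ ^ 2) * G (!j) s)

/-- the exponent of the `k`-th section in the copy `j` -/
def ee (j : Bool) (k : ℕ) : ℕ := if j = true then 10 - k else k

/-- the sign of the copy -/
def ep (j : Bool) : ℂ := if j = true then -1 else 1

/-- the moments -/
noncomputable def MM (f : Bool → ℂ → ℂ) (k : ℕ) : ℂ :=
  ∑ j, ep j * ∫ s in DD, (starRingEnd ℂ) s ^ ee j k * f j s

/-- the normalising constants -/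
noncomputable def cc (k : ℕ) : ℝ := (Real.pi / (k + 1) + Real.pi / (11 - k))⁻¹

/-- the coefficients of the projection -/
noncomputable def Pj (f : Bool → ℂ → ℂ) (k : ℕ) : ℂ := (cc k : ℂ) * MM f k

/-- the sections `Σ_k p_k v^k` of `O(10)`, `k = 0, ..., 10` -/
noncomputable def pol (p : ℕ → ℂ) (j : Bool) (s : ℂ) : ℂ :=
  ∑ k ∈ Finset.range 11, p k * ep j * s ^ ee j k

/-- the part which is orthogonal to the sections -/
noncomputable def perp (f : Bool → ℂ → ℂ) (j : Bool) (s : ℂ) : ℂ := f j s - pol (Pj f) j s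

/-! ### The data of the system and the fixed point map -/

/-- the data of the system -/
structure Dat where
  ρ : ℝ
  N : Bool → ℂ → ℝ
  c : ℝ → ℝ
  P : ℝ → Bool → ℂ → ℝ → ℂ → ℝ
  F : ℝ → Bool → ℂ → ℝ → ℂ → ℂ

/-- the conditions on the data, for the existence of fixed points -/
structure Dat.OK (d : Dat) : Prop where
  rho : 0 < d.ρ
  contN : ∀ j, Continuous (d.N j)
  N0 : ∀ j s, 0 ≤ d.N j s
  Npos : 0 < d.N false 0
  contc : Continuous d.c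
  c0 : ∀ l ∈ Icc (0 : ℝ) 1, 0 ≤ d.c l
  contP : ∀ j, Continuous (fun p : ℝ × ℂ × ℝ × ℂ => d.P p.1 j p.2.1 p.2.2.1 p.2.2.2)
  P0 : ∀ l ∈ Icc (0 : ℝ) 1, ∀ j s V X, 0 ≤ d.P l j s V X
  contF : ∀ j, Continuous (fun p : ℝ × ℂ × ℝ × ℂ => d.F p.1 j p.2.1 p.2.2.1 p.2.2.2)
  pos : ∀ l ∈ Icc (0 : ℝ) 1, ∀ s V X, 0 < d.c l + d.P l false s V X
  Fz : ∀ j s V, d.F 0 j s V 0 = 0
  Pz : ∀ j s V, d.P 0 j s V 0 = d.P 0 j s 0 0
  Fre : ∀ j s V X, 3 * ‖X‖ ^ 2 ≤ ((starRingEnd ℂ) (d.F 0 j s V X) * X).re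

section

variable (d : Dat) (l : ℝ) (V : Bool → ℂ → ℝ) (X : Bool → ℂ → ℂ)

/-- `e^U` with `U = V + 10 log (1 + |s|²)` -/
noncomputable def eU (j : Bool) (s : ℂ) : ℝ := Real.exp (V j s) * (1 + ‖s‖ ^ 2) ^ 10

/-- the source of `B` -/
noncomputable def fS (j : Bool) (s : ℂ) : ℂ :=
  ((d.ρ * ww s : ℝ) : ℂ) * d.F l j s (V j s) (X j s)

/-- the function `B` -/
noncomputable def bS (j : Bool) (s : ℂ) : ℂ := PB (perp (fS d l V X)) j s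

/-- the source of `X` -/
noncomputable def gS (j : Bool) (s : ℂ) : ℂ := (eU V j s : ℂ) * bS d l V X j s

/-- the positive part of the source of `V` -/
noncomputable def Gp (j : Bool) (s : ℂ) : ℝ :=
  eU V j s * ‖bS d l V X j s‖ ^ 2 + d.ρ * ww s * d.P l j s (V j s) (X j s) +
    d.c l / (1 + ‖s‖ ^ 2) ^ 2

/-- the negative part of the source of `V` -/
noncomputable def Gm (j : Bool) (s : ℂ) : ℝ := d.ρ * ww s * (d.N j s * Real.exp (V j s))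

/-- the quotient of the masses -/
noncomputable def kap : ℝ := tot (Gp d l V X) / tot (Gm d V)

/-- the source of `V` -/
noncomputable def Gh (j : Bool) (s : ℂ) : ℝ := Gp d l V X j s - kap d l V X * Gm d V j s

/-- the density which is used for the normalisation -/
noncomputable def VN (j : Bool) (s : ℂ) : ℝ :=
  d.ρ * ww s * d.N j s * Real.exp (-PL (Gh d l V X) j s)

/-- the first component of the fixed point map -/
noncomputable def TV (j : Bool) (v : ℂ) : ℝ :=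
  -PL (Gh d l V X) j v + Real.log (tot (Gp d l V X) / tot (VN d l V X))

/-- the second component of the fixed point map -/
noncomputable def TX (j : Bool) (v : ℂ) : ℂ :=
  perp (PX (gS d l V X)) j v + pol (fun k => Pj X k - Pj (fS d l V X) k) j v

end

/-- fixed points -/
structure IsFix (d : Dat) (l : ℝ) (V : Bool → ℂ → ℝ) (X : Bool → ℂ → ℂ) : Prop where
  cV : ∀ j, Continuous (V j)
  cX : ∀ j, Continuous (X j)
  eV : ∀ j, ∀ v ∈ DD, V j v = TV d l V X j v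
  eX : ∀ j, ∀ v ∈ DD, X j v = TX d l V X j v

/-! ### Estimates of the kernels -/

/-- **KER**: kernel integrals.
Proof. By `All.hKE1`, `sx s⁻¹ ≤ Σ_{c ∈ S} ‖s-c‖⁻¹` if `s¹⁶ ≠ -1`, hence
`sx s ^ (-θ) ≤ C Σ_c ‖s-c‖^(-θ)` for `θ = 1/2, 3/2` (the set of the other `s` is finite, of measure
zero). For positive reals `x^(3/2) y^(1/4) ≤ x^(7/4) + y^(7/4)` and
`x^(1/2) y^(5/4) ≤ x^(7/4) + y^(7/4)` (look at the larger one); with `x = ‖s-c‖⁻¹`, `y = ‖v-s‖⁻¹`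
and `∫_DD ‖s-c‖^(-7/4) ds ≤ const` uniformly in `c ∈ ℂ` (split at `‖s-c‖ ≤ 1`, translate, and use
`All.hKE2`) we get the first and the second item. The third item is `All.hLHa` with `θ = 1/2`,
`z = c`, `z + w = v`, and `sx v ≤ 16 * 2^15 * ‖v-c‖` for `‖v‖ ≤ 2`. -/
def S_KER : Prop := ∃ K : ℝ, 0 < K ∧
  (∀ v : ℂ, IntegrableOn (fun s => ww s * ‖v - s‖ ^ (-(1 / 4) : ℝ)) DD ∧
    ∫ s in DD, ww s * ‖v - s‖ ^ (-(1 / 4) : ℝ) ≤ K) ∧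
  (∀ v : ℂ, IntegrableOn (fun s => wh s * ‖v - s‖ ^ (-(5 / 4) : ℝ)) DD ∧
    ∫ s in DD, wh s * ‖v - s‖ ^ (-(5 / 4) : ℝ) ≤ K) ∧
  (∀ v : ℂ, ‖v‖ ≤ 2 → v ^ 16 + 1 ≠ 0 → IntegrableOn (fun s => ww s * ‖v - s‖⁻¹) DD ∧
    ∫ s in DD, ww s * ‖v - s‖⁻¹ ≤ K * wh v)

/-- **OPB**: the operator `PB`.
Proof. `‖1 - v s‖ ≥ ‖conj v - s‖` for `v, s ∈ DD` (the difference of the squares is
`(1-|v|²)(1-|s|²)`), then S_KER (third item). Measurability in `v` of a parametric integral: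
`StronglyMeasurable.integral_prod_right`. -/
def S_OPB : Prop := ∃ K : ℝ, 0 < K ∧ ∀ (f : Bool → ℂ → ℂ) (c : ℝ), (∀ j, Measurable (f j)) →
  0 ≤ c → Dom ww c f → (∀ j, Measurable (PB f j)) ∧ (∀ j, IntegrableOn (f j) DD) ∧
  ∀ j, ∀ v ∈ DD, v ^ 16 + 1 ≠ 0 →
    IntegrableOn (fun s => (starRingEnd ℂ) (f j s) / (v - s)) DD ∧
    IntegrableOn (fun s => s ^ 11 * (starRingEnd ℂ) (f (!j) s) / (1 - v * s)) DD ∧
    ‖PB f j v‖ ≤ K * c * wh v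

/-- **OPX**: the operator `PX`.
Proof. `wh s * ‖v-s‖⁻¹ ≤ 2 * wh s * ‖v-s‖^(-5/4)` as `‖v-s‖ ≤ 2`; for the Hoelder estimate
`|1/(v-s) - 1/(v'-s)| = |v-v'|/(|v-s||v'-s|) ≤ 2 |v-v'|^(1/4) (|v-s|^(-5/4) + |v'-s|^(-5/4))`, because
`|v-v'|^(3/4) ≤ |v-s|^(3/4) + |v'-s|^(3/4)` and `x^(1/4) y ≤ x^(5/4) + y^(5/4)`. In the second
kernel `v^11/(1-vs)`: the same with `‖1-vs‖ ≥ ‖conj v - s‖` (the numerator is Lipschitz). Use S_KER
(second item). -/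
def S_OPX : Prop := ∃ K : ℝ, 0 < K ∧ ∀ (g : Bool → ℂ → ℂ) (c : ℝ), (∀ j, Measurable (g j)) →
  0 ≤ c → Dom wh c g → (∀ j, IntegrableOn (g j) DD) ∧
  (∀ j, ∀ v ∈ DD, IntegrableOn (fun s => g j s / (v - s)) DD ∧
    IntegrableOn (fun s => g (!j) s / (1 - v * s)) DD ∧ ‖PX g j v‖ ≤ K * c) ∧
  (∀ j, ∀ v ∈ DD, ∀ v' ∈ DD, ‖PX g j v - PX g j v'‖ ≤ K * c * ‖v - v'‖ ^ (1 / 4 : ℝ))

/-- **OPL**: the operator `PL`.
Proof. `|log x| ≤ 8 x^(-1/4)` for `0 < x ≤ 2`-type bounds and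
`|log x - log y| ≤ C |x-y|^(1/4) (x^(-1/4) + y^(-1/4))`; S_KER (first item), `‖1-vs‖ ≥ ‖conj v - s‖`.
The last item: the logarithms are at most `log 4` on the discs. -/
def S_OPL : Prop := ∃ K : ℝ, 0 < K ∧ (∀ (G : Bool → ℂ → ℝ) (c : ℝ), (∀ j, Measurable (G j)) →
  0 ≤ c → Dom ww c G → (∀ j, IntegrableOn (G j) DD) ∧ (∀ j, Measurable (PL G j)) ∧
  (∀ j, ∀ v ∈ DD, IntegrableOn (fun s => Real.log (‖v - s‖ ^ 2) * G j s) DD ∧
    IntegrableOn (fun s => Real.log (‖1 - v * s‖ ^ 2) * G (!j) s) DD ∧ |PL G j v| ≤ K * c) ∧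
  (∀ j, ∀ v ∈ DD, ∀ v' ∈ DD, |PL G j v - PL G j v'| ≤ K * c * ‖v - v'‖ ^ (1 / 4 : ℝ)) ∧
  ((∀ j, ∀ s ∈ DD, 0 ≤ G j s) → ∀ j, ∀ v ∈ DD, PL G j v ≤ K * tot G))

/-- **ADJ**: adjoints of the operators.
Proof. Fubini (`integral_integral_swap`); the double integrals of the absolute values converge by
S_KER: `∫ wh(s) |v-s|⁻¹ ds ≤ K` and `∫ ww < ∞`, and `ww(v) ww(s) |log|`. For the first item:
`conj (PB f j s) = (1/π) (∫ conj f_j(v)/(s-v) + ∫ v^11 conj f_{!j}(v)/(1-sv))`, and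
`PX g j v = (1/π) (∫ g_j(s)/(v-s) - ∫ v^11 g_{!j}(s)/(1-vs))`. -/
def S_ADJ : Prop :=
  (∀ (f g : Bool → ℂ → ℂ) (c : ℝ), (∀ j, Measurable (f j)) → (∀ j, Measurable (g j)) → 0 ≤ c →
    Dom ww c f → Dom wh c g →
    totc (fun j s => (starRingEnd ℂ) (f j s) * PX g j s) =
      -totc (fun j s => g j s * (starRingEnd ℂ) (PB f j s))) ∧
  (∀ (G H : Bool → ℂ → ℝ) (c : ℝ), (∀ j, Measurable (G j)) → (∀ j, Measurable (H j)) → 0 ≤ c →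
    Dom ww c G → Dom ww c H →
    tot (fun j s => G j s * PL H j s) = tot (fun j s => H j s * PL G j s))

/-- **PRJ**: properties of the projection.
Proof. `∫_DD conj(s)^a s^b = if a = b then π/(a+1) else 0` (rotation invariance of the Lebesgue
measure for `a ≠ b`, polar coordinates for `a = b`), so
`Σ_j ep(j)² ∫ conj(s)^(ee j k) s^(ee j m) = δ_{km} / cc k`. -/
def S_PRJ : Prop :=
  (∀ (p : ℕ → ℂ), ∀ k < 11, Pj (pol p) k = p k) ∧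
  (∀ (f : Bool → ℂ → ℂ), (∀ j, IntegrableOn (f j) DD) → (∀ k < 11, Pj (perp f) k = 0) ∧
    (∀ p : ℕ → ℂ, totc (fun j s => (starRingEnd ℂ) (f j s) * pol p j s) =
      ∑ k ∈ Finset.range 11, (starRingEnd ℂ) (MM f k) * p k) ∧
    (∀ (t : ℂ) (k : ℕ), Pj (fun j s => t * f j s) k = t * Pj f k)) ∧
  (∀ (f g : Bool → ℂ → ℂ), (∀ j, IntegrableOn (f j) DD) → (∀ j, IntegrableOn (g j) DD) →
    ∀ k, Pj (fun j s => f j s + g j s) k = Pj f k + Pj g k)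

/-! ### The fixed point problem -/

/-- the data are bounded by `R` on the discs -/
structure Bdd (R : ℝ) (V : Bool → ℂ → ℝ) (X : Bool → ℂ → ℂ) : Prop where
  cV : ∀ j, Continuous (V j)
  cX : ∀ j, Continuous (X j)
  bV : ∀ j, ∀ s ∈ DD, |V j s| ≤ R
  bX : ∀ j, ∀ s ∈ DD, ‖X j s‖ ≤ R

/-- the estimates of all ingredients of the map -/
structure Est (d : Dat) (l : ℝ) (V : Bool → ℂ → ℝ) (X : Bool → ℂ → ℂ) (M : ℝ) : Prop where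
  mf : ∀ j, Measurable (fS d l V X j)
  mp : ∀ j, Measurable (perp (fS d l V X) j)
  mb : ∀ j, Measurable (bS d l V X j)
  mg : ∀ j, Measurable (gS d l V X j)
  mGp : ∀ j, Measurable (Gp d l V X j)
  mGm : ∀ j, Measurable (Gm d V j)
  mGh : ∀ j, Measurable (Gh d l V X j)
  mVN : ∀ j, Measurable (VN d l V X j)
  bf : Dom ww M (fS d l V X)
  bp : Dom ww M (perp (fS d l V X))
  bb : Dom wh M (bS d l V X)
  bg : Dom wh M (gS d l V X)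
  bGp : Dom ww M (Gp d l V X)
  bGm : Dom ww M (Gm d V)
  bGh : Dom ww M (Gh d l V X)
  bVN : Dom ww M (VN d l V X)
  pGp : ∀ j, ∀ s ∈ DD, 0 ≤ Gp d l V X j s
  pGm : ∀ j, ∀ s ∈ DD, 0 ≤ Gm d V j s
  pVN : ∀ j, ∀ s ∈ DD, 0 ≤ VN d l V X j s
  lGp : M⁻¹ ≤ tot (Gp d l V X)
  lGm : M⁻¹ ≤ tot (Gm d V)
  lVN : M⁻¹ ≤ tot (VN d l V X)
  kb : 0 < kap d l V X ∧ kap d l V X ≤ M
  bTV : ∀ j, ∀ v ∈ DD, |TV d l V X j v| ≤ M
  bTX : ∀ j, ∀ v ∈ DD, ‖TX d l V X j v‖ ≤ M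
  hTV : ∀ j, ∀ v ∈ DD, ∀ v' ∈ DD, |TV d l V X j v - TV d l V X j v'| ≤ M * ‖v - v'‖ ^ (1 / 4 : ℝ)
  hTX : ∀ j, ∀ v ∈ DD, ∀ v' ∈ DD, ‖TX d l V X j v - TX d l V X j v'‖ ≤ M * ‖v - v'‖ ^ (1 / 4 : ℝ)

/-- **BND**: the ingredients of the map are bounded on bounded sets.
Proof. From S_OPB, S_OPX, S_OPL (may be taken as hypotheses). The functions `d.F`, `d.P`, `d.N`,
`d.c` are continuous, hence bounded on compact sets (`l ∈ [0,1]`, `s ∈ DD`, `|V|, |X| ≤ R`), and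
`d.c l + d.P l false s V X` is bounded below by a positive constant there, so
`Gp false ≥ δ (ww s * ρ + 1/4) ...` has integral bounded below. `ww ≥ 2^(-3/2)` and
`wh ^ 2 ≤ 2 ww` on the disc off the 16 points. `tot Gm ≥ e^(-R) ∫ ρ ww N`, which is positive
since `N false` is continuous and positive at `0`. -/
def S_BND : Prop := ∀ d : Dat, d.OK → ∀ R : ℝ, 0 < R → ∃ M : ℝ, 0 < M ∧ ∀ l ∈ Icc (0 : ℝ) 1,
  ∀ V X, Bdd R V X → Est d l V X M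

/-- **SEQ**: sequential continuity of the map, pointwise.
Proof. By S_BND, all ingredients are dominated, so the dominated convergence theorem gives
successively, for all `j` and all `s ∈ DD` with `s¹⁶ ≠ -1`, the convergence of
`fS, Pj fS, perp fS, bS, gS, Gp, Gm, tot Gp, tot Gm, kap, Gh, PL Gh, VN, tot VN, TV, PX gS, TX`
(for `PL` and `PX` at all `v ∈ DD`). -/
def S_SEQ : Prop := ∀ d : Dat, d.OK → ∀ R : ℝ, 0 < R → ∀ (l : ℕ → ℝ) (l' : ℝ)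
  (V : ℕ → Bool → ℂ → ℝ) (X : ℕ → Bool → ℂ → ℂ) (V' : Bool → ℂ → ℝ) (X' : Bool → ℂ → ℂ),
  (∀ n, l n ∈ Icc (0 : ℝ) 1) → l' ∈ Icc (0 : ℝ) 1 → (∀ n, Bdd R (V n) (X n)) → Bdd R V' X' →
  Tendsto l atTop (𝓝 l') → (∀ j, ∀ s ∈ DD, Tendsto (fun n => V n j s) atTop (𝓝 (V' j s))) →
  (∀ j, ∀ s ∈ DD, Tendsto (fun n => X n j s) atTop (𝓝 (X' j s))) →
  ∀ j, ∀ v ∈ DD, Tendsto (fun n => TV d (l n) (V n) (X n) j v) atTop (𝓝 (TV d l' V' X' j v)) ∧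
    Tendsto (fun n => TX d (l n) (V n) (X n) j v) atTop (𝓝 (TX d l' V' X' j v))

/-- the retraction of the plane onto the disc -/
noncomputable def rt (s : ℂ) : Metric.closedBall (0 : ℂ) 1 :=
  ⟨((max 1 ‖s‖ : ℝ) : ℂ)⁻¹ * s, by
    have h1 : (0 : ℝ) < max 1 ‖s‖ := lt_max_of_lt_left one_pos
    rw [mem_closedBall_zero_iff, norm_mul, norm_inv, Complex.norm_real, Real.norm_eq_abs,
      abs_of_pos h1, inv_mul_le_iff₀ h1, mul_one]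
    exact le_max_right _ _⟩

/-- the Banach space of the pairs `(V, X)` on the two discs -/
abbrev BB : Type := C(Bool × Metric.closedBall (0 : ℂ) 1, ℝ × ℂ)

/-- the function `V` of an element -/
noncomputable def bV (x : BB) (j : Bool) (s : ℂ) : ℝ := (x (j, rt s)).1

/-- the function `X` of an element -/
noncomputable def bX (x : BB) (j : Bool) (s : ℂ) : ℂ := (x (j, rt s)).2

/-- **CPT**: the fixed point map as a compact map of the Banach space.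
Proof. For `l ∈ [0,1]` the functions `TV, TX` are continuous on `DD` by S_BND (Hoelder), this
defines `Φ` (for other `l` put `0`). By Arzela-Ascoli the set of all elements `y` with `‖y‖ ≤ M'`
and `‖y (j,v) - y (j,v')‖ ≤ M' ‖v-v'‖^(1/4)` is compact; it contains the values for `‖x‖ ≤ R`.
Continuity: if `(l_n, x_n) → (l, x)`, the values lie in a compact set, so it suffices that every
accumulation point is `Φ l x`, which holds as the values converge pointwise by S_SEQ. -/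
def S_CPT : Prop := ∀ d : Dat, d.OK → ∃ Φ : ℝ → BB → BB,
  (∀ l ∈ Icc (0 : ℝ) 1, ∀ x j, ∀ v : Metric.closedBall (0 : ℂ) 1,
    Φ l x (j, v) = (TV d l (bV x) (bX x) j v, TX d l (bV x) (bX x) j v)) ∧
  ContinuousOn (fun p : ℝ × BB => Φ p.1 p.2) (Icc (0 : ℝ) 1 ×ˢ univ) ∧
  ∀ R : ℝ, ∃ K : Set BB, IsCompact K ∧ ∀ l ∈ Icc (0 : ℝ) 1, ∀ x : BB, ‖x‖ ≤ R → Φ l x ∈ K

/-- **EN**: the energy identity.
Proof. Put `f = fS`, `g = gS = e^U B`, `B = PB (perp f)`, and let `⟨f, h⟩ = totc (conj f * h)`. By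
S_ADJ, `⟨perp f, PX g⟩ = - Σ_j ∫ e^U |B|² ≤ 0`, and `⟨perp f, pol p⟩ = 0` by S_PRJ
(`MM (perp f) k = 0`). So `Re ⟨perp f, X⟩ = t Re ⟨perp f, TX⟩ ≤ 0` (note that `TX` is `PX g`
plus a polynomial `pol p`). Applying `Pj` to `X = t TX` and S_PRJ: `Pj X = t (Pj X - Pj f)`, that is
`t Pj f = -(1-t) Pj X`. If `t = 0` then `X = 0`. If `t > 0` then
`⟨f - perp f, X⟩ = Σ_k conj (Pj f k) MM X k = -((1-t)/t) Σ_k |Pj X k|² / cc k ≤ 0`. Together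
`Re ⟨f, X⟩ ≤ 0`, while `Re (conj f X) ≥ 3 ρ ww |X|²` pointwise. So `X = 0` almost everywhere
on `DD`, and everywhere on `DD` by continuity. (S_BND gives the estimates needed.) -/
def S_EN : Prop := ∀ d : Dat, d.OK → ∀ l ∈ Icc (0 : ℝ) 1,
  (∀ j s V X, 3 * ‖X‖ ^ 2 ≤ ((starRingEnd ℂ) (d.F l j s V X) * X).re) →
  ∀ t ∈ Icc (0 : ℝ) 1, ∀ (V : Bool → ℂ → ℝ) (X : Bool → ℂ → ℂ), (∀ j, Continuous (V j)) →
  (∀ j, Continuous (X j)) → (∀ j, ∀ v ∈ DD, X j v = t * TX d l V X j v) →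
  ∀ j, ∀ v ∈ DD, X j v = 0

/-- **ST1**: a priori bound for the first part of the homotopy.
Proof. By S_EN (for `l = 0`, with `d.Fre`), `X = 0` on `DD`; so `fS = 0` on `DD` (`d.Fz`),
`perp fS = 0`, `bS = 0` on `DD`, and `Gp = γ := ρ ww (d.P 0 j s 0 0) + d.c 0/(1+|s|²)²` on `DD`,
a fixed function with mass `m > 0` and `0 ≤ γ ≤ C ww`. Let `ν = ρ ww N` (mass `n > 0`),
`μ = kap * Gm = kap ν e^V ≥ 0`, of mass `m`. Then `V = t (-PL γ + PL μ + s)` with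
`s = log m - log (∫ ν e^(-PL γ + PL μ))`. Now (a) `PL μ ≤ K m` (S_OPL), `|PL γ| ≤ C`, so
`s ≥ -C`. (b) `∫ ν PL μ = ∫ μ PL ν ≥ -C m` (S_ADJ and S_OPL), and `∫ ν e^h ≥ n e^(∫ν h / n)`
(from `e^h ≥ e^a (1 + h - a)`), so `s ≤ C`. (c) So `V ≤ C`. (d)
`∫ ν e^V ≥ n exp (∫ν V / n) ≥ 1/C` by (a), (b), so `kap ≤ C`, so `μ ≤ C ν`, so `|PL μ| ≤ C`
(S_OPL), so `|V| ≤ C`. All constants `C` depend only on `d`. (Note that `PL` only depends on the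
values on `DD`.) -/
def S_ST1 : Prop := ∀ d : Dat, d.OK → ∃ R : ℝ, ∀ t ∈ Icc (0 : ℝ) 1,
  ∀ (V : Bool → ℂ → ℝ) (X : Bool → ℂ → ℂ), (∀ j, Continuous (V j)) → (∀ j, Continuous (X j)) →
  (∀ j, ∀ v ∈ DD, V j v = t * TV d 0 V X j v) → (∀ j, ∀ v ∈ DD, X j v = t * TX d 0 V X j v) →
  ∀ j, ∀ v ∈ DD, |V j v| ≤ R ∧ ‖X j v‖ ≤ R

/-- **FIX**: existence of a fixed point.
Proof. Leray-Schauder (`leray_schauder` in `LS.lean`) for the homotopy `H t = 2t Φ 0` for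
`t ≤ 1/2` and `H t = Φ (2t-1)` for `t ≥ 1/2`, with `Φ` from S_CPT, and the bounds of S_ST1 and of
the hypothesis. -/
def S_FIX : Prop := ∀ d : Dat, d.OK → (∃ R : ℝ, ∀ l ∈ Icc (0 : ℝ) 1, ∀ V X, IsFix d l V X →
    ∀ j, ∀ v ∈ DD, |V j v| ≤ R ∧ ‖X j v‖ ≤ R) → ∃ V X, IsFix d 1 V X

/-! ### Regularity in the plane -/

/-- compatibility of the data with the gluing of the discs -/
structure Dat.Rel (d : Dat) : Prop where
  relN : ∀ j (v : ℂ), v ≠ 0 → d.N j v = ‖v‖ ^ 20 * d.N (!j) v⁻¹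
  relP : ∀ l j (v : ℂ) V X, v ≠ 0 →
    d.P l j v V X = ‖v‖ ^ 20 * d.P l (!j) v⁻¹ V (-((v⁻¹) ^ 10 * X))
  relF : ∀ l j (v : ℂ) V X, v ≠ 0 →
    d.F l j v V X = -(v ^ 10 * d.F l (!j) v⁻¹ V (-((v⁻¹) ^ 10 * X)))

/-- smoothness of the data -/
structure Dat.Smo (d : Dat) : Prop where
  smN : ∀ j, ContDiff ℝ ∞ (d.N j)
  smP : ∀ l j, ContDiff ℝ ∞ (fun p : ℂ × ℝ × ℂ => d.P l j p.1 p.2.1 p.2.2)
  smF : ∀ l j, ContDiff ℝ ∞ (fun p : ℂ × ℝ × ℂ => d.F l j p.1 p.2.1 p.2.2)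
  pcN : ∀ j (D : Set ℂ) (m : ℕ) (v : ℂ → ℂ), IsOpen D → DifferentiableOn ℂ v D →
    PC D m (fun t => (d.N j (v t) : ℂ))
  pcP : ∀ l j (D : Set ℂ) (m : ℕ) (v : ℂ → ℂ) (V : ℂ → ℝ) (X : ℂ → ℂ), IsOpen D →
    DifferentiableOn ℂ v D → PC D m (fun t => (V t : ℂ)) → PC D m X →
    PC D m (fun t => (d.P l j (v t) (V t) (X t) : ℂ))
  pcF : ∀ l j (D : Set ℂ) (m : ℕ) (v : ℂ → ℂ) (V : ℂ → ℝ) (X : ℂ → ℂ), IsOpen D →
    DifferentiableOn ℂ v D → PC D m (fun t => (V t : ℂ)) → PC D m X →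
    PC D m (fun t => d.F l j (v t) (V t) (X t))

/-- the first order system in the plane, at the point `v` -/
structure PlaneAt (d : Dat) (l : ℝ) (j : Bool) (V : ℂ → ℝ) (X B Q : ℂ → ℂ) (v : ℂ) : Prop where
  dV : ContDiffAt ℝ 1 V v
  dX : ContDiffAt ℝ 1 X v
  dB : ContDiffAt ℝ 1 B v
  dQ : ContDiffAt ℝ 1 Q v
  eV : dz (fun w => (V w : ℂ)) v = Q v
  eX : dzb X v = ((Real.exp (V v) * (1 + ‖v‖ ^ 2) ^ 10 : ℝ) : ℂ) * B v
  eB : dz B v = ((d.ρ * ww v : ℝ) : ℂ) * d.F l j v (V v) (X v)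
  eQ : dzb Q v = -((Real.exp (V v) * (1 + ‖v‖ ^ 2) ^ 10 * ‖B v‖ ^ 2 +
    d.ρ * ww v * (d.P l j v (V v) (X v) - d.N j v * Real.exp (V v)) +
    d.c l / (1 + ‖v‖ ^ 2) ^ 2 : ℝ) : ℂ)

/-- solutions in the plane -/
structure Plane (d : Dat) (l : ℝ) (V : Bool → ℂ → ℝ) (X : Bool → ℂ → ℂ) : Prop where
  cV : ∀ j, Continuous (V j)
  cX : ∀ j, Continuous (X j)
  rV : ∀ j (v : ℂ), v ≠ 0 → V j v = V (!j) v⁻¹
  rX : ∀ j (v : ℂ), v ≠ 0 → X j v = -(v ^ 10 * X (!j) v⁻¹)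
  sys : ∀ j, ∃ B Q : ℂ → ℂ, (∀ v : ℂ, ‖v‖ < 2 → v ^ 16 + 1 ≠ 0 → PlaneAt d l j (V j) (X j) B Q v) ∧
    ∃ C : ℝ, ∀ v : ℂ, ‖v‖ < 2 → v ^ 16 + 1 ≠ 0 → ‖B v‖ ≤ C * wh v ∧ ‖Q v‖ ≤ C * wh v

/-- **INV**: inversion of integrals, and Cauchy transforms and logarithmic potentials off the
support.
Proof. (1) Change of variables `s = 1/w` (`integral_image_eq_integral_abs_det_fderiv_smul`; the
determinant of the multiplication by `a ∈ ℂ` is `|a|²`). (2), (3), (4) Differentiation under the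
integral (`hasDerivAt_integral_of_dominated_loc_of_deriv_le`,
`hasFDerivAt_integral_of_dominated_of_fderiv_le`). -/
def S_INV : Prop :=
  (∀ F : ℂ → ℂ, IntegrableOn F {s : ℂ | 1 / 2 < ‖s‖ ∧ ‖s‖ ≤ 1} →
    IntegrableOn (fun w => F w⁻¹ * (((‖w‖ ^ 4)⁻¹ : ℝ) : ℂ)) {w : ℂ | 1 ≤ ‖w‖ ∧ ‖w‖ < 2} ∧
    ∫ s in {s : ℂ | 1 / 2 < ‖s‖ ∧ ‖s‖ ≤ 1}, F s =
      ∫ w in {w : ℂ | 1 ≤ ‖w‖ ∧ ‖w‖ < 2}, F w⁻¹ * (((‖w‖ ^ 4)⁻¹ : ℝ) : ℂ)) ∧
  (∀ (f : ℂ → ℂ) (z0 : ℂ) (r : ℝ), Integrable f → (∀ w ∈ Metric.ball z0 r, f w = 0) →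
    DifferentiableOn ℂ (Ct f) (Metric.ball z0 r)) ∧
  (∀ g : ℂ → ℂ, IntegrableOn g {s : ℂ | ‖s‖ ≤ 1 / 2} →
    DifferentiableOn ℂ (fun v => ∫ s in {s : ℂ | ‖s‖ ≤ 1 / 2}, g s / (1 - v * s))
      (Metric.ball 0 2)) ∧
  (∀ (G : ℂ → ℝ) (z0 : ℂ) (r : ℝ), 0 < r → Integrable G → (∃ R : ℝ, ∀ w, R < ‖w‖ → G w = 0) →
    (∀ w ∈ Metric.ball z0 r, G w = 0) → ∀ z ∈ Metric.ball z0 r,
      ContDiffAt ℝ 1 (fun z => ∫ w, Real.log (‖z - w‖ ^ 2) * G w) z ∧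
      dz (fun z => ((∫ w, Real.log (‖z - w‖ ^ 2) * G w : ℝ) : ℂ)) z =
        Real.pi * Ct (fun w => (G w : ℂ)) z)

/-- the extension of the density `g` of the copy `j` to the ball of radius two which is forced by
the operator `CK σ a b` -/
noncomputable def ext (σ : ℂ) (a b : ℕ) (g : Bool → ℂ → ℂ) (j : Bool) (w : ℂ) : ℂ :=
  if ‖w‖ ≤ 1 then g j w else
    -(σ * w ^ (1 + a) * (w⁻¹) ^ b * (((‖w‖ ^ 4)⁻¹ : ℝ) : ℂ) * g (!j) w⁻¹)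

/-- **LOC**: local regularity of the operators `CK`.
Proof. First the representation: if `‖v‖ < 2`, `v¹⁶ + 1 ≠ 0`, then
`CK σ a b g j v = Ct (E) v + h v` with `E = 1_{‖w‖<2} ext σ a b g j` (a.e.) and `h` holomorphic on
`ball 0 2`: in the second integral of `CK` split `DD` into `‖s‖ ≤ 1/2` (holomorphic in `v`, S_INV
(3)) and `1/2 < ‖s‖ ≤ 1`, substitute `s = 1/w` (S_INV (1)):
`σ v^a w^(-b) g_{!j}(1/w) / (1 - v/w) = -σ v^a w^(1-b) g_{!j}(1/w)/(v-w)` and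
`v^a = w^a + (v-w) Σ_{i<a} v^(a-1-i) w^i`, where the sum gives a polynomial in `v`. Then for `v0` as
in the statement let `E = E 1_{ball v0 δ} + E 1_{off}` with `δ` so small that `E` is bounded on the
ball: the second part is holomorphic near `v0` (S_INV (2)); for the first part (bounded with compact
support) use `All.hCH` (Hoelder 1/2) and, if `ext` is Hoelder near `v0`, `All.hLH`. -/
def S_LOC : Prop := ∀ (σ : ℂ) (a b : ℕ) (g : Bool → ℂ → ℂ) (c : ℝ), (∀ j, Measurable (g j)) →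
  0 ≤ c → Dom ww c g → ∀ (j : Bool) (v0 : ℂ), ‖v0‖ < 2 → v0 ^ 16 + 1 ≠ 0 →
  (∃ r L : ℝ, 0 < r ∧ ∀ w ∈ Metric.ball v0 r, ∀ w' ∈ Metric.ball v0 r,
    ‖CK σ a b g j w - CK σ a b g j w'‖ ≤ L * ‖w - w'‖ ^ (1 / 2 : ℝ)) ∧
  ∀ (r θ L : ℝ), 0 < r → 0 < θ → θ < 1 → (∀ w ∈ Metric.ball v0 r, ∀ w' ∈ Metric.ball v0 r,
      ‖ext σ a b g j w - ext σ a b g j w'‖ ≤ L * ‖w - w'‖ ^ θ) →
    ContDiffAt ℝ 1 (CK σ a b g j) v0 ∧ dzb (CK σ a b g j) v0 = ext σ a b g j v0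

/-- **LGD**: the derivative of the logarithmic potential.
Proof. For `v ≠ 0`, `log |1-vs|² = log |v|² + log |1/v - s|²`, so
`π PL G j v = Λ(1_DD G_j)(v) + Λ(1_DD G_{!j})(1/v) + log |v|² ∫ G_{!j}` with
`Λ(Q)(z) = ∫ log |z-w|² Q(w) dw`. At a point `z` with `z¹⁶ ≠ -1` split `Q = Q 1_{ball z δ} + Q 1_off`;
for the first part use `All.hLOG2` (bounded with compact support), for the second S_INV (4): so
`∂Λ(Q) = π Ct Q` at `z`. Chain rule for `1/v`. For `v` near `0`: the second part of `PL` is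
`∫ log |1-vs|² G_{!j}(s) ds`, with `|vs| < 1/2`, differentiate under the integral. -/
def S_LGD : Prop := ∀ (G : Bool → ℂ → ℝ) (c : ℝ), (∀ j, Measurable (G j)) → 0 ≤ c →
  Dom ww c G → ∀ (j : Bool) (v : ℂ), ‖v‖ < 2 → v ^ 16 + 1 ≠ 0 → ContDiffAt ℝ 1 (PL G j) v ∧
    dz (fun w => (PL G j w : ℂ)) v = CK (-1) 0 1 (fun j s => (G j s : ℂ)) j v

/-- **GLU**: behaviour of the operators under `v ↦ 1/v`.
Proof. Direct computation: pointwise identities of the kernels; for `PB` the difference is a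
combination of the moments: `(1 - (s/v)^11)/(v-s) = v^(-11) Σ_{k<11} v^(10-k) s^k`, and
`(s^11 - v^(-11))/(1-vs) = -v^(-11) Σ_{k<11} (vs)^k` (for the conjugate of `PB`). -/
def S_GLU : Prop :=
  (∀ (g : Bool → ℂ → ℂ) (j : Bool) (v : ℂ), v ≠ 0 → PX g j v = -(v ^ 10 * PX g (!j) v⁻¹)) ∧
  (∀ (p : ℕ → ℂ) (j : Bool) (v : ℂ), v ≠ 0 → pol p j v = -(v ^ 10 * pol p (!j) v⁻¹)) ∧
  (∀ (G : Bool → ℂ → ℝ) (c : ℝ), (∀ j, Measurable (G j)) → 0 ≤ c → Dom ww c G → tot G = 0 →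
    ∀ (j : Bool) (v : ℂ), v ≠ 0 → PL G j v = PL G (!j) v⁻¹) ∧
  (∀ (f : Bool → ℂ → ℂ) (c : ℝ), (∀ j, Measurable (f j)) → 0 ≤ c → Dom ww c f →
    (∀ k < 11, MM f k = 0) → ∀ (j : Bool) (v : ℂ), 1 / 2 < ‖v‖ → ‖v‖ < 2 → v ^ 16 + 1 ≠ 0 →
    PB f j v = ((starRingEnd ℂ) v)⁻¹ ^ 12 * PB f (!j) v⁻¹)

/-- **PLN**: a fixed point gives a solution in the plane.
Proof. (Hypotheses S_OPX, S_OPL, S_KER, S_BND, S_PRJ, S_LOC, S_LGD, S_GLU may be assumed.)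
(i) Algebra: apply `Pj` to `X = TX` on `DD`: `Pj X = Pj X - Pj f`, so `Pj (fS) k = 0` for `k < 11`,
hence `MM fS k = 0` and `perp fS = fS` (pointwise: `pol 0 = 0`). From `V = TV` on `DD`:
`Gm = VN * (tot Gp / tot VN)` on `DD`, so `tot Gm = tot Gp`, `kap = 1`, `tot Gh = 0`.
(ii) Define for all `v`: `V' j v = -PL Gh j v + s` (`s` the logarithm in `TV`),
`X' j v = PX gS j v + pol p j v` (`p` the coefficients in `TX`), `B j v = PB fS j v`,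
`Q j v = -CK (-1) 0 1 Gh j v`. `V', X'` agree with `V, X` on `DD`, are continuous on `DD` and
satisfy the relations by S_GLU, so they are continuous on `ℂ`.
(iii) With `B` the relation of S_GLU holds. By `d.Rel`, for `1 < ‖w‖ < 2` the values of
`ext (-1) 11 0 gS`, `conj (ext 1 0 11 (conj fS))` and `ext (-1) 0 1 Gh` at `w` are the expressions
`e^{U'} B`, `ρ ww F(w, V', X')`, `e^{U'}|B|² + ρ ww (P - N e^{V'}) + c/(1+|w|²)²` at `w`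
(use `sx (1/w) = sx w / |w|^16`), as they are for `‖w‖ ≤ 1`.
(iv) `V'` is `C¹` with `∂V' = Q` by S_LGD. `B` is Hoelder by S_LOC (first part, for the conjugate).
So `ext (-1) 11 0 gS` is Hoelder near `v0` and `X'` is `C¹` with `∂̄X' = e^{U'} B`
(S_LOC). Then the source of `B` is `C¹` near `v0`, hence Hoelder, and `B` is `C¹` with
`∂B = ρ ww F`; the source of `Q` is Hoelder and `Q` is `C¹` with `∂̄Q = -(...)`.
(v) Growth at the 16 points: `‖B v‖, ‖Q v‖ ≤ C wh v` for `‖v‖ < 2` by S_KER (third item), also for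
the second kernels: for `‖v‖ ≤ 1` by `‖1-vs‖ ≥ ‖conj v - s‖`, for `‖v‖ > 1` by
`|1-vs| = |v||1/v-s| ≥ |1/v-s|`. -/
def S_PLN : Prop := ∀ d : Dat, d.OK → d.Rel → d.Smo → ∀ l ∈ Icc (0 : ℝ) 1, ∀ V X,
  IsFix d l V X → ∃ V' X', Plane d l V' X' ∧ ∀ j, ∀ v ∈ DD, V' j v = V j v ∧ X' j v = X j v

/-! ### Regularity in charts -/

/-- the general local system -/
structure GSysAt (E : ℂ → ℝ) (Φ : ℂ → ℝ → ℂ → ℂ) (Ψ : ℂ → ℝ → ℂ → ℝ) (V : ℂ → ℝ)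
    (X B Q : ℂ → ℂ) (t : ℂ) : Prop where
  dV : ContDiffAt ℝ 1 V t
  dX : ContDiffAt ℝ 1 X t
  dB : ContDiffAt ℝ 1 B t
  dQ : ContDiffAt ℝ 1 Q t
  eV : dz (fun w => (V w : ℂ)) t = Q t
  eX : dzb X t = ((Real.exp (V t) * E t : ℝ) : ℂ) * B t
  eB : dz B t = Φ t (V t) (X t)
  eQ : dzb Q t = -((Real.exp (V t) * E t * ‖B t‖ ^ 2 + Ψ t (V t) (X t) : ℝ) : ℂ)

/-- **SRG**: regularity and removable singularities for the general local system.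
Proof. As in `P_REM.lean` (`REM`) and `P_BOOT.lean` (`BOOT`), which treat a special case: at an
isolated singular point `t0` where `B, Q` are bounded, `All.hREM1`, `All.hREM2` give values of `B, Q`
at `t0` such that the system holds there (`Φ, Ψ, E` are `C¹`, so they preserve the Hoelder classes).
Put `Q' t = dz V t`, `B' t = dzb X t / (exp (V t) E t)` for all `t`. Then bootstrapping with the
classes `PC` (`All.hBT1`, `All.hBT2`, `All.hBT4`). -/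
def S_SRG : Prop := ∀ (D : Set ℂ), IsOpen D → ∀ (E : ℂ → ℝ) (Φ : ℂ → ℝ → ℂ → ℂ)
  (Ψ : ℂ → ℝ → ℂ → ℝ), ContDiffOn ℝ ∞ E D → (∀ t ∈ D, 0 < E t) →
  ContDiffOn ℝ ∞ (fun p : ℂ × ℝ × ℂ => Φ p.1 p.2.1 p.2.2) (D ×ˢ univ) →
  ContDiffOn ℝ ∞ (fun p : ℂ × ℝ × ℂ => Ψ p.1 p.2.1 p.2.2) (D ×ˢ univ) →
  (∀ (m : ℕ) (V : ℂ → ℝ) (X : ℂ → ℂ), PC D m (fun t => (V t : ℂ)) → PC D m X →
    PC D m (fun t => Φ t (V t) (X t)) ∧ PC D m (fun t => (Ψ t (V t) (X t) : ℂ))) →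
  ∀ (V : ℂ → ℝ) (X B Q : ℂ → ℂ), ContinuousOn V D → ContinuousOn X D →
  (∀ t ∈ D, ∀ᶠ t' in 𝓝[≠] t, GSysAt E Φ Ψ V X B Q t') →
  (∀ t ∈ D, ∃ C : ℝ, ∀ᶠ t' in 𝓝[≠] t, ‖B t'‖ ≤ C ∧ ‖Q t'‖ ≤ C) →
  ContDiffOn ℝ ∞ V D ∧ ContDiffOn ℝ ∞ X D ∧ ∃ B' Q' : ℂ → ℂ, ContDiffOn ℝ ∞ B' D ∧
    ContDiffOn ℝ ∞ Q' D ∧ ∀ t ∈ D, GSysAt E Φ Ψ V X B' Q' t

/-- a piece of a chart of the surface: `v = Vt t`, `y = Y t`, and the form `dv/y³` is `θ dt` -/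
structure Cht (D : Set ℂ) (Vt Y θ : ℂ → ℂ) : Prop where
  op : IsOpen D
  hV : DifferentiableOn ℂ Vt D
  hY : DifferentiableOn ℂ Y D
  hθ : DifferentiableOn ℂ θ D
  eq : ∀ t ∈ D, Y t ^ 4 = Vt t ^ 16 + 1
  dv : ∀ t ∈ D, deriv Vt t = θ t * Y t ^ 3
  dy : ∀ t ∈ D, deriv Y t = 4 * Vt t ^ 15 * θ t
  iso : ∀ t ∈ D, ∀ᶠ t' in 𝓝[≠] t, Y t' ≠ 0
  ne : ∀ t ∈ D, θ t ≠ 0
  small : ∀ t ∈ D, ‖Vt t‖ < 2

/-- the system in a chart, with smooth solutions -/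
def ChSol (d : Dat) (l : ℝ) (j : Bool) (D : Set ℂ) (Vt θ : ℂ → ℂ) (V : ℂ → ℝ) (X : ℂ → ℂ) : Prop :=
  ContDiffOn ℝ ∞ (fun t => V (Vt t)) D ∧ ContDiffOn ℝ ∞ (fun t => X (Vt t)) D ∧
  ∃ B Q : ℂ → ℂ, ContDiffOn ℝ ∞ B D ∧ ContDiffOn ℝ ∞ Q D ∧ ∀ t ∈ D,
    GSysAt (fun t => (1 + ‖Vt t‖ ^ 2) ^ 10)
      (fun t V X => ((d.ρ * ‖θ t‖ ^ 2 : ℝ) : ℂ) * d.F l j (Vt t) V X)
      (fun t V X => d.ρ * ‖θ t‖ ^ 2 * (d.P l j (Vt t) V X - d.N j (Vt t) * Real.exp V) +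
        d.c l * (‖deriv Vt t‖ ^ 2 / (1 + ‖Vt t‖ ^ 2) ^ 2))
      (fun t => V (Vt t)) (fun t => X (Vt t)) B Q t

/-- **CHR**: a solution in the plane gives smooth solutions in the charts.
Proof. At the points of `D` with `Y ≠ 0`, compose the system of `Plane` with `Vt`
(cf. `P_G4.lean`): `B t = B0 (Vt t) conj (Vt' t)`, `Q t = Q0 (Vt t) Vt' t`; note
`ww (Vt t) ‖Vt' t‖² = ‖θ t‖²`. Near a point with `Y = 0`: `‖B t‖ ≤ C wh (Vt t) ‖θ t‖ ‖Y t‖³ =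
C ‖θ t‖ ‖Y t‖` is bounded, the same for `Q`. Then S_SRG, with `d.Smo`. -/
def S_CHR : Prop := ∀ d : Dat, d.Smo → ∀ (l : ℝ) (V : Bool → ℂ → ℝ) (X : Bool → ℂ → ℂ),
  Plane d l V X → ∀ (D : Set ℂ) (Vt Y θ : ℂ → ℂ), Cht D Vt Y θ → ∀ j,
    ChSol d l j D Vt θ (V j) (X j)

/-- **MXP**: the maximum principle on the surface for functions of `v`.
Proof. `u` is continuous on the compact set `Bool × DD`, so it has a maximum there, at `(j, v0)`,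
which is the maximum over all `(j, v)` by the relation. Take a point `x ∈ UU 4 j` of the surface with
`VV 4 j x = v0` (`hB.surj`), a chart `e` at `x`, `D = e.target ∩ e.symm ⁻¹' UU 4 j ∩ {‖VV‖ < 2}`,
`Vt t = VV 4 j (e.symm t)`, `Y t = YY 4 j (e.symm t)`, `θ t = om 4 j e (e.symm t)`. See
`om_one, om_three, om_four`, `hG.holoV`, `hG.holoY`, `TH_open`, `TH_deq`, `TH_V_ne` and `All.hTH`
(for `iso`). -/
def S_MXP : Prop := ∀ inst : ChartedSpace ℂ (SX 4), SBasic 4 → @SGood 4 inst →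
  ∀ u : Bool → ℂ → ℝ, (∀ j, Continuous (u j)) → (∀ j (v : ℂ), v ≠ 0 → u j v = u (!j) v⁻¹) →
  ∃ (j : Bool) (v0 : ℂ) (D : Set ℂ) (Vt Y θ : ℂ → ℂ) (t0 : ℂ), v0 ∈ DD ∧ Cht D Vt Y θ ∧ t0 ∈ D ∧
    Vt t0 = v0 ∧ (∀ j' v', u j' v' ≤ u j v0) ∧ IsLocalMax (fun t => u j (Vt t)) t0

/-! ### The Higgs field of the Hitchin section in the frame adapted to the metric -/

/-- the Higgs field in the frame adapted to `Hm` -/
noncomputable def Phl (a b : ℂ) : M3 := !![0, 1, 0; a / 2, 0, 1; b, a / 2, 0]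

/-- the change of the frame: `Gf a * cmp a b = Phl a b * Gf a` -/
noncomputable def Gf (a : ℂ) : M3 := !![0, 0, 1; 0, 1, 0; 1, 0, -(a / 2)]

/-- entry of the Higgs field -/
noncomputable def al (a X : ℂ) : ℂ := (a - 3 * X ^ 2) / 2

/-- entry of the Higgs field -/
noncomputable def be (a b X : ℂ) : ℂ := b + a * X - X ^ 3

/-- the local system for the Hitchin section -/
structure LSysAt (κ : ℂ → ℝ) (a b : ℂ → ℂ) (U : ℂ → ℝ) (X B q : ℂ → ℂ) (t : ℂ) : Prop where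
  dU : ContDiffAt ℝ 1 U t
  dX : ContDiffAt ℝ 1 X t
  dB : ContDiffAt ℝ 1 B t
  dq : ContDiffAt ℝ 1 q t
  eU : dz (fun w => (U w : ℂ)) t = q t
  eX : dzb X t = (Real.exp (U t) : ℂ) * B t
  eB : dz B t = (κ t : ℂ) * (3 * X t -
    3 * (starRingEnd ℂ) (X t) * al (a t) (X t) * (Real.exp (-U t) : ℂ) +
    (starRingEnd ℂ) (al (a t) (X t)) * be (a t) (b t) (X t) * (Real.exp (-2 * U t) : ℂ))
  eq : dzb q t = -((‖B t‖ ^ 2 * Real.exp (U t) + κ t * (‖al (a t) (X t)‖ ^ 2 * Real.exp (-U t) +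
    ‖be (a t) (b t) (X t)‖ ^ 2 * Real.exp (-2 * U t) - Real.exp (U t)) : ℝ) : ℂ)

/-- **HIT**: the local system implies Hitchin's equation. -/
def S_HIT : Prop := ∀ (θ : ℂ) (κ : ℂ → ℝ) (a b : ℂ → ℂ) (U : ℂ → ℝ) (X B q : ℂ → ℂ) (t : ℂ),
  (∀ᶠ w in 𝓝 t, LSysAt κ a b U X B q w) → κ t = ‖θ‖ ^ 2 → ContDiffAt ℝ 2 U t →
  ContDiffAt ℝ 2 X t → Hit (fun w => Hm (U w) (X w)) (θ • Phl (a t) (b t)) t

/-! ### The two examples -/

/-- the data for the Hitchin section, `a = l qa`, `b = l qb` -/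
noncomputable def dHT (r c : ℝ) : Dat where
  ρ := r ^ 2
  N := fun _ s => (1 + ‖s‖ ^ 2) ^ 10
  c := fun _ => 10
  P := fun l j s V X =>
    ‖al (l * qa r c j s) X‖ ^ 2 * (Real.exp (-V) * ((1 + ‖s‖ ^ 2) ^ 10)⁻¹) +
    ‖be (l * qa r c j s) (l * qb r c j s) X‖ ^ 2 * (Real.exp (-2 * V) * ((1 + ‖s‖ ^ 2) ^ 20)⁻¹)
  F := fun l j s V X => 3 * X - 3 * (starRingEnd ℂ) X * al (l * qa r c j s) X *
      ((Real.exp (-V) * ((1 + ‖s‖ ^ 2) ^ 10)⁻¹ : ℝ) : ℂ) +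
    (starRingEnd ℂ) (al (l * qa r c j s) X) * be (l * qa r c j s) (l * qb r c j s) X *
      ((Real.exp (-2 * V) * ((1 + ‖s‖ ^ 2) ^ 20)⁻¹ : ℝ) : ℂ)

/-- the upper right entry of the block -/
noncomputable def Qe (r c : ℝ) (j : Bool) (s : ℂ) : ℂ := blk r c j s 0 1

/-- the lower left entry of the block -/
noncomputable def Pe (r c : ℝ) (j : Bool) (s : ℂ) : ℂ := blk r c j s 1 0

/-- the data for the direct sum -/
noncomputable def dEB (r c : ℝ) : Dat where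
  ρ := r ^ 2
  N := fun j s => 2 * ‖Qe r c j s‖ ^ 2
  c := fun _ => 0
  P := fun l j s V _ => (1 - l) * (2 ^ 14 * r ^ 2)⁻¹ * (1 + ‖s‖ ^ 2) ^ 10 +
    l * (2 * ‖Pe r c j s‖ ^ 2 * Real.exp (-V))
  F := fun _ _ _ _ X => 3 * X

/-- **OKH**: the conditions for `dHT`.
Proof. For `l = 0`: `al = -3/2 X²`, `be = -X³`, so
`F = 3X + (9/2) conj X X² e^{-U} + (3/2) conj X² X³ e^{-2U}`. Relations: `qa_rel`, `qb_rel`.
For `Smo`: `All.hBT1` (exponentials: `(Real.exp x : ℂ) = Complex.exp x`; `‖z‖² = z conj z`; the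
factor `((1+|v|²)^10)⁻¹ ` as a function of `t` is `ContDiffOn ℝ ∞`, `All.hBT1` item 10). -/
def S_OKH : Prop := ∀ r c : ℝ, 0 < r → (dHT r c).OK ∧ (dHT r c).Rel ∧ (dHT r c).Smo

/-- **OKE**: the conditions for `dEB`; relations from `blk_rel`. -/
def S_OKE : Prop := ∀ r c : ℝ, 0 < r → 0 < c → (dEB r c).OK ∧ (dEB r c).Rel ∧ (dEB r c).Smo

/-- **BDU**: upper bounds for the Hitchin section.
Proof. Let `U = V + 10 log(1+|v|²)`, `a = l qa`, `b = l qb`, and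
`f_j(v) = 6|X|² + 2e^U + 2|al|²e^{-U} + |be|²e^{-2U}`, which is `nrm (Hm U X) (Phl a b)` (see
`nrm_eq` in `Calc.lean` with the factorisation `Hm = Bᴴ B`). Then
`u = log f - 10 log(1+|v|²)` satisfies the conditions of S_MXP (`qa_rel`, `qb_rel`). At the maximum,
in the chart, `0 ≥ UN2_L (u ∘ Vt)` (`UN2_max`). Here with `H t = Hm (U(Vt t)) (X(Vt t))` and
`Φ t = (r θ t) • Phl`, Hitchin's equation holds (S_HIT with `κ = r²‖θ‖²`, after S_CHR; with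
`q = Q + 10 conj(Vt) Vt'/(1+|Vt|²)`), and by `bochner` (`P = Φ`, `S = Phl`) and `henrici`
(`trace (Phl²) = 2a` and `det` are bounded on `DD`) `UN2_L (log f) ≥ δ' r²‖θ‖² f` if `f ≥ C0`, while
`UN2_L (10 log(1+|Vt|²)) = 40 |Vt'|²/(1+|Vt|²)² ≤ 40 |θ|²|Y|⁶ ≤ 200 |θ|²`. So `f(v0) ≤ C` at the
maximum, `u ≤ log C` everywhere, so `f ≤ C 2^10` on `DD`. -/
def S_BDU : Prop := ∀ inst : ChartedSpace ℂ (SX 4), SBasic 4 → @SGood 4 inst →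
  ∀ r c : ℝ, 0 < r → ∃ R : ℝ, ∀ l ∈ Icc (0 : ℝ) 1, ∀ V X, Plane (dHT r c) l V X →
    ∀ j, ∀ v ∈ DD, V j v ≤ R ∧ ‖X j v‖ ≤ R

/-- **BDL**: lower bound for the Hitchin section.
Proof. Let `ψ_j(v) = ε sx(v)^(1/2) / (1+|v|²)^4`, `ε = 1/128000`; apply S_MXP to `u = ψ - V`: at a
maximum `(j, v0)`, `UN2_L ((V - ψ) ∘ Vt) ≥ 0` in the chart. There `ψ = ε |Y|² χ`,
`χ = (1+|Vt|²)^(-4)`, and (`Y' = 4 v^15 θ`, `v' = θ Y³`)
`∂∂̄(|Y|²χ) ≥ |θ|² (|v|^30 - 32 |Y|⁴ - 24 |Y|⁸)` for `|v| ≤ 1`; with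
`UN2_L (V ∘ Vt) = 4 ∂̄Q ≤ 4 r²|θ|² e^U - 40 |v'|²/(1+|v|²)²`, `e^U = e^V (1+|v|²)^10`, one gets
`0 ≤ 4 r² |θ|² e^U - |θ|² (10 |Y|⁶ + 4ε (|v|^30 - 32|Y|⁴ - 24|Y|⁸)) ≤ |θ|² (4 r² e^U - 2ε)`:
(if `|Y|⁴ ≤ 1/100` then `|v|^30 ≥ 1 - 2/100` and the bracket is at least `1/2`; otherwise
`10|Y|⁶ ≥ 1/100` and the bracket is at least `-160`). Hence `e^{V(v0)} 2^10 ≥ ε/(2 r²)`, and
`V ≥ V(v0) - 2 ε ...` everywhere as `0 ≤ ψ ≤ 2ε`. -/
def S_BDL : Prop := ∀ inst : ChartedSpace ℂ (SX 4), SBasic 4 → @SGood 4 inst →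
  ∀ r c : ℝ, 0 < r → ∃ R : ℝ, ∀ l ∈ Icc (0 : ℝ) 1, ∀ V X, Plane (dHT r c) l V X →
    ∀ j, ∀ v ∈ DD, -R ≤ V j v

/-- **BDE**: bounds for the direct sum.
Proof. Let `η_j(v) = log(1+|v|²) - log(D_j(v))`, `D_false = 1/8 + |v-1|²`,
`D_true = |v|²/8 + |1-v|²`; `η_j(v) = η_{!j}(1/v)`, `|η| ≤ 5`,
`∂∂̄η_j = 1/(1+|v|²)² - (1/8)/D_j²`, which is `≥ 1/4` for `|v| ≤ 1/4` and `≥ -12` on `DD`. In the
charts, with `X = 0` (so `B = 0`), `UN2_L (V∘Vt) = 4 dzb Q =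
4 r²|θ|² (2|Qe|² e^V - 2 l |Pe|² e^{-V} - (1-l) c0 (1+|v|²)^10)`, `c0 = (2^14 r²)⁻¹`, and
`|v'|² = |θ|²|Y|⁶`, `|Y|⁴ = |v^16+1|`. Upper bound: S_MXP for `V + η`; if `V(v0) ≥ K` with `K` large
then at the maximum `0 ≥ UN2_L (V∘Vt) + 4 |v'|² ∂∂̄η`: for `|v0| ≤ 1/4`,
`4|v'|²∂∂̄η ≥ |θ|²/2`, `4 r² c0 2^10·(17/16)...`: precisely `4 r² c0 (1+1/16)^10 ≤ 1/1000`, and
`8 r² e^{-K}` is small (`|Pe| ≤ 1` on `DD`); for `|v0| ≥ 1/4`, `|Qe| ≥ q0 > 0` (as `c < r²/16` the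
zeros of `Qe` are in `|v| < 1/4`), so `8 r² q0² e^K` dominates. Contradiction, so `V(v0) ≤ K`,
`V ≤ K + 10`. Lower bound: S_MXP for `-(V - ε η)`, `ε = 1/2^22`: at the minimum of `V - εη`,
`0 ≤ UN2_L(V∘Vt) - 4ε|v'|²∂∂̄η`; if `V(v0) ≤ -K`: for `|v0| ≤ 1/4` the last term is
`≤ -ε|θ|²/2` and `8 r²|Qe|² e^{-K}` is small, contradiction; for `|v0| > 1/4`, `|Pe| ≥ 4^(-10)`:
either `l ≥ 1/2` and `-4 r² 4^(-20) e^K` dominates, or `l ≤ 1/2` and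
`-4 r² (1/2) c0 = -2^(-13)` dominates `4ε|v'|²·12 ≤ 200 ε`. -/
def S_BDE : Prop := ∀ inst : ChartedSpace ℂ (SX 4), SBasic 4 → @SGood 4 inst →
  ∀ r c : ℝ, 0 < r → 0 < c → 16 * c < r ^ 2 → ∃ R : ℝ, ∀ l ∈ Icc (0 : ℝ) 1, ∀ V X,
    Plane (dEB r c) l V X → (∀ j v, X j v = 0) → ∀ j, ∀ v ∈ DD, |V j v| ≤ R

/-- **EXH**: a solution in the plane gives a harmonic metric on the Hitchin section.
Proof. `h j x = (Gf a)ᴴ * Hm U X * Gf a` with `a = qa r c j v`, `v = VV 4 j x`,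
`U = V j v + 10 log (1+|v|²)`, `X = X j v`. Use `mk_hm`. Positivity and determinant: `All.hHMP`.
Gluing: `All.hHMP` (second item) with `t = -v^10`, `qa_rel`. At points with `|v| < 2`: smoothness
and Hitchin's equation from S_CHR, S_HIT and `Hit.conj` (`Gf a` is holomorphic). At points with
`|v| > 1` use the gluing with the other copy and `Hit.conj` (the transition functions are
holomorphic, `glue_φ`). -/
def S_EXH : Prop := ∀ (inst : ChartedSpace ℂ (SX 4)) (hB : SBasic 4) (hG : @SGood 4 inst)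
  (r c : ℝ), 0 < r → ∀ V X, Plane (dHT r c) 1 V X →
    ∃ h : Bool → SX 4 → M3, IsHarmonicMetric (HT hB hG r c) 1 h

/-- **EXE**: a solution in the plane gives a harmonic metric on the direct sum.
Proof. `h j x = diag (e^{V/2}, e^{-V/2}, 1)` with `V = V j (VV 4 j x)`, which does not depend on `j`
for points in both copies. Hitchin's equation at the points with `|v| < 2`: for diagonal matrices,
`H⁻¹∂H = diag (Q/2, -Q/2, 0)`, `∂̄` of it is `diag (w, -w, 0)` with `w = dzb Q / 2 =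
r²|θ|² (|Qe|² e^V - |Pe|² e^{-V})`, and `blk = [[p, Qe, 0], [Pe, p, 0], [0, 0, -2p]]`. -/
def S_EXE : Prop := ∀ (inst : ChartedSpace ℂ (SX 4)) (hB : SBasic 4) (hG : @SGood 4 inst)
  (r c : ℝ), 0 < r → ∀ V X, Plane (dEB r c) 1 V X → (∀ j v, X j v = 0) →
    ∃ h : Bool → SX 4 → M3, IsHarmonicMetric (EB hB hG r c) 1 h

end Pool.Agent.H794.EX
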