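import Pool.Agent.H794.EX.Spec

/-!
# Wirtinger calculus with bundled derivatives
-/

set_option autoImplicit false

open scoped Manifold ContDiff Matrix ComplexOrder
open Matrix Topology MeasureTheory Set Filter

namespace Pool.Agent.H794.EX

open Pool.Agent.Helper614.HE Pool.Agent.H794

/-- the real linear map `v ↦ a v + b conj v` -/
noncomputable def Wl (a b : ℂ) : ℂ →L[ℝ] ℂ :=
  a • (ContinuousLinearMap.id ℝ ℂ) + b • (Complex.conjCLE : ℂ →L[ℝ] ℂ)

theorem Wl_apply (a b v : ℂ) : Wl a b v = a * v + b * (starRingEnd ℂ) v := by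
  simp [Wl]

/-- `f` is differentiable at `z` with Wirtinger derivatives `a`, `b` -/
def HW (f : ℂ → ℂ) (z a b : ℂ) : Prop := HasFDerivAt f (Wl a b) z

theorem HW.dz {f : ℂ → ℂ} {z a b : ℂ} (h : HW f z a b) : dz f z = a := by
  rw [Pool.Agent.Helper614.HE.dz, HasFDerivAt.fderiv h, Wl_apply, Wl_apply]
  simp only [map_one, mul_one, Complex.conj_I]
  linear_combination (-(a - b) / 2) * Complex.I_mul_I

theorem HW.dzb {f : ℂ → ℂ} {z a b : ℂ} (h : HW f z a b) : dzb f z = b := by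
  rw [Pool.Agent.Helper614.HE.dzb, HasFDerivAt.fderiv h, Wl_apply, Wl_apply]
  simp only [map_one, mul_one, Complex.conj_I]
  linear_combination ((a - b) / 2) * Complex.I_mul_I

theorem HW.diff {f : ℂ → ℂ} {z a b : ℂ} (h : HW f z a b) : DifferentiableAt ℝ f z :=
  HasFDerivAt.differentiableAt h

theorem HW.of_diff {f : ℂ → ℂ} {z : ℂ} (h : DifferentiableAt ℝ f z) :
    HW f z (Pool.Agent.Helper614.HE.dz f z) (Pool.Agent.Helper614.HE.dzb f z) := by
  refine h.hasFDerivAt.congr_fderiv ?_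
  ext v
  have hv : v = (v.re : ℝ) • (1 : ℂ) + (v.im : ℝ) • Complex.I := by
    apply Complex.ext <;> simp
  have h1 : fderiv ℝ f z v = (v.re : ℂ) * fderiv ℝ f z 1 + (v.im : ℂ) * fderiv ℝ f z Complex.I := by
    conv_lhs => rw [hv]
    rw [map_add, map_smul, map_smul]
    simp
  rw [Wl_apply, h1, Pool.Agent.Helper614.HE.dz, Pool.Agent.Helper614.HE.dzb]
  have h2 : v = (v.re : ℂ) + (v.im : ℂ) * Complex.I := by
    apply Complex.ext <;> simp
  have h3 : (starRingEnd ℂ) v = (v.re : ℂ) - (v.im : ℂ) * Complex.I := by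
    apply Complex.ext <;> simp
  rw [h3]
  conv_rhs => rw [h2]
  simp only [Complex.add_re, Complex.ofReal_re, Complex.mul_re, Complex.I_re, mul_zero,
    Complex.ofReal_im, Complex.I_im, mul_one, sub_self, add_zero, Complex.add_im, Complex.mul_im,
    zero_add]
  linear_combination ((v.im : ℂ) * fderiv ℝ f z Complex.I) * Complex.I_mul_I

theorem HW.of {f : ℂ → ℂ} {z a b : ℂ} (h : DifferentiableAt ℝ f z)
    (ha : Pool.Agent.Helper614.HE.dz f z = a) (hb : Pool.Agent.Helper614.HE.dzb f z = b) :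
    HW f z a b := by
  rw [← ha, ← hb]
  exact HW.of_diff h

theorem HW.congr {f g : ℂ → ℂ} {z a b : ℂ} (h : HW f z a b) (e : g =ᶠ[𝓝 z] f) : HW g z a b :=
  HasFDerivAt.congr_of_eventuallyEq h e

theorem HW.const (c z : ℂ) : HW (fun _ => c) z 0 0 := by
  refine (hasFDerivAt_const c z).congr_fderiv ?_
  ext v
  simp [Wl_apply]

theorem HW.add {f g : ℂ → ℂ} {z a b a' b' : ℂ} (h : HW f z a b) (h' : HW g z a' b') :
    HW (fun w => f w + g w) z (a + a') (b + b') := by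
  refine (HasFDerivAt.fun_add h h').congr_fderiv ?_
  ext v
  simp only [_root_.add_apply, Wl_apply]
  ring

theorem HW.sub {f g : ℂ → ℂ} {z a b a' b' : ℂ} (h : HW f z a b) (h' : HW g z a' b') :
    HW (fun w => f w - g w) z (a - a') (b - b') := by
  refine (HasFDerivAt.fun_sub h h').congr_fderiv ?_
  ext v
  simp only [_root_.sub_apply, Wl_apply]
  ring

theorem HW.neg {f : ℂ → ℂ} {z a b : ℂ} (h : HW f z a b) : HW (fun w => -f w) z (-a) (-b) := by
  refine (HasFDerivAt.fun_neg h).congr_fderiv ?_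
  ext v
  simp only [_root_.neg_apply, Wl_apply]
  ring

theorem HW.mul {f g : ℂ → ℂ} {z a b a' b' : ℂ} (h : HW f z a b) (h' : HW g z a' b') :
    HW (fun w => f w * g w) z (f z * a' + g z * a) (f z * b' + g z * b) := by
  refine (HasFDerivAt.fun_mul h h').congr_fderiv ?_
  ext v
  simp only [_root_.add_apply, _root_.smul_apply, Wl_apply, smul_eq_mul]
  ring

theorem HW.conj {f : ℂ → ℂ} {z a b : ℂ} (h : HW f z a b) :
    HW (fun w => (starRingEnd ℂ) (f w)) z ((starRingEnd ℂ) b) ((starRingEnd ℂ) a) := by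
  have h1 : HasFDerivAt (fun w => (starRingEnd ℂ) (f w))
      ((Complex.conjCLE : ℂ →L[ℝ] ℂ).comp (Wl a b)) z :=
    (Complex.conjCLE : ℂ →L[ℝ] ℂ).hasFDerivAt.comp z h
  refine h1.congr_fderiv ?_
  ext v
  simp only [ContinuousLinearMap.comp_apply, Wl_apply]
  simp
  ring

theorem HW.holo {f : ℂ → ℂ} {z : ℂ} (h : DifferentiableAt ℂ f z) : HW f z (deriv f z) 0 := by
  have h1 : HasFDerivAt f ((ContinuousLinearMap.toSpanSingleton ℂ (deriv f z)).restrictScalars ℝ) z :=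
    h.hasDerivAt.hasFDerivAt.restrictScalars ℝ
  refine h1.congr_fderiv ?_
  ext v
  rw [Wl_apply]
  simp [mul_comm]

theorem HW.inv {f : ℂ → ℂ} {z a b : ℂ} (h : HW f z a b) (h0 : f z ≠ 0) :
    HW (fun w => (f w)⁻¹) z (-a / f z ^ 2) (-b / f z ^ 2) := by
  have h1 : HasFDerivAt (fun w : ℂ => w⁻¹)
      ((ContinuousLinearMap.toSpanSingleton ℂ (-(f z ^ 2)⁻¹)).restrictScalars ℝ) (f z) :=
    (hasDerivAt_inv h0).hasFDerivAt.restrictScalars ℝ
  have h2 := h1.comp z h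
  refine HasFDerivAt.congr_fderiv (f := fun w => (f w)⁻¹) h2 ?_
  ext v
  simp only [ContinuousLinearMap.comp_apply, Wl_apply]
  simp
  ring

/-- a holomorphic function of a function -/
theorem HW.comp_holo {g f : ℂ → ℂ} {z a b : ℂ} (hg : DifferentiableAt ℂ g (f z)) (h : HW f z a b) :
    HW (fun w => g (f w)) z (deriv g (f z) * a) (deriv g (f z) * b) := by
  have h1 : HasFDerivAt g
      ((ContinuousLinearMap.toSpanSingleton ℂ (deriv g (f z))).restrictScalars ℝ) (f z) :=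
    hg.hasDerivAt.hasFDerivAt.restrictScalars ℝ
  have h2 := h1.comp z h
  refine HasFDerivAt.congr_fderiv (f := fun w => g (f w)) h2 ?_
  ext v
  simp only [ContinuousLinearMap.comp_apply, Wl_apply]
  simp
  ring

/-- a function of a holomorphic function -/
theorem HW.comp {g f : ℂ → ℂ} {z a b : ℂ} (hg : HW g (f z) a b) (h : DifferentiableAt ℂ f z) :
    HW (fun w => g (f w)) z (a * deriv f z) (b * (starRingEnd ℂ) (deriv f z)) := by
  have h2 := HasFDerivAt.comp z hg (HW.holo h)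
  refine HasFDerivAt.congr_fderiv (f := fun w => g (f w)) h2 ?_
  ext v
  simp only [ContinuousLinearMap.comp_apply, Wl_apply]
  simp
  ring

theorem HW.real {g : ℂ → ℝ} {z : ℂ} (h : DifferentiableAt ℝ g z) :
    HW (fun w => (g w : ℂ)) z (Pool.Agent.Helper614.HE.dz (fun w => (g w : ℂ)) z)
      ((starRingEnd ℂ) (Pool.Agent.Helper614.HE.dz (fun w => (g w : ℂ)) z)) := by
  have h1 : DifferentiableAt ℝ (fun w => (g w : ℂ)) z :=
    (Complex.ofRealCLM.hasFDerivAt.comp z h.hasFDerivAt).differentiableAt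
  exact HW.of h1 rfl (P_REM.REM_dzb_real g z)

/-- a real function with given `∂` -/
theorem HW.of_real {g : ℂ → ℝ} {z a : ℂ} (h : DifferentiableAt ℝ g z)
    (ha : Pool.Agent.Helper614.HE.dz (fun w => (g w : ℂ)) z = a) :
    HW (fun w => (g w : ℂ)) z a ((starRingEnd ℂ) a) := by
  rw [← ha]
  exact HW.real h

/-- a differentiable real function from a complex one -/
theorem HW.re_diff {g : ℂ → ℝ} {z a b : ℂ} (h : HW (fun w => (g w : ℂ)) z a b) :
    DifferentiableAt ℝ g z := by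
  have h1 : HasFDerivAt (fun w => ((g w : ℂ)).re) (Complex.reCLM.comp (Wl a b)) z :=
    Complex.reCLM.hasFDerivAt.comp z h
  simpa using h1.differentiableAt

theorem HW.exp {g : ℂ → ℝ} {z a b : ℂ} (h : HW (fun w => (g w : ℂ)) z a b) :
    HW (fun w => (Real.exp (g w) : ℂ)) z ((Real.exp (g z) : ℂ) * a) ((Real.exp (g z) : ℂ) * b) := by
  have h1 := HW.comp_holo (g := Complex.exp) Complex.differentiableAt_exp h
  rw [Complex.deriv_exp] at h1
  rw [Complex.ofReal_exp]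
  refine h1.congr (Filter.Eventually.of_forall fun w => ?_)
  simp

theorem HW.log {g : ℂ → ℝ} {z a b : ℂ} (h : HW (fun w => (g w : ℂ)) z a b) (h0 : g z ≠ 0) :
    HW (fun w => (Real.log (g w) : ℂ)) z (a / (g z : ℂ)) (b / (g z : ℂ)) := by
  have hd := h.re_diff
  have h1 : HasFDerivAt (fun w => Real.log (g w)) ((g z)⁻¹ • fderiv ℝ g z) z :=
    hd.hasFDerivAt.log h0
  have h2 : HasFDerivAt (fun w => ((Real.log (g w) : ℝ) : ℂ))
      (Complex.ofRealCLM.comp ((g z)⁻¹ • fderiv ℝ g z)) z :=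
    Complex.ofRealCLM.hasFDerivAt.comp z h1
  have h3 : HasFDerivAt (fun w => (g w : ℂ)) (Complex.ofRealCLM.comp (fderiv ℝ g z)) z :=
    Complex.ofRealCLM.hasFDerivAt.comp z hd.hasFDerivAt
  have h4 : Complex.ofRealCLM.comp (fderiv ℝ g z) = Wl a b := h3.unique h
  refine h2.congr_fderiv ?_
  ext v
  have h5 : ((fderiv ℝ g z v : ℝ) : ℂ) = a * v + b * (starRingEnd ℂ) v := by
    have := congrArg (fun L : ℂ →L[ℝ] ℂ => L v) h4
    simpa [Wl_apply] using this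
  have h6 : (g z : ℂ) ≠ 0 := by exact_mod_cast h0
  rw [Wl_apply]
  simp only [ContinuousLinearMap.comp_apply, _root_.smul_apply, Complex.ofRealCLM_apply,
    smul_eq_mul, Complex.ofReal_mul, h5, Complex.ofReal_inv]
  field_simp

/-- `∂` and `∂̄` of `log (1 + |V|²)` for holomorphic `V` -/
theorem HW.log_one {V : ℂ → ℂ} {z : ℂ} (h : DifferentiableAt ℂ V z) :
    HW (fun w => (Real.log (1 + ‖V w‖ ^ 2) : ℂ)) z
      (((1 + ‖V z‖ ^ 2 : ℝ) : ℂ)⁻¹ * ((starRingEnd ℂ) (V z) * deriv V z))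
      (((1 + ‖V z‖ ^ 2 : ℝ) : ℂ)⁻¹ * (V z * (starRingEnd ℂ) (deriv V z))) := by
  have h1 := HW.holo h
  have h2 := (HW.const 1 z).add (h1.mul h1.conj)
  have h3 : HW (fun w => ((1 + ‖V w‖ ^ 2 : ℝ) : ℂ)) z _ _ := h2.congr
    (Filter.Eventually.of_forall fun w => by
      simp only [Complex.mul_conj']; push_cast; ring)
  have h4 := h3.log (by positivity)
  have e1 : ((0 : ℂ) + (V z * (starRingEnd ℂ) 0 + (starRingEnd ℂ) (V z) * deriv V z)) /
      ((1 + ‖V z‖ ^ 2 : ℝ) : ℂ) = ((1 + ‖V z‖ ^ 2 : ℝ) : ℂ)⁻¹ * ((starRingEnd ℂ) (V z) * deriv V z) := by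
    rw [map_zero]; ring
  have e2 : ((0 : ℂ) + (V z * (starRingEnd ℂ) (deriv V z) + (starRingEnd ℂ) (V z) * 0)) /
      ((1 + ‖V z‖ ^ 2 : ℝ) : ℂ) = ((1 + ‖V z‖ ^ 2 : ℝ) : ℂ)⁻¹ * (V z * (starRingEnd ℂ) (deriv V z)) := by
    ring
  rw [e1, e2] at h4
  exact h4

/-- `∂̄` of `conj V V' / (1 + |V|²)` is `|V'|² / (1 + |V|²)²` -/
theorem HW.log_two {V : ℂ → ℂ} {z : ℂ} (h : ∀ᶠ w in 𝓝 z, DifferentiableAt ℂ V w) :
    ∃ a : ℂ, HW (fun w => ((1 + ‖V w‖ ^ 2 : ℝ) : ℂ)⁻¹ * ((starRingEnd ℂ) (V w) * deriv V w)) z a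
      ((‖deriv V z‖ ^ 2 / (1 + ‖V z‖ ^ 2) ^ 2 : ℝ) : ℂ) := by
  have h0 := h.self_of_nhds
  have hd : DifferentiableAt ℂ (deriv V) z :=
    (Complex.analyticAt_iff_eventually_differentiableAt.2 h).deriv.differentiableAt
  have h1 := HW.holo h0
  have h2 := (HW.const 1 z).add (h1.mul h1.conj)
  have h3 : HW (fun w => ((1 + ‖V w‖ ^ 2 : ℝ) : ℂ)) z _ _ := h2.congr
    (Filter.Eventually.of_forall fun w => by
      simp only [Complex.mul_conj']; push_cast; ring)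
  have hp : ((1 + ‖V z‖ ^ 2 : ℝ) : ℂ) ≠ 0 := by
    have : (0 : ℝ) < 1 + ‖V z‖ ^ 2 := by positivity
    exact_mod_cast this.ne'
  have h4 := (h3.inv hp).mul (h1.conj.mul (HW.holo hd))
  have e1 : ((1 + ‖V z‖ ^ 2 : ℝ) : ℂ) = 1 + V z * (starRingEnd ℂ) (V z) := by
    rw [Complex.mul_conj']; push_cast; ring
  have e2 : ((‖deriv V z‖ ^ 2 : ℝ) : ℂ) = deriv V z * (starRingEnd ℂ) (deriv V z) := by
    rw [Complex.mul_conj']; push_cast; ring
  have e3 : ((‖deriv V z‖ ^ 2 / (1 + ‖V z‖ ^ 2) ^ 2 : ℝ) : ℂ) =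
      ((‖deriv V z‖ ^ 2 : ℝ) : ℂ) / ((1 + ‖V z‖ ^ 2 : ℝ) : ℂ) ^ 2 := by push_cast; ring
  have e4 : ((‖deriv V z‖ ^ 2 / (1 + ‖V z‖ ^ 2) ^ 2 : ℝ) : ℂ) =
      (((1 + ‖V z‖ ^ 2 : ℝ) : ℂ))⁻¹ * ((starRingEnd ℂ) (V z) * 0 +
        deriv V z * (starRingEnd ℂ) (deriv V z)) +
      (starRingEnd ℂ) (V z) * deriv V z *
        (-(0 + (V z * (starRingEnd ℂ) (deriv V z) + (starRingEnd ℂ) (V z) * 0)) /
          ((1 + ‖V z‖ ^ 2 : ℝ) : ℂ) ^ 2) := by
    rw [e3, e2]
    field_simp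
    rw [e1]
    ring
  rw [e4]
  exact ⟨_, h4⟩

end Pool.Agent.H794.EX
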